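import Pool.Agent.FS.Levels

/-!
# The configuration of finitely many elements
-/

set_option autoImplicit false

open Filter Topology

namespace Pool.Agent.FS

variable {X : Type} [TopologicalSpace X]

/-- Being in the same orbit. -/
def orbS (P : Subgroup (X ≃ₜ X)) : Setoid X where
  r x y := ∃ h ∈ P, h x = y
  iseqv :=
    { refl := fun x => ⟨1, P.one_mem, rfl⟩
      symm := by
        rintro x y ⟨h, hh, rfl⟩
        exact ⟨h⁻¹, P.inv_mem hh, h.symm_apply_apply x⟩
      trans := by
        rintro x y z ⟨h, hh, rfl⟩ ⟨k, hk, rfl⟩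
        exact ⟨k * h, P.mul_mem hk hh, rfl⟩ }

/-- A representative of the orbit. -/
noncomputable def rep (P : Subgroup (X ≃ₜ X)) (x : X) : X := (Quotient.mk (orbS P) x).out

theorem rep_spec (P : Subgroup (X ≃ₜ X)) (x : X) : ∃ h ∈ P, h (rep P x) = x :=
  Quotient.exact (s := orbS P) (Quotient.out_eq (Quotient.mk (orbS P) x))

theorem rep_eq {P : Subgroup (X ≃ₜ X)} {x y : X} (h : ∃ h ∈ P, h x = y) : rep P x = rep P y :=
  congrArg Quotient.out (Quotient.sound (s := orbS P) h)

theorem rep_rep (P : Subgroup (X ≃ₜ X)) (x : X) : rep P (rep P x) = rep P x :=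
  rep_eq (rep_spec P x)

variable (H G : Subgroup (X ≃ₜ X))

/-- The base point of the orbit of `x` under `G`. -/
noncomputable def bas (x : X) : X := rep H (rep G x)

variable {H G}

theorem bas_eq {x y : X} (h : ∃ g ∈ G, g x = y) : bas H G x = bas H G y :=
  congrArg (rep H) (rep_eq h)

theorem bas_spec (hHG : H ≤ G) (x : X) : ∃ g ∈ G, g (bas H G x) = x := by
  obtain ⟨h, hh, h1⟩ := rep_spec H (rep G x)
  obtain ⟨g, hg, h2⟩ := rep_spec G x
  exact ⟨g * h, G.mul_mem hg (hHG hh), by
    change g (h (rep H (rep G x))) = x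
    rw [h1, h2]⟩

theorem bas_bas (hHG : H ≤ G) (x : X) : bas H G (bas H G x) = bas H G x :=
  bas_eq (bas_spec hHG x)

theorem rep_bas (x : X) : rep H (bas H G x) = bas H G x := rep_rep H _

theorem bas_rep (hHG : H ≤ G) (x : X) : bas H G (rep H x) = bas H G x := by
  obtain ⟨h, hh, h1⟩ := rep_spec H x
  exact bas_eq ⟨h, hHG hh, h1⟩

open Classical in
/-- An element of `G` which moves the base point to `p`. -/
noncomputable def The (H G : Subgroup (X ≃ₜ X)) (p : X) : X ≃ₜ X :=
  if bas H G p = p then 1 else if h : ∃ g ∈ G, g (bas H G p) = p then h.choose else 1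

theorem The_mem (p : X) : The H G p ∈ G := by
  unfold The
  split_ifs with h1 h2
  · exact G.one_mem
  · exact h2.choose_spec.1
  · exact G.one_mem

theorem The_apply (hHG : H ≤ G) (p : X) : The H G p (bas H G p) = p := by
  unfold The
  have h := bas_spec hHG p
  split_ifs with h1
  · exact h1
  · exact h.choose_spec.2

theorem The_base {p : X} (h : bas H G p = p) : The H G p = 1 := if_pos h

/-- An element of `H` which moves the representative to `y`. -/
noncomputable def hh (H : Subgroup (X ≃ₜ X)) (y : X) : X ≃ₜ X := (rep_spec H y).choose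

theorem hh_mem (y : X) : hh H y ∈ H := (rep_spec H y).choose_spec.1

theorem hh_apply (y : X) : hh H y (rep H y) = y := (rep_spec H y).choose_spec.2

/-- An element of `G` which moves the base point to `y`. -/
noncomputable def Mv (H G : Subgroup (X ≃ₜ X)) (y : X) : X ≃ₜ X := hh H y * The H G (rep H y)

theorem Mv_mem (hHG : H ≤ G) (y : X) : Mv H G y ∈ G := G.mul_mem (hHG (hh_mem y)) (The_mem _)

theorem Mv_apply (hHG : H ≤ G) (y : X) : Mv H G y (bas H G y) = y := by
  change hh H y (The H G (rep H y) (bas H G y)) = y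
  rw [← bas_rep hHG, The_apply hHG, hh_apply]

theorem full_orbit {k : Equiv.Perm X} (hk : k ∈ Full H) (x : X) : ∃ h ∈ H, h x = k x := by
  obtain ⟨h, hh, h1⟩ := hk x
  exact ⟨h, hh, h1.self_of_nhds.symm⟩

open Classical in
/-- The configuration of the elements of `T`, whose singular points and their images lie
in `Y`. -/
noncomputable def cfg (hHG : H ≤ G) (T : Finset (X ≃ₜ X)) (hT : ∀ s ∈ T, s ∈ G)
    (Y : Finset X) : Config H G where
  J := {b : X // bas H G b = b ∧ Sg H G b}
  A c := {a : X // a ∈ Y.image (rep H) ∧ a ≠ c.1 ∧ bas H G a = c.1}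
  fin c := Finite.of_injective
    (β := (Y.image (rep H) : Finset X)) (fun a => ⟨a.1, a.2.1⟩) fun a b h =>
      Subtype.ext (congrArg (fun z : (Y.image (rep H) : Finset X) => z.1) h)
  x c := c.1
  E c := ((T ×ˢ Y).filter fun p => bas H G p.2 = c.1).image fun p =>
    (Mv H G (p.1 p.2))⁻¹ * p.1 * Mv H G p.2
  θ c a := The H G a.1
  E_mem c e he := by
    obtain ⟨p, hp, rfl⟩ := Finset.mem_image.1 he
    obtain ⟨hp, -⟩ := Finset.mem_filter.1 hp
    exact G.mul_mem (G.mul_mem (G.inv_mem (Mv_mem hHG _)) (hT _ (Finset.mem_product.1 hp).1))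
      (Mv_mem hHG _)
  E_x c e he := by
    obtain ⟨p, hp, rfl⟩ := Finset.mem_image.1 he
    obtain ⟨hp, h1⟩ := Finset.mem_filter.1 hp
    change (Mv H G (p.1 p.2)).symm (p.1 (Mv H G p.2 c.1)) = c.1
    rw [← h1, Mv_apply hHG]
    have h2 : bas H G p.2 = bas H G (p.1 p.2) :=
      bas_eq ⟨p.1, hT _ (Finset.mem_product.1 hp).1, rfl⟩
    rw [Homeomorph.symm_apply_eq, h2, Mv_apply hHG]
  θ_mem c a := The_mem _
  sing c := c.2.2
  orb := by
    intro k hk c c' o o' h
    have e : ∀ (c : {b : X // bas H G b = b ∧ Sg H G b})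
        (o : Option {a : X // a ∈ Y.image (rep H) ∧ a ≠ c.1 ∧ bas H G a = c.1}),
        opt (fun a : {a : X // a ∈ Y.image (rep H) ∧ a ≠ c.1 ∧ bas H G a = c.1} =>
          The H G a.1) o c.1 = o.elim c.1 (fun a => a.1) := by
      intro c o
      cases o with
      | none => rfl
      | some a =>
        exact (congrArg (The H G a.1) a.2.2.2.symm).trans (The_apply hHG a.1)
    have r : ∀ (c : {b : X // bas H G b = b ∧ Sg H G b})
        (o : Option {a : X // a ∈ Y.image (rep H) ∧ a ≠ c.1 ∧ bas H G a = c.1}),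
        rep H (o.elim c.1 (fun a => a.1)) = o.elim c.1 (fun a => a.1) ∧
        bas H G (o.elim c.1 (fun a => a.1)) = c.1 := by
      intro c o
      cases o with
      | none =>
        change rep H c.1 = c.1 ∧ bas H G c.1 = c.1
        refine ⟨?_, c.2.1⟩
        conv_lhs => rw [← c.2.1]
        rw [rep_bas, c.2.1]
      | some a =>
        change rep H a.1 = a.1 ∧ bas H G a.1 = c.1
        refine ⟨?_, a.2.2.2⟩
        obtain ⟨y, -, hy⟩ := Finset.mem_image.1 a.2.1
        rw [← hy, rep_rep]
    rw [e, e] at h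
    have h1 := rep_eq (full_orbit hk (o.elim c.1 (fun a => a.1)))
    rw [h, (r c o).1, (r c' o').1] at h1
    have h2 : c = c' := Subtype.ext (by rw [← (r c o).2, h1, (r c' o').2])
    subst h2
    congr 1
    cases o with
    | none =>
      cases o' with
      | none => rfl
      | some b => exact (b.2.2.1 h1.symm).elim
    | some a =>
      cases o' with
      | none => exact (a.2.2.1 h1).elim
      | some b => exact congrArg some (Subtype.ext h1)

theorem Sg_bas (hHG : H ≤ G) {y : X} (hy : Sg H G y) : Sg H G (bas H G y) := by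
  obtain ⟨g, hg, h⟩ := bas_spec hHG y
  have h1 := Sg_apply hy (G.inv_mem hg)
  have h2 : (g⁻¹ : X ≃ₜ X) y = bas H G y := by
    conv_lhs => rw [← h]
    exact g.symm_apply_apply _
  rwa [h2] at h1

/-- The elements which move base points to points of `Y`. -/
theorem exists_object (hHG : H ≤ G) (T : Finset (X ≃ₜ X)) (hT : ∀ s ∈ T, s ∈ G)
    (Y : Finset X) (c : (cfg hHG T hT Y).J) {y : X} (hy : y ∈ Y)
    (hc : bas H G y = (cfg hHG T hT Y).x c) :
    ∃ o : Option ((cfg hHG T hT Y).A c), ∃ h ∈ H,
      Mv H G y = h * opt ((cfg hHG T hT Y).θ c) o := by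
  classical
  by_cases h : rep H y = (cfg hHG T hT Y).x c
  · refine ⟨none, hh H y, hh_mem y, ?_⟩
    unfold Mv
    rw [The_base (by rw [bas_rep hHG, h, hc])]
    rfl
  · exact ⟨some ⟨rep H y, Finset.mem_image_of_mem _ hy, h, (bas_rep hHG y).trans hc⟩,
      hh H y, hh_mem y, rfl⟩

end Pool.Agent.FS
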