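import Pool.Agent.FS.FG

/-!
# Levels, the groups `F i` and the transition maps
-/

set_option autoImplicit false

namespace Pool.Agent.FS

open Monoid

theorem app_inv {X : Type} (f : Equiv.Perm X) (z : X) : f (f⁻¹ z) = z := f.apply_symm_apply z

theorem inv_app {X : Type} (f : Equiv.Perm X) (z : X) : f⁻¹ (f z) = z := f.symm_apply_apply z

/-- The extension of a function by `1` to the base object `none`. -/
def opt {A G : Type} [One G] (u : A → G) : Option A → G := fun o => o.elim 1 u

@[simp] theorem opt_none {A G : Type} [One G] (u : A → G) : opt u none = 1 := rfl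
@[simp] theorem opt_some {A G : Type} [One G] (u : A → G) (a : A) : opt u (some a) = u a := rfl

/-- A directed system of neighbourhoods `V i c` of base points, with groups `Γ i c` and
homeomorphisms `u i c a` of these neighbourhoods. -/
structure Data (X : Type) (H : Subgroup (Equiv.Perm X)) where
  /-- levels -/
  I : Type
  [pre : Preorder I]
  [dir : IsDirectedOrder I]
  [ne : Nonempty I]
  /-- classes of objects -/
  J : Type
  /-- the objects of a class which are not the base object -/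
  A : J → Type
  /-- the neighbourhoods of the base points -/
  V : I → J → Set X
  /-- the groups acting on them -/
  Γ : I → J → Subgroup (Equiv.Perm X)
  /-- the maps given by the objects -/
  u : I → (c : J) → A c → Equiv.Perm X
  /-- the identification of the neighbourhood of the object with the one of the base object -/
  κ : I → (c : J) → A c → H
  /-- the restriction maps -/
  res : ∀ i j, i ≤ j → ∀ c, Γ i c →* Γ j c
  V_anti : ∀ i j, i ≤ j → ∀ c, V j c ⊆ V i c
  V_ne : ∀ i c, (V i c).Nonempty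
  Γ_supp : ∀ i c, ∀ γ ∈ Γ i c, ∀ z, z ∉ V i c → γ z = z
  u_supp : ∀ i c a z, z ∉ V i c → u i c a z = z
  res_eq : ∀ i j (hij : i ≤ j) c (γ : Γ i c), ∀ z ∈ V j c,
    (res i j hij c γ : Equiv.Perm X) z = (γ : Equiv.Perm X) z
  res_mem : ∀ i j (hij : i ≤ j) c (γ : Γ i c),
    (γ : Equiv.Perm X) * (res i j hij c γ : Equiv.Perm X)⁻¹ ∈ H
  u_mem : ∀ i j, i ≤ j → ∀ c a, u i c a * (u j c a)⁻¹ ∈ H
  u_eq : ∀ i j, i ≤ j → ∀ c a, ∀ z ∈ V j c,
    u i c a ((u j c a)⁻¹ z) = (κ i c a : Equiv.Perm X) ((κ j c a : Equiv.Perm X)⁻¹ z)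
  dich : ∀ (k : H) (c c' : J) (o : Option (A c)) (o' : Option (A c')), ∃ i₀, ∀ i, i₀ ≤ i →
    ((⟨c, o⟩ : Σ c, Option (A c)) = ⟨c', o'⟩ ∧
      ∀ z, ((opt (κ i c) o : H) : Equiv.Perm X) z ∈ V i c → (k : Equiv.Perm X) z = z) ∨
    ∀ z, ((opt (κ i c) o : H) : Equiv.Perm X) z ∈ V i c →
      ((opt (κ i c') o' : H) : Equiv.Perm X) ((k : Equiv.Perm X) z) ∉ V i c'
  sep : ∀ i c (o o' : Option (A c)) (γ : Γ i c) (k : H),
    (∀ z ∈ V i c, (opt (u i c) o * γ * (opt (u i c) o')⁻¹) z = (k : Equiv.Perm X) z) →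
    o = o' ∧ ∃ j, ∃ hij : i ≤ j, res i j hij c γ = 1

attribute [instance] Data.pre Data.dir Data.ne

namespace Data

variable {X : Type} {H : Subgroup (Equiv.Perm X)} (S : Data X H)

/-- The group attached to a track. -/
abbrev K (i : S.I) (c : S.J) : Type := Coprod (S.Γ i c) (FreeGroup (S.A c))

/-- The pointwise stabiliser of `V i c` in `H`. -/
def P (i : S.I) (c : S.J) : Subgroup H where
  carrier := {k | ∀ z ∈ S.V i c, (k : Equiv.Perm X) z = z}
  one_mem' := fun z _ => rfl
  mul_mem' := fun {a b} ha hb z hz => by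
    change (a : Equiv.Perm X) ((b : Equiv.Perm X) z) = z
    rw [hb z hz, ha z hz]
  inv_mem' := fun {a} ha z hz => by
    change (a : Equiv.Perm X)⁻¹ z = z
    rw [Equiv.Perm.inv_eq_iff_eq]
    exact (ha z hz).symm

theorem mem_P {i : S.I} {c : S.J} {k : H} :
    k ∈ S.P i c ↔ ∀ z ∈ S.V i c, (k : Equiv.Perm X) z = z := Iff.rfl

/-- The elements `k` for which `V i c` and `k V i c'` are disjoint. -/
def D (i : S.I) (c c' : S.J) : Set H := {k | ∀ z ∈ S.V i c', (k : Equiv.Perm X) z ∉ S.V i c}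

theorem mem_D {i : S.I} {c c' : S.J} {k : H} :
    k ∈ S.D i c c' ↔ ∀ z ∈ S.V i c', (k : Equiv.Perm X) z ∉ S.V i c := Iff.rfl

/-- The group of level `i`. -/
abbrev F (i : S.I) : Type := FG H (S.K i) (S.P i) (S.D i)

/-- The elements of `H` supported in `V i c`. -/
def Sp (i : S.I) (c : S.J) : Subgroup H where
  carrier := {k | ∀ z, z ∉ S.V i c → (k : Equiv.Perm X) z = z}
  one_mem' := fun z _ => rfl
  mul_mem' := fun {a b} ha hb z hz => by
    change (a : Equiv.Perm X) ((b : Equiv.Perm X) z) = z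
    rw [hb z hz, ha z hz]
  inv_mem' := fun {a} ha z hz => by
    change (a : Equiv.Perm X)⁻¹ z = z
    rw [Equiv.Perm.inv_eq_iff_eq]
    exact (ha z hz).symm

variable {S}

theorem mem_Sp {i : S.I} {c : S.J} {k : H} :
    k ∈ S.Sp i c ↔ ∀ z, z ∉ S.V i c → (k : Equiv.Perm X) z = z := Iff.rfl

/-- Permutations supported in a set preserve the set. -/
theorem supp_mem {V : Set X} {f : Equiv.Perm X} (hf : ∀ z, z ∉ V → f z = z) {z : X}
    (hz : z ∈ V) : f z ∈ V := by
  by_contra h
  have h1 := f.injective (hf _ h)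
  rw [h1] at h
  exact h hz

theorem supp_inv {V : Set X} {f : Equiv.Perm X} (hf : ∀ z, z ∉ V → f z = z) :
    ∀ z, z ∉ V → f⁻¹ z = z := fun z hz => by
  rw [Equiv.Perm.inv_eq_iff_eq]
  exact (hf z hz).symm

/-- A permutation supported in `V` commutes with one which is the identity on `V`. -/
theorem supp_comm {V : Set X} {f g : Equiv.Perm X} (hf : ∀ z, z ∉ V → f z = z)
    (hg : ∀ z ∈ V, g z = z) : f * g = g * f := by
  ext z
  change f (g z) = g (f z)
  by_cases hz : z ∈ V
  · rw [hg z hz, hg _ (supp_mem hf hz)]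
  · have h1 : g z ∉ V := fun h => by
      have := g.injective (hg _ h)
      rw [this] at h
      exact hz h
    rw [hf z hz, hf _ h1]

theorem Sp_comm_P {i : S.I} {c : S.J} {a b : H} (ha : a ∈ S.Sp i c) (hb : b ∈ S.P i c) :
    a * b = b * a :=
  Subtype.ext (supp_comm (V := S.V i c) ha hb)

theorem P_mono {i j : S.I} (hij : i ≤ j) (c : S.J) : S.P i c ≤ S.P j c :=
  fun _ hk z hz => hk z (S.V_anti i j hij c hz)

theorem D_mono {i j : S.I} (hij : i ≤ j) (c c' : S.J) : S.D i c c' ⊆ S.D j c c' :=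
  fun _ hk z hz hz' => hk z (S.V_anti i j hij c' hz) (S.V_anti i j hij c hz')

theorem D_inv {i : S.I} {c c' : S.J} {k : H} (hk : k ∈ S.D i c c') : k⁻¹ ∈ S.D i c' c :=
  fun z hz hz' => by
    refine hk _ hz' ?_
    change (k : Equiv.Perm X) ((k : Equiv.Perm X)⁻¹ z) ∈ _
    rw [app_inv]
    exact hz

theorem D_mul {i : S.I} {c c' : S.J} {k p q : H} (hp : p ∈ S.P i c) (hk : k ∈ S.D i c c')
    (hq : q ∈ S.P i c') : p * k * q ∈ S.D i c c' := fun z hz hz' => by
  change (p : Equiv.Perm X) ((k : Equiv.Perm X) ((q : Equiv.Perm X) z)) ∈ _ at hz'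
  rw [hq z hz] at hz'
  have h1 := hp _ hz'
  have h2 := (p : Equiv.Perm X).injective h1
  rw [h2] at hz'
  exact hk z hz hz'

theorem one_notMem_D {i : S.I} {c : S.J} : (1 : H) ∉ S.D i c c := fun h => by
  obtain ⟨z, hz⟩ := S.V_ne i c
  exact h z hz hz

/-- `λ i j γ = γ (res γ)⁻¹` as an element of `H`. -/
def lam {i j : S.I} (hij : i ≤ j) (c : S.J) (γ : S.Γ i c) : H :=
  ⟨(γ : Equiv.Perm X) * (S.res i j hij c γ : Equiv.Perm X)⁻¹, S.res_mem i j hij c γ⟩

/-- `h i j a = u i a (u j a)⁻¹` as an element of `H`. -/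
def eta {i j : S.I} (hij : i ≤ j) (c : S.J) (a : S.A c) : H :=
  ⟨S.u i c a * (S.u j c a)⁻¹, S.u_mem i j hij c a⟩

theorem res_supp {i j : S.I} (hij : i ≤ j) (c : S.J) (γ : S.Γ i c) :
    ∀ z, z ∉ S.V j c → (S.res i j hij c γ : Equiv.Perm X) z = z :=
  S.Γ_supp j c _ (S.res i j hij c γ).2

theorem lam_mem_Sp {i j : S.I} (hij : i ≤ j) (c : S.J) (γ : S.Γ i c) :
    lam hij c γ ∈ S.Sp i c := fun z hz => by
  change (γ : Equiv.Perm X) ((S.res i j hij c γ : Equiv.Perm X)⁻¹ z) = z
  rw [supp_inv (res_supp hij c γ) z fun h => hz (S.V_anti i j hij c h),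
    S.Γ_supp i c _ γ.2 z hz]

theorem lam_mem_P {i j : S.I} (hij : i ≤ j) (c : S.J) (γ : S.Γ i c) :
    lam hij c γ ∈ S.P j c := fun z hz => by
  change (γ : Equiv.Perm X) ((S.res i j hij c γ : Equiv.Perm X)⁻¹ z) = z
  have h1 : (S.res i j hij c γ : Equiv.Perm X)⁻¹ z ∈ S.V j c :=
    supp_mem (supp_inv (res_supp hij c γ)) hz
  rw [← S.res_eq i j hij c γ _ h1, app_inv]

theorem eta_mem_Sp {i j : S.I} (hij : i ≤ j) (c : S.J) (a : S.A c) :
    eta hij c a ∈ S.Sp i c := fun z hz => by
  change S.u i c a ((S.u j c a)⁻¹ z) = z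
  rw [supp_inv (S.u_supp j c a) z fun h => hz (S.V_anti i j hij c h), S.u_supp i c a z hz]

theorem lam_mul {i j : S.I} (hij : i ≤ j) (c : S.J) (γ δ : S.Γ i c) :
    lam hij c (γ * δ) = lam hij c γ * lam hij c δ := by
  apply Subtype.ext
  change ((γ : Equiv.Perm X) * δ) * ((S.res i j hij c (γ * δ) : S.Γ j c) : Equiv.Perm X)⁻¹ =
    (γ : Equiv.Perm X) * (S.res i j hij c γ : Equiv.Perm X)⁻¹ *
      ((δ : Equiv.Perm X) * (S.res i j hij c δ : Equiv.Perm X)⁻¹)
  have h1 := supp_comm (supp_inv (res_supp hij c γ)) (lam_mem_P hij c δ)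
  change (S.res i j hij c γ : Equiv.Perm X)⁻¹ *
      ((δ : Equiv.Perm X) * (S.res i j hij c δ : Equiv.Perm X)⁻¹) =
    (δ : Equiv.Perm X) * (S.res i j hij c δ : Equiv.Perm X)⁻¹ *
      (S.res i j hij c γ : Equiv.Perm X)⁻¹ at h1
  rw [mul_assoc (γ : Equiv.Perm X) (_)⁻¹, h1, map_mul, Subgroup.coe_mul, mul_inv_rev]
  simp only [mul_assoc]

theorem lam_one {i j : S.I} (hij : i ≤ j) (c : S.J) : lam hij c (1 : S.Γ i c) = 1 := by
  apply Subtype.ext
  change ((1 : S.Γ i c) : Equiv.Perm X) * ((S.res i j hij c 1 : S.Γ j c) : Equiv.Perm X)⁻¹ = 1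
  rw [map_one]
  simp

/-- The part of the transition map on `K i c`. -/
def trK {i j : S.I} (hij : i ≤ j) (c : S.J) : S.K i c →* S.F j :=
  Coprod.lift
    { toFun := fun γ => FG.h (lam hij c γ) * FG.k c (Coprod.inl (S.res i j hij c γ))
      map_one' := by rw [lam_one, map_one, map_one, map_one, map_one, one_mul]
      map_mul' := fun γ δ => by
        rw [lam_mul, map_mul, map_mul, map_mul, map_mul]
        have h1 := FG.comm_P (H := H) (K := S.K j) (P := S.P j) (D := S.D j)
          (lam_mem_P hij c δ) (Coprod.inl (S.res i j hij c γ))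
        simp only [mul_assoc]
        congr 1
        rw [← mul_assoc, h1, mul_assoc] }
    (FreeGroup.lift fun a => FG.h (eta hij c a) * FG.k c (Coprod.inr (FreeGroup.of a)))

@[simp] theorem trK_inl {i j : S.I} (hij : i ≤ j) (c : S.J) (γ : S.Γ i c) :
    trK hij c (Coprod.inl γ) =
      FG.h (lam hij c γ) * FG.k c (Coprod.inl (S.res i j hij c γ)) := by
  rw [trK, Coprod.lift_apply_inl]
  rfl

@[simp] theorem trK_of {i j : S.I} (hij : i ≤ j) (c : S.J) (a : S.A c) :
    trK hij c (Coprod.inr (FreeGroup.of a)) =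
      FG.h (eta hij c a) * FG.k c (Coprod.inr (FreeGroup.of a)) := by
  rw [trK, Coprod.lift_apply_inr, FreeGroup.lift_apply_of]

/-- The image of `trK` lies in the subgroup generated by `Sp i c` and `K j c`. -/
theorem trK_induction {i j : S.I} (hij : i ≤ j) (c : S.J) {p : S.F j → Prop} (h1 : p 1)
    (hm : ∀ x y, p x → p y → p (x * y)) (hinv : ∀ x, p x → p x⁻¹)
    (hh : ∀ a ∈ S.Sp i c, p (FG.h a)) (hk : ∀ y : S.K j c, p (FG.k c y)) (x : S.K i c) :
    p (trK hij c x) := by
  let T : Subgroup (S.F j) :=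
    { carrier := {w | p w}
      one_mem' := h1
      mul_mem' := fun {a b} ha hb => hm a b ha hb
      inv_mem' := fun {a} ha => hinv a ha }
  change trK hij c x ∈ T
  induction x using Coprod.induction_on with
  | inl γ =>
    rw [trK_inl]
    exact T.mul_mem (hh _ (lam_mem_Sp hij c γ)) (hk _)
  | inr y =>
    induction y using FreeGroup.induction_on with
    | C1 => rw [map_one, map_one]; exact T.one_mem
    | of a =>
      rw [trK_of]
      exact T.mul_mem (hh _ (eta_mem_Sp hij c a)) (hk _)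
    | inv_of a ha => rw [map_inv, map_inv]; exact T.inv_mem ha
    | mul a b ha hb => rw [map_mul, map_mul]; exact T.mul_mem ha hb
  | mul a b ha hb => rw [map_mul]; exact T.mul_mem ha hb

/-- Commuting with a fixed element. -/
theorem trK_comm {i j : S.I} (hij : i ≤ j) (c : S.J) (w : S.F j)
    (hh : ∀ a ∈ S.Sp i c, FG.h a * w = w * FG.h a)
    (hk : ∀ y : S.K j c, FG.k c y * w = w * FG.k c y) (x : S.K i c) :
    trK hij c x * w = w * trK hij c x := by
  refine trK_induction (p := fun v => v * w = w * v) hij c ?_ ?_ ?_ hh hk x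
  · rw [one_mul, mul_one]
  · intro a b ha hb
    rw [mul_assoc, hb, ← mul_assoc, ha, mul_assoc]
  · intro a ha
    rw [inv_mul_eq_iff_eq_mul, ← mul_assoc, ha, mul_assoc, mul_inv_cancel, mul_one]

/-- The transition maps. -/
def tr {i j : S.I} (hij : i ≤ j) : S.F i →* S.F j :=
  FG.lift FG.h (fun c => trK hij c)
    (fun c p hp x => by
      symm
      refine trK_comm hij c (FG.h p) (fun a ha => ?_) (fun y => ?_) x
      · rw [← map_mul, Sp_comm_P ha hp, map_mul]
      · exact (FG.comm_P (P_mono hij c hp) y).symm)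
    (fun c c' p hp x y => by
      refine trK_comm hij c _ (fun a ha => ?_) (fun z => ?_) x
      · have hb : p⁻¹ * a * p ∈ S.P i c' := fun z hz => by
          change (p : Equiv.Perm X)⁻¹ ((a : Equiv.Perm X) ((p : Equiv.Perm X) z)) = z
          rw [ha _ (hp z hz), inv_app]
        have h1 : trK hij c' y * FG.h (p⁻¹ * a * p) = FG.h (p⁻¹ * a * p) * trK hij c' y := by
          refine trK_comm hij c' _ (fun b hb' => ?_) (fun z => ?_) y
          · rw [← map_mul, Sp_comm_P hb' hb, map_mul]
          · exact (FG.comm_P (P_mono hij c' hb) z).symm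
        have h2 : (FG.h a : S.F j) = FG.h p * FG.h (p⁻¹ * a * p) * (FG.h p)⁻¹ := by
          rw [← map_mul, ← map_inv, ← map_mul]
          congr 1
          group
        rw [h2]
        calc FG.h p * FG.h (p⁻¹ * a * p) * (FG.h p)⁻¹ * (FG.h p * trK hij c' y * (FG.h p)⁻¹)
            = FG.h p * (FG.h (p⁻¹ * a * p) * trK hij c' y) * (FG.h p)⁻¹ := by group
          _ = FG.h p * (trK hij c' y * FG.h (p⁻¹ * a * p)) * (FG.h p)⁻¹ := by rw [h1]
          _ = _ := by group
      · have h1 : trK hij c' y * ((FG.h p)⁻¹ * FG.k c z * FG.h p) =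
            (FG.h p)⁻¹ * FG.k c z * FG.h p * trK hij c' y := by
          refine trK_comm hij c' _ (fun b hb => ?_) (fun y' => ?_) y
          · have hb' : p * b * p⁻¹ ∈ S.P i c := fun z hz => by
              change (p : Equiv.Perm X) ((b : Equiv.Perm X) ((p : Equiv.Perm X)⁻¹ z)) = z
              have h3 : (p : Equiv.Perm X)⁻¹ z ∉ S.V i c' := fun h => by
                have := hp _ h
                rw [app_inv] at this
                exact this hz
              rw [hb _ h3, app_inv]
            have h4 := FG.comm_P (H := H) (K := S.K j) (P := S.P j) (D := S.D j)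
              (P_mono hij c hb') z
            have h5 : (FG.h b : S.F j) = (FG.h p)⁻¹ * FG.h (p * b * p⁻¹) * FG.h p := by
              rw [← map_inv, ← map_mul, ← map_mul]
              congr 1
              group
            rw [h5]
            calc (FG.h p)⁻¹ * FG.h (p * b * p⁻¹) * FG.h p * ((FG.h p)⁻¹ * FG.k c z * FG.h p)
                = (FG.h p)⁻¹ * (FG.h (p * b * p⁻¹) * FG.k c z) * FG.h p := by group
              _ = (FG.h p)⁻¹ * (FG.k c z * FG.h (p * b * p⁻¹)) * FG.h p := by rw [h4]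
              _ = _ := by group
          · have h4 := FG.comm_D (H := H) (K := S.K j) (P := S.P j) (D := S.D j)
              (D_mono hij c c' hp) z y'
            calc FG.k c' y' * ((FG.h p)⁻¹ * FG.k c z * FG.h p)
                = (FG.h p)⁻¹ * ((FG.h p * FG.k c' y' * (FG.h p)⁻¹) * FG.k c z) * FG.h p := by
                  group
              _ = (FG.h p)⁻¹ * (FG.k c z * (FG.h p * FG.k c' y' * (FG.h p)⁻¹)) * FG.h p := by
                  rw [h4]
              _ = _ := by group
        calc FG.k c z * (FG.h p * trK hij c' y * (FG.h p)⁻¹)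
            = FG.h p * (((FG.h p)⁻¹ * FG.k c z * FG.h p) * trK hij c' y) * (FG.h p)⁻¹ := by
              group
          _ = FG.h p * (trK hij c' y * ((FG.h p)⁻¹ * FG.k c z * FG.h p)) * (FG.h p)⁻¹ := by
              rw [h1]
          _ = _ := by group)

@[simp] theorem tr_h {i j : S.I} (hij : i ≤ j) (a : H) : tr hij (FG.h a) = FG.h a :=
  FG.lift_h _ _ _ _ _

@[simp] theorem tr_k {i j : S.I} (hij : i ≤ j) (c : S.J) (x : S.K i c) :
    tr hij (FG.k c x) = trK hij c x :=
  FG.lift_k _ _ _ _ _ _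

theorem res_res {i j l : S.I} (hij : i ≤ j) (hjl : j ≤ l) (c : S.J) (γ : S.Γ i c) :
    S.res j l hjl c (S.res i j hij c γ) = S.res i l (hij.trans hjl) c γ := by
  apply Subtype.ext
  ext z
  by_cases hz : z ∈ S.V l c
  · rw [S.res_eq j l hjl c _ z hz, S.res_eq i l _ c γ z hz,
      S.res_eq i j hij c γ z (S.V_anti j l hjl c hz)]
  · rw [res_supp hjl c _ z hz, res_supp (hij.trans hjl) c γ z hz]

theorem tr_tr {i j l : S.I} (hij : i ≤ j) (hjl : j ≤ l) (w : S.F i) :
    tr hjl (tr hij w) = tr (hij.trans hjl) w := by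
  have key : (tr hjl).comp (tr hij) = (tr (hij.trans hjl) : S.F i →* S.F l) := by
    refine FG.hom_ext (fun p => by simp) (fun c x => ?_)
    rw [MonoidHom.comp_apply, tr_k, tr_k]
    have : (tr hjl).comp (trK hij c) = (trK (hij.trans hjl) c : S.K i c →* S.F l) := by
      refine Coprod.hom_ext (MonoidHom.ext fun γ => ?_) (FreeGroup.ext_hom _ _ fun a => ?_)
      · change tr hjl (trK hij c (Coprod.inl γ)) = trK (hij.trans hjl) c (Coprod.inl γ)
        rw [trK_inl, map_mul, tr_h, tr_k, trK_inl, trK_inl, ← mul_assoc, ← map_mul, res_res]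
        congr 2
        apply Subtype.ext
        change (γ : Equiv.Perm X) * (S.res i j hij c γ : Equiv.Perm X)⁻¹ *
          ((S.res i j hij c γ : Equiv.Perm X) * _) = (γ : Equiv.Perm X) * _
        rw [res_res]
        group
      · change tr hjl (trK hij c (Coprod.inr (FreeGroup.of a))) =
          trK (hij.trans hjl) c (Coprod.inr (FreeGroup.of a))
        rw [trK_of, map_mul, tr_h, tr_k, trK_of, trK_of, ← mul_assoc, ← map_mul]
        congr 2
        apply Subtype.ext
        change S.u i c a * (S.u j c a)⁻¹ * (S.u j c a * (S.u l c a)⁻¹) =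
          S.u i c a * (S.u l c a)⁻¹
        group
    exact DFunLike.congr_fun this x
  exact DFunLike.congr_fun key w

/-- The action of `K i c` on `X`. -/
def imK (i : S.I) (c : S.J) : S.K i c →* Equiv.Perm X :=
  Coprod.lift (S.Γ i c).subtype (FreeGroup.lift (S.u i c))

@[simp] theorem imK_inl (i : S.I) (c : S.J) (γ : S.Γ i c) : imK i c (Coprod.inl γ) = γ :=
  Coprod.lift_apply_inl _ _ _

@[simp] theorem imK_of (i : S.I) (c : S.J) (a : S.A c) :
    imK i c (Coprod.inr (FreeGroup.of a)) = S.u i c a := by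
  rw [imK, Coprod.lift_apply_inr, FreeGroup.lift_apply_of]

theorem imK_supp (i : S.I) (c : S.J) (x : S.K i c) : ∀ z, z ∉ S.V i c → imK i c x z = z := by
  induction x using Coprod.induction_on with
  | inl γ => rw [imK_inl]; exact S.Γ_supp i c _ γ.2
  | inr y =>
    induction y using FreeGroup.induction_on with
    | C1 => intro z _; rw [map_one, map_one]; rfl
    | of a => rw [imK_of]; exact S.u_supp i c a
    | inv_of a ha => rw [map_inv, map_inv]; exact supp_inv ha
    | mul a b ha hb =>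
      intro z hz
      rw [map_mul, map_mul, Equiv.Perm.mul_apply, hb z hz, ha z hz]
  | mul a b ha hb =>
    intro z hz
    rw [map_mul, Equiv.Perm.mul_apply, hb z hz, ha z hz]

/-- The action of `F i` on `X`. -/
def im (i : S.I) : S.F i →* Equiv.Perm X :=
  FG.lift H.subtype (fun c => imK i c)
    (fun c p hp x => (supp_comm (imK_supp i c x) hp).symm)
    (fun c c' p hp x y => by
      refine supp_comm (imK_supp i c x) fun z hz => ?_
      change (p : Equiv.Perm X) (imK i c' y ((p : Equiv.Perm X)⁻¹ z)) = z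
      rw [imK_supp i c' y _ fun h => hp _ h (by rwa [app_inv]),
        app_inv])

@[simp] theorem im_h (i : S.I) (a : H) : im i (FG.h a : S.F i) = a :=
  FG.lift_h _ _ _ _ _

@[simp] theorem im_k (i : S.I) (c : S.J) (x : S.K i c) : im i (FG.k c x : S.F i) = imK i c x :=
  FG.lift_k _ _ _ _ _ _

theorem im_tr {i j : S.I} (hij : i ≤ j) (w : S.F i) : im j (tr hij w) = im i w := by
  have key : (im j).comp (tr hij) = (im i : S.F i →* Equiv.Perm X) := by
    refine FG.hom_ext (fun p => by simp) (fun c x => ?_)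
    rw [MonoidHom.comp_apply, tr_k, im_k]
    have : (im j).comp (trK hij c) = (imK i c : S.K i c →* Equiv.Perm X) := by
      refine Coprod.hom_ext (MonoidHom.ext fun γ => ?_) (FreeGroup.ext_hom _ _ fun a => ?_)
      · change im j (trK hij c (Coprod.inl γ)) = imK i c (Coprod.inl γ)
        rw [trK_inl, map_mul, im_h, im_k, imK_inl, imK_inl]
        change (γ : Equiv.Perm X) * (S.res i j hij c γ : Equiv.Perm X)⁻¹ * _ = _
        group
      · change im j (trK hij c (Coprod.inr (FreeGroup.of a))) =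
          imK i c (Coprod.inr (FreeGroup.of a))
        rw [trK_of, map_mul, im_h, im_k, imK_of, imK_of]
        change S.u i c a * (S.u j c a)⁻¹ * S.u j c a = _
        group
    exact DFunLike.congr_fun this x
  exact DFunLike.congr_fun key w

end Data

end Pool.Agent.FS
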