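import Pool.Agent.FS.GoodC
import Pool.Agent.Helper29.PA.Defs

/-!
# The limit group
-/

set_option autoImplicit false

namespace Pool.Agent.FS.Data

open Monoid Pool.Agent.Helper29.BA

variable {X : Type} {H : Subgroup (Equiv.Perm X)} (S : Data X H)

/-- The group of the permutations which come from some level. -/
def Lim : Subgroup (Equiv.Perm X) where
  carrier := {f | ∃ (i : S.I) (w : S.F i), im i w = f}
  one_mem' := ⟨Classical.arbitrary _, 1, map_one _⟩
  mul_mem' := by
    rintro f g ⟨i, w, rfl⟩ ⟨j, v, rfl⟩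
    obtain ⟨l, h1, h2⟩ := exists_ge_ge i j
    exact ⟨l, tr h1 w * tr h2 v, by rw [map_mul, im_tr, im_tr]⟩
  inv_mem' := by
    rintro f ⟨i, w, rfl⟩
    exact ⟨i, w⁻¹, map_inv _ _⟩

variable {S}

theorem mem_Lim {f : Equiv.Perm X} : f ∈ S.Lim ↔ ∃ (i : S.I) (w : S.F i), im i w = f := Iff.rfl

theorem im_mem_Lim (i : S.I) (w : S.F i) : im i w ∈ S.Lim := ⟨i, w, rfl⟩

theorem H_le_Lim : H ≤ S.Lim := fun f hf =>
  ⟨Classical.arbitrary _, FG.h ⟨f, hf⟩, im_h _ _⟩

theorem Γ_le_Lim (i : S.I) (c : S.J) : S.Γ i c ≤ S.Lim := fun f hf =>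
  ⟨i, FG.k c (Coprod.inl ⟨f, hf⟩), by rw [im_k, imK_inl]⟩

theorem u_mem_Lim (i : S.I) (c : S.J) (a : S.A c) : S.u i c a ∈ S.Lim :=
  ⟨i, FG.k c (Coprod.inr (FreeGroup.of a)), by rw [im_k, imK_of]⟩

/-- The limit group belongs to every closed class which contains the groups `F i`, if the
elements of the groups `F i` with trivial image become trivial. -/
theorem mem_of_inj {C : ∀ (G : Type) [Group G], Prop} (hC : ClosedClass C)
    (hF : ∀ i, C (S.F i))
    (hinj : ∀ i (w : S.F i), im i w = 1 → ∃ j, ∃ hij : i ≤ j, tr hij w = 1) : C S.Lim := by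
  refine hC.colimit S.I (fun i => S.F i) (fun i j hij => tr hij)
    (fun i j l hij hjl w => tr_tr hij hjl w) S.Lim
    (fun i => (im i).codRestrict S.Lim (im_mem_Lim i))
    (fun i j hij w => Subtype.ext (im_tr hij w)) ?_ (fun i w h => hinj i w ?_) hF
  · rintro ⟨f, i, w, rfl⟩
    exact ⟨i, w, rfl⟩
  · exact congrArg Subtype.val h

/-- The limit group belongs to every closed class which contains the groups `F i`, if the
elements of the groups `F i` become good. -/
theorem mem_of_good {C : ∀ (G : Type) [Group G], Prop} (hC : ClosedClass C)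
    (hF : ∀ i, C (S.F i))
    (hg : ∀ i (w : S.F i), ∃ j, ∃ hij : i ≤ j, Good (tr hij w)) : C S.Lim := by
  refine mem_of_inj hC hF fun i w h => ?_
  obtain ⟨j, hij, h1⟩ := hg i w
  obtain ⟨l, hjl, h2⟩ := good_inj h1 (by rw [im_tr, h])
  exact ⟨l, hij.trans hjl, by rw [← tr_tr hij hjl, h2]⟩

end Pool.Agent.FS.Data
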