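import Pool.Agent.FS.Cfg

/-!
# Finitely many elements of `G` come from a level of their configuration
-/

set_option autoImplicit false
set_option maxHeartbeats 400000

open Filter Topology

namespace Pool.Agent.FS

open Monoid Pool.Agent.Helper29.BA Pool.Agent.Helper29.PA

section data

variable {X : Type} {H : Subgroup (Equiv.Perm X)} (S : Data X H)

/-- The object in the group of the track. -/
def oK {A B : Type} [Group B] (o : Option A) : Coprod B (FreeGroup A) :=
  opt (fun a => Coprod.inr (FreeGroup.of a)) o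

theorem imK_oK (i : S.I) (c : S.J) (o : Option (S.A c)) :
    Data.imK i c (oK o) = opt (S.u i c) o := by
  cases o with
  | none => exact map_one _
  | some a => exact Data.imK_of i c a

/-- The standard elements. -/
def stdK (i : S.I) (c : S.J) (o o' : Option (S.A c)) (γ : S.Γ i c) : S.K i c :=
  oK o' * Coprod.inl γ * (oK o)⁻¹

theorem imK_stdK (i : S.I) (c : S.J) (o o' : Option (S.A c)) (γ : S.Γ i c) :
    Data.imK i c (stdK S i c o o' γ) =
      opt (S.u i c) o' * (γ : Equiv.Perm X) * (opt (S.u i c) o)⁻¹ := by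
  unfold stdK
  rw [map_mul, map_mul, map_inv, imK_oK, imK_oK, Data.imK_inl]

/-- The conjugates of standard elements. -/
def stdF (i : S.I) (c : S.J) (o o' : Option (S.A c)) (γ : S.Γ i c) (a : H) : S.F i :=
  FG.h a * FG.k c (stdK S i c o o' γ) * (FG.h a)⁻¹

theorem im_stdF (i : S.I) (c : S.J) (o o' : Option (S.A c)) (γ : S.Γ i c) (a : H) :
    Data.im i (stdF S i c o o' γ a) = (a : Equiv.Perm X) *
      (opt (S.u i c) o' * (γ : Equiv.Perm X) * (opt (S.u i c) o)⁻¹) * (a : Equiv.Perm X)⁻¹ := by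
  rw [← imK_stdK]
  unfold stdF
  rw [map_mul, map_mul, map_inv, Data.im_h, Data.im_k]

theorem im_stdF_off (i : S.I) (c : S.J) (o o' : Option (S.A c)) (γ : S.Γ i c) (a : H) (w : X)
    (hw : (a : Equiv.Perm X)⁻¹ w ∉ S.V i c) : Data.im i (stdF S i c o o' γ a) w = w := by
  rw [im_stdF, ← imK_stdK, Equiv.Perm.mul_apply, Equiv.Perm.mul_apply,
    Data.imK_supp i c _ _ hw, app_inv]

theorem mem_range_of (i : S.I) {b f : Equiv.Perm X} (hb : b ∈ (Data.im i).range)
    (hf : f * b⁻¹ ∈ H) : f ∈ (Data.im (S := S) i).range := by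
  obtain ⟨b', rfl⟩ := hb
  refine ⟨FG.h ⟨_, hf⟩ * b', ?_⟩
  rw [map_mul, Data.im_h]
  exact inv_mul_cancel_right _ _

end data

variable {C : ∀ (G : Type) [Group G], Prop} {X : Type} [TopologicalSpace X] [T2Space X]
  {H G : Subgroup (X ≃ₜ X)}

/-- One singular point. -/
theorem cover_one (hC : ClosedClass C) (hG : Hyp C H G) (S : Config H G) (i : Level C S) (c : S.J)
    (o o' : Option (S.A c)) {h h' s e : X ≃ₜ X} (hh : h ∈ H) (hh' : h' ∈ H) (he : e ∈ S.E c)
    (hs : h' * opt (S.θ c) o' * e = s * (h * opt (S.θ c) o)) :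
    ∃ b : (S.data hC hG).F i, (∀ w, (h * opt (S.θ c) o).symm w ∉ i.V c → Data.im (S := S.data hC hG) i b w = w) ∧
      ∃ q ∈ Full H, ∀ w, (h * opt (S.θ c) o).symm w ∈ i.V c → Data.im (S := S.data hC hG) i b w = q (s w) := by
  have he1 : ∀ z, e z ∈ i.V c ↔ z ∈ i.V c := i.inv c e he
  let γ : Gam i c := ⟨rst (i.V c) ⟨toP e, he1⟩, mem_Gam.2 ⟨e, Subgroup.subset_closure he,
    fun z hz => rst_pos _ hz, fun z hz => rst_neg _ hz⟩⟩
  have hγ : ∀ z ∈ i.V c, (γ : Equiv.Perm X) z = e z := fun z hz => rst_pos _ hz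
  let κ : Full H := opt (i.κ c) o
  let κ' : Full H := opt (i.κ c) o'
  let a : Full H := ⟨toP h, mem_Full_of_mem hh⟩ * κ⁻¹
  have ha : ∀ w, (a : Equiv.Perm X)⁻¹ w = (κ : Equiv.Perm X) (h.symm w) := by
    intro w
    rw [Equiv.Perm.inv_eq_iff_eq]
    change w = h ((κ : Equiv.Perm X)⁻¹ ((κ : Equiv.Perm X) (h.symm w)))
    rw [inv_app, h.apply_symm_apply]
  have hsymm : ∀ w, (h * opt (S.θ c) o).symm w = (opt (S.θ c) o).symm (h.symm w) := fun w => rfl
  refine ⟨stdF (S.data hC hG) i c o o' γ a, fun w hw => ?_,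
    (a : Equiv.Perm X) * (κ' : Equiv.Perm X) * (toP h')⁻¹,
    (Full H).mul_mem ((Full H).mul_mem a.2 κ'.2) ((Full H).inv_mem (mem_Full_of_mem hh')),
    fun w hw => ?_⟩
  · rw [hsymm, ← opt_V'] at hw
    have h1 : (a : Equiv.Perm X)⁻¹ w ∉ i.V c := by rwa [ha]
    exact im_stdF_off (S.data hC hG) i c o o' γ a w h1
  · have hb : Data.im (S := S.data hC hG) i (stdF (S.data hC hG) i c o o' γ a) =
      (a : Equiv.Perm X) * (opt (uu i c) o' * (γ : Equiv.Perm X) * (opt (uu i c) o)⁻¹) *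
        (a : Equiv.Perm X)⁻¹ := im_stdF (S.data hC hG) i c o o' γ a
    let v := (h * opt (S.θ c) o).symm w
    have hv : v ∈ i.V c := hw
    have hwv : w = h (opt (S.θ c) o v) := ((h * opt (S.θ c) o).apply_symm_apply w).symm
    have h1 : (a : Equiv.Perm X)⁻¹ w = opt (uu i c) o v := by
      rw [ha, hwv, h.symm_apply_apply, opt_uu i c o hv]
    have h2 : opt (uu i c) o' ((γ : Equiv.Perm X) v) =
        (κ' : Equiv.Perm X) (opt (S.θ c) o' (e v)) := by
      rw [hγ v hv]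
      exact opt_uu i c o' ((he1 v).2 hv)
    have h3 : opt (S.θ c) o' (e v) = h'.symm (s w) := by
      rw [← h'.symm_apply_apply (opt (S.θ c) o' (e v)), hwv]
      exact congrArg h'.symm (DFunLike.congr_fun hs v)
    rw [hb, Equiv.Perm.mul_apply, Equiv.Perm.mul_apply, Equiv.Perm.mul_apply, h1,
      Equiv.Perm.mul_apply, inv_app, h2, h3]
    rfl

omit [TopologicalSpace X] [T2Space X] in
/-- Finitely many permutations with disjoint supports. -/
theorem cover_finset {R K : Subgroup (Equiv.Perm X)} {s : X → X} (N : X → Set X) (Z : Finset X) :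
    (∀ y ∈ Z, ∀ y' ∈ Z, y ≠ y' → ∀ w, w ∈ N y → w ∉ N y') →
    (∀ y ∈ Z, ∃ b ∈ R, (∀ w, w ∉ N y → b w = w) ∧ ∃ q ∈ K, ∀ w ∈ N y, b w = q (s w)) →
    ∃ b ∈ R, (∀ w, (∀ y ∈ Z, w ∉ N y) → b w = w) ∧
      ∀ y ∈ Z, (∃ q ∈ K, ∀ w ∈ N y, b w = q (s w)) ∧ ∀ w, b w ∈ N y ↔ w ∈ N y := by
  classical
  induction Z using Finset.induction_on with
  | empty =>
    intro _ _
    exact ⟨1, R.one_mem, fun w _ => rfl, fun y hy => (Finset.notMem_empty y hy).elim⟩
  | insert a Z ha ih =>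
    intro hd h
    obtain ⟨b, hb, h1, h2⟩ := ih
      (fun y hy y' hy' => hd y (Finset.mem_insert_of_mem hy) y' (Finset.mem_insert_of_mem hy'))
      (fun y hy => h y (Finset.mem_insert_of_mem hy))
    obtain ⟨b₁, hb₁, h3, q, hq, h4⟩ := h a (Finset.mem_insert_self a Z)
    have h5 : ∀ w ∈ N a, b₁ w ∈ N a := fun w hw => Data.supp_mem h3 hw
    have hne : ∀ y ∈ Z, y ≠ a := fun y hy h => ha (h ▸ hy)
    have h6 : ∀ w ∈ N a, ∀ y ∈ Z, w ∉ N y := fun w hw y hy =>
      hd a (Finset.mem_insert_self a Z) y (Finset.mem_insert_of_mem hy) (hne y hy).symm w hw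
    have h7 : ∀ y ∈ Z, ∀ w ∈ N y, w ∉ N a := fun y hy w hw =>
      hd y (Finset.mem_insert_of_mem hy) a (Finset.mem_insert_self a Z) (hne y hy) w hw
    refine ⟨b₁ * b, R.mul_mem hb₁ hb, fun w hw => ?_, fun y hy => ?_⟩
    · rw [Equiv.Perm.mul_apply, h1 w fun y hy => hw y (Finset.mem_insert_of_mem hy),
        h3 w (hw a (Finset.mem_insert_self a Z))]
    · rcases Finset.mem_insert.1 hy with rfl | hy
      · refine ⟨⟨q, hq, fun w hw => ?_⟩, fun w => ⟨fun hw => ?_, fun hw => ?_⟩⟩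
        · rw [Equiv.Perm.mul_apply, h1 w (h6 w hw), h4 w hw]
        · rw [Equiv.Perm.mul_apply] at hw
          have h8 : b w ∈ N y := by
            by_contra h9
            rw [h3 _ h9] at hw
            exact h9 hw
          have h9 := b.injective (h1 (b w) (h6 _ h8))
          rwa [h9] at h8
        · rw [Equiv.Perm.mul_apply, h1 w (h6 w hw)]
          exact h5 w hw
      · obtain ⟨⟨q', hq', h8⟩, h9⟩ := h2 y hy
        refine ⟨⟨q', hq', fun w hw => ?_⟩, fun w => ⟨fun hw => ?_, fun hw => ?_⟩⟩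
        · rw [Equiv.Perm.mul_apply, h3 _ (h7 y hy _ ((h9 w).2 hw)), h8 w hw]
        · rw [Equiv.Perm.mul_apply] at hw
          have h10 : b w ∉ N a := fun h => h7 y hy _ hw (h5 _ h)
          rw [h3 _ h10] at hw
          exact (h9 w).1 hw
        · have h10 := (h9 w).2 hw
          rw [Equiv.Perm.mul_apply, h3 _ (h7 y hy _ h10)]
          exact h10

/-- The elements of `T` come from a level. -/
theorem cover (hC : ClosedClass C) (hG : Hyp C H G) (T : Finset (X ≃ₜ X))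
    (hT : ∀ s ∈ T, s ∈ G) (Y : Finset X)
    (hY : ∀ s ∈ T, ∀ y, ¬ At H s y → y ∈ Y ∧ s y ∈ Y) (s : X ≃ₜ X) (hs : s ∈ T) :
    ∃ i : Level C (cfg hG.le T hT Y),
      toP s ∈ (Data.im (S := (cfg hG.le T hT Y).data hC hG) i).range := by
  classical
  let S := cfg hG.le T hT Y
  let Z : Finset X := (hG.sing s (hT s hs)).toFinset
  have hZ : ∀ y, y ∈ Z ↔ ¬ At H s y := fun y => by simp [Z]
  have hSg : ∀ y ∈ Z, Sg H G y := fun y hy => ⟨s, hT s hs, (hZ y).1 hy⟩
  obtain ⟨O, hO, hO'⟩ := (Z.finite_toSet).t2_separation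
  obtain ⟨i, hi⟩ := exists_level hC hG S
    (fun c => {v | ∀ y ∈ Z, bas H G y = S.x c → Mv H G y v ∈ O y}) fun c => by
      change ∀ᶠ v in 𝓝 (S.x c), ∀ y ∈ Z, bas H G y = S.x c → Mv H G y v ∈ O y
      rw [Filter.eventually_all_finset]
      intro y hy
      by_cases h : bas H G y = S.x c
      · have h1 : Mv H G y ⁻¹' O y ∈ 𝓝 (S.x c) := by
          refine ((hO y).2.preimage (Mv H G y).continuous).mem_nhds ?_
          rw [Set.mem_preimage, ← h, Mv_apply hG.le]
          exact (hO y).1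
        filter_upwards [h1] with v hv _
        exact hv
      · exact Eventually.of_forall fun v h' => (h h').elim
  let N : X → Set X := fun y => {w | ∃ c : S.J, bas H G y = S.x c ∧ (Mv H G y).symm w ∈ i.V c}
  have hcinj : ∀ c c' : S.J, S.x c = S.x c' → c = c' := fun c c' h => Subtype.ext h
  have hN : ∀ y (c : S.J), bas H G y = S.x c → ∀ w, w ∈ N y ↔ (Mv H G y).symm w ∈ i.V c := by
    intro y c hc w
    constructor
    · rintro ⟨c', hc', h⟩
      rwa [hcinj c c' (hc.symm.trans hc')]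
    · intro h
      exact ⟨c, hc, h⟩
  have hNO : ∀ y ∈ Z, ∀ w ∈ N y, w ∈ O y := by
    rintro y hy w ⟨c, hc, h⟩
    have h1 := hi c h y hy hc
    rwa [(Mv H G y).apply_symm_apply] at h1
  have hcy : ∀ y ∈ Z, ∃ c : S.J, bas H G y = S.x c := fun y hy =>
    ⟨⟨bas H G y, bas_bas hG.le y, Sg_bas hG.le (hSg y hy)⟩, rfl⟩
  obtain ⟨b, hb, hb1, hb2⟩ := cover_finset (R := (Data.im (S := S.data hC hG) i).range)
    (K := Full H) (s := s) N Z
    (fun y hy y' hy' hne w hw hw' => Set.disjoint_left.1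
      (hO' (Finset.mem_coe.2 hy) (Finset.mem_coe.2 hy') hne) (hNO y hy w hw) (hNO y' hy' w hw'))
    (fun y hy => by
      obtain ⟨c, hc⟩ := hcy y hy
      have h1 := hY s hs y ((hZ y).1 hy)
      obtain ⟨o, h, hh, ho⟩ := exists_object hG.le T hT Y c h1.1 hc
      have h2 : bas H G (s y) = S.x c := by
        rw [← hc]
        exact (bas_eq ⟨s, hT s hs, rfl⟩).symm
      obtain ⟨o', h', hh', ho'⟩ := exists_object hG.le T hT Y c h1.2 h2
      have he : (Mv H G (s y))⁻¹ * s * Mv H G y ∈ S.E c :=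
        Finset.mem_image.2 ⟨(s, y), Finset.mem_filter.2
          ⟨Finset.mem_product.2 ⟨hs, h1.1⟩, hc⟩, rfl⟩
      obtain ⟨b, hb1, q, hq, hb2⟩ := cover_one hC hG S i c o o' (s := s) hh hh' he (by
        rw [← ho, ← ho']
        group)
      rw [← ho] at hb1 hb2
      refine ⟨_, ⟨b, rfl⟩, fun w hw => hb1 w ?_, q, hq, fun w hw => hb2 w ?_⟩
      · rwa [hN y c hc] at hw
      · rwa [hN y c hc] at hw)
  have hNcl : ∀ y ∈ Z, IsClopen (N y) := by
    intro y hy
    obtain ⟨c, hc⟩ := hcy y hy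
    have h1 : N y = (Mv H G y).symm ⁻¹' i.V c := by
      ext w
      exact hN y c hc w
    rw [h1]
    exact (i.clopen c).preimage (Mv H G y).symm.continuous
  have hNy : ∀ y ∈ Z, y ∈ N y := by
    intro y hy
    obtain ⟨c, hc⟩ := hcy y hy
    rw [hN y c hc]
    have h1 : (Mv H G y).symm y = S.x c := by
      rw [Homeomorph.symm_apply_eq, ← hc, Mv_apply hG.le]
    rw [h1]
    exact i.mem c
  have hf : toP s * b⁻¹ ∈ Full H := by
    intro z
    by_cases hz : ∃ y ∈ Z, z ∈ N y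
    · obtain ⟨y, hy, hz⟩ := hz
      obtain ⟨⟨q, hq, h1⟩, h2⟩ := hb2 y hy
      refine At.of_Full ((Full H).inv_mem hq) ?_
      filter_upwards [(hNcl y hy).isOpen.mem_nhds hz] with z' hz'
      have h3 : b⁻¹ z' ∈ N y := by rwa [← h2, app_inv]
      have h4 := h1 _ h3
      rw [app_inv] at h4
      change s (b⁻¹ z') = q⁻¹ z'
      conv_rhs => rw [h4]
      rw [inv_app]
    · push Not at hz
      have h1 : At H s z := by
        by_contra h
        exact hz z ((hZ z).2 h) (hNy z ((hZ z).2 h))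
      have h2 : ∀ᶠ z' in 𝓝 z, ∀ y ∈ Z, z' ∉ N y := by
        rw [Filter.eventually_all_finset]
        intro y hy
        exact (hNcl y hy).compl.isOpen.mem_nhds (hz y hy)
      refine h1.congr ?_
      filter_upwards [h2] with z' hz'
      have h3 : b⁻¹ z' = z' := by
        rw [Equiv.Perm.inv_eq_iff_eq]
        exact (hb1 z' hz').symm
      change s (b⁻¹ z') = s z'
      rw [h3]
  exact ⟨i, mem_range_of (S.data hC hG) i hb hf⟩

end Pool.Agent.FS
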