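import Mathlib

/-!
# Groups of homeomorphisms with finitely many singular germs: the definitions

`Full H` is the group of the permutations of `X` which agree near each point with an element of the
group `H` of homeomorphisms. A point is singular (for `H` and a group `G` of homeomorphisms) if near
it some element of `G` does not agree with any element of `H`.
-/

set_option autoImplicit false

open Filter Topology

namespace Pool.Agent.FS

variable {X : Type} [TopologicalSpace X]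

theorem map_nhds_homeo (h : X ≃ₜ X) (x : X) {p : X → Prop} :
    (∀ᶠ y in 𝓝 (h x), p y) ↔ ∀ᶠ y in 𝓝 x, p (h y) := by
  rw [← h.map_nhds_eq, eventually_map]

/-- `f` agrees near `x` with an element of `H`. -/
def At (H : Subgroup (X ≃ₜ X)) (f : X → X) (x : X) : Prop := ∃ h ∈ H, ∀ᶠ y in 𝓝 x, f y = h y

variable {H : Subgroup (X ≃ₜ X)}

theorem At.of_mem {h : X ≃ₜ X} (hh : h ∈ H) (x : X) : At H h x :=
  ⟨h, hh, Eventually.of_forall fun _ => rfl⟩

theorem At.congr {f g : X → X} {x : X} (hf : At H f x) (h : ∀ᶠ y in 𝓝 x, g y = f y) :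
    At H g x := by
  obtain ⟨k, hk, h1⟩ := hf
  refine ⟨k, hk, ?_⟩
  filter_upwards [h, h1] with y h2 h3
  rw [h2, h3]

theorem At.comp {f g : X → X} {x : X} (hf : At H f (g x)) (hg : At H g x) :
    At H (fun y => f (g y)) x := by
  obtain ⟨h, hh, h1⟩ := hg
  obtain ⟨k, hk, h2⟩ := hf
  refine ⟨k * h, H.mul_mem hk hh, ?_⟩
  rw [h1.self_of_nhds, map_nhds_homeo] at h2
  filter_upwards [h1, h2] with y h3 h4
  show f (g y) = k (h y)
  rw [h3, h4]

theorem At.inv {f : Equiv.Perm X} {x : X} (hf : At H f x) : At H (f⁻¹ : Equiv.Perm X) (f x) := by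
  obtain ⟨h, hh, h1⟩ := hf
  refine ⟨h⁻¹, H.inv_mem hh, ?_⟩
  rw [h1.self_of_nhds, map_nhds_homeo]
  filter_upwards [h1] with y h2
  have h3 : (h⁻¹ : X ≃ₜ X) (h y) = y := h.symm_apply_apply y
  rw [h3, ← h2]
  exact f.symm_apply_apply y

/-- The permutations which are piecewise in `H`. -/
def Full (H : Subgroup (X ≃ₜ X)) : Subgroup (Equiv.Perm X) where
  carrier := {f | ∀ x, At H f x}
  mul_mem' := fun {f g} hf hg x => (hf (g x)).comp (hg x)
  one_mem' := fun x => At.of_mem H.one_mem x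
  inv_mem' := fun {f} hf x => by
    have h1 := (hf ((f⁻¹ : Equiv.Perm X) x)).inv
    rwa [show f ((f⁻¹ : Equiv.Perm X) x) = x from f.apply_symm_apply x] at h1

/-- The group generated by the restrictions to `V` of the elements of `E` (extended by the
identity). -/
def Rg (V : Set X) (E : Set (X ≃ₜ X)) : Subgroup (Equiv.Perm X) :=
  Subgroup.closure {γ | ∃ e ∈ E, (∀ z ∈ V, γ z = e z) ∧ ∀ z, z ∉ V → γ z = z}

/-- The point `x` is singular: some element of `G` does not agree near `x` with an element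
of `H`. -/
def Sg (H G : Subgroup (X ≃ₜ X)) (x : X) : Prop := ∃ g ∈ G, ¬ At H g x

/-- The hypotheses on `H` and `G`. -/
structure Hyp (C : ∀ (G : Type) [Group G], Prop) (H G : Subgroup (X ≃ₜ X)) : Prop where
  /-- (0) -/
  le : H ≤ G
  /-- (1) -/
  fix : ∀ x, Sg H G x → ∀ h ∈ H, h x = x → ∀ᶠ y in 𝓝 x, h y = y
  /-- (2) -/
  sing : ∀ g ∈ G, {x | ¬ At H g x}.Finite
  /-- (3) -/
  nbd : ∀ x, Sg H G x → ∀ E : Finset (X ≃ₜ X), (∀ g ∈ E, g ∈ G) → ∀ W ∈ 𝓝 x,
    ∃ V, IsClopen V ∧ x ∈ V ∧ V ⊆ W ∧ (∀ g ∈ E, (∃ f ∈ Full H, g '' V = f '' V) ∧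
      (g x = x → g '' V = V)) ∧ C (Rg V {g | g ∈ E ∧ g x = x})

end Pool.Agent.FS
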