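import Pool.Agent.FS.MainP

/-!
# The form for locally finite groups `H`
-/

set_option autoImplicit false

open Filter Topology

namespace Pool.Agent.FS

open Monoid Pool.Agent.Helper29.BA Pool.Agent.Helper29.PA

variable {C : ∀ (G : Type) [Group G], Prop} {X : Type} [TopologicalSpace X]

/-- The hypotheses which do not mention the class. -/
structure HypG (H G : Subgroup (X ≃ₜ X)) : Prop where
  le : H ≤ G
  fix : ∀ x, Sg H G x → ∀ h ∈ H, h x = x → ∀ᶠ y in 𝓝 x, h y = y
  sing : ∀ g ∈ G, {x | ¬ At H g x}.Finite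
  nbd : ∀ x, Sg H G x → ∀ E : Finset (X ≃ₜ X), (∀ g ∈ E, g ∈ G) → ∀ W ∈ 𝓝 x,
    ∃ V, IsClopen V ∧ x ∈ V ∧ V ⊆ W ∧ ∀ g ∈ E,
      (∃ f ∈ Full H, g '' V = f '' V) ∧ (g x = x → g '' V = V)

variable [T2Space X] {H G : Subgroup (X ≃ₜ X)}

/-- If the piecewise elements form a locally finite group, the groups of germs at singular points
have to be in the class. -/
theorem hyp_of_HypG (hC : ExtClass C) (hG : HypG H G) (hH : LocFin (Full H))
    (hg : ∀ x, Sg H G x → C (Germ G x)) : Hyp C H G where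
  le := hG.le
  fix := hG.fix
  sing := hG.sing
  nbd := by
    classical
    intro x hx E hE W hW
    let B : Set X := {z | ∃ g ∈ E, ¬ At H g z}
    have hB : B.Finite := by
      have h1 : B = ⋃ g ∈ E, {z | ¬ At H g z} := by
        ext z
        simp [B]
      rw [h1]
      exact Set.Finite.biUnion E.finite_toSet fun g hg => hG.sing g (hE g hg)
    have hB' : (B \ {x})ᶜ ∈ 𝓝 x :=
      (hB.subset Set.sdiff_subset).isClosed.isOpen_compl.mem_nhds fun h => h.2 rfl
    obtain ⟨V, h1, h2, h3, h4⟩ := hG.nbd x hx E hE _ (inter_mem hW hB')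
    refine ⟨V, h1, h2, fun z hz => (h3 hz).1, h4, ?_⟩
    refine Rg_mem (x := x) (G := G) (fun e he => ⟨hE e he.1, he.2,
      image_eq_iff ((h4 e he.1).2 he.2), fun z hz hzx => ?_⟩) h1 h2 hC hH (hg x hx)
    by_contra h
    exact (h3 hz).2 ⟨⟨e, he.1, h⟩, hzx⟩

/-- **The form for compact spaces and locally finite groups.** -/
theorem mainG [CompactSpace X] (hC : ExtClass C) (hG : HypG H G) (hH : LocFin H)
    (hg : ∀ x, Sg H G x → C (Germ G x)) : C G :=
  mainP hC (hyp_of_HypG hC hG (locFin_Full hH) hg) (mem_of_LocFin hC (locFin_Full hH))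

end Pool.Agent.FS
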