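import Pool.Agent.FS.DihW
import Pool.Agent.FS.Germs

/-!
# Fragmentations of dihedral actions: the local part

`s false` and `s true` are two involutions of `X`, the group `Dg s` generated by them is dihedral,
and `(s false * s true) ^ n` has no fixed points for `n > 0`. Each point with a nontrivial
stabiliser in `Dg s` is fixed by exactly one reflection `R s t k`.
-/

set_option autoImplicit false

open Filter Topology

namespace Pool.Agent.FS

/-- The fragmentations of a group of homeomorphisms: `g` maps the points `y` near `x` to `d (c y)`,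
where `d` is an element of `D` which depends on `x` only, and `c` is an element of the stabiliser
of `x` in `D` which may depend on `y`. -/
def Frag {X : Type} [TopologicalSpace X] (D : Subgroup (X ≃ₜ X)) : Subgroup (X ≃ₜ X) where
  carrier := {g | ∀ x, ∃ d ∈ D, ∀ᶠ y in 𝓝 x, ∃ c ∈ D, c x = x ∧ g y = d (c y)}
  mul_mem' := fun {g g'} hg hg' x => by
    obtain ⟨d', hd', h'⟩ := hg' x
    obtain ⟨d, hd, h⟩ := hg (g' x)
    refine ⟨d * d', D.mul_mem hd hd', ?_⟩
    obtain ⟨c₀, -, hc₀, h₀⟩ := h'.self_of_nhds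
    rw [hc₀] at h₀
    rw [map_nhds_homeo] at h
    filter_upwards [h, h'] with y ⟨c, hc, hcx, hy⟩ ⟨c', hc', hcx', hy'⟩
    refine ⟨d'⁻¹ * c * d' * c', D.mul_mem (D.mul_mem (D.mul_mem (D.inv_mem hd') hc) hd') hc', ?_, ?_⟩
    · change d'.symm (c (d' (c' x))) = x
      rw [hcx', ← h₀, hcx, h₀]
      exact d'.symm_apply_apply x
    · change g (g' y) = d (d' (d'.symm (c (d' (c' y)))))
      rw [hy, hy', d'.apply_symm_apply]
  one_mem' := fun x => ⟨1, D.one_mem, Eventually.of_forall fun y => ⟨1, D.one_mem, rfl, rfl⟩⟩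
  inv_mem' := fun {g} hg x => by
    obtain ⟨d, hd, h⟩ := hg (g.symm x)
    obtain ⟨c₀, -, hc₀, h₀⟩ := h.self_of_nhds
    rw [hc₀, g.apply_symm_apply] at h₀
    refine ⟨d⁻¹, D.inv_mem hd, ?_⟩
    have h1 : ∀ᶠ y in 𝓝 x, ∃ c ∈ D, c (g.symm x) = g.symm x ∧ g (g.symm y) = d (c (g.symm y)) :=
      (map_nhds_homeo g.symm x).1 h
    filter_upwards [h1] with y ⟨c, hc, hcx, hy⟩
    rw [g.apply_symm_apply] at hy
    refine ⟨d * c⁻¹ * d⁻¹, D.mul_mem (D.mul_mem hd (D.inv_mem hc)) (D.inv_mem hd), ?_, ?_⟩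
    · change d (c.symm (d.symm x)) = x
      rw [h₀, d.symm_apply_apply, (c.symm_apply_eq).2 hcx.symm]
    · change g.symm y = d.symm (d (c.symm (d.symm y)))
      rw [d.symm_apply_apply]
      conv_rhs => rw [hy]
      rw [d.symm_apply_apply, c.symm_apply_apply]

namespace Dih

variable {X : Type} [TopologicalSpace X] {s : Bool → X ≃ₜ X}

/-- The homeomorphism `d` does not use the loop of the half line at `x`. -/
def NC (s : Bool → X ≃ₜ X) (d : X ≃ₜ X) (x : X) : Prop :=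
  ∀ t k, R s t k x = x → ∃ m, d * w s t k = w s t m

section alg

variable (hs : ∀ t, s t * s t = 1) (hper : ∀ (x : X) (n : ℕ), 0 < n → ((s false * s true) ^ n) x ≠ x)

include hs hper

omit hs in
theorem zpow_eq_zero {n : ℤ} {x : X} (h : ((s false * s true) ^ n) x = x) : n = 0 := by
  by_contra hn
  rcases lt_or_gt_of_ne hn with h1 | h1
  · refine hper x n.natAbs (by omega) ?_
    have h2 : (s false * s true) ^ n.natAbs = ((s false * s true) ^ n)⁻¹ := by
      rw [← zpow_natCast, ← zpow_neg]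
      congr 1
      omega
    rw [h2]
    exact (((s false * s true) ^ n).symm_apply_eq).2 h.symm
  · refine hper x n.natAbs (by omega) ?_
    have h2 : (s false * s true) ^ n.natAbs = (s false * s true) ^ n := by
      rw [← zpow_natCast]
      congr 1
      omega
    rwa [h2]

theorem s_ne_one (x : X) (t : Bool) : s t ≠ 1 := by
  intro h
  refine hper x 2 (by norm_num) ?_
  have h1 : (s false * s true) ^ 2 = 1 := by
    cases t with
    | false => rw [h, one_mul, pow_two, hs]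
    | true => rw [h, mul_one, pow_two, hs]
  rw [h1]
  rfl

theorem R_ne_one (x : X) (t : Bool) (k : ℕ) : R s t k ≠ 1 := by
  intro h
  refine s_ne_one hs hper x t ?_
  unfold R at h
  have h1 : w s t k * s t = w s t k := by
    have h2 := mul_inv_eq_one.1 h
    exact h2
  exact mul_eq_left.1 h1

theorem R_unique {t u : Bool} {k m : ℕ} {x : X} (h : R s t k x = x) (h' : R s u m x = x) :
    t = u ∧ k = m := by
  refine e_inj ?_
  have h1 : (R s t k * (R s u m)⁻¹) x = x := by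
    change R s t k ((R s u m).symm x) = x
    rw [((R s u m).symm_apply_eq).2 h'.symm, h]
  rw [R_eq hs, R_eq hs, mul_inv_rev, mul_assoc, ← mul_assoc (s false), mul_inv_cancel, one_mul,
    ← zpow_neg, ← zpow_add] at h1
  have := zpow_eq_zero hper h1
  omega

theorem exists_R {c : X ≃ₜ X} (hc : c ∈ Dg s) {x : X} (hx : c x = x) (h1 : c ≠ 1) :
    ∃ t k, c = R s t k := by
  obtain ⟨n, h | h⟩ := zform hs hc
  · subst h
    have := zpow_eq_zero hper hx
    subst this
    exact absurd (zpow_zero _) h1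
  · obtain ⟨t, k, hk⟩ := e_surj n
    exact ⟨t, k, by rw [R_eq hs, hk, h]⟩

theorem stab {c d : X ≃ₜ X} (hc : c ∈ Dg s) (hd : d ∈ Dg s) {x : X} (hx : c x = x) (hx' : d x = x)
    (h1 : c ≠ 1) (h2 : d ≠ 1) : c = d := by
  obtain ⟨t, k, rfl⟩ := exists_R hs hper hc hx h1
  obtain ⟨u, m, rfl⟩ := exists_R hs hper hd hx' h2
  obtain ⟨rfl, rfl⟩ := R_unique hs hper hx hx'
  rfl

omit hs hper in
theorem R_conj {d : X ≃ₜ X} {t : Bool} {k m : ℕ} (h : d * w s t k = w s t m) :
    R s t m * d = d * R s t k := by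
  have h1 : d = w s t m * (w s t k)⁻¹ := eq_mul_inv_of_mul_eq h
  rw [R, R, h1]
  group

omit hs hper in
theorem R_apply {d : X ≃ₜ X} {t : Bool} {k m : ℕ} (h : d * w s t k = w s t m) {x : X}
    (hx : R s t k x = x) : R s t m (d x) = d x := by
  have h1 := congrArg (fun z : X ≃ₜ X => z x) (R_conj h)
  change R s t m (d x) = d (R s t k x) at h1
  rw [h1, hx]

/-- A noncrossing element with a fixed point is trivial. -/
theorem eq_one_of_NC {d : X ≃ₜ X} (hd : d ∈ Dg s) {x : X} (h : NC s d x) (hx : d x = x) :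
    d = 1 := by
  by_contra h1
  obtain ⟨t, k, h2⟩ := exists_R hs hper hd hx h1
  have h3 : R s t k x = x := by rw [← h2, hx]
  obtain ⟨m, hm⟩ := h t k h3
  have h4 := R_apply hm h3
  rw [hx] at h4
  obtain ⟨-, rfl⟩ := R_unique hs hper h3 h4
  exact h1 (mul_eq_right.1 hm)

omit hs hper in
theorem NC_one (x : X) : NC s 1 x := fun _ k _ => ⟨k, one_mul _⟩

omit hs hper in
theorem NC_mul {d d' : X ≃ₜ X} {x : X} (h : NC s d x) (h' : NC s d' (d x)) :
    NC s (d' * d) x := by
  intro t k hk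
  obtain ⟨m, hm⟩ := h t k hk
  obtain ⟨n, hn⟩ := h' t m (R_apply hm hk)
  exact ⟨n, by rw [mul_assoc, hm, hn]⟩

theorem NC_inv {d : X ≃ₜ X} (hd : d ∈ Dg s) {x : X} (h : NC s d x) : NC s d⁻¹ (d x) := by
  intro u m hm
  have h1 : (d⁻¹ * R s u m * d) x = x := by
    change d.symm (R s u m (d x)) = x
    rw [hm]
    exact d.symm_apply_apply x
  have h2 : d⁻¹ * R s u m * d ∈ Dg s :=
    (Dg s).mul_mem ((Dg s).mul_mem ((Dg s).inv_mem hd) (R_mem s u m)) hd
  have h3 : d⁻¹ * R s u m * d ≠ 1 := by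
    intro h3
    refine R_ne_one hs hper x u m ?_
    have h4 : d⁻¹ * R s u m * d = d⁻¹ * 1 * d := by rw [h3]; group
    exact mul_left_cancel (mul_right_cancel h4)
  obtain ⟨t, k, h4⟩ := exists_R hs hper h2 h1 h3
  rw [h4] at h1
  obtain ⟨n, hn⟩ := h t k h1
  obtain ⟨rfl, rfl⟩ := R_unique hs hper (R_apply hn h1) hm
  exact ⟨k, by rw [← hn, inv_mul_cancel_left]⟩

/-- The group of the homeomorphisms which are locally in the dihedral group and do not use the
loops. -/
def HD : Subgroup (X ≃ₜ X) where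
  carrier := {h | ∀ x, ∃ d ∈ Dg s, NC s d x ∧ ∀ᶠ y in 𝓝 x, h y = d y}
  mul_mem' := fun {g g'} hg hg' x => by
    obtain ⟨d', hd', hn', h'⟩ := hg' x
    obtain ⟨d, hd, hn, h⟩ := hg (g' x)
    rw [h'.self_of_nhds] at hn
    refine ⟨d * d', (Dg s).mul_mem hd hd', NC_mul hn' hn, ?_⟩
    rw [map_nhds_homeo] at h
    filter_upwards [h, h'] with y h1 h2
    change g (g' y) = d (d' y)
    rw [h1, h2]
  one_mem' := fun x => ⟨1, (Dg s).one_mem, NC_one x, Eventually.of_forall fun y => rfl⟩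
  inv_mem' := fun {g} hg x => by
    obtain ⟨d, hd, hn, h⟩ := hg (g.symm x)
    have h0 : d (g.symm x) = x := by rw [← h.self_of_nhds, g.apply_symm_apply]
    have hn' := NC_inv hs hper hd hn
    rw [h0] at hn'
    refine ⟨d⁻¹, (Dg s).inv_mem hd, hn', ?_⟩
    have h1 : ∀ᶠ y in 𝓝 x, g (g.symm y) = d (g.symm y) := (map_nhds_homeo g.symm x).1 h
    filter_upwards [h1] with y hy
    rw [g.apply_symm_apply] at hy
    change g.symm y = d.symm y
    exact ((d.symm_apply_eq).2 hy).symm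

theorem HD_le : HD hs hper ≤ Frag (Dg s) := fun g hg x => by
  obtain ⟨d, hd, -, h⟩ := hg x
  refine ⟨d, hd, ?_⟩
  filter_upwards [h] with y hy
  exact ⟨1, (Dg s).one_mem, rfl, hy⟩

end alg

section top

variable (hs : ∀ t, s t * s t = 1) (hper : ∀ (x : X) (n : ℕ), 0 < n → ((s false * s true) ^ n) x ≠ x)
  (hF : ∀ t, {x : X | s t x = x}.Finite)

include hs hF

omit hs in
theorem fix_R_finite (t : Bool) (k : ℕ) : {x : X | R s t k x = x}.Finite := by
  refine ((hF t).image fun z => w s t k z).subset fun x hx => ?_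
  refine ⟨(w s t k).symm x, ?_, (w s t k).apply_symm_apply x⟩
  have h1 : w s t k (s t ((w s t k).symm x)) = x := hx
  exact ((w s t k).symm_apply_eq.2 h1.symm).symm

theorem crossing_finite {d : X ≃ₜ X} (hd : d ∈ Dg s) : {x : X | ¬ NC s d x}.Finite := by
  obtain ⟨K, hK⟩ := tail hs hd
  have h1 : (⋃ (p : Bool × Fin K), {x : X | R s p.1 p.2 x = x}).Finite :=
    Set.finite_iUnion fun p => fix_R_finite hF p.1 p.2
  refine h1.subset fun x hx => ?_
  by_contra h
  refine hx fun t k hk => ?_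
  by_cases h2 : K ≤ k
  · obtain ⟨m, -, hm⟩ := hK t k h2
    exact ⟨m, hm⟩
  · exact absurd (Set.mem_iUnion.2 ⟨(t, ⟨k, by omega⟩), hk⟩) h

variable [T2Space X]

theorem NC_eventually {d : X ≃ₜ X} (hd : d ∈ Dg s) (x : X) : ∀ᶠ y in 𝓝[≠] x, NC s d y := by
  have h1 : ({y : X | ¬ NC s d y} \ {x})ᶜ ∈ 𝓝 x :=
    ((crossing_finite hs hF hd).subset Set.sdiff_subset).isClosed.isOpen_compl.mem_nhds
      fun h => h.2 rfl
  filter_upwards [nhdsWithin_le_nhds h1, self_mem_nhdsWithin] with y h2 h3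
  by_contra h
  exact h2 ⟨h, h3⟩

variable [CompactSpace X] [TotallyDisconnectedSpace X]

include hper

omit hF [CompactSpace X] in
/-- A noncrossing element of the dihedral group agrees on small sets with elements of `HD`. -/
theorem exists_HD (hF : ∀ t, {x : X | s t x = x}.Finite) {d : X ≃ₜ X} (hd : d ∈ Dg s) {x : X}
    (h : NC s d x) : ∃ N ∈ 𝓝 x, ∀ V, V ⊆ N → IsClopen V →
      ∃ g ∈ HD hs hper, ∀ y ∈ V, g y = d y := by
  by_cases hx : d x = x
  · rw [eq_one_of_NC hs hper hd h hx]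
    exact ⟨Set.univ, univ_mem, fun V _ _ => ⟨1, (HD hs hper).one_mem, fun y _ => rfl⟩⟩
  · obtain ⟨A, B, hA, hB, h1, h2, h3⟩ := t2_separation hx
    have hb : {y : X | ¬ NC s d y}ᶜ ∈ 𝓝 x :=
      (crossing_finite hs hF hd).isClosed.isOpen_compl.mem_nhds fun h' => h' h
    refine ⟨(B ∩ d ⁻¹' A) ∩ {y : X | ¬ NC s d y}ᶜ, inter_mem (inter_mem (hB.mem_nhds h2)
      ((hA.preimage d.continuous).mem_nhds h1)) hb, fun V hV hVc => ?_⟩
    have hdis : Disjoint ((d.toEquiv : Equiv.Perm X) '' V) V := by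
      refine Set.disjoint_left.2 ?_
      rintro _ ⟨y, hy, rfl⟩ hy'
      exact Set.disjoint_left.1 h3 (hV hy).1.2 (hV hy').1.1
    obtain ⟨c, hc, c1, c2, c3⟩ := exists_swap hVc (mem_Full_of_mem hd) hdis
    have hNC : ∀ y ∈ V, NC s d y := fun y hy => by
      by_contra h'
      exact (hV hy).2 h'
    refine ⟨homeoOf c hc, fun y => ?_, c1⟩
    by_cases hy : y ∈ V
    · refine ⟨d, hd, hNC y hy, ?_⟩
      filter_upwards [hVc.isOpen.mem_nhds hy] with z hz
      exact c1 z hz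
    · have hcl : IsClopen ((d.toEquiv : Equiv.Perm X) '' V) :=
        ⟨(d.isClosedMap V hVc.isClosed), d.isOpenMap V hVc.isOpen⟩
      by_cases hy' : y ∈ (d.toEquiv : Equiv.Perm X) '' V
      · obtain ⟨z, hz, rfl⟩ := hy'
        refine ⟨d⁻¹, (Dg s).inv_mem hd, NC_inv hs hper hd (hNC z hz), ?_⟩
        filter_upwards [hcl.isOpen.mem_nhds ⟨z, hz, rfl⟩] with z' ⟨z'', hz'', h4⟩
        rw [← h4, homeoOf_apply]
        have h5 : d.toEquiv z'' = c z'' := (c1 z'' hz'').symm
        rw [h5, c2, ← h5]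
        exact (d.symm_apply_apply z'').symm
      · refine ⟨1, (Dg s).one_mem, NC_one y, ?_⟩
        filter_upwards [hVc.compl.isOpen.mem_nhds hy, hcl.compl.isOpen.mem_nhds hy'] with z h4 h5
        exact c3 z h4 h5

omit hF in
theorem at_of_NC (hF : ∀ t, {x : X | s t x = x}.Finite) {d : X ≃ₜ X} (hd : d ∈ Dg s) {x : X}
    (h : NC s d x) {g : X → X} (hg : ∀ᶠ y in 𝓝 x, g y = d y) : At (HD hs hper) g x := by
  obtain ⟨N, hN, h1⟩ := exists_HD hs hper hF hd h
  obtain ⟨V, hV, hxV, hVN⟩ := compact_exists_isClopen_in_isOpen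
    (isOpen_interior (s := N)) (mem_interior_iff_mem_nhds.2 hN)
  obtain ⟨f, hf, h2⟩ := h1 V (hVN.trans interior_subset) hV
  refine ⟨f, hf, ?_⟩
  filter_upwards [hg, hV.isOpen.mem_nhds hxV] with y h3 h4
  rw [h3, h2 y h4]

/-- The elements of the fragmentation group have isolated singularities. -/
theorem at_eventually {g : X ≃ₜ X} (hg : g ∈ Frag (Dg s)) (x : X) :
    ∀ᶠ y in 𝓝[≠] x, At (HD hs hper) g y := by
  obtain ⟨d, hd, h⟩ := hg x
  by_cases h0 : ∀ c ∈ Dg s, c x = x → c = 1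
  · have h1 : ∀ᶠ y in 𝓝 x, g y = d y := by
      filter_upwards [h] with y ⟨c, hc, hcx, hy⟩
      rw [hy, h0 c hc hcx]
      rfl
    filter_upwards [NC_eventually hs hF hd x, nhdsWithin_le_nhds h1.eventually_nhds] with y h2 h3
    exact at_of_NC hs hper hF hd h2 h3
  · push Not at h0
    obtain ⟨c, hc, hcx, hc1⟩ := h0
    have h1 : ∀ᶠ y in 𝓝 x, g y = d y ∨ g y = d (c y) := by
      filter_upwards [h] with y ⟨c', hc', hcx', hy⟩
      by_cases h2 : c' = 1
      · left
        rw [hy, h2]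
        rfl
      · right
        rw [hy, stab hs hper hc' hc hcx' hcx h2 hc1]
    obtain ⟨t, k, hk⟩ := exists_R hs hper hc hcx hc1
    have h2 : ∀ᶠ y in 𝓝[≠] x, c y ≠ y := by
      have h3 : ({y : X | c y = y} \ {x})ᶜ ∈ 𝓝 x := by
        refine (Set.Finite.subset ?_ Set.sdiff_subset).isClosed.isOpen_compl.mem_nhds fun h => h.2 rfl
        rw [hk]
        exact fix_R_finite hF t k
      filter_upwards [nhdsWithin_le_nhds h3, self_mem_nhdsWithin] with y h4 h5 h6
      exact h4 ⟨h6, h5⟩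
    filter_upwards [NC_eventually hs hF hd x, NC_eventually hs hF ((Dg s).mul_mem hd hc) x, h2,
      nhdsWithin_le_nhds h1.eventually_nhds] with y h3 h4 h5 h6
    have h7 : d y ≠ d (c y) := fun h' => h5 (d.injective h').symm
    rcases h6.self_of_nhds with h8 | h8
    · refine at_of_NC hs hper hF hd h3 ?_
      have h9 : ∀ᶠ z in 𝓝 y, g z ≠ d (c z) :=
        (isOpen_ne_fun g.continuous (d.continuous.comp c.continuous)).mem_nhds (by
          change g y ≠ d (c y)
          rwa [h8])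
      filter_upwards [h6, h9] with z h10 h11
      exact h10.resolve_right h11
    · refine at_of_NC hs hper hF ((Dg s).mul_mem hd hc) h4 ?_
      have h9 : ∀ᶠ z in 𝓝 y, g z ≠ d z :=
        (isOpen_ne_fun g.continuous d.continuous).mem_nhds (by
          change g y ≠ d y
          rw [h8]
          exact h7.symm)
      filter_upwards [h6, h9] with z h10 h11
      exact h10.resolve_left h11

theorem sing_finite {g : X ≃ₜ X} (hg : g ∈ Frag (Dg s)) : {x | ¬ At (HD hs hper) g x}.Finite := by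
  have h1 : ∀ x, ∀ᶠ y in 𝓝 x, y ≠ x → At (HD hs hper) g y := fun x =>
    eventually_nhdsWithin_iff.1 (at_eventually hs hper hF hg x)
  obtain ⟨t, ht⟩ := CompactSpace.elim_nhds_subcover (fun x => {y | y ≠ x → At (HD hs hper) g y}) h1
  refine t.finite_toSet.subset fun x hx => ?_
  have h2 : x ∈ ⋃ z ∈ t, {y | y ≠ z → At (HD hs hper) g y} := by
    rw [ht]
    trivial
  simp only [Set.mem_iUnion, Set.mem_ofPred_eq] at h2
  obtain ⟨z, hz, h3⟩ := h2
  by_cases h4 : x = z
  · rw [h4]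
    exact hz
  · exact absurd (h3 h4) hx

/-- Singular points are fixed by a reflection. -/
theorem exists_of_Sg {x : X} (h : Sg (HD hs hper) (Frag (Dg s)) x) : ∃ t k, R s t k x = x := by
  by_contra h0
  push Not at h0
  obtain ⟨g, hg, h1⟩ := h
  refine h1 ?_
  obtain ⟨d, hd, h2⟩ := hg x
  refine at_of_NC hs hper hF hd (fun t k hk => absurd hk (h0 t k)) ?_
  filter_upwards [h2] with y ⟨c, hc, hcx, hy⟩
  have h3 : c = 1 := by
    by_contra h3
    obtain ⟨t, k, h4⟩ := exists_R hs hper hc hcx h3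
    exact h0 t k (by rw [← h4, hcx])
  rw [hy, h3]
  rfl

end top

section nbd

variable (hs : ∀ t, s t * s t = 1) (hper : ∀ (x : X) (n : ℕ), 0 < n → ((s false * s true) ^ n) x ≠ x)
  (hF : ∀ t, {x : X | s t x = x}.Finite)

include hs hper hF

omit hper hF in
theorem s_s (t : Bool) (x : X) : s t (s t x) = x := by
  have h := congrArg (fun z : X ≃ₜ X => z x) (hs t)
  exact h

variable [T2Space X] [CompactSpace X] [TotallyDisconnectedSpace X]

omit [CompactSpace X] in
theorem exists_move {g : X ≃ₜ X} (hg : g ∈ Frag (Dg s)) {x : X} {t : Bool} {k : ℕ}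
    (hx : R s t k x = x) : ∃ m, (∀ᶠ z in 𝓝 ((w s t k).symm x),
      g (w s t k z) = w s t m z ∨ g (w s t k z) = w s t m (s t z)) ∧
      ∃ N ∈ 𝓝 x, ∀ V, V ⊆ N → IsClopen V →
        ∃ f ∈ HD hs hper, ∀ y ∈ V, f y = w s t m ((w s t k).symm y) := by
  obtain ⟨d, hd, h⟩ := hg x
  obtain ⟨m, hm⟩ := normal hs t ((Dg s).mul_mem hd (w_mem s t k))
  refine ⟨m, ?_, ?_⟩
  · have hR : ∀ z, R s t k (w s t k z) = w s t k (s t z) := fun z => by
      change w s t k (s t ((w s t k).symm (w s t k z))) = _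
      rw [(w s t k).symm_apply_apply]
    have h1 : ∀ᶠ y in 𝓝 (w s t k ((w s t k).symm x)), ∃ c ∈ Dg s, c x = x ∧ g y = d (c y) := by
      rw [(w s t k).apply_symm_apply]
      exact h
    rw [map_nhds_homeo] at h1
    have hd' : ∀ z, (d (w s t k z) = w s t m z ∧ d (w s t k (s t z)) = w s t m (s t z)) ∨
        (d (w s t k z) = w s t m (s t z) ∧ d (w s t k (s t z)) = w s t m z) := by
      intro z
      rcases hm with hm | hm
      · have h2 : ∀ z, d (w s t k z) = w s t m z := fun z => congrArg (fun u : X ≃ₜ X => u z) hm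
        exact Or.inl ⟨h2 z, h2 _⟩
      · have h2 : ∀ z, d (w s t k z) = w s t m (s t z) :=
          fun z => congrArg (fun u : X ≃ₜ X => u z) hm
        refine Or.inr ⟨h2 z, ?_⟩
        rw [h2, s_s hs]
    filter_upwards [h1] with z ⟨c, hc, hcx, hz⟩
    by_cases h2 : c = 1
    · rw [hz, h2]
      change d (w s t k z) = _ ∨ d (w s t k z) = _
      rcases hd' z with ⟨h3, -⟩ | ⟨h3, -⟩
      · exact Or.inl h3
      · exact Or.inr h3
    · have h3 : c = R s t k := stab hs hper hc (R_mem s t k) hcx hx h2 (R_ne_one hs hper x t k)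
      rw [hz, h3, hR]
      rcases hd' z with ⟨-, h3⟩ | ⟨-, h3⟩
      · exact Or.inr h3
      · exact Or.inl h3
  · have h1 : w s t m * (w s t k)⁻¹ ∈ Dg s := (Dg s).mul_mem (w_mem s t m) ((Dg s).inv_mem (w_mem s t k))
    refine exists_HD hs hper hF h1 (x := x) ?_
    intro u j hj
    obtain ⟨rfl, rfl⟩ := R_unique hs hper hx hj
    exact ⟨m, inv_mul_cancel_right _ _⟩

theorem nbd {x : X} {t : Bool} {k : ℕ} (hx : R s t k x = x) (E : Finset (X ≃ₜ X))
    (hE : ∀ g ∈ E, g ∈ Frag (Dg s)) {W : Set X} (hW : W ∈ 𝓝 x) :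
    ∃ V, IsClopen V ∧ x ∈ V ∧ V ⊆ W ∧ ∀ g ∈ E,
      (∃ f ∈ Full (HD hs hper), g '' V = f '' V) ∧ (g x = x → g '' V = V) := by
  have h0 := fun g (hg : g ∈ E) => exists_move hs hper hF (hE g hg) hx
  choose! m h1 N hN h2 using h0
  have hx1 : s t ((w s t k).symm x) = (w s t k).symm x :=
    ((w s t k).symm_apply_eq.2 (show x = w s t k (s t ((w s t k).symm x)) from hx.symm)).symm
  have hW' : ∀ᶠ z in 𝓝 ((w s t k).symm x), w s t k z ∈ W ∧ ∀ g ∈ E, w s t k z ∈ N g ∧
      (g (w s t k z) = w s t (m g) z ∨ g (w s t k z) = w s t (m g) (s t z)) := by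
    have h3 : ∀ (A : Set X), A ∈ 𝓝 x → ∀ᶠ z in 𝓝 ((w s t k).symm x), w s t k z ∈ A := by
      intro A hA
      refine (map_nhds_homeo (w s t k) ((w s t k).symm x) (p := fun y => y ∈ A)).1 ?_
      rw [(w s t k).apply_symm_apply]
      exact hA
    refine (h3 W hW).and ?_
    rw [eventually_all_finset]
    exact fun g hg => (h3 _ (hN g hg)).and (h1 g hg)
  obtain ⟨V₁, hV₁, hxV₁, hVW⟩ := compact_exists_isClopen_in_isOpen isOpen_interior
    (mem_interior_iff_mem_nhds.2 hW')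
  let V₀ : Set X := V₁ ∩ s t ⁻¹' V₁
  have hV₀ : IsClopen V₀ := hV₁.inter (hV₁.preimage (s t).continuous)
  have hxV₀ : (w s t k).symm x ∈ V₀ := ⟨hxV₁, by rw [Set.mem_preimage, hx1]; exact hxV₁⟩
  have hsV₀ : ∀ z ∈ V₀, s t z ∈ V₀ := fun z hz => ⟨hz.2, by
    rw [Set.mem_preimage, s_s hs]
    exact hz.1⟩
  have hV₀W := fun z (hz : z ∈ V₀) => interior_subset (hVW hz.1)
  have hcl : IsClopen (⇑(w s t k) '' V₀) :=
    ⟨(w s t k).isClosedMap _ hV₀.isClosed, (w s t k).isOpenMap _ hV₀.isOpen⟩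
  have key : ∀ g ∈ E, g '' (⇑(w s t k) '' V₀) = ⇑(w s t (m g)) '' V₀ := by
    intro g hg
    ext y
    constructor
    · rintro ⟨_, ⟨z, hz, rfl⟩, rfl⟩
      rcases ((hV₀W z hz).2 g hg).2 with h4 | h4
      · exact ⟨z, hz, h4.symm⟩
      · exact ⟨s t z, hsV₀ z hz, h4.symm⟩
    · rintro ⟨z, hz, rfl⟩
      rcases ((hV₀W z hz).2 g hg).2 with h4 | h4
      · exact ⟨_, ⟨z, hz, rfl⟩, h4⟩
      · rcases ((hV₀W _ (hsV₀ z hz)).2 g hg).2 with h5 | h5
        · have h6 : s t z = z := (w s t k).injective (g.injective (h5.trans h4.symm))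
          exact ⟨_, ⟨z, hz, rfl⟩, by rw [h4, h6]⟩
        · refine ⟨_, ⟨s t z, hsV₀ z hz, rfl⟩, ?_⟩
          rw [h5, s_s hs]
  refine ⟨⇑(w s t k) '' V₀, hcl, ⟨_, hxV₀, (w s t k).apply_symm_apply x⟩, ?_, fun g hg => ⟨?_, fun hgx => ?_⟩⟩
  · rintro _ ⟨z, hz, rfl⟩
    exact (hV₀W z hz).1
  · obtain ⟨f, hf, h3⟩ := h2 g hg (⇑(w s t k) '' V₀) (by
      rintro _ ⟨z, hz, rfl⟩
      exact ((hV₀W z hz).2 g hg).1) hcl
    refine ⟨f.toEquiv, mem_Full_of_mem hf, ?_⟩
    rw [key g hg]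
    ext y
    constructor
    · rintro ⟨z, hz, rfl⟩
      refine ⟨w s t k z, ⟨z, hz, rfl⟩, ?_⟩
      have h4 := h3 (w s t k z) ⟨z, hz, rfl⟩
      rw [(w s t k).symm_apply_apply] at h4
      exact h4
    · rintro ⟨_, ⟨z, hz, rfl⟩, rfl⟩
      refine ⟨z, hz, ?_⟩
      have h4 := h3 (w s t k z) ⟨z, hz, rfl⟩
      rw [(w s t k).symm_apply_apply] at h4
      exact h4.symm
  · rw [key g hg]
    have h3 : w s t (m g) ((w s t k).symm x) = x := by
      have h4 := (h1 g hg).self_of_nhds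
      rw [(w s t k).apply_symm_apply, hgx, hx1] at h4
      rcases h4 with h4 | h4 <;> exact h4.symm
    have h5 : R s t (m g) x = x := by
      have h6 := R_apply (s := s) (d := w s t (m g) * (w s t k)⁻¹) (m := m g)
        (inv_mul_cancel_right _ _) hx
      have h7 : (w s t (m g) * (w s t k)⁻¹) x = x := h3
      rwa [h7] at h6
    obtain ⟨-, h6⟩ := R_unique hs hper hx h5
    rw [← h6]

/-- The hypotheses of the main theorem. -/
theorem hypG : HypG (HD hs hper) (Frag (Dg s)) where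
  le := HD_le hs hper
  fix := fun x _ h hh hx => by
    obtain ⟨d, hd, hn, h1⟩ := hh x
    have h2 : d = 1 := eq_one_of_NC hs hper hd hn (by rw [← h1.self_of_nhds, hx])
    filter_upwards [h1] with y hy
    rw [hy, h2]
    rfl
  sing := fun g hg => sing_finite hs hper hF hg
  nbd := fun x hx E hE W hW => by
    obtain ⟨t, k, hk⟩ := exists_of_Sg hs hper hF hx
    exact nbd hs hper hF hk E hE hW

end nbd

end Dih

end Pool.Agent.FS
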