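import Pool.Agent.FS.Dih

/-!
# Fragmentations of dihedral actions: the germs, and the local finiteness of `HD`
-/

set_option autoImplicit false

open Filter Topology

namespace Pool.Agent.FS.Dih

open Pool.Agent.Helper29.BA Pool.Agent.Helper29.PA

/-- Groups of exponent two are locally finite. -/
theorem lfgp_of_sq {P : Type} [Group P] (h : ∀ g : P, g * g = 1) : LFGp P := by
  intro s
  have hinv : ∀ g : P, g⁻¹ = g := fun g => inv_eq_of_mul_eq_one_right (h g)
  have hcomm : ∀ a b : P, a * b = b * a := fun a b => by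
    have h1 := hinv (a * b)
    rw [mul_inv_rev, hinv, hinv] at h1
    exact h1.symm
  let K : Subgroup P := Subgroup.closure (s : Set P)
  let _ : CommGroup K :=
    { (inferInstance : Group K) with mul_comm := fun a b => Subtype.ext (hcomm _ _) }
  have h1 : Group.FG K := by
    rw [Group.fg_iff_subgroup_fg]
    exact ⟨s, rfl⟩
  refine CommGroup.finite_of_fg_isMulTorsion K ?_
  intro g
  refine isOfFinOrder_iff_pow_eq_one.2 ⟨2, by norm_num, ?_⟩
  rw [pow_two]
  exact Subtype.ext (h _)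

variable {C : ∀ (G : Type) [Group G], Prop} {X : Type} [TopologicalSpace X] {s : Bool → X ≃ₜ X}

section germ

variable (hs : ∀ t, s t * s t = 1) (hper : ∀ (x : X) (n : ℕ), 0 < n → ((s false * s true) ^ n) x ≠ x)

include hs hper

/-- The germs at a point form a group of exponent two. -/
theorem germ_sq (x : X) (γ : Germ (Frag (Dg s)) x) : γ * γ = 1 := by
  obtain ⟨g, rfl⟩ := QuotientGroup.mk_surjective γ
  obtain ⟨d, hd, h⟩ := g.2.1 x
  have hgx : (g : X ≃ₜ X) x = x := g.2.2
  have hdx : d x = x := by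
    obtain ⟨c, -, hcx, h1⟩ := h.self_of_nhds
    rw [hcx, hgx] at h1
    exact h1.symm
  by_cases h0 : ∃ c ∈ Dg s, c x = x ∧ c ≠ 1
  · obtain ⟨c, hc, hcx, hc1⟩ := h0
    obtain ⟨t, k, hk⟩ := exists_R hs hper hc hcx hc1
    have hcc : ∀ y, c (c y) = y := by
      intro y
      have h1 : c * c = 1 := by
        rw [hk, R]
        have h2 : w s t k * s t * (w s t k)⁻¹ * (w s t k * s t * (w s t k)⁻¹) =
            w s t k * (s t * s t) * (w s t k)⁻¹ := by group
        rw [h2, hs, mul_one, mul_inv_cancel]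
      exact congrArg (fun z : X ≃ₜ X => z y) h1
    have hst : ∀ e ∈ Dg s, e x = x → ∀ y, e y = y ∨ e y = c y := by
      intro e he hex y
      by_cases h1 : e = 1
      · exact Or.inl (by rw [h1]; rfl)
      · exact Or.inr (by rw [stab hs hper he hc hex hcx h1 hc1])
    have h1 : ∀ᶠ y in 𝓝 x, (g : X ≃ₜ X) y = y ∨ (g : X ≃ₜ X) y = c y := by
      filter_upwards [h] with y ⟨c', hc', hcx', hy⟩
      rcases hst c' hc' hcx' y with h2 | h2 <;> rcases hst d hd hdx (c' y) with h3 | h3
      · exact Or.inl (by rw [hy, h3, h2])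
      · exact Or.inr (by rw [hy, h3, h2])
      · exact Or.inr (by rw [hy, h3, h2])
      · exact Or.inl (by rw [hy, h3, h2, hcc])
    have h2 : ∀ᶠ y in 𝓝 x, (g : X ≃ₜ X) (c y) = c y ∨ (g : X ≃ₜ X) (c y) = c (c y) := by
      refine (map_nhds_homeo c x (p := fun z => (g : X ≃ₜ X) z = z ∨ (g : X ≃ₜ X) z = c z)).1 ?_
      rw [hcx]
      exact h1
    refine (QuotientGroup.eq_one_iff (g * g)).2 ?_
    change ∀ᶠ y in 𝓝 x, (g : X ≃ₜ X) ((g : X ≃ₜ X) y) = y
    filter_upwards [h1, h2] with y h3 h4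
    rcases h3 with h3 | h3
    · rw [h3, h3]
    · rcases h4 with h4 | h4
      · have h5 : y = c y := (g : X ≃ₜ X).injective (h3.trans h4.symm)
        rw [h3, h4, ← h5]
      · rw [h3, h4, hcc]
  · push Not at h0
    refine (QuotientGroup.eq_one_iff (g * g)).2 ?_
    change ∀ᶠ y in 𝓝 x, (g : X ≃ₜ X) ((g : X ≃ₜ X) y) = y
    filter_upwards [h] with y ⟨c', hc', hcx', hy⟩
    have h2 : (g : X ≃ₜ X) y = y := by
      rw [hy, h0 c' hc' hcx', h0 d hd hdx]
      rfl
    rw [h2, h2]

theorem germ_mem (hC : ExtClass C) (x : X) : C (Germ (Frag (Dg s)) x) :=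
  mem_locFin hC _ (lfgp_of_sq (germ_sq hs hper x))

end germ

/-! ### two involutions -/

section inv

/-- The group generated by two involutions whose product has finite order is finite. -/
theorem finite_Dg {A : Type} [Group A] {r : Bool → A} (hr : ∀ t, r t * r t = 1) {n : ℕ}
    (hn : 0 < n) (h : (r false * r true) ^ n = 1) : Finite (Dg r) := by
  have h1 : ((Subgroup.zpowers (r false * r true) : Subgroup A) : Set A).Finite :=
    finite_zpowers.2 (isOfFinOrder_iff_pow_eq_one.2 ⟨n, hn, h⟩)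
  refine Set.Finite.subset (h1.union (h1.image fun z => z * r false)) ?_
  intro d hd
  obtain ⟨k, h2 | h2⟩ := zform hr hd
  · exact Or.inl ⟨k, h2.symm⟩
  · exact Or.inr ⟨_, ⟨k, rfl⟩, h2.symm⟩

variable {Y : Type} {σ τ : Equiv.Perm Y}

theorem pal {A : Type} [Group A] (σ τ : A) (j : ℕ) : (τ * σ) ^ j * τ = τ * (σ * τ) ^ j := by
  induction j with
  | zero => simp
  | succ j ih => rw [pow_succ', pow_succ', mul_assoc, ih]; simp only [mul_assoc]

theorem pal' {A : Type} [Group A] {σ τ : A} (hσ : σ * σ = 1) (hτ : τ * τ = 1) (j : ℕ) :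
    (τ * σ) ^ j * (σ * τ) ^ j = 1 := by
  have h1 : (τ * σ) = (σ * τ)⁻¹ := by
    rw [mul_inv_rev, inv_eq_of_mul_eq_one_right hσ, inv_eq_of_mul_eq_one_right hτ]
  rw [h1, inv_pow, inv_mul_cancel]

theorem pal_τ (hσ : σ * σ = 1) (hτ : τ * τ = 1) {y : Y} {j : ℕ}
    (h : τ (((σ * τ) ^ j) y) = ((σ * τ) ^ j) y) : ((τ * σ) ^ (2 * j) * τ) y = y := by
  rw [two_mul, pow_add, mul_assoc, pal]
  change ((τ * σ) ^ j) (τ (((σ * τ) ^ j) y)) = y
  rw [h]
  exact congrArg (fun z : Equiv.Perm Y => z y) (pal' hσ hτ j)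

theorem pal_σ (hσ : σ * σ = 1) (hτ : τ * τ = 1) {y : Y} {j : ℕ}
    (h : σ (τ (((σ * τ) ^ j) y)) = τ (((σ * τ) ^ j) y)) :
    ((τ * σ) ^ (2 * j + 1) * τ) y = y := by
  have h1 : (τ * σ) ^ (2 * j + 1) * τ = (τ * σ) ^ j * (τ * (σ * (τ * (σ * τ) ^ j))) := by
    rw [show 2 * j + 1 = j + (1 + j) by ring, pow_add, pow_add, pow_one, mul_assoc, mul_assoc,
      mul_assoc, pal]
  rw [h1]
  change ((τ * σ) ^ j) (τ (σ (τ (((σ * τ) ^ j) y)))) = y
  rw [h]
  have h2 : ∀ z, τ (τ z) = z := fun z => congrArg (fun u : Equiv.Perm Y => u z) hτ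
  rw [h2]
  exact congrArg (fun z : Equiv.Perm Y => z y) (pal' hσ hτ j)

/-- If the line of `y` meets the cuts in one direction, a palindrome fixes `y`. -/
theorem word_fix (hσ : σ * σ = 1) (hτ : τ * τ = 1) {a b : Y → Y} {A B : Set Y}
    (h1 : ∀ z, z ∉ A → σ z = a z) (h1' : ∀ z ∈ A, σ z = z) (h2 : ∀ z, z ∉ B → τ z = b z)
    (h2' : ∀ z ∈ B, τ z = z) (h3 : ∀ z, a z ∈ A → z ∈ A) {y : Y} {m : ℕ} (hm : 0 < m)
    (h : (fun z => a (b z))^[m] y ∈ A ∪ B) : ∃ k ≤ 2 * m, ((τ * σ) ^ k * τ) y = y := by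
  by_contra h0
  push Not at h0
  have e1 : ∀ j ≤ m, ((σ * τ) ^ j) y ∉ B := fun j hj h4 =>
    h0 (2 * j) (by omega) (pal_τ hσ hτ (h2' _ h4))
  have e2 : ∀ j < m, τ (((σ * τ) ^ j) y) ∉ A := fun j hj h4 =>
    h0 (2 * j + 1) (by omega) (pal_σ hσ hτ (h1' _ h4))
  have e3 : ∀ j ≤ m, ((σ * τ) ^ j) y = (fun z => a (b z))^[j] y := by
    intro j
    induction j with
    | zero => intro _; rfl
    | succ j ih =>
      intro hj
      rw [Function.iterate_succ_apply', ← ih (by omega), pow_succ']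
      change σ (τ (((σ * τ) ^ j) y)) = a (b (((σ * τ) ^ j) y))
      rw [h1 _ (e2 j (by omega)), h2 _ (e1 j (by omega))]
  rcases h with h | h
  · obtain ⟨j, rfl⟩ : ∃ j, m = j + 1 := ⟨m - 1, by omega⟩
    rw [Function.iterate_succ_apply', ← e3 j (by omega), ← h2 _ (e1 j (by omega))] at h
    exact e2 j (by omega) (h3 _ h)
  · rw [← e3 m le_rfl] at h
    exact e1 m le_rfl h

/-- If this happens in both directions within bounded distance, the product of the involutions
has finite order. -/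
theorem pow_eq_one {N : ℕ}
    (h1 : ∀ y, ∃ k ≤ N, ((τ * σ) ^ k * τ) y = y) (h2 : ∀ y, ∃ k ≤ N, ((σ * τ) ^ k * σ) y = y) :
    (σ * τ) ^ (2 * N + 1).factorial = 1 := by
  refine Equiv.ext fun y => ?_
  obtain ⟨k, hk, h3⟩ := h1 y
  obtain ⟨k', hk', h4⟩ := h2 y
  have h5 : ((σ * τ) ^ (k' + (1 + k))) y = y := by
    have h6 : (σ * τ) ^ (k' + (1 + k)) = (σ * τ) ^ k' * σ * ((τ * σ) ^ k * τ) := by
      rw [pow_add, pow_add, pow_one, pal σ τ k]
      simp only [mul_assoc]
    rw [h6]
    change ((σ * τ) ^ k' * σ) (((τ * σ) ^ k * τ) y) = y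
    rw [h3, h4]
  obtain ⟨c, hc⟩ := Nat.dvd_factorial (m := k' + (1 + k)) (n := 2 * N + 1) (by omega) (by omega)
  rw [hc, pow_mul]
  change ((((σ * τ) ^ (k' + (1 + k))) ^ c : Equiv.Perm Y)) y = y
  have h7 : ∀ c : ℕ, ((((σ * τ) ^ (k' + (1 + k))) ^ c : Equiv.Perm Y)) y = y := by
    intro c
    induction c with
    | zero => rfl
    | succ c ih =>
      rw [pow_succ]
      change ((((σ * τ) ^ (k' + (1 + k))) ^ c : Equiv.Perm Y)) (((σ * τ) ^ (k' + (1 + k))) y) = y
      rw [h5, ih]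
  exact h7 c

end inv

/-! ### recurrence -/

section rec

variable [CompactSpace X]

/-- If every closed invariant set meets the fixed points, the orbits of the translation meet every
open set which contains the fixed points, within bounded time. -/
theorem visit {a b : X ≃ₜ X} (ha : a * a = 1) (hb : b * b = 1)
    (hmin : ∀ S : Set X, IsClosed S → S.Nonempty → (∀ x ∈ S, a x ∈ S) → (∀ x ∈ S, b x ∈ S) →
      ∃ x ∈ S, a x = x ∨ b x = x) {U : Set X} (hU : IsOpen U)
    (hfix : ∀ x, a x = x ∨ b x = x → x ∈ U) :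
    ∃ N : ℕ, ∀ y, ∃ m, 0 < m ∧ m ≤ N ∧ ((a * b) ^ m) y ∈ U := by
  have haa : ∀ x, a (a x) = x := fun x => congrArg (fun u : X ≃ₜ X => u x) ha
  have hbb : ∀ x, b (b x) = x := fun x => congrArg (fun u : X ≃ₜ X => u x) hb
  have key : ∀ y, ∃ m : ℕ, 0 < m ∧ ((a * b) ^ m) y ∈ U := by
    intro y
    by_contra h
    push Not at h
    let t : ℕ → Set X := fun n => {z | ∀ i : ℤ, |i| ≤ n → ((a * b) ^ i) z ∉ U}
    have hcl : ∀ n, IsClosed (t n) := by
      intro n
      have h1 : t n = ⋂ (i : ℤ) (_ : |i| ≤ n), (((a * b) ^ i : X ≃ₜ X) ⁻¹' U)ᶜ := by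
        ext z
        simp [t]
      rw [h1]
      exact isClosed_iInter fun i => isClosed_iInter fun _ =>
        (hU.preimage ((a * b) ^ i : X ≃ₜ X).continuous).isClosed_compl
    have hK : (⋂ n, t n).Nonempty := by
      refine IsCompact.nonempty_iInter_of_sequence_nonempty_isCompact_isClosed t ?_ ?_ ?_ hcl
      · intro n z hz i hi
        exact hz i (hi.trans (by push_cast; omega))
      · intro n
        refine ⟨((a * b) ^ (n + 1)) y, fun i hi => ?_⟩
        have h2 : ((a * b) ^ i) (((a * b) ^ (n + 1)) y) = ((a * b) ^ (i + (n + 1)).toNat) y := by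
          have h3 : (a * b) ^ (i + (n + 1)).toNat = (a * b) ^ i * (a * b) ^ (n + 1) := by
            rw [← zpow_natCast, ← zpow_natCast, ← zpow_add]
            congr 1
            rw [abs_le] at hi
            push_cast
            omega
          rw [h3]
          rfl
        rw [h2]
        refine h _ ?_
        rw [abs_le] at hi
        omega
      · exact (hcl 0).isCompact
    let K : Set X := ⋂ n, t n
    have hKm : ∀ z, z ∈ K ↔ ∀ i : ℤ, ((a * b) ^ i) z ∉ U := by
      intro z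
      simp only [K, t, Set.mem_iInter, Set.mem_ofPred_eq]
      constructor
      · intro h1 i
        exact h1 i.natAbs i (by rw [Int.natCast_natAbs])
      · intro h1 n i _
        exact h1 i
    have hKs : ∀ z (j : ℤ), z ∈ K → ((a * b) ^ j) z ∈ K := by
      intro z j hz
      rw [hKm] at hz ⊢
      intro i
      have h1 : ((a * b) ^ i) (((a * b) ^ j) z) = ((a * b) ^ (i + j)) z := by
        rw [zpow_add]
        rfl
      rw [h1]
      exact hz _
    have hρ : ∀ z ∈ K, a (b z) ∈ K := fun z hz => by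
      have h1 := hKs z 1 hz
      rw [zpow_one] at h1
      exact h1
    have hρ' : ∀ z ∈ K, b (a z) ∈ K := fun z hz => by
      have h1 := hKs z (-1) hz
      rw [zpow_neg_one, mul_inv_rev, inv_eq_of_mul_eq_one_right ha,
        inv_eq_of_mul_eq_one_right hb] at h1
      exact h1
    have hKcl : IsClosed K := isClosed_iInter hcl
    obtain ⟨x, hx, hx'⟩ := hmin (K ∪ a ⁻¹' K) (hKcl.union (hKcl.preimage a.continuous))
      (hK.mono Set.subset_union_left) (by
        rintro x (hx | hx)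
        · exact Or.inr (by rw [Set.mem_preimage, haa]; exact hx)
        · exact Or.inl hx) (by
        rintro x (hx | hx)
        · exact Or.inr (hρ x hx)
        · refine Or.inl ?_
          have h1 := hρ' _ hx
          rwa [haa] at h1)
    have hU' : x ∉ K := fun h1 => ((hKm x).1 h1 0) (by rw [zpow_zero]; exact hfix x hx')
    rcases hx with hx | hx
    · exact hU' hx
    · rcases hx' with h1 | h1
      · refine hU' ?_
        have h2 : a x ∈ K := hx
        rwa [h1] at h2
      · refine hU' ?_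
        have h2 := hρ' _ hx
        rwa [haa, h1] at h2
  choose m hm hmU using key
  obtain ⟨t, ht⟩ := CompactSpace.elim_nhds_subcover
    (fun y => ((a * b) ^ (m y) : X ≃ₜ X) ⁻¹' U) (fun y =>
      (hU.preimage ((a * b) ^ (m y) : X ≃ₜ X).continuous).mem_nhds (hmU y))
  refine ⟨t.sup m, fun y => ?_⟩
  have h2 : y ∈ ⋃ z ∈ t, ((a * b) ^ (m z) : X ≃ₜ X) ⁻¹' U := by
    rw [ht]
    trivial
  simp only [Set.mem_iUnion] at h2
  obtain ⟨z, hz, h3⟩ := h2
  exact ⟨m z, hm z, Finset.le_sup hz, h3⟩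

end rec

/-! ### the cut involutions -/

section cut

/-- Clopen invariant neighbourhoods of the fixed points. -/
structure Adm (s : Bool → X ≃ₜ X) (U : Bool → Set X) : Prop where
  clopen : ∀ t, IsClopen (U t)
  inv : ∀ t x, x ∈ U t → s t x ∈ U t
  fix : ∀ t x, s t x = x → x ∈ U t

variable (hs : ∀ t, s t * s t = 1) {U : Bool → Set X} (hU : Adm s U)

theorem Adm.notMem (hs : ∀ t, s t * s t = 1) (hU : Adm s U) {t : Bool} {x : X} (h : x ∉ U t) :
    s t x ∉ U t := fun h' => h (by
  have h1 := hU.inv t _ h'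
  rwa [s_s hs] at h1)

open Classical in
/-- The involution `s t`, cut on `U t`. -/
noncomputable def cut (hs : ∀ t, s t * s t = 1) (hU : Adm s U) (t : Bool) : Equiv.Perm X where
  toFun x := if x ∈ U t then x else s t x
  invFun x := if x ∈ U t then x else s t x
  left_inv x := by
    by_cases h : x ∈ U t
    · simp only [if_pos h]
    · simp only [if_neg h, if_neg (hU.notMem hs h), s_s hs]
  right_inv x := by
    by_cases h : x ∈ U t
    · simp only [if_pos h]
    · simp only [if_neg h, if_neg (hU.notMem hs h), s_s hs]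

theorem cut_mem {t : Bool} {x : X} (h : x ∈ U t) : cut hs hU t x = x := if_pos h

theorem cut_notMem {t : Bool} {x : X} (h : x ∉ U t) : cut hs hU t x = s t x := if_neg h

theorem cut_sq (t : Bool) : cut hs hU t * cut hs hU t = 1 := by
  refine Equiv.ext fun x => ?_
  change cut hs hU t (cut hs hU t x) = x
  by_cases h : x ∈ U t
  · rw [cut_mem hs hU h, cut_mem hs hU h]
  · rw [cut_notMem hs hU h, cut_notMem hs hU (hU.notMem hs h), s_s hs]

/-- Smaller cuts have larger orbits. -/
theorem cut_mono {U' : Bool → Set X} (hU' : Adm s U') (h : ∀ t, U t ⊆ U' t) {l : Equiv.Perm X}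
    (hl : l ∈ Dg (cut hs hU')) (y : X) : ∃ l' ∈ Dg (cut hs hU), l y = l' y := by
  revert y
  refine ind (cut_sq hs hU') (p := fun l => ∀ y, ∃ l' ∈ Dg (cut hs hU), l y = l' y)
    (fun y => ⟨1, Subgroup.one_mem _, rfl⟩) ?_ hl
  intro u l₀ _ ih y
  obtain ⟨l', hl', h1⟩ := ih y
  change ∃ l' ∈ Dg (cut hs hU), cut hs hU' u (l₀ y) = l' y
  by_cases h2 : l₀ y ∈ U' u
  · rw [cut_mem hs hU' h2]
    exact ⟨l', hl', h1⟩
  · rw [cut_notMem hs hU' h2]
    refine ⟨cut hs hU u * l', Subgroup.mul_mem _ (s_mem _ u) hl', ?_⟩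
    change _ = cut hs hU u (l' y)
    rw [← h1, cut_notMem hs hU fun h3 => h2 (h u h3)]

/-- An element of the dihedral group preserves the segments, except at points near the
fixed points. -/
theorem path (hs : ∀ t, s t * s t = 1) {d : X ≃ₜ X} (hd : d ∈ Dg s) :
    ∃ K : ℕ, ∀ (U : Bool → Set X) (hU : Adm s U) (y : X), (∃ l ∈ Dg (cut hs hU), d y = l y) ∨
      ∃ t k, k < K ∧ ∃ u ∈ U t, y = w s t k u := by
  refine ind hs (p := fun d => ∃ K : ℕ, ∀ (U : Bool → Set X) (hU : Adm s U) (y : X),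
    (∃ l ∈ Dg (cut hs hU), d y = l y) ∨ ∃ t k, k < K ∧ ∃ u ∈ U t, y = w s t k u)
    ⟨0, fun U hU y => Or.inl ⟨1, Subgroup.one_mem _, rfl⟩⟩ ?_ hd
  rintro v d hd' ⟨K, hK⟩
  obtain ⟨k, hk⟩ := normal hs v ((Dg s).inv_mem hd')
  refine ⟨max K (k + 1), fun U hU y => ?_⟩
  rcases hK U hU y with ⟨l, hl, h1⟩ | ⟨t, j, hj, u, hu, h1⟩
  · by_cases h2 : d y ∈ U v
    · refine Or.inr ⟨v, k, by omega, ?_⟩
      have h3 : y = (d⁻¹ : X ≃ₜ X) (d y) := (d.symm_apply_apply y).symm
      rcases hk with hk | hk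
      · exact ⟨_, h2, by rw [← hk]; exact h3⟩
      · refine ⟨_, hU.inv v _ h2, ?_⟩
        rw [hk] at h3
        exact h3
    · refine Or.inl ⟨cut hs hU v * l, Subgroup.mul_mem _ (s_mem _ v) hl, ?_⟩
      change s v (d y) = cut hs hU v (l y)
      rw [← h1, cut_notMem hs hU h2]
  · exact Or.inr ⟨t, j, by omega, u, hu, h1⟩

/-- The points of the half line near a fixed point are in one segment, if the nonextreme ones are
not near the fixed points. -/
theorem seg {t : Bool} {u : X} {M : ℕ} (h : ∀ i < M, w s t i u ∉ U (lt t i)) {i : ℕ}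
    (hi : i ≤ M) : ∃ l ∈ Dg (cut hs hU), w s t i u = l u := by
  induction i with
  | zero => exact ⟨1, Subgroup.one_mem _, rfl⟩
  | succ i ih =>
    obtain ⟨l, hl, h1⟩ := ih (by omega)
    refine ⟨cut hs hU (lt t i) * l, Subgroup.mul_mem _ (s_mem _ _) hl, ?_⟩
    change s (lt t i) (w s t i u) = cut hs hU (lt t i) (l u)
    rw [← h1, cut_notMem hs hU (h i (by omega))]

/-- The group generated by the cut involutions is finite. -/
theorem finite_cut [CompactSpace X]
    (hmin : ∀ S : Set X, IsClosed S → S.Nonempty → (∀ t, ∀ x ∈ S, s t x ∈ S) →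
      ∃ x ∈ S, ∃ t, s t x = x) : Finite (Dg (cut hs hU)) := by
  have hUo : IsOpen (U false ∪ U true) := (hU.clopen false).isOpen.union (hU.clopen true).isOpen
  have hmin1 : ∀ S : Set X, IsClosed S → S.Nonempty → (∀ x ∈ S, s false x ∈ S) →
      (∀ x ∈ S, s true x ∈ S) → ∃ x ∈ S, s false x = x ∨ s true x = x := by
    intro S h1 h2 h3 h4
    obtain ⟨x, hx, t, ht⟩ := hmin S h1 h2 (by
      intro t
      cases t with
      | false => exact h3
      | true => exact h4)
    refine ⟨x, hx, ?_⟩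
    cases t with
    | false => exact Or.inl ht
    | true => exact Or.inr ht
  obtain ⟨N, hN⟩ := visit (hs false) (hs true) hmin1 hUo (by
    rintro x (h | h)
    · exact Or.inl (hU.fix false x h)
    · exact Or.inr (hU.fix true x h))
  obtain ⟨N', hN'⟩ := visit (hs true) (hs false) (fun S h1 h2 h3 h4 => by
    obtain ⟨x, hx, h⟩ := hmin1 S h1 h2 h4 h3
    exact ⟨x, hx, h.symm⟩) (U := U true ∪ U false) ((hU.clopen true).isOpen.union
      (hU.clopen false).isOpen) (by
    rintro x (h | h)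
    · exact Or.inl (hU.fix true x h)
    · exact Or.inr (hU.fix false x h))
  have hit : ∀ (a b : X ≃ₜ X) (m : ℕ) (y : X), (fun z => a (b z))^[m] y = ((a * b) ^ m) y := by
    intro a b m y
    induction m with
    | zero => rfl
    | succ m ih =>
      rw [Function.iterate_succ_apply', ih, pow_succ']
      rfl
  have hA : ∀ t z, s t z ∈ U t → z ∈ U t := fun t z hz => by
    by_contra h
    exact hU.notMem hs h hz
  have h1 : ∀ y, ∃ k ≤ 2 * max N N', ((cut hs hU true * cut hs hU false) ^ k * cut hs hU true) y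
      = y := by
    intro y
    obtain ⟨m, hm, hmN, h2⟩ := hN y
    rw [← hit] at h2
    obtain ⟨k, hk, h3⟩ := word_fix (cut_sq hs hU false) (cut_sq hs hU true) (A := U false)
      (B := U true) (fun z hz => cut_notMem hs hU hz) (fun z hz => cut_mem hs hU hz)
      (fun z hz => cut_notMem hs hU hz) (fun z hz => cut_mem hs hU hz) (hA false) hm h2
    exact ⟨k, by have := le_max_left N N'; omega, h3⟩
  have h2 : ∀ y, ∃ k ≤ 2 * max N N', ((cut hs hU false * cut hs hU true) ^ k * cut hs hU false) y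
      = y := by
    intro y
    obtain ⟨m, hm, hmN, h2⟩ := hN' y
    rw [← hit] at h2
    obtain ⟨k, hk, h3⟩ := word_fix (cut_sq hs hU true) (cut_sq hs hU false) (A := U true)
      (B := U false) (fun z hz => cut_notMem hs hU hz) (fun z hz => cut_mem hs hU hz)
      (fun z hz => cut_notMem hs hU hz) (fun z hz => cut_mem hs hU hz) (hA true) hm h2
    exact ⟨k, by have := le_max_right N N'; omega, h3⟩
  exact finite_Dg (cut_sq hs hU) (Nat.factorial_pos _) (pow_eq_one h1 h2)

end cut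

end Pool.Agent.FS.Dih
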