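import Pool.Agent.FS.DihFin

/-!
# Fragmentations of dihedral actions are in every `ExtClass`
-/

set_option autoImplicit false

open Filter Topology

namespace Pool.Agent.FS.Dih

open Pool.Agent.Helper29.BA Pool.Agent.Helper29.PA

variable {C : ∀ (G : Type) [Group G], Prop} {X : Type} [TopologicalSpace X] {s : Bool → X ≃ₜ X}
  (hs : ∀ t, s t * s t = 1) (hper : ∀ (x : X) (n : ℕ), 0 < n → ((s false * s true) ^ n) x ≠ x)
  (hF : ∀ t, {x : X | s t x = x}.Finite)

section

variable [T2Space X] [CompactSpace X] [TotallyDisconnectedSpace X]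

include hs hF

/-- Small cuts. -/
theorem exists_adm {N : Bool → Set X} (hN : ∀ t x, s t x = x → N t ∈ 𝓝 x) :
    ∃ U, Adm s U ∧ ∀ t, U t ⊆ N t := by
  have h1 : ∀ t x, s t x = x → ∃ V : Set X, IsClopen V ∧ x ∈ V ∧ V ⊆ N t := by
    intro t x hx
    obtain ⟨V, hV, h1, h2⟩ := compact_exists_isClopen_in_isOpen
      (isOpen_interior (s := N t)) (mem_interior_iff_mem_nhds.2 (hN t x hx))
    exact ⟨V, hV, h1, h2.trans interior_subset⟩
  choose! V hV hxV hVN using h1
  let V' : Bool → Set X := fun t => ⋃ x ∈ {x : X | s t x = x}, V t x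
  have hV' : ∀ t, IsClopen (V' t) := fun t => (hF t).isClopen_biUnion fun x hx => hV t x hx
  refine ⟨fun t => V' t ∩ s t ⁻¹' V' t, ⟨fun t => (hV' t).inter ((hV' t).preimage (s t).continuous),
    fun t x hx => ⟨hx.2, by rw [Set.mem_preimage, s_s hs]; exact hx.1⟩, fun t x hx => ?_⟩,
    fun t x hx => ?_⟩
  · have h2 : x ∈ V' t := Set.mem_biUnion (show x ∈ {x : X | s t x = x} from hx) (hxV t x hx)
    exact ⟨h2, by rw [Set.mem_preimage, hx]; exact h2⟩
  · obtain ⟨z, hz, h2⟩ := Set.mem_iUnion₂.1 hx.1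
    exact hVN t z hz h2

include hper

omit hF [T2Space X] [CompactSpace X] [TotallyDisconnectedSpace X] in
/-- The reflection `s u` does not fix the `i`-th point of a half line if it leads to the next
point. -/
theorem next_ne {t : Bool} {x : X} (hx : s t x = x) (i : ℕ) :
    s (lt t i) (w s t i x) ≠ w s t i x := by
  intro h
  have h1 : R s (lt t i) 0 (w s t i x) = w s t i x := by
    rw [show R s (lt t i) 0 = s (lt t i) by simp [R, w]]
    exact h
  have h2 : R s t i (w s t i x) = w s t i x := by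
    change w s t i (s t ((w s t i).symm (w s t i x))) = _
    rw [(w s t i).symm_apply_apply, hx]
  obtain ⟨h3, h4⟩ := R_unique hs hper h1 h2
  subst h4
  rw [lt] at h3
  cases t <;> simp at h3

theorem exists_cut {h : X ≃ₜ X} (hh : h ∈ HD hs hper) :
    ∃ U, ∃ hU : Adm s U, ∀ y, ∃ l ∈ Dg (cut hs hU), h y = l y := by
  classical
  choose d hd hn hh' using hh
  obtain ⟨T, hT⟩ := CompactSpace.elim_nhds_subcover (fun x => {y | h y = d x y}) hh'
  have hT' : ∀ y, ∃ x ∈ T, h y = d x y := by
    intro y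
    have h2 : y ∈ ⋃ z ∈ T, {y | h y = d z y} := by
      rw [hT]
      trivial
    simp only [Set.mem_iUnion, Set.mem_ofPred_eq] at h2
    obtain ⟨z, hz, h3⟩ := h2
    exact ⟨z, hz, h3⟩
  have hp := fun x => path hs (hd x)
  choose K hK using hp
  let K₀ := T.sup K
  -- the movement along the half lines
  have hm : ∀ (t : Bool) (x : X) (k : ℕ), s t x = x →
      ∃ m, ∀ᶠ u in 𝓝 x, h (w s t k u) = w s t m u := by
    intro t x k hx
    have h2 : R s t k (w s t k x) = w s t k x := by
      change w s t k (s t ((w s t k).symm (w s t k x))) = _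
      rw [(w s t k).symm_apply_apply, hx]
    obtain ⟨m, hm⟩ := hn (w s t k x) t k h2
    refine ⟨m, ?_⟩
    have h3 := (map_nhds_homeo (w s t k) x).1 (hh' (w s t k x))
    filter_upwards [h3] with u hu
    rw [hu]
    exact congrArg (fun z : X ≃ₜ X => z u) hm
  choose! m hm using hm
  let M : ℕ := (Finset.univ.sup fun t : Bool => (hF t).toFinset.sup fun x =>
    (Finset.range K₀).sup fun k => m t x k) + K₀ + 1
  have hM : ∀ t x k, s t x = x → k < K₀ → m t x k < M := by
    intro t x k hx hk
    have h1 : m t x k ≤ (Finset.range K₀).sup fun k => m t x k :=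
      Finset.le_sup (f := fun k => m t x k) (Finset.mem_range.2 hk)
    have h2 : ((Finset.range K₀).sup fun k => m t x k) ≤ (hF t).toFinset.sup fun x =>
        (Finset.range K₀).sup fun k => m t x k :=
      Finset.le_sup (f := fun x => (Finset.range K₀).sup fun k => m t x k)
        ((hF t).mem_toFinset.2 hx)
    have h3 : ((hF t).toFinset.sup fun x => (Finset.range K₀).sup fun k => m t x k) ≤
        Finset.univ.sup fun t : Bool => (hF t).toFinset.sup fun x =>
          (Finset.range K₀).sup fun k => m t x k :=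
      Finset.le_sup (f := fun t : Bool => (hF t).toFinset.sup fun x =>
          (Finset.range K₀).sup fun k => m t x k) (Finset.mem_univ t)
    omega
  -- separation
  have hsep : ∀ (t : Bool) (i : ℕ), ∃ A B : Set X, IsOpen A ∧ IsOpen B ∧
      (fun z => w s t i z) '' {x : X | s t x = x} ⊆ A ∧ {x : X | s (lt t i) x = x} ⊆ B ∧
      Disjoint A B := by
    intro t i
    refine normal_separation ((hF t).image _).isClosed (hF (lt t i)).isClosed ?_
    refine Set.disjoint_left.2 ?_
    rintro _ ⟨x, hx, rfl⟩ h2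
    exact next_ne hs hper hx i h2
  choose A B hA hB hA' hB' hAB using hsep
  obtain ⟨U, hU, hUN⟩ := exists_adm hs hF (N := fun t =>
    {u | (∀ k ∈ Finset.range K₀, ∃ m, m < M ∧ h (w s t k u) = w s t m u) ∧
      (∀ i ∈ Finset.range M, w s t i u ∈ A t i) ∧
      ∀ t' ∈ (Finset.univ : Finset Bool), ∀ i ∈ Finset.range M, lt t' i = t → u ∈ B t' i}) (by
    intro t x hx
    refine Filter.Eventually.and ?_ (Filter.Eventually.and ?_ ?_)
    · rw [eventually_all_finset]
      intro k hk
      filter_upwards [hm t x k hx] with u hu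
      exact ⟨_, hM t x k hx (Finset.mem_range.1 hk), hu⟩
    · rw [eventually_all_finset]
      intro i _
      exact ((hA t i).preimage (w s t i).continuous).mem_nhds (hA' t i ⟨x, hx, rfl⟩)
    · rw [eventually_all_finset]
      intro t' _
      rw [eventually_all_finset]
      intro i _
      by_cases h2 : lt t' i = t
      · filter_upwards [(hB t' i).mem_nhds (hB' t' i (by rw [h2]; exact hx))] with u hu _
        exact hu
      · exact Eventually.of_forall fun u h3 => absurd h3 h2)
  refine ⟨U, hU, fun y => ?_⟩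
  obtain ⟨x, hx, hxy⟩ := hT' y
  rcases hK x U hU y with ⟨l, hl, h1⟩ | ⟨t, k, hk, u, hu, h1⟩
  · exact ⟨l, hl, by rw [hxy, h1]⟩
  · have hkK : k < K₀ := lt_of_lt_of_le hk (Finset.le_sup hx)
    obtain ⟨h2, h3, -⟩ := hUN t hu
    obtain ⟨n, hn', h4⟩ := h2 k (Finset.mem_range.2 hkK)
    have h5 : ∀ i < M, w s t i u ∉ U (lt t i) := by
      intro i hi h6
      have h7 := (hUN (lt t i) h6).2.2 t (Finset.mem_univ _) i (Finset.mem_range.2 hi) rfl
      exact Set.disjoint_left.1 (hAB t i) (h3 i (Finset.mem_range.2 hi)) h7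
    obtain ⟨l, hl, h6⟩ := seg hs hU h5 (i := k) (by omega)
    obtain ⟨l', hl', h7⟩ := seg hs hU h5 (i := n) (by omega)
    refine ⟨l' * l⁻¹, Subgroup.mul_mem _ hl' (Subgroup.inv_mem _ hl), ?_⟩
    change h y = l' (l.symm y)
    rw [h1, h4, h6, h7, l.symm_apply_apply]

theorem locFin_HD
    (hmin : ∀ S : Set X, IsClosed S → S.Nonempty → (∀ t, ∀ x ∈ S, s t x ∈ S) →
      ∃ x ∈ S, ∃ t, s t x = x) : LocFin (HD hs hper) := by
  classical
  intro T hT
  have h1 := fun h (hh : h ∈ T) => exists_cut hs hper hF (hT h hh)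
  choose! U hU hl using h1
  let V : Bool → Set X := fun t => ⋂ h ∈ T, U h t
  have hV : Adm s V :=
    { clopen := fun t => T.finite_toSet.isClopen_biInter fun h hh => (hU h hh).clopen t
      inv := fun t x hx => Set.mem_iInter₂.2 fun h hh => (hU h hh).inv t x
        (Set.mem_iInter₂.1 hx h hh)
      fix := fun t x hx => Set.mem_iInter₂.2 fun h hh => (hU h hh).fix t x hx }
  have hfin := finite_cut hs hV hmin
  refine finite_closure_orbits (L := Dg (cut hs hV)) (toP (X := X)) ?_ T fun h hh y => ?_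
  · intro a b hab
    exact Homeomorph.ext fun z => congrArg (fun u : Equiv.Perm X => u z) hab
  · obtain ⟨l, hl', h2⟩ := hl h hh y
    obtain ⟨l', hl'', h3⟩ := cut_mono hs hV (hU h hh) (fun t x hx => Set.mem_iInter₂.1 hx h hh) hl' y
    refine ⟨⟨l', hl''⟩, ?_⟩
    change h y = l' y
    rw [h2, h3]

/-- The fragmentations of a dihedral action. -/
theorem frag_mem (hC : ExtClass C)
    (hmin : ∀ S : Set X, IsClosed S → S.Nonempty → (∀ t, ∀ x ∈ S, s t x ∈ S) →
      ∃ x ∈ S, ∃ t, s t x = x) : C (Frag (Dg s)) :=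
  mainG hC (hypG hs hper hF) (locFin_HD hs hper hF hmin) fun x _ => germ_mem hs hper hC x

end

end Pool.Agent.FS.Dih
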