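import Mathlib

/-!
# Words in two involutions
-/

set_option autoImplicit false

namespace Pool.Agent.FS.Dih

variable {A : Type} [Group A] (s : Bool → A)

/-- The letters of the alternating word which begins (on the right) with the letter `!t`. -/
def lt (t : Bool) : ℕ → Bool
  | 0 => !t
  | k + 1 => !(lt t k)

/-- The alternating word of length `k` which begins (on the right) with the letter `!t`. -/
def w (t : Bool) : ℕ → A
  | 0 => 1
  | k + 1 => s (lt t k) * w t k

/-- The reflections. -/
def R (t : Bool) (k : ℕ) : A := w s t k * s t * (w s t k)⁻¹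

/-- The position of a reflection. -/
def e (t : Bool) (k : ℕ) : ℤ := if lt t k then (k : ℤ) else -((k : ℤ) + 1)

/-- The group generated by the two involutions. -/
abbrev Dg : Subgroup A := Subgroup.closure (Set.range s)

theorem lt_inj {t u : Bool} {k : ℕ} (h : lt t k = lt u k) : t = u := by
  induction k with
  | zero => simpa [lt] using h
  | succ k ih =>
    refine ih ?_
    simpa [lt] using h

theorem lt_not (t : Bool) (k : ℕ) : lt (!t) k = !(lt t k) := by
  induction k with
  | zero => rfl
  | succ k ih => simp only [lt, ih]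

theorem e_inj {t u : Bool} {k m : ℕ} (h : e t k = e u m) : t = u ∧ k = m := by
  unfold e at h
  by_cases h1 : lt t k = true
  · by_cases h2 : lt u m = true
    · rw [if_pos h1, if_pos h2] at h
      have h3 : k = m := by exact_mod_cast h
      subst h3
      exact ⟨lt_inj (h1.trans h2.symm), rfl⟩
    · rw [if_pos h1, if_neg h2] at h
      omega
  · by_cases h2 : lt u m = true
    · rw [if_neg h1, if_pos h2] at h
      omega
    · rw [if_neg h1, if_neg h2] at h
      have h3 : k = m := by omega
      subst h3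
      refine ⟨lt_inj (k := k) ?_, rfl⟩
      rw [Bool.not_eq_true] at h1 h2
      rw [h1, h2]

theorem e_surj (n : ℤ) : ∃ t k, e t k = n := by
  have key : ∀ (k : ℕ) (v : Bool), ∃ t, lt t k = v := by
    intro k v
    by_cases h : lt false k = v
    · exact ⟨false, h⟩
    · refine ⟨true, ?_⟩
      have h1 := lt_not false k
      rw [show (!false) = true from rfl] at h1
      rw [h1]
      revert h
      cases lt false k <;> cases v <;> simp
  by_cases hn : 0 ≤ n
  · obtain ⟨t, ht⟩ := key n.toNat true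
    refine ⟨t, n.toNat, ?_⟩
    rw [e, if_pos ht]
    omega
  · obtain ⟨t, ht⟩ := key (-n - 1).toNat false
    refine ⟨t, (-n - 1).toNat, ?_⟩
    rw [e, if_neg (by rw [ht]; decide)]
    omega

theorem s_mem (t : Bool) : s t ∈ Dg s := Subgroup.subset_closure ⟨t, rfl⟩

theorem w_mem (t : Bool) (k : ℕ) : w s t k ∈ Dg s := by
  induction k with
  | zero => exact Subgroup.one_mem _
  | succ k ih => exact Subgroup.mul_mem _ (s_mem s _) ih

theorem R_mem (t : Bool) (k : ℕ) : R s t k ∈ Dg s :=
  Subgroup.mul_mem _ (Subgroup.mul_mem _ (w_mem s t k) (s_mem s t)) (Subgroup.inv_mem _ (w_mem s t k))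

variable {s} (hs : ∀ t, s t * s t = 1)

include hs

theorem s_inv (t : Bool) : (s t)⁻¹ = s t := inv_eq_of_mul_eq_one_right (hs t)

/-- Induction over the group generated by the two involutions. -/
theorem ind {p : A → Prop} (h1 : p 1) (h2 : ∀ u d, d ∈ Dg s → p d → p (s u * d)) {d : A}
    (hd : d ∈ Dg s) : p d := by
  refine Subgroup.closure_induction_left (p := fun x _ => p x) h1 ?_ ?_ hd
  · rintro x ⟨u, rfl⟩ y hy h
    exact h2 u y hy h
  · rintro x ⟨u, rfl⟩ y hy h
    rw [s_inv hs]
    exact h2 u y hy h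

theorem s_mul_w (u t : Bool) (k : ℕ) : (u = lt t k ∧ s u * w s t k = w s t (k + 1)) ∨
    (k = 0 ∧ u = t) ∨ (∃ j, k = j + 1 ∧ s u * w s t k = w s t j) := by
  by_cases h : u = lt t k
  · subst h
    exact Or.inl ⟨rfl, rfl⟩
  · cases k with
    | zero =>
      refine Or.inr (Or.inl ⟨rfl, ?_⟩)
      have h1 : lt t 0 = !t := rfl
      rw [h1] at h
      cases u <;> cases t <;> simp_all
    | succ j =>
      refine Or.inr (Or.inr ⟨j, rfl, ?_⟩)
      have h1 : lt t (j + 1) = !(lt t j) := rfl
      rw [h1] at h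
      have h2 : u = lt t j := by
        revert h
        cases u <;> cases lt t j <;> simp
      rw [h2]
      change s (lt t j) * (s (lt t j) * w s t j) = _
      rw [← mul_assoc, hs, one_mul]

/-- The normal form. -/
theorem normal (t : Bool) {d : A} (hd : d ∈ Dg s) : ∃ k, d = w s t k ∨ d = w s t k * s t := by
  refine ind hs (p := fun d => ∃ k, d = w s t k ∨ d = w s t k * s t) ⟨0, Or.inl rfl⟩ ?_ hd
  rintro u d - ⟨k, h | h⟩
  · rcases s_mul_w hs u t k with ⟨-, h1⟩ | ⟨h1, h2⟩ | ⟨j, -, h1⟩
    · exact ⟨_, Or.inl (by rw [h, h1])⟩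
    · subst h1 h2
      exact ⟨0, Or.inr (by rw [h]; simp [w])⟩
    · exact ⟨_, Or.inl (by rw [h, h1])⟩
  · rcases s_mul_w hs u t k with ⟨-, h1⟩ | ⟨h1, h2⟩ | ⟨j, -, h1⟩
    · exact ⟨_, Or.inr (by rw [h, ← mul_assoc, h1])⟩
    · subst h1 h2
      exact ⟨0, Or.inl (by rw [h]; simp [w, hs])⟩
    · exact ⟨_, Or.inr (by rw [h, ← mul_assoc, h1])⟩

/-- Away from the beginning of the half line an element acts without folding. -/
theorem tail {d : A} (hd : d ∈ Dg s) :
    ∃ K, ∀ t k, K ≤ k → ∃ m, k ≤ m + K ∧ d * w s t k = w s t m := by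
  refine ind hs (p := fun d => ∃ K, ∀ t k, K ≤ k → ∃ m, k ≤ m + K ∧ d * w s t k = w s t m)
    ⟨0, fun t k _ => ⟨k, le_rfl, one_mul _⟩⟩ ?_ hd
  rintro u d - ⟨K, h⟩
  refine ⟨K + 1, fun t k hk => ?_⟩
  obtain ⟨m, hm, h1⟩ := h t k (by omega)
  rcases s_mul_w hs u t m with ⟨-, h2⟩ | ⟨h2, -⟩ | ⟨j, h3, h2⟩
  · exact ⟨m + 1, by omega, by rw [mul_assoc, h1, h2]⟩
  · omega
  · exact ⟨j, by omega, by rw [mul_assoc, h1, h2]⟩

theorem a_conj (n : ℤ) : s false * (s false * s true) ^ n = (s false * s true) ^ (-n) * s false := by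
  have h1 : s false * (s false * s true) * (s false)⁻¹ = (s false * s true)⁻¹ := by
    rw [mul_inv_rev, s_inv hs, s_inv hs, ← mul_assoc, hs, one_mul]
  have h2 := congrArg (fun z => z ^ n) h1
  simp only [conj_zpow, inv_zpow'] at h2
  rw [← h2, inv_mul_cancel_right]

theorem b_eq : s true = (s false * s true) ^ (-1 : ℤ) * s false := by
  rw [zpow_neg_one, mul_inv_rev, s_inv hs, s_inv hs, mul_assoc, hs, mul_one]

theorem b_conj (n : ℤ) : s true * (s false * s true) ^ n =
    (s false * s true) ^ (-1 + -n) * s false :=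
  calc s true * (s false * s true) ^ n
      = ((s false * s true) ^ (-1 : ℤ) * s false) * (s false * s true) ^ n := by rw [← b_eq hs]
    _ = (s false * s true) ^ (-1 + -n) * s false := by
      rw [mul_assoc, a_conj hs, ← mul_assoc, ← zpow_add]

theorem a_conj' (n : ℤ) : s false * ((s false * s true) ^ n * s false) =
    (s false * s true) ^ (-n) := by
  rw [← mul_assoc, a_conj hs, mul_assoc, hs, mul_one]

theorem b_conj' (n : ℤ) : s true * ((s false * s true) ^ n * s false) =
    (s false * s true) ^ (-1 + -n) := by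
  rw [← mul_assoc, b_conj hs, mul_assoc, hs, mul_one]

/-- The form with powers of the translation. -/
theorem zform {d : A} (hd : d ∈ Dg s) :
    ∃ n : ℤ, d = (s false * s true) ^ n ∨ d = (s false * s true) ^ n * s false := by
  refine ind hs (p := fun d => ∃ n : ℤ, d = (s false * s true) ^ n ∨
    d = (s false * s true) ^ n * s false) ⟨0, Or.inl (zpow_zero _).symm⟩ ?_ hd
  rintro u d - ⟨n, h | h⟩
  · cases u with
    | false => exact ⟨-n, Or.inr (by rw [h, a_conj hs])⟩
    | true => exact ⟨-1 + -n, Or.inr (by rw [h, b_conj hs])⟩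
  · cases u with
    | false => exact ⟨-n, Or.inl (by rw [h, a_conj' hs])⟩
    | true => exact ⟨-1 + -n, Or.inl (by rw [h, b_conj' hs])⟩

theorem R_eq (t : Bool) (k : ℕ) : R s t k = (s false * s true) ^ (e t k) * s false := by
  induction k with
  | zero =>
    cases t with
    | false => simp [R, w, e, lt]
    | true =>
      have h1 : e true 0 = -1 := by simp [e, lt]
      rw [h1, ← b_eq hs]
      simp [R, w]
  | succ k ih =>
    have h1 : R s t (k + 1) = s (lt t k) * R s t k * s (lt t k) := by
      change s (lt t k) * w s t k * s t * (s (lt t k) * w s t k)⁻¹ = _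
      rw [mul_inv_rev, s_inv hs, R]
      simp only [mul_assoc]
    rw [h1, ih]
    rcases h2 : lt t k with _ | _
    · have h3 : e t k = -((k : ℤ) + 1) := by rw [e, if_neg (by rw [h2]; decide)]
      have h4 : e t (k + 1) = (k : ℤ) + 1 := by
        rw [e, if_pos (by simp [lt, h2])]
        push_cast
        rfl
      rw [h3, h4, ← mul_assoc, a_conj hs, mul_assoc (_ ^ _), hs, mul_one, neg_neg]
    · have h3 : e t k = (k : ℤ) := by rw [e, if_pos h2]
      have h4 : e t (k + 1) = -((k : ℤ) + 2) := by
        rw [e, if_neg (by simp [lt, h2])]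
        push_cast
        ring
      rw [h3, h4, b_conj' hs]
      have h5 : (-((k : ℤ) + 2)) = (-1 + -(k : ℤ)) + -1 := by ring
      rw [h5, zpow_add _ (-1 + -(k : ℤ)), mul_assoc, ← b_eq hs]

end Pool.Agent.FS.Dih
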