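import Pool.Agent.FS.FinSg

/-!
# Directed groups

`H` is a group of homeomorphisms and the `K j` are groups of homeomorphisms which fix a point
`x j` and agree with elements of `H` near all other points. The group generated by `H` and the
`K j` satisfies the hypotheses of the main theorem, and its groups of germs are those of the
groups `K j` at the points `x j`.
-/

set_option autoImplicit false

open Filter Topology

namespace Pool.Agent.FS

open Pool.Agent.Helper29.BA Pool.Agent.Helper29.PA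

variable {X : Type} [TopologicalSpace X]

/-- The groups `K j` are directed towards the points `x j`. -/
structure Directed (H : Subgroup (X ≃ₜ X)) {J : Type} (x : J → X) (K : J → Subgroup (X ≃ₜ X)) :
    Prop where
  orb : ∀ j j', ∀ h ∈ H, h (x j) = x j' → j = j'
  fix : ∀ j, ∀ h ∈ H, h (x j) = x j → ∀ᶠ y in 𝓝 (x j), h y = y
  pt : ∀ j, ∀ k ∈ K j, k (x j) = x j
  off : ∀ j, ∀ k ∈ K j, ∀ y, y ≠ x j → At H k y
  nbd : ∀ j, ∀ E : Finset (X ≃ₜ X), (∀ k ∈ E, k ∈ K j) → ∀ W ∈ 𝓝 (x j),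
    ∃ V, IsClopen V ∧ x j ∈ V ∧ V ⊆ W ∧ ∀ k ∈ E, k '' V = V

variable {H : Subgroup (X ≃ₜ X)} {J : Type} {x : J → X} {K : J → Subgroup (X ≃ₜ X)}

namespace Directed

theorem symm_eq {h : X ≃ₜ X} {y z : X} (e : h y = z) : (h⁻¹ : X ≃ₜ X) z = y := by
  rw [← e]
  exact h.symm_apply_apply y

/-- Two elements of `H` with the same value at `x j` agree near `x j`. -/
theorem eq_near (hD : Directed H x K) {j : J} {h h' : X ≃ₜ X} (hh : h ∈ H) (hh' : h' ∈ H)
    (e : h (x j) = h' (x j)) : ∀ᶠ y in 𝓝 (x j), h y = h' y := by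
  have h1 := hD.fix j (h'⁻¹ * h) (H.mul_mem (H.inv_mem hh') hh) (by
    change (h'⁻¹ : X ≃ₜ X) (h (x j)) = x j
    exact symm_eq e.symm)
  filter_upwards [h1] with y hy
  have h2 : h'.symm (h y) = y := hy
  rw [← h'.apply_symm_apply (h y), h2]

/-- Maps near a fixed point. -/
theorem comp_near {k : X ≃ₜ X} {z : X} (hk : k z = z) {p : X → Prop} (h : ∀ᶠ y in 𝓝 z, p y) :
    ∀ᶠ y in 𝓝 z, p (k y) := by
  rw [← map_nhds_homeo, hk]
  exact h

/-- The elements which near the singular points agree with elements of `H K j H`. -/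
def Q (hD : Directed H x K) : Subgroup (X ≃ₜ X) where
  carrier := {g | (∀ j, ∀ h ∈ H, ∃ h' ∈ H, ∃ k ∈ K j, ∀ᶠ y in 𝓝 (x j), g (h y) = h' (k y)) ∧
    ∀ y, (∀ j, ∀ h ∈ H, h (x j) ≠ y) → At H g y}
  one_mem' := ⟨fun j h hh => ⟨h, hh, 1, (K j).one_mem, Eventually.of_forall fun _ => rfl⟩,
    fun y _ => At.of_mem H.one_mem y⟩
  mul_mem' := by
    rintro a b ⟨ha1, ha2⟩ ⟨hb1, hb2⟩
    refine ⟨fun j h hh => ?_, fun y hy => ?_⟩
    · obtain ⟨h', hh', k, hk, h1⟩ := hb1 j h hh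
      obtain ⟨h'', hh'', k', hk', h2⟩ := ha1 j h' hh'
      refine ⟨h'', hh'', k' * k, (K j).mul_mem hk' hk, ?_⟩
      filter_upwards [h1, comp_near (hD.pt j k hk) h2] with y h3 h4
      change a (b (h y)) = h'' (k' (k y))
      rw [h3, h4]
    · have h1 := hb2 y hy
      refine At.mul (ha2 _ fun j h hh e => ?_) h1
      obtain ⟨h₀, hh₀, h2⟩ := h1
      have h3 : b y = h₀ y := h2.self_of_nhds
      refine hy j (h₀⁻¹ * h) (H.mul_mem (H.inv_mem hh₀) hh) ?_
      change (h₀⁻¹ : X ≃ₜ X) (h (x j)) = y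
      exact symm_eq (h3.symm.trans e.symm)
  inv_mem' := by
    rintro a ⟨ha1, ha2⟩
    refine ⟨fun j h hh => ?_, fun y hy => ?_⟩
    · by_cases hc : ∃ i, ∃ h₁ ∈ H, h₁ (x i) = (a⁻¹ : X ≃ₜ X) (h (x j))
      · obtain ⟨i, h₁, hh₁, e⟩ := hc
        obtain ⟨h', hh', k, hk, h1⟩ := ha1 i h₁ hh₁
        have h2 : a (h₁ (x i)) = h (x j) := by
          rw [e]
          exact a.apply_symm_apply _
        have h3 : h' (x i) = h (x j) := by
          rw [← h2, h1.self_of_nhds, hD.pt i k hk]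
        have h4 : i = j := hD.orb i j (h⁻¹ * h') (H.mul_mem (H.inv_mem hh) hh') (by
          change (h⁻¹ : X ≃ₜ X) (h' (x i)) = x j
          exact symm_eq h3.symm)
        subst h4
        have h5 := hD.eq_near hh' hh h3
        refine ⟨h₁, hh₁, k⁻¹, (K i).inv_mem hk, ?_⟩
        have hk' : (k⁻¹ : X ≃ₜ X) (x i) = x i := symm_eq (hD.pt i k hk)
        filter_upwards [comp_near hk' h1, h5] with y h6 h7
        have h8 : k ((k⁻¹ : X ≃ₜ X) y) = y := k.apply_symm_apply y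
        rw [h8, h7] at h6
        exact symm_eq h6
      · have hc' : ∀ i, ∀ h₁ ∈ H, h₁ (x i) ≠ (a⁻¹ : X ≃ₜ X) (h (x j)) := fun i h₁ hh₁ e =>
          hc ⟨i, h₁, hh₁, e⟩
        obtain ⟨h₀, hh₀, h1⟩ := ha2 _ hc'
        have h2 : a ((a⁻¹ : X ≃ₜ X) (h (x j))) = h₀ ((a⁻¹ : X ≃ₜ X) (h (x j))) := h1.self_of_nhds
        have h3 : a ((a⁻¹ : X ≃ₜ X) (h (x j))) = h (x j) := a.apply_symm_apply _
        rw [h3] at h2
        refine (hc ⟨j, h₀⁻¹ * h, H.mul_mem (H.inv_mem hh₀) hh, ?_⟩).elim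
        exact symm_eq h2.symm
    · have h1 : ∀ j, ∀ h ∈ H, h (x j) ≠ (a⁻¹ : X ≃ₜ X) y := by
        intro j h hh e
        obtain ⟨h', hh', k, hk, h2⟩ := ha1 j h hh
        refine hy j h' hh' ?_
        have h3 := h2.self_of_nhds
        rw [hD.pt j k hk, e] at h3
        rw [← h3]
        exact a.apply_symm_apply y
      have h2 : At H (toP a : Equiv.Perm X) ((a⁻¹ : X ≃ₜ X) y) := ha2 _ h1
      have h3 := h2.inv
      rw [← map_inv] at h3
      have h4 : toP a ((a⁻¹ : X ≃ₜ X) y) = y := a.apply_symm_apply y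
      rw [h4] at h3
      exact h3

theorem mem_Q {hD : Directed H x K} {g : X ≃ₜ X} : g ∈ hD.Q ↔
    (∀ j, ∀ h ∈ H, ∃ h' ∈ H, ∃ k ∈ K j, ∀ᶠ y in 𝓝 (x j), g (h y) = h' (k y)) ∧
    ∀ y, (∀ j, ∀ h ∈ H, h (x j) ≠ y) → At H g y := Iff.rfl

theorem le_Q (hD : Directed H x K) : H ≤ hD.Q := fun g hg =>
  ⟨fun j h hh => ⟨g * h, H.mul_mem hg hh, 1, (K j).one_mem, Eventually.of_forall fun _ => rfl⟩,
    fun y _ => At.of_mem hg y⟩

theorem K_le_Q (hD : Directed H x K) (i : J) : K i ≤ hD.Q := by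
  intro g hg
  refine ⟨fun j h hh => ?_, fun y hy => hD.off i g hg y fun e => hy i 1 H.one_mem e.symm⟩
  by_cases e : h (x j) = x i
  · obtain rfl := hD.orb j i h hh e
    refine ⟨1, H.one_mem, g, hg, ?_⟩
    filter_upwards [hD.fix j h hh e] with y hy
    rw [hy]
    rfl
  · obtain ⟨a, ha, h1⟩ := hD.off i g hg _ e
    rw [map_nhds_homeo] at h1
    exact ⟨a * h, H.mul_mem ha hh, 1, (K j).one_mem, h1⟩

/-- The group generated by `H` and the `K j`. -/
theorem sup_le_Q (hD : Directed H x K) : H ⊔ ⨆ j, K j ≤ hD.Q :=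
  sup_le hD.le_Q (iSup_le hD.K_le_Q)

/-- The singular points. -/
theorem exists_of_Sg (hD : Directed H x K) {G : Subgroup (X ≃ₜ X)} (hG : G ≤ hD.Q) {y : X}
    (hy : Sg H G y) : ∃ j, ∃ h ∈ H, h (x j) = y := by
  by_contra hc
  obtain ⟨g, hg, h1⟩ := hy
  exact h1 ((hG hg).2 y fun j h hh e => hc ⟨j, h, hh, e⟩)

theorem le_FinSg [T1Space X] (hD : Directed H x K) : H ⊔ ⨆ j, K j ≤ FinSg H := by
  refine sup_le (FS.le_FinSg H) (iSup_le fun j k hk => ?_)
  refine (Set.finite_singleton (x j)).subset fun y hy => ?_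
  by_contra h
  exact hy (hD.off j k hk y h)

/-- The hypotheses of the main theorem. -/
theorem hypG [T1Space X] (hD : Directed H x K) {G : Subgroup (X ≃ₜ X)} (hHG : H ≤ G)
    (hG : G ≤ hD.Q) (hG' : G ≤ FinSg H) : HypG H G where
  le := hHG
  fix := by
    intro y hy h hh e
    obtain ⟨j, h₀, hh₀, rfl⟩ := hD.exists_of_Sg hG hy
    have h1 := hD.eq_near (H.mul_mem hh hh₀) hh₀ e
    rw [map_nhds_homeo]
    exact h1
  sing := fun g hg => hG' hg
  nbd := by
    classical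
    intro y hy E hE W hW
    obtain ⟨j, h₀, hh₀, rfl⟩ := hD.exists_of_Sg hG hy
    have h1 : ∀ g ∈ E, ∃ h' ∈ H, ∃ k ∈ K j, ∀ᶠ y in 𝓝 (x j), g (h₀ y) = h' (k y) := fun g hg =>
      (hG (hE g hg)).1 j h₀ hh₀
    choose! h' hh' k hk h2 using h1
    have h3 : ∀ᶠ y in 𝓝 (x j), h₀ y ∈ W ∧ ∀ g ∈ E, g (h₀ y) = h' g (k g y) ∧
        (g (h₀ (x j)) = h₀ (x j) → h' g y = h₀ y) := by
      refine Eventually.and ((map_nhds_homeo h₀ (x j)).1 hW)
        ((Filter.eventually_all_finset E).2 fun g hg => ?_)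
      refine (h2 g hg).and ?_
      by_cases e : g (h₀ (x j)) = h₀ (x j)
      · have h4 : h' g (x j) = h₀ (x j) := by
          have h5 := (h2 g hg).self_of_nhds
          rw [hD.pt j _ (hk g hg)] at h5
          exact h5.symm.trans e
        filter_upwards [hD.eq_near (hh' g hg) hh₀ h4] with y hy _
        exact hy
      · exact Eventually.of_forall fun y e' => (e e').elim
    obtain ⟨V, hV, hxV, hVW, hVk⟩ := hD.nbd j (E.image k) (fun a ha => by
      obtain ⟨g, hg, rfl⟩ := Finset.mem_image.1 ha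
      exact hk g hg) _ h3
    have key : ∀ g ∈ E, g '' (h₀ '' V) = h' g '' V := by
      intro g hg
      have h4 := hVk (k g) (Finset.mem_image_of_mem _ hg)
      rw [Set.image_image]
      conv_rhs => rw [← h4, Set.image_image]
      exact Set.image_congr fun y hy => ((hVW hy).2 g hg).1
    refine ⟨h₀ '' V, ⟨h₀.isClosed_image.2 hV.1, h₀.isOpen_image.2 hV.2⟩, ⟨_, hxV, rfl⟩, ?_,
      fun g hg => ⟨⟨toP (h' g * h₀⁻¹), mem_Full_of_mem (H.mul_mem (hh' g hg) (H.inv_mem hh₀)),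
        ?_⟩, fun e => ?_⟩⟩
    · rintro _ ⟨y, hy, rfl⟩
      exact (hVW hy).1
    · rw [key g hg, Set.image_image]
      refine Set.image_congr fun y _ => ?_
      change h' g y = h' g (h₀.symm (h₀ y))
      rw [h₀.symm_apply_apply]
    · rw [key g hg]
      exact Set.image_congr fun _ hy => ((hVW hy).2 g hg).2 e

/-- The germs at the singular points are germs of `K j`. -/
theorem germ_mem (hD : Directed H x K) {C : ∀ (G : Type) [Group G], Prop}
    (hC : ClosedClass C) {G : Subgroup (X ≃ₜ X)} (hHG : H ≤ G) (hKG : ∀ j, K j ≤ G)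
    (hG : G ≤ hD.Q) (hK : ∀ j, C (Germ (K j) (x j))) {y : X} (hy : Sg H G y) :
    C (Germ G y) := by
  obtain ⟨j, h₀, hh₀, rfl⟩ := hD.exists_of_Sg hG hy
  let f : Stab (K j) (x j) →* Stab G (h₀ (x j)) :=
    { toFun := fun k => ⟨h₀ * k.1 * h₀⁻¹, G.mul_mem (G.mul_mem (hHG hh₀) (hKG j k.2.1))
          (G.inv_mem (hHG hh₀)), by
        change h₀ (k.1 (h₀.symm (h₀ (x j)))) = h₀ (x j)
        rw [h₀.symm_apply_apply, k.2.2]⟩
      map_one' := Subtype.ext (by
        change h₀ * 1 * h₀⁻¹ = 1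
        group)
      map_mul' := fun a b => Subtype.ext (by
        change h₀ * (a.1 * b.1) * h₀⁻¹ = h₀ * a.1 * h₀⁻¹ * (h₀ * b.1 * h₀⁻¹)
        group) }
  have hf : ∀ (k : Stab (K j) (x j)) (y : X), (f k : X ≃ₜ X) (h₀ y) = h₀ ((k : X ≃ₜ X) y) := by
    intro k y
    change h₀ (k.1 (h₀.symm (h₀ y))) = h₀ (k.1 y)
    rw [h₀.symm_apply_apply]
  let F : Germ (K j) (x j) →* Germ G (h₀ (x j)) :=
    QuotientGroup.map (Triv (K j) (x j)) (Triv G (h₀ (x j))) f (by
      intro k hk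
      change ∀ᶠ y in 𝓝 (h₀ (x j)), (f k : X ≃ₜ X) y = y
      rw [map_nhds_homeo]
      have hk' : ∀ᶠ y in 𝓝 (x j), (k : X ≃ₜ X) y = y := hk
      filter_upwards [hk'] with y hy
      rw [hf, hy])
  have hinj : Function.Injective F := by
    rw [injective_iff_map_eq_one]
    intro q hq
    obtain ⟨k, rfl⟩ := QuotientGroup.mk_surjective q
    have h1 : ∀ᶠ y in 𝓝 (h₀ (x j)), (f k : X ≃ₜ X) y = y := germ_one hq
    rw [map_nhds_homeo] at h1
    refine (QuotientGroup.eq_one_iff k).2 ?_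
    change ∀ᶠ y in 𝓝 (x j), (k : X ≃ₜ X) y = y
    filter_upwards [h1] with y hy
    rw [hf] at hy
    exact h₀.injective hy
  have hsurj : Function.Surjective F := by
    intro q
    obtain ⟨g, rfl⟩ := QuotientGroup.mk_surjective q
    obtain ⟨h', hh', k, hk, h1⟩ := (hG g.2.1).1 j h₀ hh₀
    have h2 : h' (x j) = h₀ (x j) := by
      have h3 := h1.self_of_nhds
      rw [hD.pt j k hk] at h3
      exact h3.symm.trans g.2.2
    refine ⟨QuotientGroup.mk ⟨k, hk, hD.pt j k hk⟩, germ_eq ?_⟩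
    rw [map_nhds_homeo]
    filter_upwards [h1, comp_near (hD.pt j k hk) (hD.eq_near hh' hh₀ h2)] with y h3 h4
    rw [hf]
    change h₀ (k y) = (g : X ≃ₜ X) (h₀ y)
    rw [h3, h4]
  exact hC.iso _ _ (MulEquiv.ofBijective F ⟨hinj, hsurj⟩) (hK j)

end Directed

/-- **Directed groups.** -/
theorem directed_mem [CompactSpace X] [T2Space X] {C : ∀ (G : Type) [Group G], Prop}
    (hC : ExtClass C) (hD : Directed H x K) (hH : LocFin H)
    (hK : ∀ j, C (Germ (K j) (x j))) : C (H ⊔ ⨆ j, K j : Subgroup (X ≃ₜ X)) :=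
  mainG hC (hD.hypG le_sup_left hD.sup_le_Q hD.le_FinSg) hH fun _ hy =>
    hD.germ_mem hC.toClosedClass le_sup_left (fun j => (le_iSup K j).trans le_sup_right)
      hD.sup_le_Q hK hy

end Pool.Agent.FS
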