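import Pool.Agent.Helper29.PA.Defs

/-!
# The groups `F(H, K, P, D)`

`H` is a group, `K c` (`c : J`) are groups, `P c` are subgroups of `H` and `D c c'` are sets of
elements of `H`. The group `FG H K P D` is generated by `H` and all `K c`, with the relations of
these groups and: `K c` commutes with `P c`; `K c` commutes with `k K c' k⁻¹` for `k` in `D c c'`.
-/

set_option autoImplicit false

namespace Pool.Agent.FS

open Monoid

variable (H : Type) [Group H] {J : Type} (K : J → Type) [∀ c, Group (K c)]
  (P : J → Subgroup H) (D : J → J → Set H)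

/-- The free product of all groups. -/
abbrev FreeP : Type := Coprod H (CoprodI K)

/-- The inclusion of `H`. -/
def iH : H →* FreeP H K := Coprod.inl

/-- The inclusion of `K c`. -/
def iK (c : J) : K c →* FreeP H K := Coprod.inr.comp (CoprodI.of (M := K) (i := c))

/-- The relations. -/
def fRel : Set (FreeP H K) :=
  {w | (∃ c, ∃ p ∈ P c, ∃ x : K c,
      w = iH H K p * iK H K c x * (iH H K p)⁻¹ * (iK H K c x)⁻¹) ∨
    ∃ c c', ∃ k ∈ D c c', ∃ (x : K c) (y : K c'),
      w = iK H K c x * (iH H K k * iK H K c' y * (iH H K k)⁻¹) * (iK H K c x)⁻¹ *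
        (iH H K k * iK H K c' y * (iH H K k)⁻¹)⁻¹}

/-- The group `F(H, K, P, D)`. -/
abbrev FG : Type := FreeP H K ⧸ Subgroup.normalClosure (fRel H K P D)

namespace FG

variable {H K P D}

/-- The map from `H`. -/
def h : H →* FG H K P D := (QuotientGroup.mk' _).comp (iH H K)

/-- The maps from the `K c`. -/
def k (c : J) : K c →* FG H K P D := (QuotientGroup.mk' _).comp (iK H K c)

theorem comm_P {c : J} {p : H} (hp : p ∈ P c) (x : K c) :
    (h p : FG H K P D) * k c x = k c x * h p := by
  have h1 : (QuotientGroup.mk' (Subgroup.normalClosure (fRel H K P D)))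
      (iH H K p * iK H K c x * (iH H K p)⁻¹ * (iK H K c x)⁻¹) = 1 :=
    (QuotientGroup.eq_one_iff _).2 (Subgroup.subset_normalClosure (Or.inl ⟨c, p, hp, x, rfl⟩))
  rw [map_mul, map_mul, map_mul, map_inv, map_inv, mul_inv_eq_one, mul_inv_eq_iff_eq_mul] at h1
  exact h1

theorem comm_D {c c' : J} {p : H} (hp : p ∈ D c c') (x : K c) (y : K c') :
    (k c x : FG H K P D) * (h p * k c' y * (h p)⁻¹) = (h p * k c' y * (h p)⁻¹) * k c x := by
  have h1 : (QuotientGroup.mk' (Subgroup.normalClosure (fRel H K P D)))
      (iK H K c x * (iH H K p * iK H K c' y * (iH H K p)⁻¹) * (iK H K c x)⁻¹ *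
        (iH H K p * iK H K c' y * (iH H K p)⁻¹)⁻¹) = 1 :=
    (QuotientGroup.eq_one_iff _).2
      (Subgroup.subset_normalClosure (Or.inr ⟨c, c', p, hp, x, y, rfl⟩))
  rw [map_mul, map_mul, map_mul, map_inv, map_inv, mul_inv_eq_one, mul_inv_eq_iff_eq_mul] at h1
  simpa [h, k] using h1

variable {Z : Type*} [Group Z]

/-- The universal property. -/
def lift (a : H →* Z) (b : ∀ c, K c →* Z)
    (h1 : ∀ c, ∀ p ∈ P c, ∀ x : K c, a p * b c x = b c x * a p)
    (h2 : ∀ c c', ∀ p ∈ D c c', ∀ (x : K c) (y : K c'),
      b c x * (a p * b c' y * (a p)⁻¹) = (a p * b c' y * (a p)⁻¹) * b c x) :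
    FG H K P D →* Z :=
  QuotientGroup.lift _ (Coprod.lift a (CoprodI.lift b : CoprodI K →* Z)) (by
    refine Subgroup.normalClosure_le_normal
      (N := (Coprod.lift a (CoprodI.lift b : CoprodI K →* Z)).ker) ?_
    have e1 : ∀ p : H, Coprod.lift a (CoprodI.lift b : CoprodI K →* Z) (iH H K p) = a p :=
      fun p => Coprod.lift_apply_inl _ _ _
    have e2 : ∀ (c : J) (x : K c),
        Coprod.lift a (CoprodI.lift b : CoprodI K →* Z) (iK H K c x) = b c x := fun c x => by
      change Coprod.lift a (CoprodI.lift b : CoprodI K →* Z) (Coprod.inr (CoprodI.of x)) = b c x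
      rw [Coprod.lift_apply_inr, CoprodI.lift_of]
    rintro w (⟨c, p, hp, x, rfl⟩ | ⟨c, c', p, hp, x, y, rfl⟩)
    · change Coprod.lift a (CoprodI.lift b : CoprodI K →* Z) _ = 1
      simp only [map_mul, map_inv, e1, e2]
      rw [mul_inv_eq_one, mul_inv_eq_iff_eq_mul]
      exact h1 c p hp x
    · change Coprod.lift a (CoprodI.lift b : CoprodI K →* Z) _ = 1
      simp only [map_mul, map_inv, e1, e2]
      rw [mul_inv_eq_one, mul_inv_eq_iff_eq_mul]
      exact h2 c c' p hp x y)

@[simp] theorem lift_h (a : H →* Z) (b : ∀ c, K c →* Z) (h1) (h2) (p : H) :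
    (lift a b h1 h2 : FG H K P D →* Z) (h p) = a p := by
  change Coprod.lift a (CoprodI.lift b : CoprodI K →* Z) (Coprod.inl p) = a p
  rw [Coprod.lift_apply_inl]

@[simp] theorem lift_k (a : H →* Z) (b : ∀ c, K c →* Z) (h1) (h2) (c : J) (x : K c) :
    (lift a b h1 h2 : FG H K P D →* Z) (k c x) = b c x := by
  change Coprod.lift a (CoprodI.lift b : CoprodI K →* Z) (Coprod.inr (CoprodI.of x)) = b c x
  rw [Coprod.lift_apply_inr, CoprodI.lift_of]

theorem hom_ext {f g : FG H K P D →* Z} (e1 : ∀ p, f (h p) = g (h p))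
    (e2 : ∀ c x, f (k c x) = g (k c x)) : f = g := by
  refine QuotientGroup.monoidHom_ext _ (Coprod.hom_ext ?_ ?_)
  · exact MonoidHom.ext e1
  · refine CoprodI.ext_hom _ _ fun c => ?_
    exact MonoidHom.ext fun x => e2 c x

/-- Induction: every element is a product of elements of `H` and of the `K c`. -/
theorem induction {p : FG H K P D → Prop} (h1 : p 1)
    (hh : ∀ (a : H) (w : FG H K P D), p w → p (h a * w))
    (hk : ∀ (c : J) (x : K c) (w : FG H K P D), p w → p (k c x * w)) (w : FG H K P D) : p w := by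
  have key : ∀ (v : FreeP H K) (w : FG H K P D), p w →
      p ((QuotientGroup.mk' (Subgroup.normalClosure (fRel H K P D)) v) * w) := by
    intro v
    induction v using Coprod.induction_on with
    | inl a => exact fun w hw => hh a w hw
    | inr y =>
      induction y using CoprodI.induction_on with
      | one => intro w hw; simpa using hw
      | of c x => exact fun w hw => hk c x w hw
      | mul x y hx hy =>
        intro w hw
        have := hx _ (hy w hw)
        rw [← mul_assoc, ← map_mul] at this
        simpa using this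
    | mul x y hx hy =>
      intro w hw
      rw [map_mul, mul_assoc]
      exact hx _ (hy w hw)
  induction w using QuotientGroup.induction_on with
  | H v => simpa using key v 1 h1

end FG

end Pool.Agent.FS
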