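import Pool.Agent.FS.Fp
import Pool.Agent.FS.FG

/-!
# The groups `F(H, K, P, D)` are in the class
-/

set_option autoImplicit false

namespace Pool.Agent.FS

open Monoid Pool.Agent.Helper29.BA Pool.Agent.Helper29.PA

variable {C : ∀ (G : Type) [Group G], Prop}

/-- `FG H K P D` is in the class if `H` and the `K c` are in the class, and no element of `P c` is
in `D c c`. -/
theorem FG.memQ' (hC : ExtClass C) {H : Type} [Group H] {J : Type} {K : J → Type}
    [∀ c, Group (K c)] {P : J → Subgroup H} {D : J → J → Set H}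
    (hH : C H) (hK : ∀ c, C (K c))
    (hirr : ∀ c, ∀ p ∈ P c, p ∉ D c c) : C (FG H K P D) := by
  have hgen : Subgroup.closure (Set.range (FG.h : H →* FG H K P D) ∪
      ⋃ c, Set.range (FG.k c : K c →* FG H K P D)) = ⊤ := by
    rw [eq_top_iff]
    intro w _
    induction w using FG.induction with
    | h1 => exact one_mem _
    | hh a w ih => exact mul_mem (Subgroup.subset_closure (Or.inl ⟨a, rfl⟩)) (ih trivial)
    | hk c x w ih =>
      exact mul_mem (Subgroup.subset_closure (Or.inr (Set.mem_iUnion.2 ⟨c, x, rfl⟩))) (ih trivial)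
  exact fp_memQ (D := P) (Q := fun i j g => g ∈ D i j) FG.h FG.k hC hirr hK hH
    (fun c p hp x => FG.comm_P hp x) (fun c c' p hp x y => FG.comm_D hp x y) hgen
    (FG.lift (TG.h P K _) (TG.k P K _) (fun c p hp x => TG.comm_D P K _ c p hp x)
      (fun c c' p hp x y => TG.comm_Q P K _ c c' p hp x y))
    (fun g => FG.lift_h _ _ _ _ g) (fun c x => FG.lift_k _ _ _ _ c x)

/-- The form with the symmetric hypotheses. -/
theorem FG.memQ (hC : ExtClass C) {H : Type} [Group H] {J : Type} {K : J → Type}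
    [∀ c, Group (K c)] {P : J → Subgroup H} {D : J → J → Set H}
    (hH : C H) (hK : ∀ c, C (K c))
    (hmul : ∀ c c', ∀ p ∈ P c, ∀ k ∈ D c c', ∀ p' ∈ P c', p * k * p' ∈ D c c')
    (hone : ∀ c, (1 : H) ∉ D c c) : C (FG H K P D) :=
  FG.memQ' hC hH hK fun c p hp hpD => hone c (by
    have := hmul c c p⁻¹ (inv_mem hp) p hpD 1 (one_mem _)
    rwa [inv_mul_cancel, mul_one] at this)

/-- The form with a locally finite group `H`. -/
theorem FG.mem' (hC : ExtClass C) {H : Type} [Group H] {J : Type} {K : J → Type}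
    [∀ c, Group (K c)] {P : J → Subgroup H} {D : J → J → Set H}
    (hLF : ∀ s : Finset H, Finite (Subgroup.closure (s : Set H))) (hK : ∀ c, C (K c))
    (hirr : ∀ c, ∀ p ∈ P c, p ∉ D c c) : C (FG H K P D) :=
  FG.memQ' hC (mem_locFin hC H hLF) hK hirr

/-- The form with a locally finite group `H` and the symmetric hypotheses. -/
theorem FG.mem (hC : ExtClass C) {H : Type} [Group H] {J : Type} {K : J → Type}
    [∀ c, Group (K c)] {P : J → Subgroup H} {D : J → J → Set H}
    (hLF : ∀ s : Finset H, Finite (Subgroup.closure (s : Set H))) (hK : ∀ c, C (K c))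
    (_hsymm : ∀ c c', ∀ k ∈ D c c', k⁻¹ ∈ D c' c)
    (hmul : ∀ c c', ∀ p ∈ P c, ∀ k ∈ D c c', ∀ p' ∈ P c', p * k * p' ∈ D c c')
    (hone : ∀ c, (1 : H) ∉ D c c) : C (FG H K P D) :=
  FG.memQ hC (mem_locFin hC H hLF) hK hmul hone

end Pool.Agent.FS
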