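import Pool.Agent.FS.Germs

/-!
# The group of the homeomorphisms with finitely many singular points
-/

set_option autoImplicit false

open Filter Topology

namespace Pool.Agent.FS

/-- The homeomorphisms with finitely many singular points form a group. -/
def FinSg {X : Type} [TopologicalSpace X] (H : Subgroup (X ≃ₜ X)) : Subgroup (X ≃ₜ X) where
  carrier := {g | {x | ¬ At H g x}.Finite}
  one_mem' := by
    change {x | ¬ At H (1 : X ≃ₜ X) x}.Finite
    have h1 : {x | ¬ At H (1 : X ≃ₜ X) x} = ∅ := by
      ext x
      simp only [Set.mem_ofPred_eq, Set.mem_empty_iff_false, iff_false, not_not]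
      exact At.of_mem H.one_mem x
    rw [h1]
    exact Set.finite_empty
  mul_mem' := by
    intro a b ha hb
    refine (hb.union (ha.preimage b.injective.injOn)).subset fun x hx => ?_
    by_contra h
    simp only [Set.mem_union, Set.mem_ofPred_eq, Set.mem_preimage, not_or, not_not] at h
    exact hx (At.mul h.2 h.1)
  inv_mem' := by
    intro a ha
    refine (ha.image a).subset fun x hx => ⟨a.symm x, fun h => hx ?_, a.apply_symm_apply x⟩
    have h1 : At H (toP a : Equiv.Perm X) (a.symm x) := h
    have h2 := h1.inv
    rw [← map_inv] at h2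
    have h3 : toP a (a.symm x) = x := a.apply_symm_apply x
    rw [h3] at h2
    exact h2

theorem mem_FinSg {X : Type} [TopologicalSpace X] {H : Subgroup (X ≃ₜ X)} {g : X ≃ₜ X} :
    g ∈ FinSg H ↔ {x | ¬ At H g x}.Finite := Iff.rfl

theorem le_FinSg {X : Type} [TopologicalSpace X] (H : Subgroup (X ≃ₜ X)) : H ≤ FinSg H := by
  intro h hh
  have h1 : {x | ¬ At H h x} = ∅ := by
    ext x
    simp only [Set.mem_ofPred_eq, Set.mem_empty_iff_false, iff_false, not_not]
    exact At.of_mem hh x
  rw [mem_FinSg, h1]
  exact Set.finite_empty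

end Pool.Agent.FS
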