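import Pool.Agent.FS.GpQ

/-!
# A group generated by `H` and conjugates of groups `K j`

Let `H` be a group, `D j` subgroups of `H`, and `Q i j h` a relation (`V i` and `h V j` are
disjoint). A group `F` generated by `H` and groups `K j`, where `K j` commutes with `D j`, and
`K i` commutes with `g (K j) g⁻¹` if `Q i j g`, and which is universal for these relations, is the
semidirect product of a graph product with `H`. The vertices (tracks) of the graph product are the
cosets of the groups `D j`.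
-/

set_option autoImplicit false

namespace Pool.Agent.FS

open Pool.Agent.Helper29.BA Pool.Agent.Helper29.PA

section

variable {H : Type} [Group H] {J : Type} (D : J → Subgroup H) (K : J → Type) [∀ j, Group (K j)]
  (Q : J → J → H → Prop)

/-- Disjointness of tracks. -/
def TR (u v : Σ j, H ⧸ D j) : Prop :=
  ∃ a b : H, ((a : H ⧸ D u.1) = u.2) ∧ ((b : H ⧸ D v.1) = v.2) ∧ Q u.1 v.1 (a⁻¹ * b)

theorem TR_smul (p : H) (i : J) (v : H ⧸ D i) (j : J) (w : H ⧸ D j)
    (h : TR D Q ⟨i, v⟩ ⟨j, w⟩) : TR D Q ⟨i, p • v⟩ ⟨j, p • w⟩ := by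
  obtain ⟨a, b, h1, h2, h3⟩ := h
  refine ⟨p * a, p * b, ?_, ?_, ?_⟩
  · change (a : H ⧸ D i) = v at h1
    rw [← h1]; rfl
  · change (b : H ⧸ D j) = w at h2
    rw [← h2]; rfl
  · rwa [mul_inv_rev, mul_assoc, inv_mul_cancel_left]

/-- The semidirect product of the graph product over the tracks with `H`. -/
abbrev TG : Type := GPS (fun j => H ⧸ D j) K (TR D Q) ⋊[gpAct (TR_smul D Q)] H

/-- The group `H` in `TG`. -/
def TG.h : H →* TG D K Q := SemidirectProduct.inr

/-- The groups `K j` in `TG`. -/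
def TG.k (j : J) : K j →* TG D K Q :=
  SemidirectProduct.inl.comp (gι (TR D Q) j ((1 : H) : H ⧸ D j))

theorem TG.conj (g : H) (j : J) (x : K j) :
    TG.h D K Q g * TG.k D K Q j x * (TG.h D K Q g)⁻¹ =
      SemidirectProduct.inl (gι (TR D Q) j (g : H ⧸ D j) x) := by
  unfold TG.h TG.k
  have h1 : g • ((1 : H) : H ⧸ D j) = (g : H ⧸ D j) := by
    change ((g * 1 : H) : H ⧸ D j) = _
    rw [mul_one]
  rw [MonoidHom.comp_apply, ← map_inv, ← SemidirectProduct.inl_aut, gpAct_ι, h1]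

theorem TG.comm_D (j : J) (d : H) (hd : d ∈ D j) (x : K j) :
    TG.h D K Q d * TG.k D K Q j x = TG.k D K Q j x * TG.h D K Q d := by
  rw [← mul_inv_eq_iff_eq_mul, TG.conj, TG.k, MonoidHom.comp_apply]
  congr 3
  rw [QuotientGroup.eq, mul_one]
  exact inv_mem hd

theorem TG.comm_Q (i j : J) (g : H) (hg : Q i j g) (x : K i) (y : K j) :
    TG.k D K Q i x * (TG.h D K Q g * TG.k D K Q j y * (TG.h D K Q g)⁻¹) =
      (TG.h D K Q g * TG.k D K Q j y * (TG.h D K Q g)⁻¹) * TG.k D K Q i x := by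
  rw [TG.conj, TG.k, MonoidHom.comp_apply, ← map_mul, ← map_mul, gcomm]
  exact ⟨1, g, rfl, rfl, by rwa [inv_one, one_mul]⟩

variable {D K Q} {F : Type} [Group F] (hh : H →* F) (kk : ∀ j, K j →* F)
  (hD : ∀ j, ∀ d ∈ D j, ∀ x : K j, hh d * kk j x = kk j x * hh d)
  (hQ : ∀ i j g, Q i j g → ∀ (x : K i) (y : K j),
    kk i x * (hh g * kk j y * (hh g)⁻¹) = (hh g * kk j y * (hh g)⁻¹) * kk i x)

/-- The conjugates of `kk j` by the elements of the coset. -/
def ckk (hD : ∀ j, ∀ d ∈ D j, ∀ x : K j, hh d * kk j x = kk j x * hh d) (j : J) (v : H ⧸ D j) :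
    K j →* F :=
  Quotient.liftOn' v (fun g => (MulAut.conj (hh g)).toMonoidHom.comp (kk j)) fun a b hab => by
    rw [QuotientGroup.leftRel_apply] at hab
    ext x
    have h1 := hD j _ hab x
    change hh a * kk j x * (hh a)⁻¹ = hh b * kk j x * (hh b)⁻¹
    rw [map_mul, map_inv] at h1
    rw [mul_inv_eq_iff_eq_mul]
    have h2 : kk j x = (hh a)⁻¹ * hh b * kk j x * (hh b)⁻¹ * hh a := by
      rw [h1]
      group
    conv_lhs => rw [h2]
    group

theorem ckk_mk (j : J) (g : H) (x : K j) :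
    ckk hh kk hD j (g : H ⧸ D j) x = hh g * kk j x * (hh g)⁻¹ := rfl

/-- The map from the graph product. -/
def fromGP : GPS (fun j => H ⧸ D j) K (TR D Q) →* F :=
  glift (ckk hh kk hD) (by
    rintro i v j w x y ⟨a, b, h1, h2, h3⟩
    change ((a : H ⧸ D i)) = v at h1
    change ((b : H ⧸ D j)) = w at h2
    rw [← h1, ← h2, ckk_mk, ckk_mk]
    have h4 := hQ i j _ h3 x y
    rw [map_mul, map_inv] at h4
    calc hh a * kk i x * (hh a)⁻¹ * (hh b * kk j y * (hh b)⁻¹)
        = hh a * (kk i x * ((hh a)⁻¹ * hh b * kk j y * ((hh a)⁻¹ * hh b)⁻¹)) * (hh a)⁻¹ := by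
          group
      _ = hh a * ((hh a)⁻¹ * hh b * kk j y * ((hh a)⁻¹ * hh b)⁻¹ * kk i x) * (hh a)⁻¹ := by
          rw [h4]
      _ = hh b * kk j y * (hh b)⁻¹ * (hh a * kk i x * (hh a)⁻¹) := by
          group)

/-- The map from the semidirect product. -/
def fromTG : TG D K Q →* F :=
  SemidirectProduct.lift (fromGP hh kk hD hQ) hh (fun p => by
    refine ghom_ext fun j v x => ?_
    obtain ⟨g, rfl⟩ := QuotientGroup.mk_surjective v
    simp only [MonoidHom.comp_apply, MulEquiv.coe_toMonoidHom, gpAct_ι, MulAut.conj_apply]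
    unfold fromGP
    rw [glift_ι, glift_ι]
    change ckk hh kk hD j ((p * g : H) : H ⧸ D j) x = _
    rw [ckk_mk, ckk_mk, map_mul]
    group)

theorem fromTG_h (g : H) : fromTG hh kk hD hQ (TG.h D K Q g) = hh g :=
  SemidirectProduct.lift_inr _ _ _ _

theorem fromTG_k (j : J) (x : K j) : fromTG hh kk hD hQ (TG.k D K Q j x) = kk j x := by
  unfold fromTG TG.k
  rw [MonoidHom.comp_apply, SemidirectProduct.lift_inl]
  unfold fromGP
  rw [glift_ι, ckk_mk, map_one, one_mul, inv_one, mul_one]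

variable {C : ∀ (G : Type) [Group G], Prop}

/-- **Row R1b**: a group `F` generated by homomorphisms `hh : H → F` and `kk j : K j → F` which
satisfy the relations, and which has a homomorphism to `TG` compatible with the generators, is in
the class. -/
theorem fp_memQ (hC : ExtClass C) (hirr : ∀ j, ∀ d ∈ D j, ¬ Q j j d) (hK : ∀ j, C (K j))
    (hH : C H)
    (hD : ∀ j, ∀ d ∈ D j, ∀ x : K j, hh d * kk j x = kk j x * hh d)
    (hQ : ∀ i j g, Q i j g → ∀ (x : K i) (y : K j),
      kk i x * (hh g * kk j y * (hh g)⁻¹) = (hh g * kk j y * (hh g)⁻¹) * kk i x)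
    (hgen : Subgroup.closure (Set.range hh ∪ ⋃ j, Set.range (kk j)) = ⊤) (e : F →* TG D K Q)
    (he : ∀ g, e (hh g) = TG.h D K Q g) (he' : ∀ j x, e (kk j x) = TG.k D K Q j x) : C F := by
  have h1 : (fromTG hh kk hD hQ).comp e = MonoidHom.id F := by
    refine MonoidHom.eq_of_eqOn_dense hgen ?_
    rintro x (⟨g, rfl⟩ | hx)
    · rw [MonoidHom.comp_apply, he, fromTG_h]; rfl
    · obtain ⟨j, y, rfl⟩ := Set.mem_iUnion.1 hx
      rw [MonoidHom.comp_apply, he', fromTG_k]; rfl
  refine mem_of_inj hC.toClosedClass e (fun x y hxy => ?_)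
    (GQ.mem_gps hC (TR_smul D Q) ?_ hK hH)
  · have := congrArg (fromTG hh kk hD hQ) hxy
    rwa [← MonoidHom.comp_apply, ← MonoidHom.comp_apply, h1] at this
  · rintro ⟨j, v⟩ ⟨a, b, h2, h3, h4⟩
    refine hirr j (a⁻¹ * b) ?_ h4
    rw [← QuotientGroup.eq]
    exact h2.trans h3.symm

end

end Pool.Agent.FS
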