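import Pool.Agent.FS.DihMem

/-!
# Fragmentations of dihedral actions (Nekrashevych)

`a` and `b` are two involutions of a compact totally disconnected space. A fragmentation of `a` is a
group of homeomorphisms which map each `x` to `x` or `a x`.
-/

set_option autoImplicit false

open Filter Topology

namespace Pool.Agent.FS

open Pool.Agent.Helper29.BA Pool.Agent.Helper29.PA

variable {C : ∀ (G : Type) [Group G], Prop} {X : Type} [TopologicalSpace X]

/-- The two involutions as a family. -/
def two (a b : X ≃ₜ X) (t : Bool) : X ≃ₜ X := if t then b else a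

theorem range_two (a b : X ≃ₜ X) : Set.range (two a b) = {a, b} := by
  ext z
  constructor
  · rintro ⟨t, rfl⟩
    cases t
    · exact Or.inl rfl
    · exact Or.inr rfl
  · rintro (rfl | rfl)
    · exact ⟨false, rfl⟩
    · exact ⟨true, rfl⟩

section

variable [CompactSpace X] [T2Space X] [TotallyDisconnectedSpace X] (a b : X ≃ₜ X)

/-- The full fragmentation group of a dihedral action is in every `ExtClass`. -/
theorem frag_mem (hC : ExtClass C) (ha : a * a = 1) (hb : b * b = 1)
    (hper : ∀ (x : X) (n : ℕ), 0 < n → ((a * b) ^ n) x ≠ x)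
    (hFa : {x | a x = x}.Finite) (hFb : {x | b x = x}.Finite)
    (hmin : ∀ S : Set X, IsClosed S → S.Nonempty → (∀ x ∈ S, a x ∈ S) → (∀ x ∈ S, b x ∈ S) →
      ∃ x ∈ S, a x = x ∨ b x = x) : C (Frag (Subgroup.closure {a, b})) := by
  rw [← range_two]
  refine Dih.frag_mem (s := two a b) (fun t => ?_) hper (fun t => ?_) hC fun S h1 h2 h3 => ?_
  · cases t
    · exact ha
    · exact hb
  · cases t
    · exact hFa
    · exact hFb
  · obtain ⟨x, hx, h⟩ := hmin S h1 h2 (h3 false) (h3 true)
    rcases h with h | h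
    · exact ⟨x, hx, false, h⟩
    · exact ⟨x, hx, true, h⟩

omit [CompactSpace X] [TotallyDisconnectedSpace X] in
/-- Minimal dihedral actions on infinite spaces have no periodic points. -/
theorem no_periodic [Infinite X] (ha : a * a = 1) (hb : b * b = 1)
    (hd : ∀ x, Dense {y | ∃ d ∈ Subgroup.closure {a, b}, d x = y}) (x : X) (n : ℕ) (hn : 0 < n) :
    ((a * b) ^ n) x ≠ x := by
  intro h
  have hs : ∀ t, two a b t * two a b t = 1 := by
    intro t
    cases t
    · exact ha
    · exact hb
  have haa : ∀ x, a (a x) = x := fun x => congrArg (fun u : X ≃ₜ X => u x) ha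
  -- periodic points have finite orbits of the translation
  have hfin : ∀ z : X, ((a * b) ^ n) z = z → {y | ∃ k : ℤ, ((a * b) ^ k) z = y}.Finite := by
    intro z hz
    refine ((Set.finite_Ico (0 : ℤ) n).image fun k => ((a * b) ^ k) z).subset ?_
    rintro y ⟨k, rfl⟩
    have hn' : (0 : ℤ) < n := by exact_mod_cast hn
    refine ⟨k % n, ⟨Int.emod_nonneg _ hn'.ne', Int.emod_lt_of_pos _ hn'⟩, ?_⟩
    have h2 : (a * b) ^ k = (a * b) ^ (k % n) * ((a * b) ^ n) ^ (k / n) := by
      rw [← zpow_natCast (a * b) n, ← zpow_mul, ← zpow_add, Int.emod_add_mul_ediv]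
    have h3 : ∀ j : ℤ, (((a * b) ^ n) ^ j) z = z := by
      intro j
      have h4 : (a * b) ^ n ∈ Stab (⊤ : Subgroup (X ≃ₜ X)) z := ⟨trivial, hz⟩
      exact ((Stab (⊤ : Subgroup (X ≃ₜ X)) z).zpow_mem h4 j).2
    change ((a * b) ^ (k % n)) z = ((a * b) ^ k) z
    rw [h2]
    change _ = ((a * b) ^ (k % n)) ((((a * b) ^ n) ^ (k / n)) z)
    rw [h3]
  have h1 : ((a * b) ^ n) (a x) = a x := by
    have h2 := Dih.a_conj (s := two a b) hs (-(n : ℤ))
    have h3 : a * (a * b) ^ (-(n : ℤ)) = (a * b) ^ (n : ℤ) * a := by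
      rw [neg_neg] at h2
      exact h2
    have h4 : a (((a * b) ^ (-(n : ℤ))) x) = ((a * b) ^ n) (a x) := by
      rw [zpow_natCast] at h3
      exact congrArg (fun u : X ≃ₜ X => u x) h3
    rw [← h4]
    congr 1
    rw [zpow_neg, zpow_natCast]
    exact (((a * b) ^ n).symm_apply_eq).2 h.symm
  have h2 : {y | ∃ d ∈ Subgroup.closure {a, b}, d x = y}.Finite := by
    refine ((hfin x h).union (hfin (a x) h1)).subset ?_
    rintro y ⟨d, hd', rfl⟩
    rw [← range_two] at hd'
    obtain ⟨k, h3 | h3⟩ := Dih.zform hs hd'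
    · exact Or.inl ⟨k, by rw [h3]; rfl⟩
    · exact Or.inr ⟨k, by rw [h3]; rfl⟩
  have h3 : {y | ∃ d ∈ Subgroup.closure {a, b}, d x = y} = Set.univ := by
    rw [← h2.isClosed.closure_eq]
    exact (hd x).closure_eq
  rw [h3] at h2
  exact Set.infinite_univ h2

end

/-- The elements which are locally in a subgroup of the fragmentation group. -/
theorem full_mem_of_le {D G : Subgroup (X ≃ₜ X)} (hC : ClosedClass C) (h : G ≤ Frag D)
    (hD : C (Frag D)) : C (Full G) := by
  have h1 : ∀ f : Full G, homeoOf f.1 f.2 ∈ Frag D := by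
    intro f x
    obtain ⟨g, hg, h2⟩ := f.2 x
    obtain ⟨d, hd, h3⟩ := h hg x
    refine ⟨d, hd, ?_⟩
    filter_upwards [h2, h3] with y h4 ⟨c, hc, hcx, h5⟩
    refine ⟨c, hc, hcx, ?_⟩
    rw [homeoOf_apply, h4, h5]
  refine mem_of_inj hC (H := Frag D)
    { toFun := fun f => ⟨homeoOf f.1 f.2, h1 f⟩
      map_one' := Subtype.ext (Homeomorph.ext fun x => rfl)
      map_mul' := fun f g => Subtype.ext (Homeomorph.ext fun x => rfl) } ?_ hD
  intro f g hfg
  refine Subtype.ext (Equiv.ext fun x => ?_)
  exact congrArg (fun u : Frag D => (u : X ≃ₜ X) x) hfg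

/-- A fragmentation of an element of `D` is in the fragmentation group of `D`. -/
theorem fragmentation_le [T2Space X] {D A : Subgroup (X ≃ₜ X)} {a : X ≃ₜ X} (ha : a ∈ D)
    (hA : ∀ h ∈ A, ∀ x, h x = x ∨ h x = a x) : A ≤ Frag D := by
  intro h hh x
  by_cases hx : a x = x
  · refine ⟨1, D.one_mem, Eventually.of_forall fun y => ?_⟩
    rcases hA h hh y with h1 | h1
    · exact ⟨1, D.one_mem, rfl, h1⟩
    · exact ⟨a, ha, hx, h1⟩
  · rcases hA h hh x with h1 | h1
    · refine ⟨1, D.one_mem, ?_⟩
      have h2 : ∀ᶠ y in 𝓝 x, h y ≠ a y :=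
        (isOpen_ne_fun h.continuous a.continuous).mem_nhds (by
          change h x ≠ a x
          rw [h1]
          exact Ne.symm hx)
      filter_upwards [h2] with y h3
      exact ⟨1, D.one_mem, rfl, (hA h hh y).resolve_right h3⟩
    · refine ⟨a, ha, ?_⟩
      have h2 : ∀ᶠ y in 𝓝 x, h y ≠ y :=
        (isOpen_ne_fun h.continuous continuous_id).mem_nhds (by
          change h x ≠ x
          rw [h1]
          exact hx)
      filter_upwards [h2] with y h3
      exact ⟨1, D.one_mem, rfl, (hA h hh y).resolve_left h3⟩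

/-- **Fragmentations of minimal dihedral actions.** Every `ExtClass` contains the topological full
group of the group generated by fragmentations `A` and `B` of the involutions `a` and `b`, if the
group generated by `a` and `b` acts minimally and the fixed points of `a` and `b` are finite in
number, and not absent. -/
theorem fragmentation_mem [CompactSpace X] [T2Space X] [TotallyDisconnectedSpace X] [Infinite X]
    (a b : X ≃ₜ X) (hC : ExtClass C) (ha : a * a = 1) (hb : b * b = 1)
    (hd : ∀ x, Dense {y | ∃ d ∈ Subgroup.closure {a, b}, d x = y})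
    (hFa : {x | a x = x}.Finite) (hFb : {x | b x = x}.Finite) (hf : ∃ x, a x = x ∨ b x = x)
    (A B : Subgroup (X ≃ₜ X)) (hA : ∀ h ∈ A, ∀ x, h x = x ∨ h x = a x)
    (hB : ∀ h ∈ B, ∀ x, h x = x ∨ h x = b x) : C (Full (A ⊔ B)) := by
  refine full_mem_of_le hC.toClosedClass (sup_le
    (fragmentation_le (Subgroup.subset_closure (Or.inl rfl)) hA)
    (fragmentation_le (Subgroup.subset_closure (Or.inr rfl)) hB))
    (frag_mem a b hC ha hb (no_periodic a b ha hb hd) hFa hFb fun S h1 ⟨x, hx⟩ h3 h4 => ?_)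
  obtain ⟨z, hz⟩ := hf
  refine ⟨z, ?_, hz⟩
  have h5 : ∀ d ∈ Subgroup.closure {a, b}, d x ∈ S := by
    intro d hd'
    have hs : ∀ t, two a b t * two a b t = 1 := by
      intro t
      cases t
      · exact ha
      · exact hb
    rw [← range_two] at hd'
    refine Dih.ind hs (p := fun d => d x ∈ S) hx ?_ hd'
    intro u e _ he
    cases u
    · exact h3 _ he
    · exact h4 _ he
  have h6 : {y | ∃ d ∈ Subgroup.closure {a, b}, d x = y} ⊆ S := by
    rintro y ⟨d, hd', rfl⟩
    exact h5 d hd'
  have h7 : closure {y | ∃ d ∈ Subgroup.closure {a, b}, d x = y} ⊆ S := h1.closure_subset_iff.2 h6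
  rw [(hd x).closure_eq] at h7
  exact h7 trivial

end Pool.Agent.FS
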