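import Pool.Agent.FS.Defs

/-!
# Permutations which are piecewise in a group of homeomorphisms

`Full H` is the group of the permutations of `X` which agree near each point with an element of the
group `H` of homeomorphisms. It is locally finite if `H` is locally finite and `X` is compact.
-/

set_option autoImplicit false

open Filter Topology

namespace Pool.Agent.FS

/-- Each finite subset generates a finite group. -/
def LocFin {A : Type} [Group A] (H : Subgroup A) : Prop :=
  ∀ T : Finset A, (∀ a ∈ T, a ∈ H) → Finite (Subgroup.closure (T : Set A))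

section group

/-- Finitely many functions with values in a finite group generate a finite group. -/
theorem finite_closure_pi {Ω G : Type} [Group G] [Finite G] {A : Type} [Group A] (ρ : A →* (Ω → G))
    (hρ : Function.Injective ρ) (s : Finset A) : Finite (Subgroup.closure (s : Set A)) := by
  classical
  let K : Subgroup (Ω → G) :=
    { carrier := {f | ∀ ω ω', (∀ a ∈ s, ρ a ω = ρ a ω') → f ω = f ω'}
      mul_mem' := fun {f f'} hf hf' ω ω' h => by
        rw [Pi.mul_apply, Pi.mul_apply, hf ω ω' h, hf' ω ω' h]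
      one_mem' := fun ω ω' _ => rfl
      inv_mem' := fun {f} hf ω ω' h => by
        rw [Pi.inv_apply, Pi.inv_apply, hf ω ω' h] }
  have hK : ∀ f : Ω → G, f ∈ K ↔ ∀ ω ω', (∀ a ∈ s, ρ a ω = ρ a ω') → f ω = f ω' :=
    fun f => Iff.rfl
  have hfin : Finite K := by
    refine Finite.of_injective (β := (s → G) → G)
      (fun f v => if h : ∃ ω, ∀ a : s, ρ a.1 ω = v a then f.1 h.choose else 1) ?_
    intro f f' hff
    refine Subtype.ext (funext fun ω => ?_)
    have h1 := congrFun hff (fun a => ρ a.1 ω)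
    have h2 : ∃ ω', ∀ a : s, ρ a.1 ω' = ρ a.1 ω := ⟨ω, fun a => rfl⟩
    simp only [dif_pos h2] at h1
    have h3 := h2.choose_spec
    rw [(hK f.1).1 f.2 ω h2.choose fun a ha => (h3 ⟨a, ha⟩).symm, h1]
    exact (hK f'.1).1 f'.2 _ _ fun a ha => h3 ⟨a, ha⟩
  have hle : Subgroup.closure (s : Set A) ≤ K.comap ρ := by
    rw [Subgroup.closure_le]
    intro a ha
    exact fun ω ω' h => h a ha
  refine Finite.of_injective (β := K) (fun x => ⟨ρ x.1, hle x.2⟩) ?_
  intro x y hxy
  exact Subtype.ext (hρ (congrArg Subtype.val hxy))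

/-- Finitely many permutations which preserve the orbits of a finite group generate a finite
group. -/
theorem finite_closure_orbits {X A L : Type} [Group A] [Group L] [Finite L] [MulAction L X]
    (ρ : A →* Equiv.Perm X) (hρ : Function.Injective ρ) (s : Finset A)
    (h : ∀ a ∈ s, ∀ x, ∃ l : L, ρ a x = l • x) : Finite (Subgroup.closure (s : Set A)) := by
  classical
  let Ω := MulAction.orbitRel.Quotient L X
  let β : X → Ω := fun x => Quotient.mk'' x
  have hβ : ∀ x y : X, β x = β y ↔ x ∈ MulAction.orbit L y := fun x y =>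
    (MulAction.orbitRel.Quotient.mem_orbit (a := x) (x := β y)).symm
  let B : Subgroup A :=
    { carrier := {a | ∀ x, β (ρ a x) = β x}
      mul_mem' := fun {a b} ha hb x => by
        rw [map_mul, Equiv.Perm.mul_apply, ha, hb]
      one_mem' := fun x => by rw [map_one]; rfl
      inv_mem' := fun {a} ha x => by
        have := ha (ρ a⁻¹ x)
        rw [← Equiv.Perm.mul_apply, ← map_mul, mul_inv_cancel, map_one] at this
        exact this.symm }
  have hs : ∀ a ∈ s, a ∈ B := by
    intro a ha x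
    obtain ⟨l, hl⟩ := h a ha x
    rw [hβ, hl]
    exact MulAction.mem_orbit x l
  let N := Nat.card L
  have hfib : ∀ ω : Ω, Nonempty ({x // β x = ω} ↪ L) := by
    intro ω
    obtain ⟨x, rfl⟩ := Quotient.exists_rep ω
    refine ⟨⟨fun y => ((hβ y.1 x).1 y.2).choose, fun y z hyz => ?_⟩⟩
    have h1 := ((hβ y.1 x).1 y.2).choose_spec
    have h2 := ((hβ z.1 x).1 z.2).choose_spec
    have hyz' : ((hβ y.1 x).1 y.2).choose = ((hβ z.1 x).1 z.2).choose := hyz
    rw [hyz'] at h1
    exact Subtype.ext (h1.symm.trans h2)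
  have ι : ∀ ω : Ω, {x // β x = ω} ↪ L := fun ω => (hfib ω).some
  have hp : ∀ (b : B) (ω : Ω) (x : X), β (ρ b.1 x) = ω ↔ β x = ω :=
    fun b ω x => by rw [b.2]
  let res : ∀ ω : Ω, B →* Equiv.Perm {x // β x = ω} := fun ω =>
    { toFun := fun b => (ρ b.1).subtypePerm (hp b ω)
      map_one' := Equiv.ext fun x => Subtype.ext (by
        change ρ (1 : A) x.1 = x.1
        rw [map_one]
        rfl)
      map_mul' := fun b c => Equiv.ext fun x => Subtype.ext (by
        change ρ (b.1 * c.1) x.1 = ρ b.1 (ρ c.1 x.1)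
        rw [map_mul]
        rfl) }
  let τ : B →* (Ω → Equiv.Perm L) :=
    MonoidHom.pi fun ω => (Equiv.Perm.viaEmbeddingHom (ι ω)).comp (res ω)
  have hτ : Function.Injective τ := by
    intro p q hpq
    refine Subtype.ext (hρ (Equiv.ext fun x => ?_))
    have h2 := congrFun hpq (β x)
    have h3 : res (β x) p = res (β x) q := Equiv.Perm.viaEmbeddingHom_injective _ h2
    exact congrArg (fun e : Equiv.Perm {y // β y = β x} => (e ⟨x, rfl⟩ : X)) h3
  let s' : Finset B := s.attach.image fun a => ⟨a.1, hs a.1 a.2⟩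
  have h1 := finite_closure_pi τ hτ s'
  have h2 : Subgroup.closure (s : Set A) ≤ (Subgroup.closure (s' : Set B)).map B.subtype := by
    rw [Subgroup.closure_le]
    intro a ha
    exact ⟨⟨a, hs a ha⟩, Subgroup.subset_closure
      (Finset.mem_coe.2 (Finset.mem_image.2 ⟨⟨a, ha⟩, Finset.mem_attach _ _, rfl⟩)), rfl⟩
  have h3 : Finite ((Subgroup.closure (s' : Set B)).map B.subtype) :=
    Set.Finite.image (s := (Subgroup.closure (s' : Set B) : Set B)) _ (Set.toFinite _)
  exact Finite.of_injective _ (Subgroup.inclusion_injective h2)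

end group

variable {X : Type} [TopologicalSpace X] {H : Subgroup (X ≃ₜ X)}

theorem At.continuousAt {f : X → X} {x : X} (hf : At H f x) : ContinuousAt f x := by
  obtain ⟨h, -, h1⟩ := hf
  exact (continuousAt_congr (h1 : f =ᶠ[𝓝 x] h)).2 h.continuous.continuousAt

theorem mem_Full {f : Equiv.Perm X} : f ∈ Full H ↔ ∀ x, At H f x := Iff.rfl

theorem mem_Full_of_mem {h : X ≃ₜ X} (hh : h ∈ H) : (h.toEquiv : Equiv.Perm X) ∈ Full H :=
  fun x => At.of_mem hh x

theorem Full_continuous {f : Equiv.Perm X} (hf : f ∈ Full H) : Continuous f :=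
  continuous_iff_continuousAt.2 fun x => (hf x).continuousAt

theorem Full_continuous_inv {f : Equiv.Perm X} (hf : f ∈ Full H) : Continuous (f⁻¹ : Equiv.Perm X) :=
  Full_continuous ((Full H).inv_mem hf)

/-- The elements of `Full H` are homeomorphisms. -/
def homeoOf (f : Equiv.Perm X) (hf : f ∈ Full H) : X ≃ₜ X where
  toEquiv := f
  continuous_toFun := Full_continuous hf
  continuous_invFun := Full_continuous_inv hf

theorem homeoOf_apply (f : Equiv.Perm X) (hf : f ∈ Full H) (x : X) : homeoOf f hf x = f x := rfl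

theorem At.of_Full {f : X → X} {x : X} {g : Equiv.Perm X} (hg : g ∈ Full H)
    (h : ∀ᶠ y in 𝓝 x, f y = g y) : At H f x := (hg x).congr h

/-- Property (1) for the piecewise elements. -/
theorem Full_fix (h1 : ∀ h ∈ H, ∀ x, h x = x → ∀ᶠ y in 𝓝 x, h y = y) {f : Equiv.Perm X}
    (hf : f ∈ Full H) {x : X} (hx : f x = x) : ∀ᶠ y in 𝓝 x, f y = y := by
  obtain ⟨h, hh, h2⟩ := hf x
  have h3 := h1 h hh x (h2.self_of_nhds.symm.trans hx)
  filter_upwards [h2, h3] with y h4 h5
  rw [h4, h5]

/-- Piecewise elements of a locally finite group form a locally finite group. -/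
theorem locFin_Full [CompactSpace X] (hH : LocFin H) : LocFin (Full H) := by
  classical
  intro T hT
  have h1 : ∀ f ∈ T, ∃ L : Finset (X ≃ₜ X), (∀ h ∈ L, h ∈ H) ∧ ∀ x, ∃ h ∈ L, f x = h x := by
    intro f hf
    have h2 := hT f hf
    choose k hk h3 using h2
    obtain ⟨t, ht⟩ := CompactSpace.elim_nhds_subcover (fun x => {y | f y = k x y}) h3
    refine ⟨t.image k, fun h hh => ?_, fun x => ?_⟩
    · obtain ⟨x, -, rfl⟩ := Finset.mem_image.1 hh
      exact hk x
    · have h4 : x ∈ ⋃ z ∈ t, {y | f y = k z y} := by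
        rw [ht]
        trivial
      simp only [Set.mem_iUnion, Set.mem_ofPred_eq] at h4
      obtain ⟨z, hz, h5⟩ := h4
      exact ⟨k z, Finset.mem_image_of_mem _ hz, h5⟩
  choose! L hL hL' using h1
  have hfin := hH (T.biUnion L) fun a ha => by
    obtain ⟨f, hf, h2⟩ := Finset.mem_biUnion.1 ha
    exact hL f hf a h2
  let act : MulAction (Subgroup.closure ((T.biUnion L : Finset (X ≃ₜ X)) : Set (X ≃ₜ X))) X :=
    { smul := fun l x => l.1 x
      one_smul := fun x => rfl
      mul_smul := fun a b x => rfl }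
  refine finite_closure_orbits (L := Subgroup.closure
    ((T.biUnion L : Finset (X ≃ₜ X)) : Set (X ≃ₜ X))) (MonoidHom.id (Equiv.Perm X))
    Function.injective_id T fun f hf x => ?_
  obtain ⟨h, h2, h3⟩ := hL' f hf x
  exact ⟨⟨h, Subgroup.subset_closure (Finset.mem_coe.2 (Finset.mem_biUnion.2 ⟨f, hf, h2⟩))⟩, h3⟩

/-- A permutation which agrees near each point with an element of `Full H` is in `Full H`. -/
theorem Full_glue {f : Equiv.Perm X} (h : ∀ x, ∃ g ∈ Full H, ∀ᶠ y in 𝓝 x, f y = g y) :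
    f ∈ Full H := fun x => by
  obtain ⟨g, hg, h1⟩ := h x
  exact At.of_Full hg h1

omit [TopologicalSpace X] in
theorem inv_apply_eq {f : Equiv.Perm X} {x y : X} : f⁻¹ y = x ↔ y = f x :=
  Equiv.Perm.inv_eq_iff_eq

/-- The element of `Full H` which exchanges `V` and `f '' V`. -/
theorem exists_swap {V : Set X} (hV : IsClopen V) {f : Equiv.Perm X} (hf : f ∈ Full H)
    (hd : Disjoint (f '' V) V) :
    ∃ c ∈ Full H, (∀ x ∈ V, c x = f x) ∧ (∀ x, c (c x) = x) ∧
      ∀ x, x ∉ V → x ∉ f '' V → c x = x := by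
  classical
  have hfi : ∀ x, f⁻¹ (f x) = x := fun x => f.symm_apply_apply x
  have hfi' : ∀ x, f (f⁻¹ x) = x := fun x => f.apply_symm_apply x
  have hmem : ∀ x, x ∈ f '' V ↔ f⁻¹ x ∈ V := fun x =>
    ⟨fun ⟨y, hy, h⟩ => by rwa [← h, hfi], fun h => ⟨_, h, hfi' x⟩⟩
  have hd1 : ∀ x ∈ V, f x ∉ V := fun x hx h => Set.disjoint_left.1 hd ⟨x, hx, rfl⟩ h
  have hd2 : ∀ x, f⁻¹ x ∈ V → x ∉ V := fun x hx h => hd1 _ hx (by rwa [hfi'])
  let c : X → X := fun x => if x ∈ V then f x else if f⁻¹ x ∈ V then f⁻¹ x else x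
  have c1 : ∀ x ∈ V, c x = f x := fun x hx => if_pos hx
  have c2 : ∀ x, f⁻¹ x ∈ V → c x = f⁻¹ x := fun x hx => by
    simp only [c, if_neg (hd2 x hx), if_pos hx]
  have c3 : ∀ x, x ∉ V → f⁻¹ x ∉ V → c x = x := fun x hx hx' => by
    simp only [c, if_neg hx, if_neg hx']
  have cc : ∀ x, c (c x) = x := fun x => by
    by_cases h : x ∈ V
    · rw [c1 x h, c2 (f x) (by rwa [hfi]), hfi]
    · by_cases h' : f⁻¹ x ∈ V
      · rw [c2 x h', c1 _ h', hfi']
      · rw [c3 x h h', c3 x h h']
  refine ⟨⟨c, c, cc, cc⟩, fun x => ?_, c1, cc, fun x hx hx' => c3 x hx (by rwa [← hmem])⟩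
  have hcl : IsClopen ((f⁻¹ : Equiv.Perm X) ⁻¹' V) := hV.preimage (Full_continuous_inv hf)
  by_cases h : x ∈ V
  · refine (hf x).congr ?_
    filter_upwards [hV.isOpen.mem_nhds h] with y hy
    exact c1 y hy
  · by_cases h' : f⁻¹ x ∈ V
    · refine ((Full H).inv_mem hf x).congr ?_
      filter_upwards [hcl.isOpen.mem_nhds h'] with y hy
      exact c2 y hy
    · refine (At.of_mem H.one_mem x).congr ?_
      filter_upwards [hV.compl.isOpen.mem_nhds h, hcl.compl.isOpen.mem_nhds h'] with y hy hy'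
      exact c3 y hy hy'

omit [TopologicalSpace X] in
/-- The permutation which is `f` on `V` and `g` off `V`, if `f '' V = g '' V`. -/
theorem exists_glue {V : Set X} {f g : Equiv.Perm X} (h : ∀ x, f x ∈ g '' V ↔ x ∈ V) :
    ∃ c : Equiv.Perm X, (∀ x ∈ V, c x = f x) ∧ ∀ x, x ∉ V → c x = g x := by
  classical
  have hfi : ∀ x, f⁻¹ (f x) = x := fun x => f.symm_apply_apply x
  have hfi' : ∀ x, f (f⁻¹ x) = x := fun x => f.apply_symm_apply x
  have hgi : ∀ x, g⁻¹ (g x) = x := fun x => g.symm_apply_apply x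
  have hgi' : ∀ x, g (g⁻¹ x) = x := fun x => g.apply_symm_apply x
  have hg : ∀ x, x ∈ g '' V ↔ g⁻¹ x ∈ V := fun x =>
    ⟨fun ⟨y, hy, h⟩ => by rwa [← h, hgi], fun h => ⟨_, h, hgi' x⟩⟩
  have hf : ∀ x, f⁻¹ x ∈ V ↔ g⁻¹ x ∈ V := fun x => by
    rw [← h (f⁻¹ x), hfi', hg]
  refine ⟨⟨fun x => if x ∈ V then f x else g x, fun x => if g⁻¹ x ∈ V then f⁻¹ x else g⁻¹ x,
    fun x => ?_, fun x => ?_⟩, fun x hx => if_pos hx, fun x hx => if_neg hx⟩
  · by_cases hx : x ∈ V
    · simp only [if_pos hx]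
      rw [if_pos (by rw [← hf, hfi]; exact hx), hfi]
    · simp only [if_neg hx]
      rw [if_neg (by rwa [hgi]), hgi]
  · by_cases hx : g⁻¹ x ∈ V
    · simp only [if_pos hx, if_pos ((hf x).2 hx)]
      exact hfi' x
    · simp only [if_neg hx]
      exact hgi' x

end Pool.Agent.FS
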