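import Pool.Agent.FS.GoodC

/-!
# Good elements
-/

set_option autoImplicit false

namespace Pool.Agent.FS

open Monoid

namespace Data

variable {X : Type} {H : Subgroup (Equiv.Perm X)} {S : Data X H}

/-- The element of `K i c` given by an object. -/
def oE (i : S.I) (c : S.J) : Option (S.A c) → S.K i c :=
  opt fun a => Coprod.inr (FreeGroup.of a)

theorem k_oE (i : S.I) (c : S.J) (o : Option (S.A c)) :
    (FG.k c (oE i c o) : S.F i) = oK i c o := by
  cases o with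
  | none => exact map_one _
  | some a => rfl

namespace Factor

variable {i j : S.I}

/-- The element of `K i c`. -/
def el (φ : Factor S i) : S.K i φ.c := oE i φ.c φ.o * Coprod.inl φ.γ * (oE i φ.c φ.o')⁻¹

theorem val_eq (φ : Factor S i) : φ.val = FG.h φ.k * FG.k φ.c φ.el * (FG.h φ.k)⁻¹ := by
  unfold val el
  rw [map_mul, map_mul, map_inv, k_oE, k_oE]

theorem Dis.comm {φ ψ : Factor S i} (h : φ.Dis ψ) : φ.val * ψ.val = ψ.val * φ.val := by
  have h1 := FG.comm_D (H := H) (K := S.K i) (P := S.P i) (D := S.D i) h φ.el ψ.el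
  rw [map_mul, map_inv] at h1
  rw [val_eq, val_eq]
  calc FG.h φ.k * FG.k φ.c φ.el * (FG.h φ.k)⁻¹ * (FG.h ψ.k * FG.k ψ.c ψ.el * (FG.h ψ.k)⁻¹)
      = FG.h φ.k * (FG.k φ.c φ.el * ((FG.h φ.k)⁻¹ * FG.h ψ.k * FG.k ψ.c ψ.el *
          ((FG.h φ.k)⁻¹ * FG.h ψ.k)⁻¹)) * (FG.h φ.k)⁻¹ := by group
    _ = FG.h φ.k * (((FG.h φ.k)⁻¹ * FG.h ψ.k * FG.k ψ.c ψ.el *
          ((FG.h φ.k)⁻¹ * FG.h ψ.k)⁻¹) * FG.k φ.c φ.el) * (FG.h φ.k)⁻¹ := by rw [h1]
    _ = _ := by group

/-- The factors can be merged. -/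
def Match (φ ψ : Factor S i) : Prop :=
  (⟨φ.c, φ.o'⟩ : Σ c, Option (S.A c)) = ⟨ψ.c, ψ.o⟩ ∧ φ.k⁻¹ * ψ.k ∈ S.P i φ.c

theorem Match.mul {φ ψ : Factor S i} (h : φ.Match ψ) :
    ∃ χ : Factor S i, φ.val * ψ.val = χ.val ∧ ∀ ρ : Factor S i, ψ.Dis ρ → χ.Dis ρ := by
  obtain ⟨c, k, o, γ, o'⟩ := φ
  obtain ⟨c₂, k₂, o₂, γ₂, o₂'⟩ := ψ
  obtain ⟨h1, h2⟩ := h
  dsimp only at h1 h2
  rw [Sigma.mk.injEq] at h1
  obtain ⟨rfl, h1⟩ := h1
  obtain rfl := eq_of_heq h1
  refine ⟨⟨c, k, o, γ * γ₂, o₂'⟩, ?_, fun ρ hρ => ?_⟩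
  · have h3 := FG.comm_P (H := H) (K := S.K i) (P := S.P i) (D := S.D i) h2
      (oE i c o' * Coprod.inl γ₂ * (oE i c o₂')⁻¹)
    rw [map_mul FG.h, map_inv] at h3
    rw [val_eq, val_eq, val_eq]
    unfold el
    dsimp only
    calc FG.h k * FG.k c (oE i c o * Coprod.inl γ * (oE i c o')⁻¹) * (FG.h k)⁻¹ *
          (FG.h k₂ * FG.k c (oE i c o' * Coprod.inl γ₂ * (oE i c o₂')⁻¹) * (FG.h k₂)⁻¹)
        = FG.h k * FG.k c (oE i c o * Coprod.inl γ * (oE i c o')⁻¹) * ((FG.h k)⁻¹ * FG.h k₂ *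
          FG.k c (oE i c o' * Coprod.inl γ₂ * (oE i c o₂')⁻¹)) * (FG.h k₂)⁻¹ := by group
      _ = FG.h k * (FG.k c (oE i c o * Coprod.inl γ * (oE i c o')⁻¹) *
          FG.k c (oE i c o' * Coprod.inl γ₂ * (oE i c o₂')⁻¹)) * (FG.h k)⁻¹ := by
          rw [h3]; group
      _ = FG.h k * FG.k c (oE i c o * Coprod.inl (γ * γ₂) * (oE i c o₂')⁻¹) * (FG.h k)⁻¹ := by
          rw [← map_mul, map_mul Coprod.inl]
          congr 3
          group
  · have h3 := D_mul (S := S) h2 hρ (S.P i ρ.c).one_mem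
    rw [mul_one] at h3
    change k⁻¹ * k₂ * (k₂⁻¹ * ρ.k) ∈ _ at h3
    change k⁻¹ * ρ.k ∈ _
    convert h3 using 1
    group

end Factor

theorem Good.h_mul {i : S.I} {w : S.F i} (hw : Good w) (a : H) : Good (FG.h a * w) := by
  obtain ⟨l, h, hl, rfl⟩ := hw
  refine ⟨l.map fun φ => ⟨φ.c, a * φ.k, φ.o, φ.γ, φ.o'⟩, a * h, ?_, ?_⟩
  · rw [List.pairwise_map]
    refine hl.imp fun {φ ψ} hφ => ?_
    change (a * φ.k)⁻¹ * (a * ψ.k) ∈ S.D i φ.c ψ.c
    have h1 : (a * φ.k)⁻¹ * (a * ψ.k) = φ.k⁻¹ * ψ.k := by group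
    rw [h1]
    exact hφ
  · have : ∀ l : List (Factor S i), FG.h a * (l.map Factor.val).prod =
        ((l.map fun φ => (⟨φ.c, a * φ.k, φ.o, φ.γ, φ.o'⟩ : Factor S i)).map Factor.val).prod *
          FG.h a := by
      intro l
      induction l with
      | nil => simp
      | cons φ l ih =>
        rw [List.map_cons, List.map_cons, List.map_cons, List.prod_cons, List.prod_cons]
        have h1 : FG.h a * φ.val =
            (⟨φ.c, a * φ.k, φ.o, φ.γ, φ.o'⟩ : Factor S i).val * FG.h a := by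
          rw [Factor.val_eq, Factor.val_eq]
          change _ = FG.h (a * φ.k) * FG.k φ.c φ.el * (FG.h (a * φ.k))⁻¹ * FG.h a
          rw [map_mul]
          group
        rw [← mul_assoc, h1, mul_assoc, ih, mul_assoc]
    rw [← mul_assoc, this, mul_assoc, ← map_mul]

theorem Good.mul_h {i : S.I} {w : S.F i} (hw : Good w) (a : H) : Good (w * FG.h a) := by
  obtain ⟨l, h, hl, rfl⟩ := hw
  exact ⟨l, h * a, hl, by rw [mul_assoc, ← map_mul]⟩

/-- A factor times a good element is good if the tracks are disjoint or match. -/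
theorem good_mul_of {i : S.I} (φ : Factor S i) (l : List (Factor S i))
    (hl : l.Pairwise Factor.Dis) (hφ : ∀ ψ ∈ l, φ.Dis ψ ∨ φ.Match ψ) :
    Good (φ.val * (l.map Factor.val).prod) := by
  by_cases h : ∀ ψ ∈ l, φ.Dis ψ
  · exact ⟨φ :: l, 1, List.pairwise_cons.2 ⟨h, hl⟩, by
      rw [List.map_cons, List.prod_cons, map_one, mul_one]⟩
  · push Not at h
    obtain ⟨ψ, hψ, h1⟩ := h
    obtain ⟨χ, h2, h3⟩ := ((hφ ψ hψ).resolve_left h1).mul
    obtain ⟨s, t, rfl⟩ := List.append_of_mem hψ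
    have hp : (s ++ ψ :: t).Perm (ψ :: (s ++ t)) := List.perm_middle
    have hl' : (ψ :: (s ++ t)).Pairwise Factor.Dis :=
      (hp.pairwise_iff fun {a b} hab => Factor.Dis.symm hab).1 hl
    have hc : ((s ++ ψ :: t).map Factor.val).Pairwise Commute := by
      rw [List.pairwise_map]
      exact hl.imp fun {a b} hab => Factor.Dis.comm hab
    rw [(hp.map Factor.val).prod_eq' hc, List.map_cons, List.prod_cons, ← mul_assoc, h2]
    rw [List.pairwise_cons] at hl'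
    exact ⟨χ :: (s ++ t), 1, List.pairwise_cons.2 ⟨fun ρ hρ => h3 ρ (hl'.1 ρ hρ), hl'.2⟩, by
      rw [List.map_cons, List.prod_cons, map_one, mul_one]⟩

/-! ### the transition of factors -/

/-- `η` on all objects. -/
def etaO {i j : S.I} (hij : i ≤ j) (c : S.J) (o : Option (S.A c)) : H := opt (eta hij c) o

theorem etaO_mem_Sp {i j : S.I} (hij : i ≤ j) (c : S.J) (o : Option (S.A c)) :
    etaO hij c o ∈ S.Sp i c := by
  cases o with
  | none => exact (S.Sp i c).one_mem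
  | some a => exact eta_mem_Sp hij c a

theorem trK_oE {i j : S.I} (hij : i ≤ j) (c : S.J) (o : Option (S.A c)) :
    trK hij c (oE i c o) = FG.h (etaO hij c o) * FG.k c (oE j c o) := by
  cases o with
  | none =>
    change trK hij c 1 = FG.h 1 * FG.k c 1
    rw [map_one, map_one, map_one, mul_one]
  | some a => exact trK_of hij c a

namespace Factor

variable {i j : S.I}

/-- The correction term. -/
def cor (hij : i ≤ j) (φ : Factor S i) : H :=
  φ.k * (etaO hij φ.c φ.o * lam hij φ.c φ.γ * (etaO hij φ.c φ.o')⁻¹) * φ.k⁻¹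

/-- The factor based at the target. -/
def lft (hij : i ≤ j) (φ : Factor S i) : Factor S j :=
  ⟨φ.c, φ.k * etaO hij φ.c φ.o, φ.o, S.res i j hij φ.c φ.γ, φ.o'⟩

/-- The factor based at the source. -/
def rgt (hij : i ≤ j) (φ : Factor S i) : Factor S j :=
  ⟨φ.c, φ.k * etaO hij φ.c φ.o', φ.o, S.res i j hij φ.c φ.γ, φ.o'⟩

/-- The restricted element. -/
def elr (hij : i ≤ j) (φ : Factor S i) : S.K j φ.c :=
  oE j φ.c φ.o * Coprod.inl (S.res i j hij φ.c φ.γ) * (oE j φ.c φ.o')⁻¹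

theorem val_lft (hij : i ≤ j) (φ : Factor S i) : (φ.lft hij).val =
    FG.h (φ.k * etaO hij φ.c φ.o) * FG.k φ.c (φ.elr hij) *
      (FG.h (φ.k * etaO hij φ.c φ.o))⁻¹ := val_eq _

theorem val_rgt (hij : i ≤ j) (φ : Factor S i) : (φ.rgt hij).val =
    FG.h (φ.k * etaO hij φ.c φ.o') * FG.k φ.c (φ.elr hij) *
      (FG.h (φ.k * etaO hij φ.c φ.o'))⁻¹ := val_eq _

theorem trK_el (hij : i ≤ j) (φ : Factor S i) : trK hij φ.c φ.el =
    FG.h (etaO hij φ.c φ.o) * (FG.h (lam hij φ.c φ.γ) * FG.k φ.c (φ.elr hij)) *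
      (FG.h (etaO hij φ.c φ.o'))⁻¹ := by
  have h1 := FG.comm_P (H := H) (K := S.K j) (P := S.P j) (D := S.D j)
    (lam_mem_P hij φ.c φ.γ) (oE j φ.c φ.o)
  unfold el elr
  rw [map_mul, map_mul, map_inv, trK_oE, trK_oE, trK_inl, mul_inv_rev, map_mul, map_mul, map_inv]
  calc FG.h (etaO hij φ.c φ.o) * FG.k φ.c (oE j φ.c φ.o) *
        (FG.h (lam hij φ.c φ.γ) * FG.k φ.c (Coprod.inl (S.res i j hij φ.c φ.γ))) *
        ((FG.k φ.c (oE j φ.c φ.o'))⁻¹ * (FG.h (etaO hij φ.c φ.o'))⁻¹)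
      = FG.h (etaO hij φ.c φ.o) * (FG.k φ.c (oE j φ.c φ.o) *
        FG.h (lam hij φ.c φ.γ)) * FG.k φ.c (Coprod.inl (S.res i j hij φ.c φ.γ)) *
        (FG.k φ.c (oE j φ.c φ.o'))⁻¹ * (FG.h (etaO hij φ.c φ.o'))⁻¹ := by group
    _ = _ := by rw [← h1]; group

theorem lam_comm_k (hij : i ≤ j) (φ : Factor S i) (x : S.K j φ.c) :
    (FG.h (lam hij φ.c φ.γ) : S.F j) * FG.k φ.c x = FG.k φ.c x * FG.h (lam hij φ.c φ.γ) :=
  FG.comm_P (lam_mem_P hij φ.c φ.γ) x

theorem tr_val_lft (hij : i ≤ j) (φ : Factor S i) :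
    tr hij φ.val = (φ.lft hij).val * FG.h (φ.cor hij) := by
  rw [val_lft, val_eq]
  rw [map_mul, map_mul, map_inv, tr_h, tr_k, trK_el, lam_comm_k]
  unfold cor
  simp only [map_mul, map_inv]
  group

theorem tr_val_rgt (hij : i ≤ j) (φ : Factor S i) :
    tr hij φ.val = FG.h (φ.cor hij) * (φ.rgt hij).val := by
  rw [val_rgt, val_eq]
  rw [map_mul, map_mul, map_inv, tr_h, tr_k, trK_el]
  unfold cor
  simp only [map_mul, map_inv]
  group

/-- Elements of `H` supported in the track. -/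
theorem cor_comm (hij : i ≤ j) {φ ψ : Factor S i} (h : φ.Dis ψ) :
    FG.h (φ.cor hij) * (ψ.lft hij).val = (ψ.lft hij).val * FG.h (φ.cor hij) := by
  have h1 : etaO hij φ.c φ.o * lam hij φ.c φ.γ * (etaO hij φ.c φ.o')⁻¹ ∈ S.Sp i φ.c :=
    (S.Sp i φ.c).mul_mem ((S.Sp i φ.c).mul_mem (etaO_mem_Sp hij _ _) (lam_mem_Sp hij _ _))
      ((S.Sp i φ.c).inv_mem (etaO_mem_Sp hij _ _))
  have h2 : (ψ.k * etaO hij ψ.c ψ.o)⁻¹ * φ.cor hij * (ψ.k * etaO hij ψ.c ψ.o) ∈ S.P j ψ.c := by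
    intro z hz
    have hz' : (etaO hij ψ.c ψ.o : Equiv.Perm X) z ∈ S.V i ψ.c :=
      supp_mem (etaO_mem_Sp hij ψ.c ψ.o) (S.V_anti i j hij ψ.c hz)
    have h3 := h _ hz'
    have h4 := h1 _ h3
    change ((ψ.k * etaO hij ψ.c ψ.o : H) : Equiv.Perm X)⁻¹ ((φ.cor hij : Equiv.Perm X)
      (((ψ.k * etaO hij ψ.c ψ.o : H) : Equiv.Perm X) z)) = z
    rw [Equiv.Perm.inv_eq_iff_eq]
    unfold cor
    change (φ.k : Equiv.Perm X) (((etaO hij φ.c φ.o * lam hij φ.c φ.γ *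
      (etaO hij φ.c φ.o')⁻¹ : H) : Equiv.Perm X) ((φ.k : Equiv.Perm X)⁻¹
      ((ψ.k : Equiv.Perm X) ((etaO hij ψ.c ψ.o : Equiv.Perm X) z)))) =
      (ψ.k : Equiv.Perm X) ((etaO hij ψ.c ψ.o : Equiv.Perm X) z)
    change ((etaO hij φ.c φ.o * lam hij φ.c φ.γ * (etaO hij φ.c φ.o')⁻¹ : H) : Equiv.Perm X)
      ((φ.k : Equiv.Perm X)⁻¹ ((ψ.k : Equiv.Perm X) ((etaO hij ψ.c ψ.o : Equiv.Perm X) z))) =
      (φ.k : Equiv.Perm X)⁻¹ ((ψ.k : Equiv.Perm X) ((etaO hij ψ.c ψ.o : Equiv.Perm X) z)) at h4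
    rw [h4, app_inv]
  have h3 := FG.comm_P (H := H) (K := S.K j) (P := S.P j) (D := S.D j) h2 (ψ.elr hij)
  rw [map_mul FG.h, map_mul FG.h, map_inv] at h3
  rw [val_lft]
  generalize (FG.h (ψ.k * etaO hij ψ.c ψ.o) : S.F j) = b at h3 ⊢
  generalize (FG.h (φ.cor hij) : S.F j) = a at h3 ⊢
  generalize (FG.k ψ.c (ψ.elr hij) : S.F j) = x at h3 ⊢
  calc a * (b * x * b⁻¹) = b * (b⁻¹ * a * b * x) * b⁻¹ := by group
    _ = b * (x * (b⁻¹ * a * b)) * b⁻¹ := by rw [h3]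
    _ = _ := by group

theorem Dis.lft {φ ψ : Factor S i} (h : φ.Dis ψ) (hij : i ≤ j) : (φ.lft hij).Dis (ψ.lft hij) := by
  intro z hz hz'
  have hz1 : (etaO hij ψ.c ψ.o : Equiv.Perm X) z ∈ S.V i ψ.c :=
    supp_mem (etaO_mem_Sp hij ψ.c ψ.o) (S.V_anti i j hij ψ.c hz)
  refine h _ hz1 ?_
  have h2 := supp_mem (etaO_mem_Sp hij φ.c φ.o) (S.V_anti i j hij φ.c hz')
  change (etaO hij φ.c φ.o : Equiv.Perm X) (((φ.k * etaO hij φ.c φ.o : H) : Equiv.Perm X)⁻¹
    ((ψ.k : Equiv.Perm X) ((etaO hij ψ.c ψ.o : Equiv.Perm X) z))) ∈ _ at h2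
  change (φ.k : Equiv.Perm X)⁻¹ ((ψ.k : Equiv.Perm X) ((etaO hij ψ.c ψ.o : Equiv.Perm X) z)) ∈ _
  have h3 : (((φ.k * etaO hij φ.c φ.o : H) : Equiv.Perm X)⁻¹ : Equiv.Perm X) =
      (etaO hij φ.c φ.o : Equiv.Perm X)⁻¹ * (φ.k : Equiv.Perm X)⁻¹ := by
    rw [Subgroup.coe_mul, mul_inv_rev]
  rw [h3, Equiv.Perm.mul_apply, app_inv] at h2
  exact h2

end Factor

/-- The transition of a product of factors with disjoint tracks. -/
theorem tr_prod {i j : S.I} (hij : i ≤ j) (l : List (Factor S i)) (hl : l.Pairwise Factor.Dis) :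
    ∃ a : H, tr hij (l.map Factor.val).prod =
      ((l.map (Factor.lft hij)).map Factor.val).prod * FG.h a := by
  induction l with
  | nil => exact ⟨1, by simp⟩
  | cons φ l ih =>
    rw [List.pairwise_cons] at hl
    obtain ⟨a, ha⟩ := ih hl.2
    refine ⟨φ.cor hij * a, ?_⟩
    rw [List.map_cons, List.prod_cons, map_mul, ha, Factor.tr_val_lft, List.map_cons,
      List.map_cons, List.prod_cons]
    have h1 : ∀ l' : List (Factor S i), (∀ ψ ∈ l', φ.Dis ψ) →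
        FG.h (φ.cor hij) * ((l'.map (Factor.lft hij)).map Factor.val).prod =
          ((l'.map (Factor.lft hij)).map Factor.val).prod * FG.h (φ.cor hij) := by
      intro l'
      induction l' with
      | nil => intro _; simp
      | cons ψ l' ih' =>
        intro h
        rw [List.map_cons, List.map_cons, List.prod_cons, ← mul_assoc,
          Factor.cor_comm hij (h ψ (List.mem_cons_self ..)), mul_assoc,
          ih' fun ρ hρ => h ρ (List.mem_cons_of_mem _ hρ), mul_assoc]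
    have h2 := h1 l hl.1
    rw [map_mul]
    simp only [mul_assoc]
    congr 1
    rw [← mul_assoc, h2, mul_assoc]

theorem Good.tr {i j : S.I} (hij : i ≤ j) {w : S.F i} (hw : Good w) : Good (Data.tr hij w) := by
  obtain ⟨l, h, hl, rfl⟩ := hw
  obtain ⟨a, ha⟩ := tr_prod hij l hl
  refine ⟨l.map (Factor.lft hij), a * h, ?_, by rw [map_mul, ha, tr_h, map_mul, mul_assoc]⟩
  rw [List.pairwise_map]
  exact hl.imp fun {φ ψ} hφ => hφ.lft hij

/-! ### every element becomes good -/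

theorem etaO_eq {i j : S.I} (hij : i ≤ j) (c : S.J) (o : Option (S.A c)) {z : X}
    (hz : z ∈ S.V j c) : (etaO hij c o : Equiv.Perm X) z =
      ((opt (S.κ i c) o : H) : Equiv.Perm X) (((opt (S.κ j c) o : H) : Equiv.Perm X)⁻¹ z) := by
  cases o with
  | none => rfl
  | some a => exact S.u_eq i j hij c a z hz

theorem dich' (i : S.I) (a a' : H) (c c' : S.J) (o : Option (S.A c)) (o' : Option (S.A c')) :
    ∃ i₀, ∀ j, i₀ ≤ j → ∀ hij : i ≤ j,
      ((⟨c, o⟩ : Σ c, Option (S.A c)) = ⟨c', o'⟩ ∧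
        (a * etaO hij c o)⁻¹ * (a' * etaO hij c' o') ∈ S.P j c) ∨
      (a * etaO hij c o)⁻¹ * (a' * etaO hij c' o') ∈ S.D j c c' := by
  obtain ⟨i₀, h⟩ := S.dich ((a' * opt (S.κ i c') o')⁻¹ * (a * opt (S.κ i c) o)) c c' o o'
  refine ⟨i₀, fun j hj hij => ?_⟩
  rcases h j hj with ⟨h1, h2⟩ | h2
  · left
    refine ⟨h1, ?_⟩
    rw [Sigma.mk.injEq] at h1
    obtain ⟨rfl, h1⟩ := h1
    obtain rfl := eq_of_heq h1
    intro z hz
    have h3 := h2 ((((opt (S.κ j c) o : H) : Equiv.Perm X))⁻¹ z) (by rwa [app_inv])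
    change ((a' * opt (S.κ i c) o : H) : Equiv.Perm X)⁻¹ ((a : Equiv.Perm X)
      (((opt (S.κ i c) o : H) : Equiv.Perm X) (((opt (S.κ j c) o : H) : Equiv.Perm X)⁻¹ z))) = _
      at h3
    rw [← etaO_eq hij c o hz, Equiv.Perm.inv_eq_iff_eq] at h3
    change _ = (a' : Equiv.Perm X) (((opt (S.κ i c) o : H) : Equiv.Perm X)
      (((opt (S.κ j c) o : H) : Equiv.Perm X)⁻¹ z)) at h3
    rw [← etaO_eq hij c o hz] at h3
    change ((a * etaO hij c o : H) : Equiv.Perm X)⁻¹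
      ((a' : Equiv.Perm X) ((etaO hij c o : Equiv.Perm X) z)) = z
    rw [Equiv.Perm.inv_eq_iff_eq]
    exact h3.symm
  · right
    intro z hz hz'
    set z' := ((a * etaO hij c o)⁻¹ * (a' * etaO hij c' o') : H).1 z with hz'def
    have h3 : (a : Equiv.Perm X) ((etaO hij c o : Equiv.Perm X) z') =
        (a' : Equiv.Perm X) ((etaO hij c' o' : Equiv.Perm X) z) := by
      rw [hz'def]
      change ((a * etaO hij c o : H) : Equiv.Perm X) (((a * etaO hij c o : H) : Equiv.Perm X)⁻¹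
        ((a' : Equiv.Perm X) ((etaO hij c' o' : Equiv.Perm X) z))) = _
      rw [app_inv]
    rw [etaO_eq hij c o hz', etaO_eq hij c' o' hz] at h3
    refine h2 ((((opt (S.κ j c) o : H) : Equiv.Perm X))⁻¹ z') (by rwa [app_inv]) ?_
    change ((opt (S.κ j c') o' : H) : Equiv.Perm X)
      (((a' * opt (S.κ i c') o' : H) : Equiv.Perm X)⁻¹ ((a : Equiv.Perm X)
      (((opt (S.κ i c) o : H) : Equiv.Perm X) (((opt (S.κ j c) o : H) : Equiv.Perm X)⁻¹ z'))))
      ∈ _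
    rw [h3]
    have h4 : ((a' * opt (S.κ i c') o' : H) : Equiv.Perm X)⁻¹ ((a' : Equiv.Perm X)
        (((opt (S.κ i c') o' : H) : Equiv.Perm X)
        (((opt (S.κ j c') o' : H) : Equiv.Perm X)⁻¹ z))) =
        ((opt (S.κ j c') o' : H) : Equiv.Perm X)⁻¹ z := by
      rw [Equiv.Perm.inv_eq_iff_eq]
      rfl
    rw [h4, app_inv]
    exact hz

theorem exists_le_list {I Y : Type} [Preorder I] [IsDirectedOrder I] (i : I) (f : Y → I)
    (l : List Y) : ∃ j, i ≤ j ∧ ∀ y ∈ l, f y ≤ j := by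
  induction l with
  | nil => exact ⟨i, le_rfl, fun y hy => absurd hy List.not_mem_nil⟩
  | cons y l ih =>
    obtain ⟨j, h1, h2⟩ := ih
    obtain ⟨k, h3, h4⟩ := exists_ge_ge j (f y)
    refine ⟨k, h1.trans h3, fun z hz => ?_⟩
    rcases List.mem_cons.1 hz with rfl | hz
    · exact h4
    · exact (h2 z hz).trans h3

/-- A factor times a good element becomes good. -/
theorem good_factor_mul {i : S.I} (φ : Factor S i) {w : S.F i} (hw : Good w) :
    ∃ (j : S.I) (hij : i ≤ j), Good (tr hij (φ.val * w)) := by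
  obtain ⟨l, h, hl, rfl⟩ := hw
  choose f hf using fun ψ : Factor S i => dich' i φ.k ψ.k φ.c ψ.c φ.o' ψ.o
  obtain ⟨j, hij, hj⟩ := exists_le_list i f l
  refine ⟨j, hij, ?_⟩
  obtain ⟨a, ha⟩ := tr_prod hij l hl
  rw [map_mul, map_mul, ha, tr_h, Factor.tr_val_rgt]
  have h1 : Good ((φ.rgt hij).val * ((l.map (Factor.lft hij)).map Factor.val).prod) := by
    refine good_mul_of _ _ ?_ ?_
    · rw [List.pairwise_map]
      exact hl.imp fun {φ ψ} hφ => hφ.lft hij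
    · intro ψ' hψ'
      obtain ⟨ψ, hψ, rfl⟩ := List.mem_map.1 hψ'
      rcases hf ψ j (hj ψ hψ) hij with ⟨h2, h3⟩ | h3
      · exact Or.inr ⟨h2, h3⟩
      · exact Or.inl h3
  have h2 := ((h1.mul_h a).mul_h h).h_mul (φ.cor hij)
  simpa only [mul_assoc] using h2

variable (S) in
/-- The elements which become good. -/
def EvGood {i : S.I} (w : S.F i) : Prop := ∃ (j : S.I) (hij : i ≤ j), Good (tr hij w)

theorem EvGood.factor_mul {i : S.I} (φ : Factor S i) {w : S.F i} (hw : EvGood S w) :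
    EvGood S (φ.val * w) := by
  obtain ⟨j, hij, hj⟩ := hw
  obtain ⟨l, hjl, hl⟩ := good_factor_mul (φ.rgt hij) hj
  refine ⟨l, hij.trans hjl, ?_⟩
  rw [← tr_tr hij hjl, map_mul (tr hij), Factor.tr_val_rgt, mul_assoc, map_mul, tr_h]
  exact hl.h_mul _

/-- Every element becomes good. -/
theorem exists_good {i : S.I} (w : S.F i) : ∃ (j : S.I) (hij : i ≤ j), Good (tr hij w) := by
  refine FG.induction (p := fun w : S.F i => EvGood S w) ?_ ?_ ?_ w
  · exact ⟨i, le_rfl, [], 1, List.Pairwise.nil, by simp⟩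
  · rintro a w ⟨j, hij, hj⟩
    refine ⟨j, hij, ?_⟩
    rw [map_mul, tr_h]
    exact hj.h_mul a
  · intro c x
    induction x using Coprod.induction_on with
    | inl γ =>
      intro w hw
      have h1 := hw.factor_mul (⟨c, 1, none, γ, none⟩ : Factor S i)
      have h2 : (⟨c, 1, none, γ, none⟩ : Factor S i).val = FG.k c (Coprod.inl γ) := by
        simp [Factor.val, oK]
      rwa [h2] at h1
    | inr y =>
      induction y using FreeGroup.induction_on with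
      | C1 => intro w hw; simpa using hw
      | of a =>
        intro w hw
        have h1 := hw.factor_mul (⟨c, 1, some a, 1, none⟩ : Factor S i)
        have h2 : (⟨c, 1, some a, 1, none⟩ : Factor S i).val =
            FG.k c (Coprod.inr (FreeGroup.of a)) := by
          simp [Factor.val, oK]
        rwa [h2] at h1
      | inv_of a _ =>
        intro w hw
        have h1 := hw.factor_mul (⟨c, 1, none, 1, some a⟩ : Factor S i)
        have h2 : (⟨c, 1, none, 1, some a⟩ : Factor S i).val =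
            FG.k c (Coprod.inr (FreeGroup.of a)⁻¹) := by
          simp [Factor.val, oK]
        rwa [h2] at h1
      | mul a b ha hb =>
        intro w hw
        have := ha _ (hb w hw)
        rwa [← mul_assoc, ← map_mul, ← map_mul] at this
    | mul a b ha hb =>
      intro w hw
      have := ha _ (hb w hw)
      rwa [← mul_assoc, ← map_mul] at this

end Data

end Pool.Agent.FS
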