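import Pool.Agent.FS.Core

/-!
# Good elements, part (C)
-/

set_option autoImplicit false

namespace Pool.Agent.FS.Data

open Monoid

variable {X : Type} {H : Subgroup (Equiv.Perm X)} {S : Data X H}

/-- The letters of the objects. -/
def oK (i : S.I) (c : S.J) : Option (S.A c) → S.F i :=
  opt fun a => FG.k c (Coprod.inr (FreeGroup.of a))

/-- A factor of a good element. -/
structure Factor (S : Data X H) (i : S.I) where
  c : S.J
  k : H
  o : Option (S.A c)
  γ : S.Γ i c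
  o' : Option (S.A c)

namespace Factor

variable {i : S.I}

/-- The value of a factor. -/
def val (φ : Factor S i) : S.F i :=
  FG.h φ.k * (oK i φ.c φ.o * FG.k φ.c (Coprod.inl φ.γ) * (oK i φ.c φ.o')⁻¹) * (FG.h φ.k)⁻¹

/-- The tracks of two factors are disjoint. -/
def Dis (φ ψ : Factor S i) : Prop := φ.k⁻¹ * ψ.k ∈ S.D i φ.c ψ.c

end Factor

/-- Good elements. -/
def Good {i : S.I} (w : S.F i) : Prop :=
  ∃ (l : List (Factor S i)) (a : H), l.Pairwise Factor.Dis ∧
    w = (l.map Factor.val).prod * FG.h a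

theorem im_oK (i : S.I) (c : S.J) (o : Option (S.A c)) : im i (oK i c o) = opt (S.u i c) o := by
  cases o with
  | none => exact map_one _
  | some a =>
    change im i (FG.k c (Coprod.inr (FreeGroup.of a)) : S.F i) = S.u i c a
    rw [im_k, imK_of]

theorem opt_u_supp (i : S.I) (c : S.J) (o : Option (S.A c)) (z : X) (hz : z ∉ S.V i c) :
    opt (S.u i c) o z = z := by
  cases o with
  | none => rfl
  | some a => exact S.u_supp i c a z hz

namespace Factor

variable {i : S.I}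

/-- The permutation of the neighbourhood given by a factor. -/
def perm (φ : Factor S i) : Equiv.Perm X :=
  opt (S.u i φ.c) φ.o * φ.γ * (opt (S.u i φ.c) φ.o')⁻¹

theorem perm_supp (φ : Factor S i) (z : X) (hz : z ∉ S.V i φ.c) : φ.perm z = z := by
  change opt (S.u i φ.c) φ.o ((φ.γ : Equiv.Perm X) ((opt (S.u i φ.c) φ.o')⁻¹ z)) = z
  rw [supp_inv (opt_u_supp i φ.c φ.o') z hz, S.Γ_supp i φ.c _ φ.γ.2 z hz,
    opt_u_supp i φ.c φ.o z hz]

theorem im_val (φ : Factor S i) :
    im i φ.val = (φ.k : Equiv.Perm X) * φ.perm * (φ.k : Equiv.Perm X)⁻¹ := by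
  rw [val, map_mul, map_mul, map_mul, map_mul, map_inv, map_inv, im_h, im_oK, im_oK, im_k,
    imK_inl]
  rfl

theorem im_val_supp (φ : Factor S i) (z : X) (hz : (φ.k : Equiv.Perm X)⁻¹ z ∉ S.V i φ.c) :
    im i φ.val z = z := by
  rw [im_val]
  change (φ.k : Equiv.Perm X) (φ.perm ((φ.k : Equiv.Perm X)⁻¹ z)) = z
  rw [φ.perm_supp _ hz, app_inv]

theorem im_val_mem (φ : Factor S i) (z : X) (hz : (φ.k : Equiv.Perm X)⁻¹ z ∈ S.V i φ.c) :
    (φ.k : Equiv.Perm X)⁻¹ (im i φ.val z) ∈ S.V i φ.c := by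
  rw [im_val]
  change (φ.k : Equiv.Perm X)⁻¹ ((φ.k : Equiv.Perm X) (φ.perm ((φ.k : Equiv.Perm X)⁻¹ z))) ∈ _
  rw [inv_app]
  exact supp_mem φ.perm_supp hz

theorem Dis.symm {φ ψ : Factor S i} (h : φ.Dis ψ) : ψ.Dis φ := by
  have := D_inv h
  rwa [mul_inv_rev, inv_inv] at this

theorem Dis.notMem {φ ψ : Factor S i} (h : φ.Dis ψ) {z : X}
    (hz : (ψ.k : Equiv.Perm X)⁻¹ z ∈ S.V i ψ.c) : (φ.k : Equiv.Perm X)⁻¹ z ∉ S.V i φ.c := by
  have h1 := h _ hz
  change (φ.k : Equiv.Perm X)⁻¹ ((ψ.k : Equiv.Perm X) ((ψ.k : Equiv.Perm X)⁻¹ z)) ∉ _ at h1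
  rwa [app_inv] at h1

end Factor

/-- Off the tracks a product of factors is the identity. -/
theorem im_prod_of_notMem {i : S.I} (l : List (Factor S i)) (z : X)
    (hz : ∀ φ ∈ l, (φ.k : Equiv.Perm X)⁻¹ z ∉ S.V i φ.c) :
    im i (l.map Factor.val).prod z = z := by
  induction l with
  | nil => rw [List.map_nil, List.prod_nil, map_one]; rfl
  | cons ψ l ih =>
    rw [List.map_cons, List.prod_cons, map_mul, Equiv.Perm.mul_apply,
      ih fun φ hφ => hz φ (List.mem_cons_of_mem _ hφ), ψ.im_val_supp z (hz ψ List.mem_cons_self)]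

/-- On the track of a factor a product of disjoint factors is given by this factor. -/
theorem im_prod_of_mem {i : S.I} (l : List (Factor S i)) (hl : l.Pairwise Factor.Dis)
    (φ : Factor S i) (hφ : φ ∈ l) (z : X) (hz : (φ.k : Equiv.Perm X)⁻¹ z ∈ S.V i φ.c) :
    im i (l.map Factor.val).prod z = im i φ.val z := by
  induction l with
  | nil => exact absurd hφ (by simp)
  | cons ψ l ih =>
    rw [List.pairwise_cons] at hl
    rw [List.map_cons, List.prod_cons, map_mul, Equiv.Perm.mul_apply]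
    rcases List.mem_cons.1 hφ with rfl | h
    · rw [im_prod_of_notMem l z fun χ hχ => (hl.1 χ hχ).symm.notMem hz]
    · rw [ih hl.2 h, ψ.im_val_supp _ ((hl.1 φ h).notMem (φ.im_val_mem z hz))]

/-- The factors of a good element with trivial image are trivial. -/
theorem factor_trivial {i : S.I} (l : List (Factor S i)) (hl : l.Pairwise Factor.Dis) (a : H)
    (h1 : im i ((l.map Factor.val).prod * FG.h a) = 1) (φ : Factor S i) (hφ : φ ∈ l) :
    φ.o = φ.o' ∧ ∃ j, ∃ hij : i ≤ j, S.res i j hij φ.c φ.γ = 1 := by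
  refine S.sep i φ.c φ.o φ.o' φ.γ (φ.k⁻¹ * a⁻¹ * φ.k) fun z hz => ?_
  have h2 : im i (l.map Factor.val).prod = (a : Equiv.Perm X)⁻¹ := by
    rw [map_mul, im_h] at h1
    exact eq_inv_of_mul_eq_one_left h1
  have h3 := im_prod_of_mem l hl φ hφ ((φ.k : Equiv.Perm X) z) (by rwa [inv_app])
  rw [h2, φ.im_val] at h3
  change (a : Equiv.Perm X)⁻¹ ((φ.k : Equiv.Perm X) z) =
    (φ.k : Equiv.Perm X) (φ.perm ((φ.k : Equiv.Perm X)⁻¹ ((φ.k : Equiv.Perm X) z))) at h3
  rw [inv_app] at h3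
  change φ.perm z = (φ.k : Equiv.Perm X)⁻¹ ((a : Equiv.Perm X)⁻¹ ((φ.k : Equiv.Perm X) z))
  rw [h3, inv_app]

theorem res_eq_one {i j l : S.I} (hij : i ≤ j) (hjl : j ≤ l) (c : S.J) (γ : S.Γ i c)
    (h : S.res i j hij c γ = 1) : S.res i l (hij.trans hjl) c γ = 1 := by
  rw [← res_res hij hjl, h, map_one]

/-- A level at which all the groups elements of the factors are trivial. -/
theorem exists_level {i : S.I} (l : List (Factor S i))
    (h : ∀ φ ∈ l, ∃ j, ∃ hij : i ≤ j, S.res i j hij φ.c φ.γ = 1) :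
    ∃ j, ∃ hij : i ≤ j, ∀ φ ∈ l, S.res i j hij φ.c φ.γ = 1 := by
  induction l with
  | nil => exact ⟨i, le_rfl, fun φ hφ => absurd hφ (by simp)⟩
  | cons ψ l ih =>
    obtain ⟨j, hij, hj⟩ := ih fun φ hφ => h φ (List.mem_cons_of_mem _ hφ)
    obtain ⟨j', hij', hj'⟩ := h ψ List.mem_cons_self
    obtain ⟨j'', h1, h2⟩ := exists_ge_ge j j'
    refine ⟨j'', hij.trans h1, fun φ hφ => ?_⟩
    rcases List.mem_cons.1 hφ with rfl | h3
    · exact res_eq_one hij' h2 _ _ hj'
    · exact res_eq_one hij h1 _ _ (hj φ h3)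

/-- The transition map on the letters of the objects. -/
theorem tr_oK {i j : S.I} (hij : i ≤ j) (c : S.J) (o : Option (S.A c)) :
    tr hij (oK i c o) = FG.h (opt (eta hij c) o) * oK j c o := by
  cases o with
  | none => simp [oK]
  | some a =>
    change tr hij (FG.k c (Coprod.inr (FreeGroup.of a)) : S.F i) =
      FG.h (eta hij c a) * FG.k c (Coprod.inr (FreeGroup.of a))
    rw [tr_k, trK_of]

theorem oK_comm_P (j : S.I) (c : S.J) (o : Option (S.A c)) {p : H} (hp : p ∈ S.P j c) :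
    (FG.h p : S.F j) * oK j c o = oK j c o * FG.h p := by
  cases o with
  | none => simp [oK]
  | some a => exact FG.comm_P hp _

/-- A factor with equal objects whose group element becomes trivial is in `H` at the later
level. -/
theorem tr_val_of_trivial {i j : S.I} (hij : i ≤ j) (φ : Factor S i) (ho : φ.o = φ.o')
    (h : S.res i j hij φ.c φ.γ = 1) : ∃ b : H, tr hij φ.val = FG.h b := by
  obtain ⟨c, k, o, γ, o'⟩ := φ
  change o = o' at ho
  subst ho
  change S.res i j hij c γ = 1 at h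
  refine ⟨k * (opt (eta hij c) o * lam hij c γ * (opt (eta hij c) o)⁻¹) * k⁻¹, ?_⟩
  change tr hij (FG.h k * (oK i c o * FG.k c (Coprod.inl γ) * (oK i c o)⁻¹) * (FG.h k)⁻¹) = _
  have h1 := oK_comm_P j c o (lam_mem_P hij c γ)
  rw [map_mul, map_mul, map_mul, map_mul, map_inv, map_inv, tr_h, tr_oK, tr_k, trK_inl, h,
    map_one, map_one, mul_one]
  have h2 : (FG.h (opt (eta hij c) o) * oK j c o * FG.h (lam hij c γ) *
      (FG.h (opt (eta hij c) o) * oK j c o)⁻¹ : S.F j) =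
      FG.h (opt (eta hij c) o * lam hij c γ * (opt (eta hij c) o)⁻¹) := by
    rw [mul_assoc (FG.h (opt (eta hij c) o)), ← h1, map_mul, map_mul, map_inv]
    group
  rw [h2, ← map_inv, ← map_mul, ← map_mul]

theorem tr_prod_of_trivial {i j : S.I} (hij : i ≤ j) (l : List (Factor S i))
    (ho : ∀ φ ∈ l, φ.o = φ.o') (h : ∀ φ ∈ l, S.res i j hij φ.c φ.γ = 1) :
    ∃ b : H, tr hij (l.map Factor.val).prod = FG.h b := by
  induction l with
  | nil => exact ⟨1, by simp⟩
  | cons ψ l ih =>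
    obtain ⟨b, hb⟩ := ih (fun φ hφ => ho φ (List.mem_cons_of_mem _ hφ))
      fun φ hφ => h φ (List.mem_cons_of_mem _ hφ)
    obtain ⟨b', hb'⟩ := tr_val_of_trivial hij ψ (ho ψ List.mem_cons_self)
      (h ψ List.mem_cons_self)
    exact ⟨b' * b, by rw [List.map_cons, List.prod_cons, map_mul, hb, hb', map_mul]⟩

/-- (C): a good element with trivial image becomes trivial. -/
theorem good_inj {i : S.I} {w : S.F i} (hw : Good w) (h1 : im i w = 1) :
    ∃ j, ∃ hij : i ≤ j, tr hij w = 1 := by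
  obtain ⟨l, a, hl, rfl⟩ := hw
  have h2 := factor_trivial l hl a h1
  obtain ⟨j, hij, hj⟩ := exists_level l fun φ hφ => (h2 φ hφ).2
  refine ⟨j, hij, ?_⟩
  obtain ⟨b, hb⟩ := tr_prod_of_trivial hij l (fun φ hφ => (h2 φ hφ).1) hj
  have h3 := im_tr hij ((l.map Factor.val).prod * FG.h a)
  rw [h1, map_mul, hb, tr_h, ← map_mul, im_h] at h3
  rw [map_mul, hb, tr_h, ← map_mul]
  have h4 : b * a = 1 := Subtype.ext h3
  rw [h4, map_one]

end Pool.Agent.FS.Data
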