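import Pool.Agent.T59.Hnn
import Pool.Agent.T59.LocFin
import Pool.Agent.Helper29.PA.Final

/-!
# Graph products in extension closed classes

`GP K R` is the graph product of the groups `K u` over the vertices `u : U`, where the groups of
`R`-related vertices commute.
-/

set_option autoImplicit false

namespace Pool.Agent.FS

open Pool.Agent.Helper29.BA Pool.Agent.Helper29.PA Pool.Agent.T59

section defs

variable {U : Type} (K : U → Type) [∀ u, Group (K u)] (R : U → U → Prop)

/-- The relations of the graph product. -/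
def gpRel : Set (FreeGroup (Σ u, K u)) :=
  {w | (∃ (u : U) (k k' : K u), w = FreeGroup.of ⟨u, k⟩ * FreeGroup.of ⟨u, k'⟩ *
      (FreeGroup.of ⟨u, k * k'⟩)⁻¹) ∨
    ∃ (u v : U) (k : K u) (l : K v), R u v ∧ w = FreeGroup.of ⟨u, k⟩ * FreeGroup.of ⟨v, l⟩ *
      (FreeGroup.of ⟨u, k⟩)⁻¹ * (FreeGroup.of ⟨v, l⟩)⁻¹}

/-- The graph product. -/
abbrev GP : Type := PresentedGroup (gpRel K R)

namespace GP

variable {K R}

/-- The vertex groups. -/
def ι (u : U) : K u →* GP K R :=
  MonoidHom.mk' (fun k => PresentedGroup.of ⟨u, k⟩) fun k k' => by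
    have h1 : (PresentedGroup.mk (gpRel K R)) (FreeGroup.of ⟨u, k⟩ * FreeGroup.of ⟨u, k'⟩ *
      (FreeGroup.of ⟨u, k * k'⟩)⁻¹) = 1 := PresentedGroup.one_of_mem (Or.inl ⟨u, k, k', rfl⟩)
    rw [map_mul, map_mul, map_inv, mul_inv_eq_one] at h1
    exact h1.symm

theorem ι_apply (u : U) (k : K u) : (ι u k : GP K R) = PresentedGroup.of ⟨u, k⟩ := rfl

theorem comm {u v : U} (h : R u v) (k : K u) (l : K v) :
    (ι u k : GP K R) * ι v l = ι v l * ι u k := by
  have h1 : (PresentedGroup.mk (gpRel K R)) (FreeGroup.of ⟨u, k⟩ * FreeGroup.of ⟨v, l⟩ *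
      (FreeGroup.of ⟨u, k⟩)⁻¹ * (FreeGroup.of ⟨v, l⟩)⁻¹) = 1 :=
    PresentedGroup.one_of_mem (Or.inr ⟨u, v, k, l, h, rfl⟩)
  rw [map_mul, map_mul, map_mul, map_inv, map_inv, mul_inv_eq_one, mul_inv_eq_iff_eq_mul] at h1
  exact h1

variable {G : Type} [Group G]

/-- The universal property. -/
def lift (f : ∀ u, K u →* G) (h : ∀ u v k l, R u v → f u k * f v l = f v l * f u k) :
    GP K R →* G :=
  PresentedGroup.toGroup (f := fun x : Σ u, K u => f x.1 x.2) (by
    rintro w (⟨u, k, k', rfl⟩ | ⟨u, v, k, l, huv, rfl⟩)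
    · rw [map_mul, map_mul, map_inv, FreeGroup.lift_apply_of, FreeGroup.lift_apply_of,
        FreeGroup.lift_apply_of, mul_inv_eq_one, map_mul]
    · rw [map_mul, map_mul, map_mul, map_inv, map_inv, FreeGroup.lift_apply_of,
        FreeGroup.lift_apply_of, mul_inv_eq_one, mul_inv_eq_iff_eq_mul]
      exact h u v k l huv)

@[simp] theorem lift_ι (f : ∀ u, K u →* G) (h : ∀ u v k l, R u v → f u k * f v l = f v l * f u k)
    (u : U) (k : K u) : lift f h (ι u k) = f u k := PresentedGroup.toGroup.of _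

theorem hom_ext {f g : GP K R →* G} (h : ∀ u k, f (ι u k) = g (ι u k)) : f = g :=
  PresentedGroup.ext fun x => h x.1 x.2

theorem closure_ι : Subgroup.closure {x : GP K R | ∃ u k, x = ι u k} = ⊤ := by
  rw [← PresentedGroup.closure_range_of (gpRel K R)]
  congr 1
  ext x
  constructor
  · rintro ⟨u, k, rfl⟩
    exact ⟨⟨u, k⟩, rfl⟩
  · rintro ⟨⟨u, k⟩, rfl⟩
    exact ⟨u, k, rfl⟩

end GP

/-- The subgroup of the vertices in `s`. -/
def Sb (s : Set U) : Subgroup (GP K R) := Subgroup.closure {x | ∃ u ∈ s, ∃ k, x = GP.ι u k}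

variable {K R}

theorem ι_mem_Sb {s : Set U} {u : U} (hu : u ∈ s) (k : K u) : GP.ι u k ∈ Sb K R s :=
  Subgroup.subset_closure ⟨u, hu, k, rfl⟩

theorem Sb_mono {s t : Set U} (h : s ⊆ t) : Sb K R s ≤ Sb K R t :=
  Subgroup.closure_mono fun _ ⟨u, hu, k, hk⟩ => ⟨u, h hu, k, hk⟩

end defs

section mem

variable {C : ∀ (G : Type) [Group G], Prop}

theorem mem_of_inj (hC : ClosedClass C) {G H : Type} [Group G] [Group H] (f : G →* H)
    (hf : Function.Injective f) (hH : C H) : C G :=
  hC.iso _ _ (MonoidHom.ofInjective hf).symm (hC.subgroup H f.range hH)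

variable {U : Type} {K : U → Type} [∀ u, Group (K u)] {R : U → U → Prop}

/-- The elements of `Sb s` which commute with the vertex group of `a`. -/
def cen (s : Set U) (a : U) : Subgroup (Sb K R s) where
  carrier := {x | ∀ k : K a, (x : GP K R) * GP.ι a k = GP.ι a k * (x : GP K R)}
  mul_mem' := fun {x y} hx hy k => by
    rw [Subgroup.coe_mul, mul_assoc, hy k, ← mul_assoc, hx k, mul_assoc]
  one_mem' := fun k => by rw [Subgroup.coe_one, one_mul, mul_one]
  inv_mem' := fun {x} hx k => by
    rw [Subgroup.coe_inv, inv_mul_eq_iff_eq_mul, ← mul_assoc, hx k, mul_assoc, mul_inv_cancel,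
      mul_one]

/-- The star of the step: the centre `Sb s`, and a leaf `cen s a × K a`. -/
def stepStar (s : Set U) (a : U) : Helper29.PA.Star ((Sb K R s) × K a) where
  ctr := Subgroup.prod ⊤ ⊥
  ι := Unit
  leaf _ := Subgroup.prod (cen s a) ⊤
  edge _ := Subgroup.prod (cen s a) ⊥
  le_ctr _ := Subgroup.prod_mono le_top le_rfl
  le_leaf _ := Subgroup.prod_mono le_rfl le_top

theorem mem_stepStar (hC : ExtClass C) (s : Set U) (a : U) (hs : C (Sb K R s)) (ha : C (K a)) :
    C (stepStar (K := K) (R := R) s a).Grp :=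
  hC.star_of_freeExt (fun Q Y _ _ hQ => hC.freeExt Q Y hQ) _ (hC.prod _ _ hs ha)
    (Subgroup.subtype _) (fun _ => Subgroup.subtype _)
    (Subgroup.subtype_injective _) (fun _ => Subgroup.subtype_injective _) (fun _ _ => rfl)

open Classical in
/-- The images of the vertex groups. -/
noncomputable def stepF (s : Set U) (a u : U) : K u →* (stepStar (K := K) (R := R) s a).Grp :=
  if h : u ∈ s then
    (stepStar (K := K) (R := R) s a).c.comp
      (((GP.ι u).codRestrict (Sb K R s) (ι_mem_Sb h)).prod (1 : K u →* K a) |>.codRestrict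
        (Subgroup.prod ⊤ ⊥) fun _ => ⟨trivial, rfl⟩)
  else if h' : u = a then by
    subst h'
    exact (((stepStar (K := K) (R := R) s u).j ()).comp
      (((1 : K u →* Sb K R s).prod (MonoidHom.id _)).codRestrict
        (Subgroup.prod (cen s u) ⊤) fun _ => ⟨one_mem _, trivial⟩))
  else 1

theorem stepF_mem {s : Set U} {a u : U} (h : u ∈ s) (k : K u) :
    stepF (K := K) (R := R) s a u k =
      (stepStar (K := K) (R := R) s a).c ⟨(⟨GP.ι u k, ι_mem_Sb h k⟩, 1), trivial, rfl⟩ := by
  unfold stepF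
  rw [dif_pos h]
  rfl

theorem stepF_self {s : Set U} {a : U} (h : a ∉ s) (k : K a) :
    stepF (K := K) (R := R) s a a k =
      (stepStar (K := K) (R := R) s a).j () ⟨(1, k), one_mem _, trivial⟩ := by
  unfold stepF
  rw [dif_neg h, dif_pos rfl]
  rfl

theorem stepF_off {s : Set U} {a u : U} (h : u ∉ s) (h' : u ≠ a) (k : K u) :
    stepF (K := K) (R := R) s a u k = 1 := by
  unfold stepF
  rw [dif_neg h, dif_neg h']
  rfl

/-- Elements of the centralizer commute with the new vertex group. -/
theorem step_comm {s : Set U} {a : U} (x : Sb K R s) (hx : x ∈ cen s a) (k : K a) :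
    (stepStar (K := K) (R := R) s a).c ⟨(x, 1), trivial, rfl⟩ *
      (stepStar (K := K) (R := R) s a).j () ⟨(1, k), one_mem _, trivial⟩ =
    (stepStar (K := K) (R := R) s a).j () ⟨(1, k), one_mem _, trivial⟩ *
      (stepStar (K := K) (R := R) s a).c ⟨(x, 1), trivial, rfl⟩ := by
  have h1 := (stepStar (K := K) (R := R) s a).glue () ⟨(x, 1), hx, rfl⟩
  have h2 : (stepStar (K := K) (R := R) s a).c ⟨(x, 1), trivial, rfl⟩ =
      (stepStar (K := K) (R := R) s a).j () ⟨(x, 1), hx, trivial⟩ := h1
  rw [h2, ← map_mul, ← map_mul]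
  congr 1
  refine Subtype.ext (Prod.ext ?_ ?_)
  · show x * 1 = 1 * x
    rw [mul_one, one_mul]
  · show 1 * k = k * 1
    rw [mul_one, one_mul]

theorem stepF_comm (hR : ∀ u, ¬ R u u) {s : Set U} {a : U} (ha : a ∉ s) (u v : U) (k : K u)
    (l : K v) (huv : R u v) : stepF (K := K) (R := R) s a u k * stepF s a v l =
      stepF s a v l * stepF s a u k := by
  by_cases hu : u ∈ s
  · by_cases hv : v ∈ s
    · rw [stepF_mem hu, stepF_mem hv, ← map_mul, ← map_mul]
      congr 1
      refine Subtype.ext (Prod.ext ?_ rfl)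
      exact Subtype.ext (GP.comm huv k l)
    · by_cases hva : v = a
      · subst hva
        rw [stepF_mem hu, stepF_self ha]
        exact step_comm _ (fun l => GP.comm huv k l) l
      · rw [stepF_off hv hva, mul_one, one_mul]
  · by_cases hua : u = a
    · subst hua
      by_cases hv : v ∈ s
      · rw [stepF_mem hv, stepF_self ha]
        exact (step_comm _ (fun k => (GP.comm huv k l).symm) k).symm
      · by_cases hva : v = u
        · exact absurd (hva ▸ huv) (hR _)
        · rw [stepF_off hv hva, mul_one, one_mul]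
    · rw [stepF_off hu hua, mul_one, one_mul]

/-- The way back. -/
def stepBack (s : Set U) (a : U) : (stepStar (K := K) (R := R) s a).Grp →* GP K R :=
  (stepStar (K := K) (R := R) s a).lift
    { toFun := fun x => (x.1.1 : GP K R)
      map_one' := rfl
      map_mul' := fun _ _ => rfl }
    (fun _ =>
      { toFun := fun x => (x.1.1 : GP K R) * GP.ι a x.1.2
        map_one' := by
          show ((1 : Sb K R s) : GP K R) * GP.ι a 1 = 1
          rw [map_one, mul_one]; rfl
        map_mul' := fun x y => by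
          show ((x.1.1 * y.1.1 : Sb K R s) : GP K R) * GP.ι a (x.1.2 * y.1.2) = _
          have h1 : (y.1.1 : GP K R) * GP.ι a x.1.2 = GP.ι a x.1.2 * (y.1.1 : GP K R) := y.2.1 _
          rw [map_mul, Subgroup.coe_mul, mul_assoc, ← mul_assoc (y.1.1 : GP K R), h1]
          simp only [mul_assoc] })
    (fun _ l => by
      have h1 : l.1.2 = 1 := l.2.2
      show (l.1.1 : GP K R) = (l.1.1 : GP K R) * GP.ι a l.1.2
      rw [h1, map_one, mul_one])

theorem step_retr (hR : ∀ u, ¬ R u u) {s : Set U} {a : U} (ha : a ∉ s) (x : GP K R)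
    (hx : x ∈ Sb K R (insert a s)) :
    stepBack s a (GP.lift (stepF s a) (stepF_comm hR ha) x) = x := by
  induction hx using Subgroup.closure_induction with
  | mem x hx =>
    obtain ⟨u, hu, k, rfl⟩ := hx
    rw [GP.lift_ι]
    by_cases hus : u ∈ s
    · rw [stepF_mem hus]
      exact (stepStar (K := K) (R := R) s a).lift_c _ _ _ _
    · obtain rfl : u = a := (Set.mem_insert_iff.1 hu).resolve_right hus
      rw [stepF_self ha]
      refine ((stepStar (K := K) (R := R) s u).lift_j _ _ _ _ _).trans ?_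
      exact one_mul _
  | one => rw [map_one, map_one]
  | mul x y _ _ h1 h2 => rw [map_mul, map_mul, h1, h2]
  | inv x _ h1 => rw [map_inv, map_inv, h1]

theorem mem_step (hC : ExtClass C) (hR : ∀ u, ¬ R u u) (s : Set U) (a : U) (ha : a ∉ s)
    (hs : C (Sb K R s)) (hK : C (K a)) : C (Sb K R (insert a s)) := by
  refine mem_of_inj hC.toClosedClass ((GP.lift (stepF s a) (stepF_comm hR ha)).comp
    (Sb K R (insert a s)).subtype) (fun x y hxy => ?_) (mem_stepStar hC s a hs hK)
  have h1 := congrArg (stepBack s a) hxy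
  rw [MonoidHom.comp_apply, MonoidHom.comp_apply] at h1
  refine Subtype.ext ?_
  rw [← step_retr hR ha x.1 x.2, ← step_retr hR ha y.1 y.2]
  exact h1

/-- **Graph products.** -/
theorem mem_gp (hC : ExtClass C) (hR : ∀ u, ¬ R u u) (hK : ∀ u, C (K u)) : C (GP K R) := by
  classical
  have hfin : ∀ s : Finset U, C (Sb K R (s : Set U)) := by
    intro s
    induction s using Finset.induction_on with
    | empty =>
      refine hC.finite _ ?_
      have h1 : Sb K R ((∅ : Finset U) : Set U) = ⊥ := by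
        unfold Sb
        rw [show {x : GP K R | ∃ u ∈ ((∅ : Finset U) : Set U), ∃ k, x = GP.ι u k} = ∅ by
          ext x; simp, Subgroup.closure_empty]
      rw [h1]
      infer_instance
    | insert a s ha ih =>
      rw [Finset.coe_insert]
      exact mem_step hC hR _ a (by simpa using ha) ih (hK a)
  have htop : C (⊤ : Subgroup (GP K R)) := by
    refine mem_of_directed hC.toClosedClass (I := Finset U) (S := fun s => Sb K R (s : Set U))
      (fun s t hst => Sb_mono (by exact_mod_cast hst)) (fun _ => le_top) ?_ hfin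
    intro x _
    have hx : x ∈ Subgroup.closure {x : GP K R | ∃ u k, x = GP.ι u k} := by
      rw [GP.closure_ι]; trivial
    induction hx using Subgroup.closure_induction with
    | mem x hx =>
      obtain ⟨u, k, rfl⟩ := hx
      exact ⟨{u}, ι_mem_Sb (by simp) k⟩
    | one => exact ⟨∅, one_mem _⟩
    | mul x y _ _ h1 h2 =>
      obtain ⟨s, hs⟩ := h1 trivial
      obtain ⟨t, ht⟩ := h2 trivial
      refine ⟨s ∪ t, mul_mem (Sb_mono ?_ hs) (Sb_mono ?_ ht)⟩
      · exact_mod_cast Finset.subset_union_left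
      · exact_mod_cast Finset.subset_union_right
    | inv x _ h1 =>
      obtain ⟨s, hs⟩ := h1 trivial
      exact ⟨s, inv_mem hs⟩
  exact hC.iso _ _ Subgroup.topEquiv htop

/-- Locally finite groups. -/
def LFGp (P : Type) [Group P] : Prop :=
  ∀ s : Finset P, Finite (Subgroup.closure (s : Set P))

theorem mem_locFin (hC : ExtClass C) (P : Type) [Group P] (hP : LFGp P) : C P :=
  mem_of_locallyFinite hC (1 : P →* Unit) (hC.finite _ inferInstance) fun T _ => hP T

/-- Semidirect products with locally finite groups. -/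
theorem mem_semidirect_locFin (hC : ExtClass C) {N P : Type} [Group N] [Group P] (hN : C N)
    (hP : LFGp P) (act : P →* MulAut N) : C (N ⋊[act] P) := by
  classical
  refine hC.ext _ P SemidirectProduct.rightHom (mem_locFin hC P hP) fun q => ?_
  let L : Subgroup (N ⋊[act] P) := (Subgroup.zpowers q).comap SemidirectProduct.rightHom
  have hq : Finite (Subgroup.zpowers q) := by
    have := hP {q}
    rwa [Finset.coe_singleton, ← Subgroup.zpowers_eq_closure] at this
  let f : L →* Subgroup.zpowers q :=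
    (SemidirectProduct.rightHom.comp L.subtype).codRestrict _ fun x => x.2
  have hfi : f.ker.FiniteIndex := by
    have : Finite f.range := inferInstance
    exact ⟨by
      rw [Subgroup.index_ker]
      exact Nat.card_pos.ne'⟩
  refine hC.finiteIndex L f.ker hfi ?_
  refine mem_of_inj hC.toClosedClass (H := N)
    { toFun := fun x => (x : L).1.left, map_one' := rfl, map_mul' := ?_ } ?_ hN
  · intro x y
    have hx : (x : L).1.right = 1 := congrArg Subtype.val x.2
    show ((x : L).1 * (y : L).1).left = _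
    rw [SemidirectProduct.mul_left, hx, map_one]
    rfl
  · intro x y hxy
    have hx : (x : L).1.right = 1 := congrArg Subtype.val x.2
    have hy : (y : L).1.right = 1 := congrArg Subtype.val y.2
    apply Subtype.ext
    apply Subtype.ext
    exact SemidirectProduct.ext hxy (hx.trans hy.symm)

end mem

section act

variable {J : Type} {V : J → Type} {K : J → Type} [∀ j, Group (K j)]
  {R : (Σ j, V j) → (Σ j, V j) → Prop} {P : Type} [Group P] [∀ j, MulAction P (V j)]

/-- The graph product over the vertices `Σ j, V j` with the groups `K j`. -/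
abbrev GPS (V : J → Type) (K : J → Type) [∀ j, Group (K j)] (R : (Σ j, V j) → (Σ j, V j) → Prop) :
    Type := GP (fun u : Σ j, V j => K u.1) R

/-- The vertex group of `⟨j, v⟩`. -/
def gι (R : (Σ j, V j) → (Σ j, V j) → Prop) (j : J) (v : V j) : K j →* GPS V K R :=
  GP.ι (K := fun u : Σ j, V j => K u.1) (R := R) ⟨j, v⟩

theorem gcomm {i j : J} {v : V i} {w : V j} (h : R ⟨i, v⟩ ⟨j, w⟩) (k : K i) (l : K j) :
    (gι R i v k : GPS V K R) * gι R j w l = gι R j w l * gι R i v k :=
  GP.comm (K := fun u : Σ j, V j => K u.1) h k l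

/-- The universal property. -/
def glift {G : Type} [Group G] (f : ∀ j, V j → K j →* G)
    (h : ∀ i v j w k l, R ⟨i, v⟩ ⟨j, w⟩ → f i v k * f j w l = f j w l * f i v k) :
    GPS V K R →* G :=
  GP.lift (K := fun u : Σ j, V j => K u.1) (R := R) (fun u => f u.1 u.2)
    fun u v k l huv => h u.1 u.2 v.1 v.2 k l huv

@[simp] theorem glift_ι {G : Type} [Group G] (f : ∀ j, V j → K j →* G)
    (h : ∀ i v j w k l, R ⟨i, v⟩ ⟨j, w⟩ → f i v k * f j w l = f j w l * f i v k) (j : J) (v : V j)
    (k : K j) : glift f h (gι R j v k) = f j v k :=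
  GP.lift_ι (K := fun u : Σ j, V j => K u.1) (R := R) (fun u => f u.1 u.2) _ ⟨j, v⟩ k

theorem ghom_ext {G : Type} [Group G] {f g : GPS V K R →* G}
    (h : ∀ j v k, f (gι R j v k) = g (gι R j v k)) : f = g :=
  GP.hom_ext (K := fun u : Σ j, V j => K u.1) fun u k => h u.1 u.2 k

/-- The map of the graph product given by an element of `P`. -/
def gmv (hR : ∀ (p : P) i v j w, R ⟨i, v⟩ ⟨j, w⟩ → R ⟨i, p • v⟩ ⟨j, p • w⟩) (p : P) :
    GPS V K R →* GPS V K R :=
  glift (fun j v => gι R j (p • v)) fun i v j w k l h => gcomm (hR p i v j w h) k l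

@[simp] theorem gmv_ι (hR : ∀ (p : P) i v j w, R ⟨i, v⟩ ⟨j, w⟩ → R ⟨i, p • v⟩ ⟨j, p • w⟩) (p : P)
    (j : J) (v : V j) (k : K j) : gmv (K := K) hR p (gι R j v k) = gι R j (p • v) k :=
  glift_ι _ _ _ _ _

/-- A group which acts on the vertices of each type acts on the graph product. -/
def gpAct (hR : ∀ (p : P) i v j w, R ⟨i, v⟩ ⟨j, w⟩ → R ⟨i, p • v⟩ ⟨j, p • w⟩) :
    P →* MulAut (GPS V K R) where
  toFun p :=
    { toFun := gmv hR p
      invFun := gmv hR p⁻¹
      left_inv := fun x => by
        have h : (gmv (K := K) hR p⁻¹).comp (gmv hR p) = MonoidHom.id _ :=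
          ghom_ext fun j v k => by
            rw [MonoidHom.comp_apply, gmv_ι, gmv_ι, inv_smul_smul, MonoidHom.id_apply]
        exact DFunLike.congr_fun h x
      right_inv := fun x => by
        have h : (gmv (K := K) hR p).comp (gmv hR p⁻¹) = MonoidHom.id _ :=
          ghom_ext fun j v k => by
            rw [MonoidHom.comp_apply, gmv_ι, gmv_ι, smul_inv_smul, MonoidHom.id_apply]
        exact DFunLike.congr_fun h x
      map_mul' := fun x y => map_mul _ x y }
  map_one' := by
    ext x
    have h : gmv (K := K) hR 1 = MonoidHom.id _ :=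
      ghom_ext fun j v k => by rw [gmv_ι, one_smul, MonoidHom.id_apply]
    exact DFunLike.congr_fun h x
  map_mul' p q := by
    ext x
    have h : gmv (K := K) hR (p * q) = (gmv hR p).comp (gmv hR q) :=
      ghom_ext fun j v k => by rw [MonoidHom.comp_apply, gmv_ι, gmv_ι, gmv_ι, mul_smul]
    exact DFunLike.congr_fun h x

@[simp] theorem gpAct_ι (hR : ∀ (p : P) i v j w, R ⟨i, v⟩ ⟨j, w⟩ → R ⟨i, p • v⟩ ⟨j, p • w⟩)
    (p : P) (j : J) (v : V j) (k : K j) :
    gpAct (K := K) hR p (gι R j v k) = gι R j (p • v) k := gmv_ι hR p j v k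

/-- **Row R1.** -/
theorem gp_mem {C : ∀ (G : Type) [Group G], Prop} (hC : ExtClass C)
    (hR : ∀ (p : P) i v j w, R ⟨i, v⟩ ⟨j, w⟩ → R ⟨i, p • v⟩ ⟨j, p • w⟩)
    (hirr : ∀ u, ¬ R u u) (hK : ∀ j, C (K j))
    (hLF : ∀ s : Finset P, Finite (Subgroup.closure (s : Set P))) :
    C (GPS V K R ⋊[gpAct hR] P) :=
  mem_semidirect_locFin hC (mem_gp hC hirr fun u => hK u.1) hLF _

end act

end Pool.Agent.FS
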