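import Pool.Agent.FS.Gp

/-!
# Semidirect products of graph products with arbitrary groups of the class

Let `P` be a group of the class which acts on the vertices of a graph and preserves their types,
and let the vertex groups be in the class. Then the semidirect product of the graph product with
`P` is in the class. By the local conjugation principle we have to extend a partial automorphism of
a finite graph to an automorphism of a larger finite graph (Hrushovski). We use the vertices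
`(v, χ)`, where `χ` is a function with values in `ZMod 3`, and the relation
`χ(w) + ξ(v) ≠ 0` between `(v, χ)` and `(w, ξ)`.
-/

set_option autoImplicit false

namespace Pool.Agent.FS

open Pool.Agent.Helper29.BA Pool.Agent.Helper29.PA Pool.Agent.T59

namespace GQ

section ext

variable {J : Type} {V : J → Type} (R : (Σ j, V j) → (Σ j, V j) → Prop) (t : ∀ j, Finset (V j))

/-- The given finite set of vertices. -/
abbrev T : Type := Σ j, {v // v ∈ t j}

/-- The vertices of type `j` of the extended graph. -/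
abbrev Z (j : J) : Type := {v // v ∈ t j} × (T t → ZMod 3)

/-- The relation of the extended graph. -/
def RZ (a b : Σ j, Z t j) : Prop :=
  (⟨a.1, a.2.1⟩ : T t) ≠ ⟨b.1, b.2.1⟩ ∧
    a.2.2 ⟨b.1, b.2.1⟩ + b.2.2 ⟨a.1, a.2.1⟩ ≠ 0

theorem RZ_irrefl (a : Σ j, Z t j) : ¬ RZ t a a := fun h => h.1 rfl

/-- The vertex of the original graph. -/
def toV (a : T t) : Σ j, V j := ⟨a.1, a.2.1⟩

open Classical in
/-- The symmetric indicator of the relation. -/
noncomputable def ind (a b : T t) : ZMod 3 :=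
  if R (toV t a) (toV t b) ∨ R (toV t b) (toV t a) then 1 else 0

theorem ind_symm (a b : T t) : ind R t a b = ind R t b a := by
  classical
  unfold ind
  exact if_congr or_comm rfl rfl

theorem ind_add (a b : T t) :
    ind R t a b + ind R t b a ≠ 0 ↔ (R (toV t a) (toV t b) ∨ R (toV t b) (toV t a)) := by
  rw [ind_symm R t b a]
  unfold ind
  split_ifs with h
  · simp only [h, iff_true]
    decide
  · simp only [h, iff_false, not_not]
    decide

variable {t}

/-- The permutation of all vertices. -/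
def bt (β : ∀ j, Equiv.Perm {v // v ∈ t j}) : Equiv.Perm (T t) := Equiv.sigmaCongrRight β

theorem bt_apply (β : ∀ j, Equiv.Perm {v // v ∈ t j}) (j : J) (v : {v // v ∈ t j}) :
    bt β ⟨j, v⟩ = ⟨j, β j v⟩ := rfl

/-- An automorphism of the extended graph. -/
def theta (β : ∀ j, Equiv.Perm {v // v ∈ t j}) (F : T t → T t → ZMod 3) (j : J) :
    Equiv.Perm (Z t j) where
  toFun x := (β j x.1, fun a => x.2 ((bt β).symm a) + F ⟨j, x.1⟩ ((bt β).symm a))
  invFun x := ((β j).symm x.1, fun a => x.2 (bt β a) - F ⟨j, (β j).symm x.1⟩ a)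
  left_inv x := by
    refine Prod.ext ?_ (funext fun a => ?_)
    · exact (β j).symm_apply_apply _
    · change x.2 ((bt β).symm (bt β a)) + F ⟨j, x.1⟩ ((bt β).symm (bt β a)) -
        F ⟨j, (β j).symm (β j x.1)⟩ a = x.2 a
      rw [Equiv.symm_apply_apply, Equiv.symm_apply_apply, add_sub_cancel_right]
  right_inv x := by
    refine Prod.ext ?_ (funext fun a => ?_)
    · exact (β j).apply_symm_apply _
    · change x.2 (bt β ((bt β).symm a)) - F ⟨j, (β j).symm x.1⟩ ((bt β).symm a) +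
        F ⟨j, (β j).symm x.1⟩ ((bt β).symm a) = x.2 a
      rw [Equiv.apply_symm_apply, sub_add_cancel]

theorem theta_fst (β : ∀ j, Equiv.Perm {v // v ∈ t j}) (F : T t → T t → ZMod 3) (j : J)
    (x : Z t j) : (theta β F j x).1 = β j x.1 := rfl

theorem theta_snd (β : ∀ j, Equiv.Perm {v // v ∈ t j}) (F : T t → T t → ZMod 3) (j : J)
    (x : Z t j) (a : T t) : (theta β F j x).2 (bt β a) = x.2 a + F ⟨j, x.1⟩ a := by
  change x.2 ((bt β).symm (bt β a)) + F ⟨j, x.1⟩ ((bt β).symm (bt β a)) = _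
  rw [Equiv.symm_apply_apply]

theorem theta_RZ (β : ∀ j, Equiv.Perm {v // v ∈ t j}) (F : T t → T t → ZMod 3)
    (hF : ∀ a b, F a b + F b a = 0) (i : J) (x : Z t i) (j : J) (y : Z t j) :
    RZ t ⟨i, x⟩ ⟨j, y⟩ ↔ RZ t ⟨i, theta β F i x⟩ ⟨j, theta β F j y⟩ := by
  have h1 : ((⟨i, x.1⟩ : T t) ≠ ⟨j, y.1⟩) ↔
      (⟨i, (theta β F i x).1⟩ : T t) ≠ ⟨j, (theta β F j y).1⟩ :=
    ((bt β).injective.ne_iff (x := (⟨i, x.1⟩ : T t)) (y := ⟨j, y.1⟩)).symm
  have h2 : (theta β F i x).2 ⟨j, (theta β F j y).1⟩ + (theta β F j y).2 ⟨i, (theta β F i x).1⟩ =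
      x.2 ⟨j, y.1⟩ + y.2 ⟨i, x.1⟩ := by
    have h3 := theta_snd β F i x ⟨j, y.1⟩
    have h4 := theta_snd β F j y ⟨i, x.1⟩
    rw [bt_apply] at h3 h4
    rw [theta_fst, theta_fst, h3, h4]
    linear_combination hF ⟨i, x.1⟩ ⟨j, y.1⟩
  exact and_congr h1 (by rw [← h2])

variable (t)

/-- The automorphisms of the extended graph. -/
def AutZ : Subgroup (∀ j, Equiv.Perm (Z t j)) where
  carrier := {p | ∀ (i : J) (x : Z t i) (j : J) (y : Z t j),
    RZ t ⟨i, x⟩ ⟨j, y⟩ ↔ RZ t ⟨i, p i x⟩ ⟨j, p j y⟩}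
  one_mem' := fun _ _ _ _ => Iff.rfl
  mul_mem' := fun {p q} hp hq i x j y => (hq i x j y).trans (hp i (q i x) j (q j y))
  inv_mem' := fun {p} hp i x j y => by
    have h := hp i ((p i).symm x) j ((p j).symm y)
    rw [Equiv.apply_symm_apply, Equiv.apply_symm_apply] at h
    exact h.symm

instance actZ (j : J) : MulAction (AutZ t) (Z t j) where
  smul p x := p.1 j x
  one_smul _ := rfl
  mul_smul _ _ _ := rfl

theorem actZ_def (p : AutZ t) (j : J) (x : Z t j) : p • x = p.1 j x := rfl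

theorem AutZ_RZ (p : AutZ t) (i : J) (x : Z t i) (j : J) (y : Z t j)
    (h : RZ t ⟨i, x⟩ ⟨j, y⟩) : RZ t ⟨i, p • x⟩ ⟨j, p • y⟩ := (p.2 i x j y).1 h

theorem finite_AutZ [Finite (T t)] : Finite (AutZ t) := by
  have h1 : Finite (Σ j, Z t j) := by
    refine Finite.of_injective (β := T t × (T t → ZMod 3))
      (fun a => (⟨a.1, a.2.1⟩, a.2.2)) ?_
    rintro ⟨i, x, f⟩ ⟨j, y, g⟩ h
    have h2 : (⟨i, x⟩ : T t) = ⟨j, y⟩ := congrArg Prod.fst h
    have h3 : f = g := congrArg Prod.snd h
    obtain rfl := congrArg Sigma.fst h2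
    obtain rfl := eq_of_heq (Sigma.mk.inj h2).2
    rw [h3]
  have h2 : Finite (∀ j, Equiv.Perm (Z t j)) :=
    Finite.of_injective _ (Equiv.Perm.sigmaCongrRightHom_injective (β := Z t))
  infer_instance

end ext

section loc

variable {J : Type} {V : J → Type} {K : J → Type} [∀ j, Group (K j)]
  {R : (Σ j, V j) → (Σ j, V j) → Prop} (t : ∀ j, Finset (V j))

variable (R) in
/-- The vertex of the extended graph. -/
noncomputable def emb (j : J) (v : {v // v ∈ t j}) : Z t j := (v, ind R t ⟨j, v⟩)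

open Classical in
/-- The homomorphism to the graph product over the extended graph. -/
noncomputable def Phi (hirr : ∀ u, ¬ R u u) : GPS V K R →* GPS (Z t) K (RZ t) :=
  glift (fun j v => if h : v ∈ t j then gι (RZ t) j (emb R t j ⟨v, h⟩) else 1) (by
    intro i v j w k l h
    by_cases hv : v ∈ t i
    · by_cases hw : w ∈ t j
      · rw [dif_pos hv, dif_pos hw]
        refine gcomm ⟨?_, ?_⟩ k l
        · intro h1
          refine hirr ⟨j, w⟩ ?_
          have h2 : (⟨i, v⟩ : Σ j, V j) = ⟨j, w⟩ := congrArg (toV t) h1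
          rwa [h2] at h
        · exact (ind_add R t _ _).2 (Or.inl h)
      · rw [dif_neg hw]
        simp
    · rw [dif_neg hv]
      simp)

theorem Phi_ι (hirr : ∀ u, ¬ R u u) (j : J) (v : V j) (h : v ∈ t j) (k : K j) :
    Phi t hirr (gι R j v k : GPS V K R) = gι (RZ t) j (emb R t j ⟨v, h⟩) k := by
  unfold Phi
  rw [glift_ι, dif_pos h]

open Classical in
/-- The way back. -/
noncomputable def Psi : GPS (Z t) K (RZ t) →* GPS V K R :=
  glift (fun j x => if x = emb R t j x.1 then gι R j x.1.1 else 1) (by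
    intro i x j y k l h
    by_cases hx : x = emb R t i x.1
    · by_cases hy : y = emb R t j y.1
      · rw [if_pos hx, if_pos hy]
        have h1 := h.2
        change x.2 ⟨j, y.1⟩ + y.2 ⟨i, x.1⟩ ≠ 0 at h1
        have h2 : x.2 = ind R t ⟨i, x.1⟩ := congrArg Prod.snd hx
        have h3 : y.2 = ind R t ⟨j, y.1⟩ := congrArg Prod.snd hy
        rw [h2, h3, ind_add] at h1
        rcases h1 with h1 | h1
        · exact gcomm h1 k l
        · exact (gcomm h1 l k).symm
      · rw [if_neg hy]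
        simp
    · rw [if_neg hx]
      simp)

theorem Psi_ι (j : J) (v : {v // v ∈ t j}) (k : K j) :
    Psi (R := R) t (gι (RZ t) j (emb R t j v) k) = gι R j v.1 k := by
  classical
  unfold Psi
  rw [glift_ι]
  have h : (if emb R t j v = emb R t j (emb R t j v).1 then gι R j (emb R t j v).1.1 else 1 :
      K j →* GPS V K R) = gι R j v.1 := if_pos rfl
  rw [h]

/-- The subgroup of the finite set of vertices. -/
def Sf (K : J → Type) [∀ j, Group (K j)] (R : (Σ j, V j) → (Σ j, V j) → Prop)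
    (t : ∀ j, Finset (V j)) : Subgroup (GPS V K R) :=
  Subgroup.closure {x | ∃ j, ∃ v ∈ t j, ∃ k : K j, x = gι R j v k}

theorem Psi_Phi (hirr : ∀ u, ¬ R u u) (x : GPS V K R) (hx : x ∈ Sf K R t) :
    Psi t (Phi t hirr x) = x := by
  induction hx using Subgroup.closure_induction with
  | mem x hx =>
    obtain ⟨j, v, hv, k, rfl⟩ := hx
    rw [Phi_ι t hirr j v hv k, Psi_ι]
  | one => rw [map_one, map_one]
  | mul x y _ _ h1 h2 => rw [map_mul, map_mul, h1, h2]
  | inv x _ h1 => rw [map_inv, map_inv, h1]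

end loc

section main

variable {J : Type} {V : J → Type} {K : J → Type} [∀ j, Group (K j)]
  {R : (Σ j, V j) → (Σ j, V j) → Prop} {P : Type} [Group P] [∀ j, MulAction P (V j)]

/-- The vertices of type `j` in a finite set. -/
noncomputable def tU (U : Finset (Σ j, V j)) (j : J) : Finset (V j) :=
  U.preimage (Sigma.mk j) sigma_mk_injective.injOn

theorem mem_tU {U : Finset (Σ j, V j)} {j : J} {v : V j} : v ∈ tU U j ↔ (⟨j, v⟩ : Σ j, V j) ∈ U :=
  Finset.mem_preimage

theorem finite_T (U : Finset (Σ j, V j)) : Finite (T (tU U)) := by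
  refine Finite.of_injective (β := U) (fun a => ⟨toV _ a, mem_tU.1 a.2.2⟩) ?_
  rintro ⟨i, v, hv⟩ ⟨j, w, hw⟩ h
  have h1 : (⟨i, v⟩ : Σ j, V j) = ⟨j, w⟩ := congrArg Subtype.val h
  obtain rfl := congrArg Sigma.fst h1
  obtain rfl := eq_of_heq (Sigma.mk.inj h1).2
  rfl

open Classical in
/-- The difference of the indicators. -/
noncomputable def FF (R : (Σ j, V j) → (Σ j, V j) → Prop) (U : Set (Σ j, V j))
    {t : ∀ j, Finset (V j)} (β : ∀ j, Equiv.Perm {v // v ∈ t j}) (a b : T t) : ZMod 3 :=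
  (if toV t a ∈ U then ind R t (bt β a) (bt β b) - ind R t a b else 0) -
    (if toV t b ∈ U then ind R t (bt β b) (bt β a) - ind R t b a else 0)

theorem FF_add (R : (Σ j, V j) → (Σ j, V j) → Prop) (U : Set (Σ j, V j))
    {t : ∀ j, Finset (V j)} (β : ∀ j, Equiv.Perm {v // v ∈ t j}) (a b : T t) :
    FF R U β a b + FF R U β b a = 0 := by
  unfold FF
  ring

/-- The automorphism extends the partial automorphism. -/
theorem theta_emb {U : Set (Σ j, V j)} {t : ∀ j, Finset (V j)}
    (β : ∀ j, Equiv.Perm {v // v ∈ t j})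
    (hβ : ∀ a b : T t, toV t a ∈ U → toV t b ∈ U → ind R t (bt β a) (bt β b) = ind R t a b)
    (j : J) (v : {v // v ∈ t j}) (hv : (⟨j, v.1⟩ : Σ j, V j) ∈ U) :
    theta β (FF R U β) j (emb R t j v) = emb R t j (β j v) := by
  refine Prod.ext rfl (funext fun a => ?_)
  obtain ⟨a, rfl⟩ := (bt β).surjective a
  rw [theta_snd]
  change ind R t ⟨j, v⟩ a + FF R U β ⟨j, v⟩ a = ind R t ⟨j, β j v⟩ (bt β a)
  unfold FF
  have hv' : toV t ⟨j, v⟩ ∈ U := hv
  rw [if_pos hv']
  by_cases ha : toV t a ∈ U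
  · rw [if_pos ha, hβ _ _ hv' ha, hβ _ _ ha hv', sub_self, sub_self, sub_self, add_zero]
    exact (hβ _ _ hv' ha).symm
  · rw [if_neg ha, sub_zero, add_sub_cancel]
    rfl

theorem exists_beta (q : P) {U U' : Finset (Σ j, V j)}
    (hU' : ∀ j (v : V j), (⟨j, v⟩ : Σ j, V j) ∈ U → (⟨j, q • v⟩ : Σ j, V j) ∈ U') (j : J) :
    ∃ β : Equiv.Perm {v // v ∈ tU U' j}, ∀ v : {v // v ∈ tU U' j},
      (⟨j, v.1⟩ : Σ j, V j) ∈ U → (β v).1 = q • v.1 := by
  classical
  obtain ⟨g, hg⟩ := Set.MapsTo.exists_equiv_extend_of_card_eq (α := {v // v ∈ tU U' j})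
    (t := tU U' j) (Fintype.card_coe _) (s := {v | (⟨j, v.1⟩ : Σ j, V j) ∈ U})
    (f := fun v => q • v.1) (fun v hv => mem_tU.2 (hU' j _ hv))
    (fun v _ w _ h => Subtype.ext (MulAction.injective q h))
  exact ⟨g, hg⟩

/-- The subgroup of a finite set of vertices. -/
def SU (K : J → Type) [∀ j, Group (K j)] (R : (Σ j, V j) → (Σ j, V j) → Prop)
    (U : Finset (Σ j, V j)) : Subgroup (GPS V K R) :=
  Subgroup.closure {x | ∃ j, ∃ v : V j, (⟨j, v⟩ : Σ j, V j) ∈ U ∧ ∃ k : K j, x = gι R j v k}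

theorem SU_mono {U U' : Finset (Σ j, V j)} (h : U ⊆ U') : SU K R U ≤ SU K R U' :=
  Subgroup.closure_mono fun _ ⟨j, v, hv, k, hk⟩ => ⟨j, v, h hv, k, hk⟩

theorem SU_le_Sf {U U' : Finset (Σ j, V j)} (h : U ⊆ U') : SU K R U ≤ Sf K R (tU U') :=
  Subgroup.closure_mono fun _ ⟨j, v, hv, k, hk⟩ => ⟨j, v, mem_tU.2 (h hv), k, hk⟩

theorem exists_SU (x : GPS V K R) : ∃ U, x ∈ SU K R U := by
  classical
  have hx : x ∈ Subgroup.closure {x : GPS V K R | ∃ u k, x = GP.ι u k} := by
    rw [GP.closure_ι]; trivial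
  induction hx using Subgroup.closure_induction with
  | mem x hx =>
    obtain ⟨⟨j, v⟩, k, rfl⟩ := hx
    exact ⟨{⟨j, v⟩}, Subgroup.subset_closure ⟨j, v, by simp, k, rfl⟩⟩
  | one => exact ⟨∅, one_mem _⟩
  | mul x y _ _ h1 h2 =>
    obtain ⟨s, hs⟩ := h1
    obtain ⟨t, ht⟩ := h2
    exact ⟨s ∪ t, mul_mem (SU_mono Finset.subset_union_left hs)
      (SU_mono Finset.subset_union_right ht)⟩
  | inv x _ h1 =>
    obtain ⟨s, hs⟩ := h1
    exact ⟨s, inv_mem hs⟩

/-- **Semidirect products of graph products with groups of the class.** -/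
theorem mem_gps {C : ∀ (G : Type) [Group G], Prop} (hC : ExtClass C)
    (hR : ∀ (p : P) i v j w, R ⟨i, v⟩ ⟨j, w⟩ → R ⟨i, p • v⟩ ⟨j, p • w⟩)
    (hirr : ∀ u, ¬ R u u) (hK : ∀ j, C (K j)) (hP : C P) :
    C (GPS V K R ⋊[gpAct hR] P) := by
  classical
  refine mem_of_local hC (SemidirectProduct.rightHom (φ := gpAct (K := K) hR)) hP
    (S := fun U : Finset (Σ j, V j) => (SU K R U).map SemidirectProduct.inl)
    (fun U U' h => Subgroup.map_mono (SU_mono h)) ?_ ?_
  · intro x
    constructor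
    · intro hx
      obtain ⟨U, hU⟩ := exists_SU x.left
      exact ⟨U, x.left, hU, SemidirectProduct.ext rfl (by
        rw [SemidirectProduct.right_inl]; exact hx.symm)⟩
    · rintro ⟨U, y, -, rfl⟩
      exact SemidirectProduct.rightHom_inl y
  · intro g U
    obtain ⟨n, q⟩ := g
    let U' : Finset (Σ j, V j) := U ∪ U.image fun u => ⟨u.1, q • u.2⟩
    have hUU' : U ⊆ U' := Finset.subset_union_left
    have hqU : ∀ j (v : V j), (⟨j, v⟩ : Σ j, V j) ∈ U → (⟨j, q • v⟩ : Σ j, V j) ∈ U' :=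
      fun j v hv => Finset.mem_union_right _ (Finset.mem_image.2 ⟨⟨j, v⟩, hv, rfl⟩)
    choose β hβ using exists_beta q hqU
    have hfin := finite_T U'
    have hfinA := finite_AutZ (tU U')
    have hβV : ∀ a : T (tU U'), toV _ a ∈ U → toV _ (bt β a) = ⟨a.1, q • a.2.1⟩ := by
      rintro ⟨j, v⟩ ha
      change (⟨j, (β j v).1⟩ : Σ j, V j) = _
      rw [hβ j v ha]
    have hR' : ∀ i v j w, R ⟨i, q • v⟩ ⟨j, q • w⟩ ↔ R ⟨i, v⟩ ⟨j, w⟩ := fun i v j w =>
      ⟨fun h => by
        have := hR q⁻¹ _ _ _ _ h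
        rwa [inv_smul_smul, inv_smul_smul] at this, hR q i v j w⟩
    have hβi : ∀ a b : T (tU U'), toV _ a ∈ (U : Set (Σ j, V j)) →
        toV _ b ∈ (U : Set (Σ j, V j)) →
        ind R (tU U') (bt β a) (bt β b) = ind R (tU U') a b := by
      intro a b ha hb
      unfold ind
      refine if_congr ?_ rfl rfl
      rw [hβV a ha, hβV b hb, hR', hR']
      exact Iff.rfl
    let θ : AutZ (tU U') := ⟨theta β (FF R U β), fun i x j y => theta_RZ β _ (FF_add R U β) i x j y⟩
    have hθ : ∀ j (v : V j) (hv : (⟨j, v⟩ : Σ j, V j) ∈ U),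
        θ • emb R (tU U') j ⟨v, mem_tU.2 (hUU' hv)⟩ =
          emb R (tU U') j ⟨q • v, mem_tU.2 (hqU j v hv)⟩ := by
      intro j v hv
      rw [actZ_def]
      change theta β (FF R U β) j _ = _
      rw [theta_emb β hβi j _ hv]
      congr 1
      exact Subtype.ext (hβ j _ hv)
    have hPhi : ∀ x ∈ SU K R U, Phi (tU U') hirr (gpAct hR q x) =
        gpAct (K := K) (AutZ_RZ (tU U')) θ (Phi (tU U') hirr x) := by
      intro x hx
      induction hx using Subgroup.closure_induction with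
      | mem x hx =>
        obtain ⟨j, v, hv, k, rfl⟩ := hx
        rw [gpAct_ι, Phi_ι _ hirr j (q • v) (mem_tU.2 (hqU j v hv)),
          Phi_ι _ hirr j v (mem_tU.2 (hUU' hv)), gpAct_ι, hθ j v hv]
      | one => rw [map_one, map_one, map_one]
      | mul x y _ _ h1 h2 => rw [map_mul, map_mul, map_mul, map_mul, h1, h2]
      | inv x _ h1 => rw [map_inv, map_inv, map_inv, map_inv, h1]
    let E := (SU K R U).equivMapOfInjective
      (SemidirectProduct.inl : GPS V K R →* GPS V K R ⋊[gpAct hR] P)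
      SemidirectProduct.inl_injective
    have hE : ∀ x : (SU K R U).map
        (SemidirectProduct.inl : GPS V K R →* GPS V K R ⋊[gpAct hR] P),
        (SemidirectProduct.inl ((E.symm x : SU K R U) : GPS V K R) :
          GPS V K R ⋊[gpAct hR] P) = x := fun x => by
      have := congrArg Subtype.val (E.apply_symm_apply x)
      exact this
    let e : (SU K R U).map (SemidirectProduct.inl : GPS V K R →* GPS V K R ⋊[gpAct hR] P) →*
        GPS (Z (tU U')) K (RZ (tU U')) ⋊[gpAct (AutZ_RZ (tU U'))] AutZ (tU U') :=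
      ((SemidirectProduct.inl.comp (Phi (tU U') hirr)).comp (SU K R U).subtype).comp
        E.symm.toMonoidHom
    have he : ∀ x, e x = SemidirectProduct.inl (Phi (tU U') hirr (E.symm x : SU K R U)) :=
      fun x => rfl
    refine ⟨_, inferInstance, e, ⟨Phi (tU U') hirr n, θ⟩,
      gp_mem hC (AutZ_RZ (tU U')) (RZ_irrefl _) hK (fun s => inferInstance), ?_, ?_⟩
    · intro x y hxy
      rw [he, he] at hxy
      have h1 := congrArg (Psi (R := R) (tU U')) (SemidirectProduct.inl_injective hxy)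
      rw [Psi_Phi _ hirr _ (SU_le_Sf hUU' (E.symm x).2),
        Psi_Phi _ hirr _ (SU_le_Sf hUU' (E.symm y).2)] at h1
      exact E.symm.injective (Subtype.ext h1)
    · intro x y hxy
      rw [he, he]
      rw [← hE x, ← hE y] at hxy
      have h1 : ((E.symm y : SU K R U) : GPS V K R) =
          n * gpAct hR q ((E.symm x : SU K R U) : GPS V K R) * n⁻¹ := by
        have h2 := congrArg SemidirectProduct.left hxy
        simpa [SemidirectProduct.mul_left, mul_assoc] using h2.symm
      have h3 : Phi (tU U') hirr ((E.symm y : SU K R U) : GPS V K R) =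
          Phi (tU U') hirr n * gpAct (K := K) (AutZ_RZ (tU U')) θ
            (Phi (tU U') hirr ((E.symm x : SU K R U) : GPS V K R)) *
            (Phi (tU U') hirr n)⁻¹ := by
        rw [h1, map_mul, map_mul, hPhi _ (E.symm x).2, map_inv]
      rw [h3, mul_inv_eq_iff_eq_mul]
      refine SemidirectProduct.ext ?_ ?_
      · simp [SemidirectProduct.mul_left, mul_assoc]
      · simp

end main

end GQ

end Pool.Agent.FS
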