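import Pool.Agent.FS.Core
import Pool.Agent.FS.Full

/-!
# Configurations of singular points and their levels
-/

set_option autoImplicit false

open Filter Topology

namespace Pool.Agent.FS

open Pool.Agent.Helper29.BA Pool.Agent.Helper29.PA

section rst

variable {X : Type}

/-- The permutations which preserve `V`. -/
def Pres (V : Set X) : Subgroup (Equiv.Perm X) where
  carrier := {f | ∀ z, f z ∈ V ↔ z ∈ V}
  mul_mem' := fun {f g} hf hg z => by rw [Equiv.Perm.mul_apply, hf, hg]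
  one_mem' := fun z => Iff.rfl
  inv_mem' := fun {f} hf z => by rw [← hf, app_inv]

open Classical in
/-- The restriction to `V`, extended by the identity. -/
noncomputable def rst (V : Set X) : Pres V →* Equiv.Perm X where
  toFun f :=
    { toFun := fun z => if z ∈ V then f.1 z else z
      invFun := fun z => if z ∈ V then f.1⁻¹ z else z
      left_inv := fun z => by
        by_cases hz : z ∈ V
        · simp only [if_pos hz, if_pos ((f.2 z).2 hz), inv_app]
        · simp only [if_neg hz]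
      right_inv := fun z => by
        by_cases hz : z ∈ V
        · simp only [if_pos hz, if_pos (((Pres V).inv_mem f.2 z).2 hz), app_inv]
        · simp only [if_neg hz] }
  map_one' := by
    ext z
    by_cases hz : z ∈ V
    · exact if_pos hz
    · exact if_neg hz
  map_mul' f g := by
    ext z
    change (if z ∈ V then (f.1 * g.1) z else z) =
      if (if z ∈ V then g.1 z else z) ∈ V then f.1 (if z ∈ V then g.1 z else z)
      else (if z ∈ V then g.1 z else z)
    by_cases hz : z ∈ V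
    · simp only [if_pos hz, if_pos ((g.2 z).2 hz)]
      rfl
    · simp only [if_neg hz]

theorem rst_pos {V : Set X} (f : Pres V) {z : X} (hz : z ∈ V) : rst V f z = f.1 z := if_pos hz

theorem rst_neg {V : Set X} (f : Pres V) {z : X} (hz : z ∉ V) : rst V f z = z := if_neg hz

end rst

variable {X : Type} [TopologicalSpace X]

/-- The homomorphism from homeomorphisms to permutations. -/
def toP : (X ≃ₜ X) →* Equiv.Perm X where
  toFun f := f.toEquiv
  map_one' := rfl
  map_mul' _ _ := rfl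

theorem toP_apply (f : X ≃ₜ X) (z : X) : toP f z = f z := rfl

theorem Rg_mono {V : Set X} {E E' : Set (X ≃ₜ X)} (h : E ⊆ E') : Rg V E ≤ Rg V E' :=
  Subgroup.closure_mono fun _ ⟨e, he, h1, h2⟩ => ⟨e, h he, h1, h2⟩

/-- The elements of the restriction group are the restrictions of the elements of the group
generated by `E`. -/
theorem mem_Rg {V : Set X} {E : Set (X ≃ₜ X)} (hE : ∀ e ∈ E, ∀ z, e z ∈ V ↔ z ∈ V)
    {γ : Equiv.Perm X} : γ ∈ Rg V E ↔
      ∃ e ∈ Subgroup.closure E, (∀ z ∈ V, γ z = e z) ∧ ∀ z, z ∉ V → γ z = z := by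
  have hE' : Subgroup.closure E ≤ (Pres V).comap toP :=
    (Subgroup.closure_le _).2 fun e he z => hE e he z
  constructor
  · intro h
    let K : Subgroup (Equiv.Perm X) :=
      { carrier := {γ | ∃ e ∈ Subgroup.closure E, (∀ z ∈ V, γ z = e z) ∧ ∀ z, z ∉ V → γ z = z}
        one_mem' := ⟨1, (Subgroup.closure E).one_mem, fun _ _ => rfl, fun _ _ => rfl⟩
        mul_mem' := by
          rintro γ δ ⟨e, he, h1, h2⟩ ⟨e', he', h3, h4⟩
          refine ⟨e * e', (Subgroup.closure E).mul_mem he he', fun z hz => ?_, fun z hz => ?_⟩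
          · rw [Equiv.Perm.mul_apply, h3 z hz]
            exact h1 _ ((hE' he' z).2 hz)
          · rw [Equiv.Perm.mul_apply, h4 z hz, h2 z hz]
        inv_mem' := by
          rintro γ ⟨e, he, h1, h2⟩
          refine ⟨e⁻¹, (Subgroup.closure E).inv_mem he, fun z hz => ?_, fun z hz => ?_⟩
          · rw [Equiv.Perm.inv_eq_iff_eq, h1 _ ?_]
            · exact (e.apply_symm_apply z).symm
            · exact (hE' ((Subgroup.closure E).inv_mem he) z).2 hz
          · rw [Equiv.Perm.inv_eq_iff_eq, h2 z hz] }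
    have h1 : Rg V E ≤ K := (Subgroup.closure_le _).2 fun γ ⟨e, he, h1, h2⟩ =>
      ⟨e, Subgroup.subset_closure he, h1, h2⟩
    exact h1 h
  · rintro ⟨e, he, h1, h2⟩
    have h3 : ∀ a : Subgroup.closure E, rst V ⟨toP a.1, hE' a.2⟩ ∈ Rg V E := by
      intro a
      let f : Subgroup.closure E →* Equiv.Perm X :=
        (rst V).comp ((toP.comp (Subgroup.closure E).subtype).codRestrict (Pres V)
          fun b => hE' b.2)
      have h4 : (⊤ : Subgroup (Subgroup.closure E)) ≤ (Rg V E).comap f := by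
        rw [← Subgroup.closure_closure_coe_preimage, Subgroup.closure_le]
        intro b hb
        exact Subgroup.subset_closure ⟨b.1, hb, fun z hz => rst_pos _ hz,
          fun z hz => rst_neg _ hz⟩
      exact h4 (Subgroup.mem_top a)
    have h5 : γ = rst V ⟨toP e, hE' he⟩ := by
      ext z
      by_cases hz : z ∈ V
      · rw [h1 z hz, rst_pos _ hz]
        rfl
      · rw [h2 z hz, rst_neg _ hz]
    rw [h5]
    exact h3 ⟨e, he⟩

/-- Elements of `Full H` which fix `x` are trivial near `x`. -/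
theorem Full_fix_at {H : Subgroup (X ≃ₜ X)} {x : X}
    (h1 : ∀ h ∈ H, h x = x → ∀ᶠ y in 𝓝 x, h y = y) {f : Equiv.Perm X}
    (hf : f ∈ Full H) (hx : f x = x) : ∀ᶠ y in 𝓝 x, f y = y := by
  obtain ⟨h, hh, h2⟩ := hf x
  have h3 := h1 h hh (h2.self_of_nhds.symm.trans hx)
  filter_upwards [h2, h3] with y h4 h5
  rw [h4, h5]

theorem At.mul {H : Subgroup (X ≃ₜ X)} {f g : X ≃ₜ X} {x : X} (hf : At H f (g x))
    (hg : At H g x) : At H (f * g : X ≃ₜ X) x := hf.comp hg

theorem Sg_apply {H G : Subgroup (X ≃ₜ X)} {x : X} (h : Sg H G x) {g : X ≃ₜ X} (hg : g ∈ G) :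
    Sg H G (g x) := by
  by_contra h1
  have h2 : ∀ f ∈ G, At H f (g x) := fun f hf => by
    by_contra h3
    exact h1 ⟨f, hf, h3⟩
  obtain ⟨f, hf, h3⟩ := h
  refine h3 ?_
  have h4 : At H g x := by
    have h5 : At H (toP g⁻¹ : Equiv.Perm X) (g x) := h2 g⁻¹ (G.inv_mem hg)
    have h6 := h5.inv
    rw [← map_inv, inv_inv] at h6
    have h7 : toP g⁻¹ (g x) = x := g.symm_apply_apply x
    rw [h7] at h6
    exact h6
  have h8 := (h2 (f * g⁻¹) (G.mul_mem hf (G.inv_mem hg))).mul h4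
  rwa [inv_mul_cancel_right] at h8

variable (C : ∀ (G : Type) [Group G], Prop)

/-- Finitely many singular germs. -/
structure Config (H G : Subgroup (X ≃ₜ X)) where
  /-- classes of objects -/
  J : Type
  /-- the objects of a class which are not the base object -/
  A : J → Type
  fin : ∀ c, Finite (A c)
  /-- the base points -/
  x : J → X
  /-- elements which fix the base point -/
  E : J → Finset (X ≃ₜ X)
  /-- elements which move the base point to the other objects -/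
  θ : (c : J) → A c → X ≃ₜ X
  E_mem : ∀ c, ∀ e ∈ E c, e ∈ G
  E_x : ∀ c, ∀ e ∈ E c, e (x c) = x c
  θ_mem : ∀ c a, θ c a ∈ G
  sing : ∀ c, Sg H G (x c)
  orb : ∀ k ∈ Full H, ∀ (c c' : J) (o : Option (A c)) (o' : Option (A c')),
    k (opt (θ c) o (x c)) = opt (θ c') o' (x c') → (⟨c, o⟩ : Σ c, Option (A c)) = ⟨c', o'⟩

variable {H G : Subgroup (X ≃ₜ X)}

/-- Small neighbourhoods of the base points. -/
structure Level (S : Config H G) where
  V : S.J → Set X
  κ : (c : S.J) → S.A c → Full H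
  clopen : ∀ c, IsClopen (V c)
  mem : ∀ c, S.x c ∈ V c
  inv : ∀ c, ∀ e ∈ S.E c, ∀ z, e z ∈ V c ↔ z ∈ V c
  κ_V : ∀ c a z, (κ c a : Equiv.Perm X) (S.θ c a z) ∈ V c ↔ z ∈ V c
  loc_e : ∀ c, ∀ e ∈ S.E c, ∀ z ∈ V c, z ≠ S.x c → At H e z
  loc_θ : ∀ c a, ∀ z ∈ V c, z ≠ S.x c → At H (S.θ c a) z
  memC : ∀ c, C (Rg (V c) (S.E c : Set (X ≃ₜ X)))

instance (S : Config H G) : Preorder (Level C S) where
  le i j := ∀ c, j.V c ⊆ i.V c
  le_refl i c := subset_rfl
  le_trans i j k h h' c := (h' c).trans (h c)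

variable {C}

variable [T2Space X] {S : Config H G}

omit [T2Space X] in
theorem image_eq_iff {g : X ≃ₜ X} {V : Set X} (h : g '' V = V) (z : X) : g z ∈ V ↔ z ∈ V := by
  constructor
  · intro hz
    rw [← h] at hz
    obtain ⟨w, hw, h1⟩ := hz
    rwa [← g.injective h1]
  · intro hz
    rw [← h]
    exact ⟨z, hz, rfl⟩

omit [T2Space X] in
/-- All objects are singular points. -/
theorem Config.sing' (S : Config H G) (c : S.J) (o : Option (S.A c)) :
    Sg H G (opt (S.θ c) o (S.x c)) := by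
  cases o with
  | none => exact S.sing c
  | some a => exact Sg_apply (S.sing c) (S.θ_mem c a)

/-- Levels exist in all neighbourhoods. -/
theorem exists_level (hC : ClosedClass C) (hG : Hyp C H G) (S : Config H G) (W : S.J → Set X)
    (hW : ∀ c, W c ∈ 𝓝 (S.x c)) : ∃ i : Level C S, ∀ c, i.V c ⊆ W c := by
  classical
  have key : ∀ c, ∃ V : Set X, IsClopen V ∧ S.x c ∈ V ∧ V ⊆ W c ∧
      (∀ e ∈ S.E c, ∀ z, e z ∈ V ↔ z ∈ V) ∧
      (∀ a, ∃ k ∈ Full H, ∀ z, k (S.θ c a z) ∈ V ↔ z ∈ V) ∧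
      (∀ e ∈ S.E c, ∀ z ∈ V, z ≠ S.x c → At H e z) ∧
      (∀ a, ∀ z ∈ V, z ≠ S.x c → At H (S.θ c a) z) ∧ C (Rg V (S.E c : Set (X ≃ₜ X))) := by
    intro c
    have := S.fin c
    have : Fintype (S.A c) := Fintype.ofFinite _
    let E' : Finset (X ≃ₜ X) := S.E c ∪ Finset.univ.image (S.θ c)
    have hE' : ∀ g ∈ E', g ∈ G := by
      intro g hg
      rcases Finset.mem_union.1 hg with h | h
      · exact S.E_mem c g h
      · obtain ⟨a, -, rfl⟩ := Finset.mem_image.1 h
        exact S.θ_mem c a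
    let B : Set X := {z | ∃ g ∈ E', ¬ At H g z}
    have hB : B.Finite := by
      have h1 : B = ⋃ g ∈ E', {z | ¬ At H g z} := by
        ext z
        simp [B]
      rw [h1]
      exact Set.Finite.biUnion E'.finite_toSet fun g hg => hG.sing g (hE' g hg)
    have hB' : (B \ {S.x c})ᶜ ∈ 𝓝 (S.x c) :=
      (hB.subset Set.sdiff_subset).isClosed.isOpen_compl.mem_nhds fun h => h.2 rfl
    obtain ⟨V, h1, h2, h3, h4, hV⟩ := hG.nbd (S.x c) (S.sing c) E' hE' _
      (inter_mem (hW c) hB')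
    have h5 : ∀ g ∈ E', ∀ z ∈ V, z ≠ S.x c → At H g z := by
      intro g hg z hz hzx
      by_contra h
      exact (h3 hz).2 ⟨⟨g, hg, h⟩, hzx⟩
    refine ⟨V, h1, h2, fun z hz => (h3 hz).1, fun e he => ?_, fun a => ?_, fun e he => ?_,
      fun a => ?_, ?_⟩
    · exact image_eq_iff ((h4 e (Finset.mem_union_left _ he)).2 (S.E_x c e he))
    · obtain ⟨f, hf, h6⟩ := (h4 (S.θ c a) (Finset.mem_union_right _
        (Finset.mem_image_of_mem _ (Finset.mem_univ a)))).1
      refine ⟨f⁻¹, (Full H).inv_mem hf, fun z => ?_⟩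
      have h7 : S.θ c a z ∈ S.θ c a '' V ↔ z ∈ V := (S.θ c a).injective.mem_set_image
      rw [← h7, h6]
      constructor
      · intro h
        exact ⟨_, h, app_inv f _⟩
      · rintro ⟨w, hw, h⟩
        rwa [← h, inv_app]
    · exact h5 e (Finset.mem_union_left _ he)
    · exact h5 _ (Finset.mem_union_right _ (Finset.mem_image_of_mem _ (Finset.mem_univ a)))
    · have h6 : (S.E c : Set (X ≃ₜ X)) ⊆ {g | g ∈ E' ∧ g (S.x c) = S.x c} := fun e he =>
        ⟨Finset.mem_union_left _ he, S.E_x c e he⟩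
      exact hC.iso _ _ (MonoidHom.ofInjective (Subgroup.inclusion_injective (Rg_mono h6))).symm
        (hC.subgroup _ _ hV)
  choose V h1 h2 h3 h4 h5 h6 h7 h8 using key
  choose κ h9 h10 using h5
  exact ⟨⟨V, fun c a => ⟨κ c a, h9 c a⟩, h1, h2, h4, h10, h6, h7, h8⟩, h3⟩

theorem exists_level_at (hC : ClosedClass C) (hG : Hyp C H G) (S : Config H G) (c : S.J) (W : Set X)
    (hW : W ∈ 𝓝 (S.x c)) : ∃ i : Level C S, i.V c ⊆ W := by
  obtain ⟨i, hi⟩ := exists_level hC hG S (fun d => {z | d = c → z ∈ W}) fun d => by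
    by_cases h : d = c
    · subst h
      filter_upwards [hW] with z hz _
      exact hz
    · exact Eventually.of_forall fun z h' => (h h').elim
  exact ⟨i, fun z hz => hi c hz rfl⟩

theorem level_nonempty (hC : ClosedClass C) (hG : Hyp C H G) (S : Config H G) : Nonempty (Level C S) :=
  ⟨(exists_level hC hG S (fun _ => Set.univ) fun _ => univ_mem).choose⟩

theorem level_directed (hC : ClosedClass C) (hG : Hyp C H G) (S : Config H G) : IsDirectedOrder (Level C S) := ⟨by
  intro i j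
  obtain ⟨k, hk⟩ := exists_level hC hG S (fun c => i.V c ∩ j.V c) fun c =>
    ((i.clopen c).inter (j.clopen c)).isOpen.mem_nhds ⟨i.mem c, j.mem c⟩
  exact ⟨k, fun c => (hk c).trans Set.inter_subset_left,
    fun c => (hk c).trans Set.inter_subset_right⟩⟩

omit [T2Space X] in
/-- The permutations which behave on `V` like the elements of `E`. -/
def Lc (i : Level C S) (c : S.J) : Subgroup (Equiv.Perm X) where
  carrier := {f | (∀ z, f z ∈ i.V c ↔ z ∈ i.V c) ∧ f (S.x c) = S.x c ∧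
    ∀ z ∈ i.V c, z ≠ S.x c → At H f z}
  one_mem' := ⟨fun _ => Iff.rfl, rfl, fun z _ _ => At.of_mem H.one_mem z⟩
  mul_mem' := by
    rintro f g ⟨hf1, hf2, hf3⟩ ⟨hg1, hg2, hg3⟩
    refine ⟨fun z => by rw [Equiv.Perm.mul_apply, hf1, hg1],
      by rw [Equiv.Perm.mul_apply, hg2, hf2], fun z hz hzx => ?_⟩
    have h1 : At H f (g z) := hf3 _ ((hg1 z).2 hz) fun h => hzx (g.injective (h.trans hg2.symm))
    exact h1.comp (hg3 z hz hzx)
  inv_mem' := by
    rintro f ⟨hf1, hf2, hf3⟩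
    have h1 : ∀ z, f⁻¹ z ∈ i.V c ↔ z ∈ i.V c := fun z => by rw [← hf1, app_inv]
    have h2 : f⁻¹ (S.x c) = S.x c := by rw [Equiv.Perm.inv_eq_iff_eq, hf2]
    refine ⟨h1, h2, fun z hz hzx => ?_⟩
    have h3 := (hf3 _ ((h1 z).2 hz) fun h => hzx ((Equiv.Perm.inv_eq_iff_eq.1 h).trans hf2)).inv
    rwa [app_inv] at h3

omit [T2Space X] in
theorem mem_Lc {i : Level C S} {c : S.J} {f : Equiv.Perm X} : f ∈ Lc i c ↔
    (∀ z, f z ∈ i.V c ↔ z ∈ i.V c) ∧ f (S.x c) = S.x c ∧ ∀ z ∈ i.V c, z ≠ S.x c → At H f z :=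
  Iff.rfl

/-- The group generated by the elements of `E`. -/
def Eg (S : Config H G) (c : S.J) : Subgroup (X ≃ₜ X) := Subgroup.closure (S.E c : Set (X ≃ₜ X))

omit [T2Space X] in
theorem Eg_Lc (i : Level C S) (c : S.J) {e : X ≃ₜ X} (he : e ∈ Eg S c) : toP e ∈ Lc i c := by
  have h : Eg S c ≤ (Lc i c).comap toP := by
    refine (Subgroup.closure_le _).2 fun e he => ?_
    exact ⟨i.inv c e he, S.E_x c e he, i.loc_e c e he⟩
  exact h he

/-- The group of the restrictions. -/
def Gam (i : Level C S) (c : S.J) : Subgroup (Equiv.Perm X) := Rg (i.V c) (S.E c : Set (X ≃ₜ X))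

omit [T2Space X] in
theorem mem_Gam {i : Level C S} {c : S.J} {γ : Equiv.Perm X} : γ ∈ Gam i c ↔
    ∃ e ∈ Eg S c, (∀ z ∈ i.V c, γ z = e z) ∧ ∀ z, z ∉ i.V c → γ z = z := mem_Rg (i.inv c)

omit [T2Space X] in
theorem Gam_Pres {i : Level C S} (j : Level C S) {c : S.J} {γ : Equiv.Perm X} (h : γ ∈ Gam i c) :
    γ ∈ Pres (j.V c) := by
  obtain ⟨e, he, h1, h2⟩ := mem_Gam.1 h
  intro z
  by_cases hz : z ∈ i.V c
  · rw [h1 z hz]
    exact (Eg_Lc j c he).1 z
  · rw [h2 z hz]

/-- The restriction maps. -/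
noncomputable def Res {i j : Level C S} (hij : i ≤ j) (c : S.J) : Gam i c →* Gam j c :=
  ((rst (j.V c)).comp (Subgroup.inclusion fun _ h => Gam_Pres j h)).codRestrict (Gam j c)
    (by
      rintro ⟨γ, hγ⟩
      obtain ⟨e, he, h1, h2⟩ := mem_Gam.1 hγ
      exact mem_Gam.2 ⟨e, he, fun z hz => (rst_pos _ hz).trans (h1 z (hij c hz)), fun z hz => rst_neg _ hz⟩)

omit [T2Space X] in
theorem Res_pos {i j : Level C S} (hij : i ≤ j) (c : S.J) (γ : Gam i c) {z : X} (hz : z ∈ j.V c) :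
    (Res hij c γ : Equiv.Perm X) z = (γ : Equiv.Perm X) z := rst_pos _ hz

omit [T2Space X] in
theorem Res_neg {i j : Level C S} (hij : i ≤ j) (c : S.J) (γ : Gam i c) {z : X} (hz : z ∉ j.V c) :
    (Res hij c γ : Equiv.Perm X) z = z := rst_neg _ hz

/-- The map of the object. -/
noncomputable def uu (i : Level C S) (c : S.J) (a : S.A c) : Equiv.Perm X :=
  rst (i.V c) ⟨(i.κ c a : Equiv.Perm X) * toP (S.θ c a), fun z => i.κ_V c a z⟩

omit [T2Space X] in
theorem uu_pos (i : Level C S) (c : S.J) (a : S.A c) {z : X} (hz : z ∈ i.V c) :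
    uu i c a z = (i.κ c a : Equiv.Perm X) (S.θ c a z) := rst_pos _ hz

omit [T2Space X] in
theorem uu_neg (i : Level C S) (c : S.J) (a : S.A c) {z : X} (hz : z ∉ i.V c) :
    uu i c a z = z := rst_neg _ hz

omit [T2Space X] in
theorem uu_eq {i j : Level C S} (hij : i ≤ j) (c : S.J) (a : S.A c) {z : X} (hz : z ∈ j.V c) :
    uu i c a ((uu j c a)⁻¹ z) = (i.κ c a : Equiv.Perm X) ((j.κ c a : Equiv.Perm X)⁻¹ z) := by
  obtain ⟨w, rfl⟩ : ∃ w, uu j c a w = z := ⟨_, app_inv _ z⟩
  have hw : w ∈ j.V c := by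
    by_contra h
    rw [uu_neg j c a h] at hz
    exact h hz
  rw [inv_app, uu_pos j c a hw, inv_app, uu_pos i c a (hij c hw)]

omit [T2Space X] in
theorem uu_mem {i j : Level C S} (hij : i ≤ j) (c : S.J) (a : S.A c) :
    uu i c a * (uu j c a)⁻¹ ∈ Full H := by
  intro z
  by_cases hz : z ∈ j.V c
  · refine At.of_Full (g := (i.κ c a : Equiv.Perm X) * (j.κ c a : Equiv.Perm X)⁻¹)
      ((Full H).mul_mem (i.κ c a).2 ((Full H).inv_mem (j.κ c a).2)) ?_
    filter_upwards [(j.clopen c).isOpen.mem_nhds hz] with y hy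
    exact uu_eq hij c a hy
  · have h1 : ∀ᶠ y in 𝓝 z, (uu i c a * (uu j c a)⁻¹) y = uu i c a y := by
      filter_upwards [(j.clopen c).compl.isOpen.mem_nhds hz] with y hy
      rw [Equiv.Perm.mul_apply]
      congr 1
      rw [Equiv.Perm.inv_eq_iff_eq]
      exact (uu_neg j c a hy).symm
    refine At.congr ?_ h1
    by_cases hz' : z ∈ i.V c
    · have h2 : At H (fun y => (i.κ c a : Equiv.Perm X) (S.θ c a y)) z := by
        refine At.comp ((i.κ c a).2 _) (i.loc_θ c a z hz' fun h => hz ?_)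
        rw [h]
        exact j.mem c
      refine h2.congr ?_
      filter_upwards [(i.clopen c).isOpen.mem_nhds hz'] with y hy
      exact uu_pos i c a hy
    · refine (At.of_mem H.one_mem z).congr ?_
      filter_upwards [(i.clopen c).compl.isOpen.mem_nhds hz'] with y hy
      exact uu_neg i c a hy

omit [T2Space X] in
theorem Res_mem {i j : Level C S} (hij : i ≤ j) (c : S.J) (γ : Gam i c) :
    (γ : Equiv.Perm X) * (Res hij c γ : Equiv.Perm X)⁻¹ ∈ Full H := by
  intro z
  obtain ⟨e, he, h1, h2⟩ := mem_Gam.1 γ.2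
  by_cases hz : z ∈ j.V c
  · refine (At.of_mem H.one_mem z).congr ?_
    filter_upwards [(j.clopen c).isOpen.mem_nhds hz] with y hy
    obtain ⟨w, rfl⟩ : ∃ w, (Res hij c γ : Equiv.Perm X) w = y := ⟨_, app_inv _ y⟩
    have hw : w ∈ j.V c := by
      by_contra h
      rw [Res_neg hij c γ h] at hy
      exact h hy
    rw [Equiv.Perm.mul_apply, inv_app, Res_pos hij c γ hw]
    rfl
  · have h3 : ∀ᶠ y in 𝓝 z, ((γ : Equiv.Perm X) * (Res hij c γ : Equiv.Perm X)⁻¹) y =
        (γ : Equiv.Perm X) y := by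
      filter_upwards [(j.clopen c).compl.isOpen.mem_nhds hz] with y hy
      rw [Equiv.Perm.mul_apply]
      congr 1
      rw [Equiv.Perm.inv_eq_iff_eq]
      exact (Res_neg hij c γ hy).symm
    refine At.congr ?_ h3
    by_cases hz' : z ∈ i.V c
    · refine ((Eg_Lc i c he).2.2 z hz' fun h => hz (by rw [h]; exact j.mem c)).congr ?_
      filter_upwards [(i.clopen c).isOpen.mem_nhds hz'] with y hy
      exact h1 y hy
    · refine (At.of_mem H.one_mem z).congr ?_
      filter_upwards [(i.clopen c).compl.isOpen.mem_nhds hz'] with y hy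
      exact h2 y hy

omit [T2Space X] in
/-- The position of an object. -/
theorem opt_V (i : Level C S) (c : S.J) (o : Option (S.A c)) (z : X) :
    ((opt (i.κ c) o : Full H) : Equiv.Perm X) (opt (S.θ c) o z) ∈ i.V c ↔ z ∈ i.V c := by
  cases o with
  | none => exact Iff.rfl
  | some a => exact i.κ_V c a z

omit [T2Space X] in
theorem opt_V' (i : Level C S) (c : S.J) (o : Option (S.A c)) (z : X) :
    ((opt (i.κ c) o : Full H) : Equiv.Perm X) z ∈ i.V c ↔ (opt (S.θ c) o).symm z ∈ i.V c := by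
  rw [← opt_V i c o ((opt (S.θ c) o).symm z), (opt (S.θ c) o).apply_symm_apply]

omit [T2Space X] in
theorem opt_uu (i : Level C S) (c : S.J) (o : Option (S.A c)) {z : X} (hz : z ∈ i.V c) :
    opt (uu i c) o z = ((opt (i.κ c) o : Full H) : Equiv.Perm X) (opt (S.θ c) o z) := by
  cases o with
  | none => rfl
  | some a => exact uu_pos i c a hz

theorem level_dich (hC : ClosedClass C) (hG : Hyp C H G) (S : Config H G) (k : Full H) (c c' : S.J)
    (o : Option (S.A c)) (o' : Option (S.A c')) : ∃ i₀ : Level C S, ∀ i, i₀ ≤ i →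
    ((⟨c, o⟩ : Σ c, Option (S.A c)) = ⟨c', o'⟩ ∧
      ∀ z, ((opt (i.κ c) o : Full H) : Equiv.Perm X) z ∈ i.V c → (k : Equiv.Perm X) z = z) ∨
    ∀ z, ((opt (i.κ c) o : Full H) : Equiv.Perm X) z ∈ i.V c →
      ((opt (i.κ c') o' : Full H) : Equiv.Perm X) ((k : Equiv.Perm X) z) ∉ i.V c' := by
  by_cases h : (k : Equiv.Perm X) (opt (S.θ c) o (S.x c)) = opt (S.θ c') o' (S.x c')
  · have h1 := S.orb k k.2 c c' o o' h
    have h2 : (k : Equiv.Perm X) (opt (S.θ c) o (S.x c)) = opt (S.θ c) o (S.x c) := by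
      have h3 : ∀ a b : Σ c, Option (S.A c), a = b →
          opt (S.θ a.1) a.2 (S.x a.1) = opt (S.θ b.1) b.2 (S.x b.1) := by
        rintro a b rfl
        rfl
      rw [h]
      exact (h3 _ _ h1).symm
    have h3 := Full_fix_at (hG.fix _ (S.sing' c o)) k.2 h2
    rw [map_nhds_homeo] at h3
    obtain ⟨i₀, hi₀⟩ := exists_level_at hC hG S c _ h3
    refine ⟨i₀, fun i hi => Or.inl ⟨h1, fun z hz => ?_⟩⟩
    rw [opt_V'] at hz
    have h4 := hi₀ (hi c hz)
    change (k : Equiv.Perm X) (opt (S.θ c) o ((opt (S.θ c) o).symm z)) =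
      opt (S.θ c) o ((opt (S.θ c) o).symm z) at h4
    rwa [(opt (S.θ c) o).apply_symm_apply] at h4
  · obtain ⟨O, O', hO, hO', h1, h2, h3⟩ := t2_separation h
    let q : X ≃ₜ X := opt (S.θ c') o'
    have h4 : (fun z => (k : Equiv.Perm X) (opt (S.θ c) o z)) ⁻¹' O ∈ 𝓝 (S.x c) :=
      (hO.preimage ((Full_continuous k.2).comp (opt (S.θ c) o).continuous)).mem_nhds h1
    have h5 : q ⁻¹' O' ∈ 𝓝 (S.x c') := (hO'.preimage q.continuous).mem_nhds h2
    obtain ⟨i₁, hi₁⟩ := exists_level_at hC hG S c _ h4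
    obtain ⟨i₂, hi₂⟩ := exists_level_at hC hG S c' _ h5
    have := level_directed hC hG S
    obtain ⟨i₀, h6, h7⟩ := exists_ge_ge i₁ i₂
    refine ⟨i₀, fun i hi => Or.inr fun z hz hz' => ?_⟩
    rw [opt_V'] at hz hz'
    have h8 := hi₁ (h6 c (hi c hz))
    have h9 := hi₂ (h7 c' (hi c' hz'))
    rw [Set.mem_preimage, (opt (S.θ c) o).apply_symm_apply] at h8
    rw [Set.mem_preimage, q.apply_symm_apply] at h9
    exact Set.disjoint_left.1 h3 h8 h9

theorem level_sep (hC : ClosedClass C) (hG : Hyp C H G) (S : Config H G) (i : Level C S) (c : S.J)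
    (o o' : Option (S.A c)) (γ : Gam i c) (k : Full H)
    (h : ∀ z ∈ i.V c, (opt (uu i c) o * γ * (opt (uu i c) o')⁻¹ : Equiv.Perm X) z =
      (k : Equiv.Perm X) z) :
    o = o' ∧ ∃ j, ∃ hij : i ≤ j, Res hij c γ = 1 := by
  obtain ⟨e, he, h1, h2⟩ := mem_Gam.1 γ.2
  have hx : (γ : Equiv.Perm X) (S.x c) = S.x c := by
    rw [h1 _ (i.mem c)]
    exact (Eg_Lc i c he).2.1
  have hγ : ∀ z ∈ i.V c, (γ : Equiv.Perm X) z ∈ i.V c := by
    intro z hz
    rw [h1 _ hz]
    exact ((Eg_Lc i c he).1 z).2 hz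
  have key : ∀ z ∈ i.V c, ((opt (i.κ c) o : Full H) : Equiv.Perm X)
      (opt (S.θ c) o ((γ : Equiv.Perm X) z)) = (k : Equiv.Perm X)
        (((opt (i.κ c) o' : Full H) : Equiv.Perm X) (opt (S.θ c) o' z)) := by
    intro z hz
    have h3 := h _ ((opt_V i c o' z).2 hz)
    rw [← opt_uu i c o' hz, Equiv.Perm.mul_apply, Equiv.Perm.mul_apply, inv_app,
      opt_uu i c o (hγ z hz)] at h3
    rw [← opt_uu i c o' hz]
    exact h3
  have h3 := key _ (i.mem c)
  rw [hx] at h3
  have h4 := S.orb (((opt (i.κ c) o : Full H) : Equiv.Perm X)⁻¹ * (k : Equiv.Perm X) *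
    ((opt (i.κ c) o' : Full H) : Equiv.Perm X)) ((Full H).mul_mem ((Full H).mul_mem
      ((Full H).inv_mem (opt (i.κ c) o).2) k.2) (opt (i.κ c) o').2) c c o' o (by
      rw [Equiv.Perm.mul_apply, Equiv.Perm.mul_apply, ← h3, inv_app])
  have h5 : o = o' := by
    have := h4
    simp only [Sigma.mk.injEq, heq_eq_eq, true_and] at this
    exact this.symm
  refine ⟨h5, ?_⟩
  subst h5
  let κ : Equiv.Perm X := ((opt (i.κ c) o : Full H) : Equiv.Perm X)
  have h6 : ∀ᶠ y in 𝓝 (opt (S.θ c) o (S.x c)), (κ⁻¹ * (k : Equiv.Perm X) * κ) y = y := by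
    refine Full_fix_at (hG.fix _ (S.sing' c o)) ((Full H).mul_mem ((Full H).mul_mem
      ((Full H).inv_mem (opt (i.κ c) o).2) k.2) (opt (i.κ c) o).2) ?_
    rw [Equiv.Perm.mul_apply, Equiv.Perm.mul_apply, ← h3, inv_app]
  have h7 : ∀ᶠ z in 𝓝 (S.x c), (k : Equiv.Perm X)
      (((opt (i.κ c) o : Full H) : Equiv.Perm X) (opt (S.θ c) o z)) =
        ((opt (i.κ c) o : Full H) : Equiv.Perm X) (opt (S.θ c) o z) := by
    rw [map_nhds_homeo] at h6
    filter_upwards [h6] with z hz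
    rw [Equiv.Perm.mul_apply, Equiv.Perm.mul_apply, Equiv.Perm.inv_eq_iff_eq] at hz
    exact hz
  have h8 : ∀ᶠ z in 𝓝 (S.x c), (γ : Equiv.Perm X) z = z := by
    filter_upwards [h7, (i.clopen c).isOpen.mem_nhds (i.mem c)] with z hz hz'
    have h9 := key z hz'
    rw [hz] at h9
    exact (opt (S.θ c) o).injective ((((opt (i.κ c) o : Full H) : Equiv.Perm X)).injective h9)
  obtain ⟨j₀, hj₀⟩ := exists_level_at hC hG S c _ h8
  have := level_directed hC hG S
  obtain ⟨j, h9, h10⟩ := exists_ge_ge i j₀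
  refine ⟨j, h9, Subtype.ext (Equiv.ext fun z => ?_)⟩
  by_cases hz : z ∈ j.V c
  · rw [Res_pos h9 c γ hz]
    exact hj₀ (h10 c hz)
  · exact Res_neg h9 c γ hz

/-- The data of a configuration. -/
noncomputable def Config.data (S : Config H G) (hC : ClosedClass C) (hG : Hyp C H G) : Data X (Full H) where
  I := Level C S
  dir := level_directed hC hG S
  ne := level_nonempty hC hG S
  J := S.J
  A := S.A
  V i := i.V
  Γ i c := Gam i c
  u i c a := uu i c a
  κ i c a := i.κ c a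
  res _ _ hij c := Res hij c
  V_anti _ _ hij c := hij c
  V_ne i c := ⟨_, i.mem c⟩
  Γ_supp i c γ hγ z hz := by
    obtain ⟨e, -, -, h⟩ := mem_Gam.1 hγ
    exact h z hz
  u_supp i c a z hz := uu_neg i c a hz
  res_eq _ _ hij c γ z hz := Res_pos hij c γ hz
  res_mem _ _ hij c γ := Res_mem hij c γ
  u_mem _ _ hij c a := uu_mem hij c a
  u_eq _ _ hij c a z hz := uu_eq hij c a hz
  dich := level_dich hC hG S
  sep := level_sep hC hG S

end Pool.Agent.FS
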