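import Pool.Agent.FS.Full
import Pool.Agent.FS.FGMem

/-!
# Germs at a point, and groups of restrictions
-/

set_option autoImplicit false

open Filter Topology Monoid

namespace Pool.Agent.FS

open Pool.Agent.Helper29.BA Pool.Agent.Helper29.PA Pool.Agent.T59

section germ

variable {X : Type} [TopologicalSpace X]

/-- The stabiliser of `x` in `G`. -/
def Stab (G : Subgroup (X ≃ₜ X)) (x : X) : Subgroup (X ≃ₜ X) where
  carrier := {g | g ∈ G ∧ g x = x}
  mul_mem' := fun {a b} ha hb => ⟨G.mul_mem ha.1 hb.1, by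
    change a (b x) = x
    rw [hb.2, ha.2]⟩
  one_mem' := ⟨G.one_mem, rfl⟩
  inv_mem' := fun {a} ha => ⟨G.inv_mem ha.1, (a.symm_apply_eq).2 ha.2.symm⟩

/-- The elements of the stabiliser which are the identity near `x`. -/
def Triv (G : Subgroup (X ≃ₜ X)) (x : X) : Subgroup (Stab G x) where
  carrier := {g | ∀ᶠ y in 𝓝 x, (g : X ≃ₜ X) y = y}
  mul_mem' := fun {a b} ha hb => by
    filter_upwards [ha, hb] with y h1 h2
    change (a : X ≃ₜ X) ((b : X ≃ₜ X) y) = y
    rw [h2, h1]
  one_mem' := Eventually.of_forall fun _ => rfl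
  inv_mem' := fun {a} ha => by
    filter_upwards [ha] with y h1
    exact ((a : X ≃ₜ X).symm_apply_eq).2 h1.symm

instance (G : Subgroup (X ≃ₜ X)) (x : X) : (Triv G x).Normal where
  conj_mem n hn g := by
    have h1 : ∀ᶠ y in 𝓝 (((g⁻¹ : Stab G x) : X ≃ₜ X) x), (n : X ≃ₜ X) y = y := by
      rw [(g⁻¹).2.2]
      exact hn
    rw [map_nhds_homeo] at h1
    filter_upwards [h1] with y h2
    change (g : X ≃ₜ X) ((n : X ≃ₜ X) (((g⁻¹ : Stab G x) : X ≃ₜ X) y)) = y
    rw [h2]
    exact (g : X ≃ₜ X).apply_symm_apply y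

/-- The group of the germs at `x` of the elements of `G` which fix `x`. -/
abbrev Germ (G : Subgroup (X ≃ₜ X)) (x : X) : Type := Stab G x ⧸ Triv G x

theorem germ_eq {G : Subgroup (X ≃ₜ X)} {x : X} {a b : Stab G x}
    (h : ∀ᶠ y in 𝓝 x, (a : X ≃ₜ X) y = (b : X ≃ₜ X) y) : (a : Germ G x) = (b : Germ G x) := by
  rw [QuotientGroup.eq]
  change ∀ᶠ y in 𝓝 x, ((a⁻¹ * b : Stab G x) : X ≃ₜ X) y = y
  filter_upwards [h] with y h1
  change (a : X ≃ₜ X).symm ((b : X ≃ₜ X) y) = y
  rw [← h1, (a : X ≃ₜ X).symm_apply_apply]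

theorem germ_one {G : Subgroup (X ≃ₜ X)} {x : X} {a : Stab G x}
    (h : (a : Germ G x) = 1) : ∀ᶠ y in 𝓝 x, (a : X ≃ₜ X) y = y :=
  (QuotientGroup.eq_one_iff a).1 h

/-- The restrictions to `V` of the elements of `E`. -/
def Rst (V : Set X) (E : Set (X ≃ₜ X)) : Set (Equiv.Perm X) :=
  {γ | ∃ e ∈ E, (∀ z ∈ V, γ z = e z) ∧ ∀ z, z ∉ V → γ z = z}

/-- What is needed of the elements of `E`. -/
structure Loc (H G : Subgroup (X ≃ₜ X)) (x : X) (V : Set X) (e : X ≃ₜ X) : Prop where
  mem : e ∈ G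
  fix : e x = x
  map : ∀ z, e z ∈ V ↔ z ∈ V
  at' : ∀ z ∈ V, z ≠ x → At H e z

variable {H G : Subgroup (X ≃ₜ X)} {x : X} {V : Set X}

/-- The elements with these properties form a group. -/
def LocG (H G : Subgroup (X ≃ₜ X)) (x : X) (V : Set X) : Subgroup (X ≃ₜ X) where
  carrier := {e | Loc H G x V e}
  one_mem' := ⟨G.one_mem, rfl, fun _ => Iff.rfl, fun z _ _ => At.of_mem H.one_mem z⟩
  mul_mem' := by
    rintro f g hf hg
    refine ⟨G.mul_mem hf.mem hg.mem, ?_, fun z => ?_, fun z hz hzx => ?_⟩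
    · change f (g x) = x
      rw [hg.fix, hf.fix]
    · change f (g z) ∈ V ↔ z ∈ V
      rw [hf.map, hg.map]
    · have h1 : At H f (g z) := hf.at' _ ((hg.map z).2 hz) fun h =>
        hzx (g.injective (h.trans hg.fix.symm))
      exact h1.comp (hg.at' z hz hzx)
  inv_mem' := by
    rintro f hf
    have h0 : ∀ z, f ((f⁻¹ : X ≃ₜ X) z) = z := fun z => f.apply_symm_apply z
    have h1 : ∀ z, (f⁻¹ : X ≃ₜ X) z ∈ V ↔ z ∈ V := fun z => by rw [← hf.map, h0]
    have h2 : (f⁻¹ : X ≃ₜ X) x = x := f.injective ((h0 x).trans hf.fix.symm)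
    refine ⟨G.inv_mem hf.mem, h2, h1, fun z hz hzx => ?_⟩
    have h3 : At H ((f.toEquiv⁻¹ : Equiv.Perm X)) (f ((f⁻¹ : X ≃ₜ X) z)) :=
      At.inv (f := f.toEquiv) (hf.at' _ ((h1 z).2 hz) fun h => hzx (by
        rw [← h0 z, h, hf.fix]))
    rw [h0] at h3
    exact h3

/-- An element of the group of the restrictions is a restriction. -/
theorem exists_of_mem_Rg {E : Set (X ≃ₜ X)} (hE : ∀ e ∈ E, Loc H G x V e) {γ : Equiv.Perm X}
    (hγ : γ ∈ Subgroup.closure (Rst V E)) :
    ∃ e ∈ LocG H G x V, (∀ z ∈ V, γ z = e z) ∧ ∀ z, z ∉ V → γ z = z := by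
  induction hγ using Subgroup.closure_induction with
  | mem γ hγ =>
    obtain ⟨e, he, h1, h2⟩ := hγ
    exact ⟨e, hE e he, h1, h2⟩
  | one => exact ⟨1, one_mem _, fun _ _ => rfl, fun _ _ => rfl⟩
  | mul γ δ _ _ h h' =>
    obtain ⟨e, he, h1, h2⟩ := h
    obtain ⟨e', he', h3, h4⟩ := h'
    refine ⟨e * e', mul_mem he he', fun z hz => ?_, fun z hz => ?_⟩
    · rw [Equiv.Perm.mul_apply, h3 z hz]
      exact h1 _ ((Loc.map he' z).2 hz)
    · rw [Equiv.Perm.mul_apply, h4 z hz, h2 z hz]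
  | inv γ _ h =>
    obtain ⟨e, he, h1, h2⟩ := h
    refine ⟨e⁻¹, inv_mem he, fun z hz => ?_, fun z hz => ?_⟩
    · rw [Equiv.Perm.inv_eq_iff_eq, h1 _ ?_]
      · exact (e.apply_symm_apply z).symm
      · exact (Loc.map (inv_mem he : e⁻¹ ∈ LocG H G x V) z).2 hz
    · rw [Equiv.Perm.inv_eq_iff_eq, h2 z hz]

section

variable {E : Set (X ≃ₜ X)} (hE : ∀ e ∈ E, Loc H G x V e) (hV : IsClopen V) (hx : x ∈ V)

/-- The element of the stabiliser with a given restriction. -/
noncomputable def gext (γ : Subgroup.closure (Rst V E)) : Stab G x :=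
  ⟨(exists_of_mem_Rg hE γ.2).choose,
    (exists_of_mem_Rg hE γ.2).choose_spec.1.mem, (exists_of_mem_Rg hE γ.2).choose_spec.1.fix⟩

theorem gext_mem (γ : Subgroup.closure (Rst V E)) :
    Loc H G x V (gext hE γ : X ≃ₜ X) :=
  (exists_of_mem_Rg hE γ.2).choose_spec.1

theorem gext_eq (γ : Subgroup.closure (Rst V E)) {z : X} (hz : z ∈ V) :
    (γ : Equiv.Perm X) z = (gext hE γ : X ≃ₜ X) z :=
  (exists_of_mem_Rg hE γ.2).choose_spec.2.1 z hz

include hE hV hx

/-- The germ of an element of the group of the restrictions. -/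
noncomputable def germHom : Subgroup.closure (Rst V E) →* Germ G x :=
  MonoidHom.mk' (fun γ => (gext hE γ : Germ G x)) fun γ δ => by
    rw [← QuotientGroup.mk_mul]
    refine germ_eq ?_
    filter_upwards [hV.isOpen.mem_nhds hx] with y hy
    change _ = (gext hE γ : X ≃ₜ X) ((gext hE δ : X ≃ₜ X) y)
    have h1 : (gext hE δ : X ≃ₜ X) y ∈ V := ((gext_mem hE δ).map y).2 hy
    rw [← gext_eq hE _ hy, ← gext_eq hE γ h1, ← gext_eq hE δ hy]
    rfl

/-- Elements with trivial germ are piecewise in `H`. -/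
theorem mem_Full_of_germ (γ : Subgroup.closure (Rst V E)) (h : germHom hE hV hx γ = 1) :
    (γ : Equiv.Perm X) ∈ Full H := by
  have h1 : ∀ᶠ y in 𝓝 x, (gext hE γ : X ≃ₜ X) y = y := germ_one h
  intro z
  by_cases hz : z ∈ V
  · by_cases hzx : z = x
    · subst hzx
      refine (At.of_mem H.one_mem _).congr ?_
      filter_upwards [hV.isOpen.mem_nhds hz, h1] with y hy h2
      rw [gext_eq hE γ hy, h2]
      rfl
    · refine ((gext_mem hE γ).at' z hz hzx).congr ?_
      filter_upwards [hV.isOpen.mem_nhds hz] with y hy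
      exact gext_eq hE γ hy
  · refine (At.of_mem H.one_mem z).congr ?_
    filter_upwards [hV.compl.isOpen.mem_nhds hz] with y hy
    exact (exists_of_mem_Rg hE γ.2).choose_spec.2.2 y hy

variable {C : ∀ (G : Type) [Group G], Prop}

/-- **The group of the restrictions is in the class.** -/
theorem Rg_mem (hC : ExtClass C) (hH : LocFin (Full H)) (hg : C (Germ G x)) :
    C (Subgroup.closure (Rst V E)) := by
  classical
  refine mem_of_locallyFinite hC (germHom hE hV hx) hg fun T hT => ?_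
  have h1 := hH (T.image fun γ : Subgroup.closure (Rst V E) => (γ : Equiv.Perm X)) fun a ha => by
    obtain ⟨γ, hγ, rfl⟩ := Finset.mem_image.1 ha
    exact mem_Full_of_germ hE hV hx γ (hT γ hγ)
  have h2 : Subgroup.closure (T : Set (Subgroup.closure (Rst V E))) ≤ (Subgroup.closure
      ((T.image fun γ : Subgroup.closure (Rst V E) => (γ : Equiv.Perm X) :
        Finset (Equiv.Perm X)) : Set (Equiv.Perm X))).comap
          (Subgroup.closure (Rst V E)).subtype := by
    rw [Subgroup.closure_le]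
    intro γ hγ
    exact Subgroup.subset_closure (Finset.mem_coe.2 (Finset.mem_image_of_mem _ hγ))
  refine Finite.of_injective (fun y : Subgroup.closure (T : Set (Subgroup.closure (Rst V E))) =>
    (⟨(y.1 : Equiv.Perm X), h2 y.2⟩ : Subgroup.closure
      ((T.image fun γ : Subgroup.closure (Rst V E) => (γ : Equiv.Perm X) :
        Finset (Equiv.Perm X)) : Set (Equiv.Perm X)))) ?_
  intro y z hyz
  have h3 : ((y.1 : Subgroup.closure (Rst V E)) : Equiv.Perm X) =
    ((z.1 : Subgroup.closure (Rst V E)) : Equiv.Perm X) := Subtype.mk.inj hyz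
  exact Subtype.ext (Subtype.ext h3)

end

end germ

section mem

variable {C : ∀ (G : Type) [Group G], Prop}

/-- Free groups are in the class. -/
theorem mem_freeGroup (hC : ExtClass C) (A : Type) : C (FreeGroup A) := by
  let _ : MulAction Unit A :=
    { smul := fun _ a => a, one_smul := fun _ => rfl, mul_smul := fun _ _ _ => rfl }
  exact mem_of_inj hC.toClosedClass (SemidirectProduct.inl : FreeGroup A →* FQ Unit A)
    SemidirectProduct.inl_injective (hC.freeExt Unit A (hC.finite _ inferInstance))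

/-- A locally finite subgroup is in the class. -/
theorem mem_of_LocFin (hC : ExtClass C) {A : Type} [Group A] {H : Subgroup A} (hH : LocFin H) :
    C H := by
  classical
  refine mem_locFin hC H fun s => ?_
  have h1 := hH (s.image Subtype.val) fun a ha => by
    obtain ⟨b, -, rfl⟩ := Finset.mem_image.1 ha
    exact b.2
  have h2 : Subgroup.closure (s : Set H) ≤ (Subgroup.closure
      ((s.image Subtype.val : Finset A) : Set A)).comap H.subtype := by
    rw [Subgroup.closure_le]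
    intro γ hγ
    exact Subgroup.subset_closure (Finset.mem_coe.2 (Finset.mem_image_of_mem _ hγ))
  refine Finite.of_injective (fun x : Subgroup.closure (s : Set H) =>
    (⟨(x.1 : A), h2 x.2⟩ : Subgroup.closure
      ((s.image Subtype.val : Finset A) : Set A))) ?_
  intro x y hxy
  have h3 : ((x.1 : H) : A) = ((y.1 : H) : A) := Subtype.mk.inj hxy
  exact Subtype.ext (Subtype.ext h3)

end mem

end Pool.Agent.FS
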