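import Pool.Agent.FS.Cover
import Pool.Agent.FS.GoodAB
import Pool.Agent.FS.CoreMain
import Pool.Agent.FS.FGMem
import Pool.Agent.FS.RgMem

/-!
# Groups with finitely many singular germs: the main theorem
-/

set_option autoImplicit false

open Filter Topology

namespace Pool.Agent.FS

open Monoid Pool.Agent.Helper29.BA Pool.Agent.Helper29.PA

variable {C : ∀ (G : Type) [Group G], Prop} {X : Type}

/-- The groups of the levels. -/
theorem Data.F_mem (hC : ExtClass C) {H : Subgroup (Equiv.Perm X)} (S : Data X H) (hH : C H)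
    (hΓ : ∀ i c, C (S.Γ i c)) (i : S.I) : C (S.F i) :=
  FG.memQ hC hH (fun c => hC.freeProd _ _ (hΓ i c) (mem_freeGroup hC (S.A c)))
    (fun _ _ _ hp _ hk _ hp' => Data.D_mul hp hk hp') (fun _ => Data.one_notMem_D)

theorem Data.Lim_mem (hC : ExtClass C) {H : Subgroup (Equiv.Perm X)} (S : Data X H) (hH : C H)
    (hΓ : ∀ i c, C (S.Γ i c)) : C S.Lim :=
  Data.mem_of_good hC.toClosedClass (S.F_mem hC hH hΓ) fun _ w => Data.exists_good w

variable [TopologicalSpace X] [T2Space X] {H G : Subgroup (X ≃ₜ X)}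

/-- The main theorem. -/
theorem mainP (hC : ExtClass C) (hG : Hyp C H G) (hH : C (Full H)) : C G := by
  classical
  refine hC.toClosedClass.ofClosure fun T => ?_
  let T' : Finset (X ≃ₜ X) := T.image Subtype.val
  have hT : ∀ s ∈ T', s ∈ G := fun s hs => by
    obtain ⟨a, -, rfl⟩ := Finset.mem_image.1 hs
    exact a.2
  have hfin : {y | ∃ s ∈ T', ¬ At H s y}.Finite := by
    have h1 : {y | ∃ s ∈ T', ¬ At H s y} = ⋃ s ∈ T', {y | ¬ At H s y} := by
      ext z
      simp
    rw [h1]
    exact Set.Finite.biUnion T'.finite_toSet fun g hg => hG.sing g (hT g hg)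
  let Y : Finset X := hfin.toFinset ∪ T'.biUnion fun s => hfin.toFinset.image s
  have hY : ∀ s ∈ T', ∀ y, ¬ At H s y → y ∈ Y ∧ s y ∈ Y := by
    intro s hs y hy
    have h1 : y ∈ hfin.toFinset := hfin.mem_toFinset.2 ⟨s, hs, hy⟩
    exact ⟨Finset.mem_union_left _ h1, Finset.mem_union_right _
      (Finset.mem_biUnion.2 ⟨s, hs, Finset.mem_image_of_mem _ h1⟩)⟩
  let S := cfg hG.le T' hT Y
  have hLim : C (S.data hC.toClosedClass hG).Lim :=
    Data.Lim_mem hC (S.data hC.toClosedClass hG) hH fun i c => i.memC c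
  have h1 : Subgroup.closure (T : Set G) ≤
      ((S.data hC.toClosedClass hG).Lim).comap (toP.comp G.subtype) := by
    rw [Subgroup.closure_le]
    intro s hs
    obtain ⟨i, w, hw⟩ := cover hC.toClosedClass hG T' hT Y hY s.1
      (Finset.mem_image_of_mem _ hs)
    exact ⟨i, w, hw⟩
  refine hC.toClosedClass.inj
    (((toP.comp G.subtype).comp (Subgroup.closure (T : Set G)).subtype).codRestrict
      (S.data hC.toClosedClass hG).Lim fun x => h1 x.2) ?_ hLim
  intro a b hab
  have h2 : toP (a.1.1) = toP (b.1.1) := congrArg Subtype.val hab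
  exact Subtype.ext (Subtype.ext (Homeomorph.toEquiv_injective h2))

end Pool.Agent.FS
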