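import Pool.Agent.TFG.Top
import Pool.Agent.TFG.Inj
import Pool.Agent.TFG.LF
import Pool.Agent.FS.Levels

/-!
# Topological full groups of essentially minimal homeomorphisms have finitely many singular germs

`φ` has no periodic points and all its orbits accumulate at `x₀` (or contain `x₀`). `HH φ x₀` is
the group of the elements of the topological full group of `φ` which preserve the forward half
orbit of `x₀`.
-/

set_option autoImplicit false

open Filter Topology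

namespace Pool.Agent.FS

open Pool.Agent.TFG (topFull act sys pow_add_apply free_of_minimal)

variable {X : Type} [TopologicalSpace X]

/-! ### local description of the topological full group -/

theorem zpow_apply_inj {φ : X ≃ₜ X} (hf : ∀ (k : ℤ) (x : X), (φ ^ k) x = x → k = 0) {m n : ℤ}
    {x : X} (h : (φ ^ m) x = (φ ^ n) x) : m = n := by
  have h1 : (φ ^ (m - n)) x = x := by
    rw [sub_eq_neg_add, pow_add_apply, h, ← pow_add_apply, neg_add_cancel, zpow_zero]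
    rfl
  have := hf _ _ h1
  omega

theorem zpow_neg_apply (φ : X ≃ₜ X) (n : ℤ) (x : X) : (φ ^ (-n)) ((φ ^ n) x) = x := by
  rw [← pow_add_apply, neg_add_cancel, zpow_zero]
  rfl

theorem zpow_apply_neg (φ : X ≃ₜ X) (n : ℤ) (x : X) : (φ ^ n) ((φ ^ (-n)) x) = x := by
  rw [← pow_add_apply, add_neg_cancel, zpow_zero]
  rfl

/-- Near each point an element of the topological full group is a power of `φ`. -/
theorem local_of_mem {φ : X ≃ₜ X} {g : X ≃ₜ X} (hg : g ∈ topFull φ) (x : X) :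
    ∃ n : ℤ, ∀ᶠ y in 𝓝 x, g y = (φ ^ n) y := by
  obtain ⟨c, hc, h⟩ := hg
  refine ⟨c x, ?_⟩
  have h1 : ∀ᶠ y in 𝓝 x, c y = c x := hc.continuousAt.eventually
    (discreteTopology_iff_singleton_mem_nhds.1 inferInstance (c x))
  filter_upwards [h1] with y hy
  rw [h, hy]

theorem mem_of_local {φ : X ≃ₜ X} (hf : ∀ (k : ℤ) (x : X), (φ ^ k) x = x → k = 0) {g : X ≃ₜ X}
    (h : ∀ x, ∃ n : ℤ, ∀ᶠ y in 𝓝 x, g y = (φ ^ n) y) : g ∈ topFull φ := by
  choose c hc using h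
  refine ⟨c, continuous_iff_continuousAt.2 fun x => ?_, fun x => (hc x).self_of_nhds⟩
  have h1 : ∀ᶠ y in 𝓝 x, c y = c x := by
    filter_upwards [hc x] with y hy
    exact zpow_apply_inj hf ((hc y).self_of_nhds.symm.trans hy)
  exact (continuousAt_const (y := c x)).congr (h1.mono fun y hy => hy.symm)

/-! ### the half orbit -/

/-- The forward half orbit. -/
def Half (φ : X ≃ₜ X) (x₀ : X) : Set X := {z | ∃ k : ℤ, 0 ≤ k ∧ z = (φ ^ k) x₀}

/-- The elements of the topological full group which preserve the half orbit. -/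
def HH (φ : X ≃ₜ X) (x₀ : X) : Subgroup (X ≃ₜ X) where
  carrier := {g | g ∈ topFull φ ∧ ∀ z, g z ∈ Half φ x₀ ↔ z ∈ Half φ x₀}
  mul_mem' := fun {a b} ha hb => ⟨(topFull φ).mul_mem ha.1 hb.1, fun z => by
    change a (b z) ∈ _ ↔ _
    rw [ha.2, hb.2]⟩
  one_mem' := ⟨(topFull φ).one_mem, fun z => Iff.rfl⟩
  inv_mem' := fun {a} ha => ⟨(topFull φ).inv_mem ha.1, fun z => by
    rw [← ha.2]
    change a (a.symm z) ∈ _ ↔ _
    rw [Homeomorph.apply_symm_apply]⟩

theorem HH_le (φ : X ≃ₜ X) (x₀ : X) : HH φ x₀ ≤ topFull φ := fun _ h => h.1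

/-- The translation by `c` does not cross the junction at `x`. -/
def NC (φ : X ≃ₜ X) (x₀ : X) (c : ℤ) (x : X) : Prop := ∀ k : ℤ, x = (φ ^ k) x₀ → (0 ≤ k ↔ 0 ≤ k + c)

theorem mem_half_iff {φ : X ≃ₜ X} (hf : ∀ (k : ℤ) (x : X), (φ ^ k) x = x → k = 0) (x₀ : X)
    (k : ℤ) : (φ ^ k) x₀ ∈ Half φ x₀ ↔ 0 ≤ k :=
  ⟨fun ⟨n, h1, h2⟩ => by rw [zpow_apply_inj hf h2]; exact h1, fun h => ⟨k, h, rfl⟩⟩

theorem half_iff_of_NC {φ : X ≃ₜ X} (hf : ∀ (k : ℤ) (x : X), (φ ^ k) x = x → k = 0) {x₀ : X}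
    {c : ℤ} {x : X} (h : NC φ x₀ c x) : (φ ^ c) x ∈ Half φ x₀ ↔ x ∈ Half φ x₀ := by
  constructor
  · rintro ⟨n, h1, h2⟩
    have h3 : x = (φ ^ (n - c)) x₀ := by
      rw [sub_eq_neg_add, pow_add_apply, ← h2, zpow_neg_apply]
    rw [h3, mem_half_iff hf]
    exact (h _ h3).2 (by omega)
  · rintro ⟨n, h1, h2⟩
    have h3 : (φ ^ c) x = (φ ^ (n + c)) x₀ := by
      rw [add_comm, pow_add_apply, ← h2]
    rw [h3, mem_half_iff hf]
    exact (h _ h2).1 h1

section free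

variable {φ : X ≃ₜ X} (hf : ∀ (k : ℤ) (x : X), (φ ^ k) x = x → k = 0)

include hf

theorem fix_of_mem {h : X ≃ₜ X} (hh : h ∈ topFull φ) {x : X} (hx : h x = x) :
    ∀ᶠ y in 𝓝 x, h y = y := by
  obtain ⟨n, h1⟩ := local_of_mem hh x
  have h2 : n = 0 := hf n x (h1.self_of_nhds.symm.trans hx)
  filter_upwards [h1] with y hy
  rw [hy, h2, zpow_zero]
  rfl

variable [CompactSpace X] [T2Space X] [TotallyDisconnectedSpace X]

omit hf in
theorem exists_clopen {x : X} {W : Set X} (hW : W ∈ 𝓝 x) : ∃ V : Set X, IsClopen V ∧ x ∈ V ∧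
    V ⊆ W := by
  obtain ⟨V, hV, h1, h2⟩ := compact_exists_isClopen_in_isOpen
    (isOpen_interior (s := W)) (mem_interior_iff_mem_nhds.2 hW)
  exact ⟨V, hV, h1, h2.trans interior_subset⟩

/-- Non crossing translations agree near the point with elements of `HH`. -/
theorem at_of_NC {x₀ : X} {c : ℤ} {x : X} (h : NC φ x₀ c x) :
    ∃ g ∈ HH φ x₀, ∀ᶠ y in 𝓝 x, (φ ^ c) y = g y := by
  classical
  by_cases hc : c = 0
  · subst hc
    exact ⟨1, (HH φ x₀).one_mem, Eventually.of_forall fun y => by rw [zpow_zero]⟩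
  let P : Set X := ((fun k : ℤ => (φ ^ k) x₀) '' Set.Icc (-|c|) |c|) \ {x}
  have hP : P.Finite := ((Set.finite_Icc _ _).image _).subset Set.sdiff_subset
  have hPx : x ∉ P := fun h => h.2 rfl
  have hne : (φ ^ c) x ≠ x := fun h => hc (hf c x h)
  obtain ⟨A, B, hA, hB, h1, h2, h3⟩ := t2_separation hne
  obtain ⟨V, hV, hxV, hVW⟩ := exists_clopen (x := x)
    (W := (B ∩ (φ ^ c : X ≃ₜ X) ⁻¹' A) ∩ Pᶜ)
    (Filter.inter_mem (Filter.inter_mem (hB.mem_nhds h2)
      ((hA.preimage (φ ^ c).continuous).mem_nhds h1)) (hP.isClosed.isOpen_compl.mem_nhds hPx))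
  have hd : Disjoint ((φ ^ c).toEquiv '' V) V := by
    rw [Set.disjoint_left]
    rintro _ ⟨y, hy, rfl⟩ h4
    exact Set.disjoint_left.1 h3 (hVW hy).1.2 (hVW h4).1.1
  obtain ⟨s, hs, s1, s2, s3⟩ := exists_swap (H := Subgroup.zpowers φ) hV
    (mem_Full_of_mem (Subgroup.zpow_mem_zpowers φ c)) hd
  have hNC : ∀ z ∈ V, NC φ x₀ c z := by
    intro z hz k hk
    by_cases h4 : z = x
    · exact h k (h4 ▸ hk)
    · have h5 : ¬ (-|c| ≤ k ∧ k ≤ |c|) := fun h5 => (hVW hz).2 ⟨⟨k, h5, hk.symm⟩, h4⟩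
      rcases abs_cases c with ⟨h6, h7⟩ | ⟨h6, h7⟩ <;> constructor <;> intro h8 <;> omega
  have hhalf : ∀ z ∈ V, (s z ∈ Half φ x₀ ↔ z ∈ Half φ x₀) := fun z hz => by
    rw [s1 z hz]
    exact half_iff_of_NC hf (hNC z hz)
  refine ⟨homeoOf s hs, ⟨mem_of_local hf fun z => ?_, fun z => ?_⟩, ?_⟩
  · obtain ⟨g, ⟨n, rfl⟩, h4⟩ := hs z
    exact ⟨n, h4⟩
  · change s z ∈ _ ↔ _
    by_cases h4 : z ∈ V
    · exact hhalf z h4
    · by_cases h5 : z ∈ (φ ^ c).toEquiv '' V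
      · obtain ⟨w, hw, rfl⟩ := h5
        have h6 : s ((φ ^ c).toEquiv w) = w := by
          have := s2 w
          rwa [s1 w hw] at this
        rw [h6]
        exact (half_iff_of_NC hf (hNC w hw)).symm
      · rw [s3 z h4 h5]
  · filter_upwards [hV.isOpen.mem_nhds hxV] with y hy
    exact (s1 y hy).symm

/-- Piecewise non crossing permutations. -/
theorem mem_Full_HH {x₀ : X} {f : Equiv.Perm X}
    (h : ∀ x, ∃ c : ℤ, NC φ x₀ c x ∧ ∀ᶠ y in 𝓝 x, f y = (φ ^ c) y) : f ∈ Full (HH φ x₀) := by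
  intro x
  obtain ⟨c, h1, h2⟩ := h x
  obtain ⟨g, hg, h3⟩ := at_of_NC hf h1
  refine ⟨g, hg, ?_⟩
  filter_upwards [h2, h3] with y h4 h5
  rw [h4, h5]

end free

/-! ### the half orbit group is locally finite -/

section

open Pool.Agent.TFG

/-- The orbit map commutes with crossing: elements which preserve the half orbit preserve the
words over small sets. -/
theorem ev_word {Y : Type} [AddAction ℤ Y] {S : Sys Y} {g : Equiv.Perm Y} (hg : g ∈ L S)
    (hs : ∀ k m : ℤ, g (k +ᵥ S.x₀) = m +ᵥ S.x₀ → (0 ≤ k ↔ 0 ≤ m)) :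
    ∀ᶠ U : Base S in atTop, ∀ z, st U (g z) = st U z := by
  obtain ⟨M, hM⟩ := hg.1
  choose m hm0 hm using hg.2
  have hev : ∀ᶠ x in S.F, ∀ p ∈ Finset.Icc (-(M : ℤ)) M, g (p +ᵥ x) = m p +ᵥ x :=
    (eventually_all_finset _).2 fun p _ => hm p
  filter_upwards [ev_of hev] with U hU z
  obtain ⟨k, h4, h5⟩ := hM z
  rw [abs_le] at h4
  rcases le_or_gt 0 k with h6 | h6
  · obtain ⟨i, rfl⟩ := Int.eq_ofNat_of_zero_le h6
    rw [h5]
    refine st_vadd_eq fun j h7 h8 h9 => ?_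
    have h10 := hU _ h9 (-(j : ℤ)) (Finset.mem_Icc.2 (by constructor <;> omega))
    rw [neg_vadd_vadd, h5, ← add_vadd] at h10
    have h11 := vadd_inj' S h10
    have h12 := hs _ _ (hm0 (-(j : ℤ)))
    omega
  · obtain ⟨i, hi⟩ := Int.eq_ofNat_of_zero_le (show 0 ≤ -k by omega)
    have h7 : z = (i : ℤ) +ᵥ g z := by
      rw [h5, ← add_vadd]
      convert (zero_vadd ℤ z).symm using 2
      omega
    conv_rhs => rw [h7]
    refine (st_vadd_eq fun j h8 h9 h10 => ?_).symm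
    have h11 := hU _ h10 ((i : ℤ) - j) (Finset.mem_Icc.2 (by constructor <;> omega))
    rw [← add_vadd, sub_add_cancel, ← h7, ← add_vadd] at h11
    have h13 : (0 : ℤ) +ᵥ g z = (m ((i : ℤ) - j) + j) +ᵥ g z := (zero_vadd ℤ _).trans h11
    have h14 := vadd_inj' S h13
    have h15 := hs _ _ (hm0 ((i : ℤ) - j))
    omega

/-- Finitely many elements which preserve the half orbit generate a finite group. -/
theorem finite_of_word {Y : Type} [AddAction ℤ Y] (S : Sys Y) {A : Type} [Group A]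
    (ι : A →* Equiv.Perm Y) (hι : Function.Injective ι) (T : Finset A)
    (hT : ∀ g ∈ T, ι g ∈ L S)
    (hs : ∀ g ∈ T, ∀ k m : ℤ, ι g (k +ᵥ S.x₀) = m +ᵥ S.x₀ → (0 ≤ k ↔ 0 ≤ m)) :
    Finite (Subgroup.closure (T : Set A)) := by
  classical
  have hev : ∀ᶠ U : Base S in atTop, ∀ g ∈ T, ∀ z, st U (ι g z) = st U z := by
    rw [eventually_all_finset]
    intro g hg
    exact ev_word (hT g hg) (hs g hg)
  have : IsDirectedOrder (Base S) := ⟨fun U U' =>
    ⟨⟨U.1 ∩ U'.1, inter_mem U.2.1 U'.2.1, U.2.2.inter U'.2.2⟩, Set.inter_subset_left,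
      Set.inter_subset_right⟩⟩
  have : Nonempty (Base S) := ⟨⟨Set.univ, univ_mem, fun k => Eventually.of_forall fun x => by
    simp⟩⟩
  obtain ⟨U, hU⟩ := hev.exists
  obtain ⟨N, hN⟩ := tw_fin U
  let s : Finset ((tw U).P (L S)) := T.attach.image fun g =>
    ⟨ι g.1, hT g.1 g.2, fun z => Subtype.ext (hU g.1 g.2 z)⟩
  have h1 := (tw U).P_locally_finite (L S) N hN s
  have h2 : Subgroup.closure (T : Set A) ≤ ((Subgroup.closure
      (s : Set ((tw U).P (L S)))).map ((tw U).P (L S)).subtype).comap ι := by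
    rw [Subgroup.closure_le]
    intro g hg
    exact ⟨⟨ι g, hT g hg, fun z => Subtype.ext (hU g hg z)⟩,
      Subgroup.subset_closure (Finset.mem_coe.2 (Finset.mem_image.2
        ⟨⟨g, hg⟩, Finset.mem_attach _ _, rfl⟩)), rfl⟩
  have h3 : Finite ((Subgroup.closure (s : Set ((tw U).P (L S)))).map
      ((tw U).P (L S)).subtype) :=
    Set.Finite.image (s := (Subgroup.closure (s : Set ((tw U).P (L S))) :
      Set ((tw U).P (L S)))) _ (Set.toFinite _)
  refine Finite.of_injective (β := (Subgroup.closure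
    (s : Set ((tw U).P (L S)))).map ((tw U).P (L S)).subtype)
    (fun x => ⟨ι x.1, h2 x.2⟩) fun x y hxy => ?_
  exact Subtype.ext (hι (congrArg Subtype.val hxy))

/-- The return time to a clopen set is locally constant. -/
theorem ev_nt {Y : Type} [TopologicalSpace Y] [AddAction ℤ Y] {S : Sys Y}
    (hc : ∀ k : ℤ, Continuous fun y : Y => k +ᵥ y) (U : Base S) (hU : IsClopen U.1) (x : Y) :
    ∀ᶠ y in 𝓝 x, nt U y = nt U x := by
  have h1 : ∀ᶠ y in 𝓝 x, ∀ i ∈ Finset.range (nt U x + 2),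
      ((i : ℤ) +ᵥ y ∈ U.1 ↔ (i : ℤ) +ᵥ x ∈ U.1) := by
    rw [eventually_all_finset]
    intro i _
    have h2 : IsClopen ((fun y : Y => (i : ℤ) +ᵥ y) ⁻¹' U.1) := hU.preimage (hc i)
    by_cases h : (i : ℤ) +ᵥ x ∈ U.1
    · filter_upwards [h2.isOpen.mem_nhds h] with y hy
      exact ⟨fun _ => h, fun _ => hy⟩
    · filter_upwards [h2.compl.isOpen.mem_nhds h] with y hy
      exact ⟨fun h' => (hy h').elim, fun h' => (h h').elim⟩
  filter_upwards [h1] with y hy
  refine le_antisymm (nt_le ((hy _ (Finset.mem_range.2 (by omega))).2 (nx_mem U x))) ?_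
  by_contra h
  push Not at h
  have h2 := (hy (nt U y + 1) (Finset.mem_range.2 (by omega))).1 (nx_mem U y)
  exact notMem_of_le_nt (by omega) (by omega) h2

/-! ### the system of an essentially minimal homeomorphism -/

section sysm

variable {X : Type} [TopologicalSpace X] [T2Space X] [CompactSpace X]
  [TotallyDisconnectedSpace X] (φ : X ≃ₜ X)
  (hf : ∀ (k : ℤ) (x : X), (φ ^ k) x = x → k = 0) (x₀ : X)
  (hx : ∀ x, x₀ ∈ closure {y | ∃ n : ℤ, (φ ^ n) x = y})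

omit [T2Space X] [TotallyDisconnectedSpace X] in
include hx in
/-- Every point visits a neighbourhood of `x₀` within bounded time. -/
theorem visit_of (V : Set X) (hV : IsOpen V) (hxV : x₀ ∈ V) :
    ∃ M : ℕ, ∀ z : X, ∃ j : ℕ, j < M ∧ (φ ^ (j : ℤ)) z ∈ V := by
  have h1 : ∀ n : ℤ, IsOpen ((φ ^ n : X ≃ₜ X) ⁻¹' V) := fun n => hV.preimage (φ ^ n).continuous
  have h2 : (Set.univ : Set X) ⊆ ⋃ n : ℤ, (φ ^ n : X ≃ₜ X) ⁻¹' V := by
    intro z _
    obtain ⟨y, hy, n, hn⟩ := mem_closure_iff.1 (hx z) V hV hxV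
    refine Set.mem_iUnion.2 ⟨n, ?_⟩
    rw [Set.mem_preimage, hn]
    exact hy
  obtain ⟨t, ht⟩ := isCompact_univ.elim_finite_subcover _ h1 h2
  obtain ⟨N, hN⟩ : ∃ N : ℕ, ∀ n ∈ t, n.natAbs ≤ N :=
    ⟨t.sup fun n => n.natAbs, fun n hn => Finset.le_sup (f := fun n : ℤ => n.natAbs) hn⟩
  refine ⟨2 * N + 1, fun z => ?_⟩
  obtain ⟨n, hn, h3⟩ : ∃ n ∈ t, (φ ^ n) ((φ ^ (N : ℤ)) z) ∈ V := by
    have := ht (Set.mem_univ ((φ ^ (N : ℤ)) z))
    simp only [Set.mem_iUnion] at this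
    obtain ⟨n, hn, h⟩ := this
    exact ⟨n, hn, h⟩
  rw [← pow_add_apply] at h3
  have h4 := hN n hn
  refine ⟨(n + N).toNat, by omega, ?_⟩
  rwa [Int.toNat_of_nonneg (by omega)]

/-- The system of an essentially minimal homeomorphism without periodic points. -/
@[reducible] def sysm : @Sys X (act φ) :=
  letI := act φ
  { x₀ := x₀
    F := nhds x₀
    free := hf
    mem := fun U hU => mem_of_mem_nhds hU
    syn := by
      intro U hU
      obtain ⟨M, hM⟩ := visit_of φ x₀ hx (interior U) isOpen_interior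
        (mem_interior_iff_mem_nhds.2 hU)
      refine ⟨M, fun z => ?_⟩
      obtain ⟨j, h1, h2⟩ := hM z
      exact ⟨j, h1, interior_subset h2⟩
    cof := by
      intro U hU
      obtain ⟨V, hV, h1, h2⟩ := compact_exists_isClopen_in_isOpen
        (isOpen_interior (s := U)) (mem_interior_iff_mem_nhds.2 hU)
      refine ⟨V, hV.isOpen.mem_nhds h1, h2.trans interior_subset, fun k => ?_⟩
      have h3 : IsClopen ((φ ^ k : X ≃ₜ X) ⁻¹' V) := hV.preimage (φ ^ k).continuous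
      by_cases h : (φ ^ k) x₀ ∈ V
      · filter_upwards [h3.isOpen.mem_nhds h] with x hx
        exact ⟨fun _ => h, fun _ => hx⟩
      · filter_upwards [h3.compl.isOpen.mem_nhds h] with x hx
        exact ⟨fun h' => (hx h').elim, fun h' => (h h').elim⟩
    sep := by
      intro k hk
      have h : (φ ^ k) x₀ ≠ x₀ := fun h => hk (hf k x₀ h)
      obtain ⟨A, B, hA, hB, h1, h2, h3⟩ := t2_separation h
      refine ⟨B ∩ (φ ^ k : X ≃ₜ X) ⁻¹' A, Filter.inter_mem (hB.mem_nhds h2)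
        ((hA.preimage (φ ^ k).continuous).mem_nhds h1), fun u hu hu' => ?_⟩
      exact Set.disjoint_left.1 h3 hu.2 hu'.1 }

end sysm

end

section free2

variable {φ : X ≃ₜ X} [CompactSpace X] [T2Space X] [TotallyDisconnectedSpace X]
  (hf : ∀ (k : ℤ) (x : X), (φ ^ k) x = x → k = 0) {x₀ : X}
  (hx : ∀ x, x₀ ∈ closure {y | ∃ n : ℤ, (φ ^ n) x = y})

include hf hx

/-- The permutation group of the topological full group. -/
theorem toEquiv_mem_L {g : X ≃ₜ X} (hg : g ∈ topFull φ) :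
    letI := act φ
    (g.toEquiv : Equiv.Perm X) ∈ TFG.L (sysm φ hf x₀ hx) := by
  let _ := act φ
  obtain ⟨c, hc, h⟩ := hg
  refine ⟨?_, fun k => ?_⟩
  · obtain ⟨M, hM⟩ : ∃ M : ℕ, ∀ z, |c z| ≤ M := by
      have h1 : (Set.range c).Finite := (isCompact_range hc).finite_of_discrete
      obtain ⟨M, hM⟩ := (h1.image Int.natAbs).bddAbove
      refine ⟨M, fun z => ?_⟩
      have := hM ⟨c z, ⟨z, rfl⟩, rfl⟩
      rw [Int.abs_eq_natAbs]
      exact_mod_cast this
    exact ⟨M, fun z => ⟨c z, hM z, h z⟩⟩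
  · refine ⟨c ((φ ^ k) x₀) + k, ?_, ?_⟩
    · change g ((φ ^ k) x₀) = (φ ^ (c ((φ ^ k) x₀) + k)) x₀
      rw [h, pow_add_apply]
    · have h1 : ∀ᶠ x in nhds x₀, c ((φ ^ k) x) = c ((φ ^ k) x₀) := by
        have h2 : Continuous fun x => c ((φ ^ k) x) := hc.comp (φ ^ k).continuous
        exact h2.continuousAt.eventually (discreteTopology_iff_singleton_mem_nhds.1
          inferInstance (c ((φ ^ k) x₀)))
      change ∀ᶠ x in nhds x₀, g ((φ ^ k) x) = (φ ^ (c ((φ ^ k) x₀) + k)) x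
      filter_upwards [h1] with x h2
      rw [h, h2, pow_add_apply]

/-- The half orbit group is locally finite. -/
theorem locFin_HH : LocFin (HH φ x₀) := by
  let _ := act φ
  intro T hT
  refine finite_of_word (sysm φ hf x₀ hx) (⟨⟨fun g => g.toEquiv, rfl⟩, fun _ _ => rfl⟩ :
    (X ≃ₜ X) →* Equiv.Perm X) Homeomorph.toEquiv_injective T
    (fun g hg => toEquiv_mem_L hf hx (hT g hg).1) fun g hg k m h => ?_
  have h1 := (hT g hg).2 ((φ ^ k) x₀)
  have h2 : g ((φ ^ k) x₀) = (φ ^ m) x₀ := h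
  rw [h2, mem_half_iff hf, mem_half_iff hf] at h1
  exact h1.symm

omit hx in
/-- Elements of the topological full group have finitely many singular points. -/
theorem sing_HH {g : X ≃ₜ X} (hg : g ∈ topFull φ) : {x | ¬ At (HH φ x₀) g x}.Finite := by
  obtain ⟨c, hc, h⟩ := hg
  obtain ⟨M, hM⟩ : ∃ M : ℕ, ∀ z, (c z).natAbs ≤ M := by
    have h1 : (Set.range c).Finite := (isCompact_range hc).finite_of_discrete
    obtain ⟨M, hM⟩ := (h1.image Int.natAbs).bddAbove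
    exact ⟨M, fun z => hM ⟨c z, ⟨z, rfl⟩, rfl⟩⟩
  refine ((Set.finite_Icc (-(M : ℤ)) M).image fun k : ℤ => (φ ^ k) x₀).subset fun x hx => ?_
  by_contra hx'
  refine hx ?_
  have hNC : NC φ x₀ (c x) x := by
    intro k hk
    have h1 : ¬ (-(M : ℤ) ≤ k ∧ k ≤ M) := fun h1 => hx' ⟨k, h1, hk.symm⟩
    have := hM x
    constructor <;> intro h2 <;> omega
  obtain ⟨s, hs, h1⟩ := at_of_NC hf hNC
  refine ⟨s, hs, ?_⟩
  have h2 : ∀ᶠ y in 𝓝 x, c y = c x := hc.continuousAt.eventually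
    (discreteTopology_iff_singleton_mem_nhds.1 inferInstance (c x))
  filter_upwards [h1, h2] with y h3 h4
  rw [h, h4, h3]

omit hf hx [CompactSpace X] [T2Space X] [TotallyDisconnectedSpace X] in
theorem image_zpow (m n : ℤ) (T : Set X) :
    (φ ^ m) '' ((φ ^ n) '' T) = (φ ^ (m + n)) '' T := by
  rw [← Set.image_comp]
  refine Set.image_congr fun z _ => ?_
  rw [Function.comp_apply, pow_add_apply]

/-- The return word from `T` to `φ⁻¹ T`. -/
theorem exists_return {T : Set X} (hT : IsClopen T) (hxT : x₀ ∈ T) :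
    ∃ f ∈ Full (HH φ x₀), f '' T = (φ ^ (-1 : ℤ)) '' T := by
  let _ := act φ
  have hc : ∀ k : ℤ, Continuous fun y : X => k +ᵥ y := fun k => (φ ^ k).continuous
  have hnice : TFG.Nice (sysm φ hf x₀ hx) T := by
    intro k
    have h2 : IsClopen ((φ ^ k : X ≃ₜ X) ⁻¹' T) := hT.preimage (φ ^ k).continuous
    by_cases h : (φ ^ k) x₀ ∈ T
    · change ∀ᶠ x in 𝓝 x₀, ((φ ^ k) x ∈ T ↔ (φ ^ k) x₀ ∈ T)
      filter_upwards [h2.isOpen.mem_nhds h] with y hy
      exact ⟨fun _ => h, fun _ => hy⟩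
    · change ∀ᶠ x in 𝓝 x₀, ((φ ^ k) x ∈ T ↔ (φ ^ k) x₀ ∈ T)
      filter_upwards [h2.compl.isOpen.mem_nhds h] with y hy
      exact ⟨fun h' => (hy h').elim, fun h' => (h h').elim⟩
  let U : TFG.Base (sysm φ hf x₀ hx) := ⟨T, hT.isOpen.mem_nhds hxT, hnice⟩
  have hρ : ∀ z ∈ T, (φ ^ (-1 : ℤ)) (TFG.rho U z) = (φ ^ (TFG.nt U z : ℤ)) z := by
    intro z hz
    rw [TFG.rho_apply (U := U) hz]
    change (φ ^ (-1 : ℤ)) ((φ ^ (((TFG.nt U z + 1 : ℕ) : ℤ))) z) = _
    rw [← pow_add_apply]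
    congr 2
    push_cast
    ring
  have hρ' : ∀ z, z ∉ T → TFG.rho U z = z := fun z hz => if_neg hz
  refine ⟨(φ ^ (-1 : ℤ)).toEquiv * TFG.rho U, mem_Full_HH hf fun x => ?_, ?_⟩
  · by_cases h : x ∈ T
    · refine ⟨(TFG.nt U x : ℤ), fun k hk => ?_, ?_⟩
      · constructor
        · intro h1
          omega
        · intro h1
          by_contra h2
          have h3 : TFG.nt U x ≤ (-k - 1).toNat := by
            refine TFG.nt_le (U := U) ?_
            change (φ ^ ((((-k - 1).toNat + 1 : ℕ) : ℤ))) x ∈ T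
            have h4 : ((((-k - 1).toNat + 1 : ℕ) : ℤ)) = -k := by omega
            rw [h4, hk, zpow_neg_apply]
            exact hxT
          omega
      · filter_upwards [ev_nt hc U hT x, hT.isOpen.mem_nhds h] with y h1 h2
        rw [← h1]
        exact hρ y h2
    · refine ⟨-1, fun k hk => ?_, ?_⟩
      · have h1 : k ≠ 0 := by
          rintro rfl
          rw [zpow_zero] at hk
          exact h (hk ▸ hxT)
        constructor <;> intro h2 <;> omega
      · filter_upwards [hT.compl.isOpen.mem_nhds h] with y h1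
        change (φ ^ (-1 : ℤ)) (TFG.rho U y) = _
        rw [hρ' y h1]
  · ext z
    constructor
    · rintro ⟨y, hy, rfl⟩
      exact ⟨TFG.rho U y, TFG.rho_mem (U := U) hy, rfl⟩
    · rintro ⟨y, hy, rfl⟩
      refine ⟨(TFG.rho U)⁻¹ y, TFG.rho_inv_mem (U := U) hy, ?_⟩
      change (φ ^ (-1 : ℤ)) (TFG.rho U ((TFG.rho U)⁻¹ y)) = _
      rw [TFG.perm_ai]

/-- All small translates are equivalent. -/
theorem exists_translate (n : ℤ) : ∀ᶠ V in (𝓝 x₀).smallSets, IsClopen V → x₀ ∈ V →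
    ∃ f ∈ Full (HH φ x₀), f '' V = (φ ^ n) '' V := by
  have h0 : ∀ m c : ℤ, (0 ≤ m ↔ 0 ≤ m + c) → ∀ᶠ V in (𝓝 x₀).smallSets,
      ∃ f ∈ Full (HH φ x₀), f '' ((φ ^ m) '' V) = (φ ^ (c + m)) '' V := by
    intro m c h
    have hNC : NC φ x₀ c ((φ ^ m) x₀) := by
      intro k hk
      rw [← zpow_apply_inj hf hk]
      exact h
    obtain ⟨g, hg, h1⟩ := at_of_NC hf hNC
    have h2 : ∀ᶠ y in 𝓝 x₀, (φ ^ c) ((φ ^ m) y) = g ((φ ^ m) y) :=
      (φ ^ m).continuous.continuousAt.eventually h1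
    refine eventually_smallSets.2 ⟨_, h2, fun V hV => ⟨g.toEquiv, mem_Full_of_mem hg, ?_⟩⟩
    rw [← image_zpow]
    ext z
    constructor
    · rintro ⟨_, ⟨y, hy, rfl⟩, rfl⟩
      exact ⟨_, ⟨y, hy, rfl⟩, hV hy⟩
    · rintro ⟨_, ⟨y, hy, rfl⟩, rfl⟩
      exact ⟨_, ⟨y, hy, rfl⟩, (hV hy).symm⟩
  rcases le_or_gt 0 n with hn | hn
  · filter_upwards [h0 0 n (by constructor <;> intro _ <;> omega)] with V hV _ _
    obtain ⟨f, h1, h2⟩ := hV
    refine ⟨f, h1, ?_⟩
    rw [add_zero, zpow_zero] at h2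
    rw [← h2]
    congr 1
    exact (Set.image_id V).symm
  · filter_upwards [h0 (-1) (n + 1) (by constructor <;> intro _ <;> omega)] with V hV hV1 hV2
    obtain ⟨f, h1, h2⟩ := hV
    obtain ⟨g, h3, h4⟩ := exists_return hf hx hV1 hV2
    refine ⟨f * g, (Full _).mul_mem h1 h3, ?_⟩
    have h5 : n + 1 + -1 = n := by ring
    rw [h5, ← h4] at h2
    rw [← h2, ← Set.image_comp]
    rfl

/-- Small neighbourhoods whose images are piecewise `HH` images. -/
theorem nbd_HH (x : X) (E : Finset (X ≃ₜ X)) (hE : ∀ g ∈ E, g ∈ topFull φ) (W : Set X)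
    (hW : W ∈ 𝓝 x) : ∃ V, IsClopen V ∧ x ∈ V ∧ V ⊆ W ∧ ∀ g ∈ E,
      (∃ f ∈ Full (HH φ x₀), g '' V = f '' V) ∧ (g x = x → g '' V = V) := by
  classical
  have hfix : ∀ g ∈ E, ∀ᶠ V in (𝓝 x).smallSets, (g x = x → g '' V = V) := by
    intro g hg
    by_cases h : g x = x
    · refine eventually_smallSets.2 ⟨_, fix_of_mem hf (hE g hg) h, fun V hV _ => ?_⟩
      conv_rhs => rw [← Set.image_id V]
      exact Set.image_congr fun z hz => hV hz
    · exact Eventually.of_forall fun V h' => absurd h' h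
  by_cases hxo : ∃ k : ℤ, x = (φ ^ k) x₀
  · obtain ⟨k, hk⟩ := hxo
    have h1 : ∀ g ∈ E, ∀ᶠ T in (𝓝 x₀).smallSets, IsClopen T → x₀ ∈ T →
        (∃ f ∈ Full (HH φ x₀), g '' ((φ ^ k) '' T) = f '' ((φ ^ k) '' T)) ∧
        (g x = x → g '' ((φ ^ k) '' T) = (φ ^ k) '' T) ∧ (φ ^ k) '' T ⊆ W := by
      intro g hg
      obtain ⟨c, hc⟩ := local_of_mem (hE g hg) x
      have h2 : ∀ᶠ y in 𝓝 x₀, g ((φ ^ k) y) = (φ ^ c) ((φ ^ k) y) := by
        rw [hk] at hc
        exact (φ ^ k).continuous.continuousAt.eventually hc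
      have h3 : ∀ᶠ y in 𝓝 x₀, (φ ^ k) y ∈ W := by
        rw [hk] at hW
        exact (φ ^ k).continuous.continuousAt.eventually hW
      obtain ⟨A, hA, hA'⟩ := eventually_smallSets.1 (hfix g hg)
      have h4 : ∀ᶠ y in 𝓝 x₀, (φ ^ k) y ∈ A := by
        rw [hk] at hA
        exact (φ ^ k).continuous.continuousAt.eventually hA
      have h5 := eventually_smallSets.2 ⟨_, inter_mem h2 (inter_mem h3 h4),
        fun V (hV : V ⊆ _) => hV⟩
      filter_upwards [h5, exists_translate hf hx k, exists_translate hf hx (c + k)] with T hT t1 t2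
        hT1 hT2
      obtain ⟨f, f1, f2⟩ := t1 hT1 hT2
      obtain ⟨f', f3, f4⟩ := t2 hT1 hT2
      refine ⟨⟨f' * f⁻¹, (Full _).mul_mem f3 ((Full _).inv_mem f1), ?_⟩, fun h => ?_, ?_⟩
      · have h6 : g '' ((φ ^ k) '' T) = (φ ^ (c + k)) '' T := by
          rw [← image_zpow]
          ext z
          constructor
          · rintro ⟨_, ⟨y, hy, rfl⟩, rfl⟩
            exact ⟨_, ⟨y, hy, rfl⟩, (hT hy).1.symm⟩
          · rintro ⟨_, ⟨y, hy, rfl⟩, rfl⟩
            exact ⟨_, ⟨y, hy, rfl⟩, (hT hy).1⟩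
        rw [h6, ← f4, ← f2, ← Set.image_comp]
        refine Set.image_congr fun z _ => ?_
        change f' z = f' (f⁻¹ (f z))
        rw [TFG.perm_ia]
      · refine hA' _ ?_ h
        rintro _ ⟨y, hy, rfl⟩
        exact (hT hy).2.2
      · rintro _ ⟨y, hy, rfl⟩
        exact (hT hy).2.1
    obtain ⟨A, hA, hA'⟩ := eventually_smallSets.1 ((eventually_all_finset E).2 h1)
    have h2 : ∀ᶠ y in 𝓝 x₀, (φ ^ k) y ∈ W := by
      rw [hk] at hW
      exact (φ ^ k).continuous.continuousAt.eventually hW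
    obtain ⟨T, hT, hT1, hT2⟩ := exists_clopen (inter_mem hA h2)
    refine ⟨(φ ^ k) '' T, ?_, ⟨x₀, hT1, hk.symm⟩, ?_, fun g hg => ?_⟩
    · exact ⟨(φ ^ k).isClosedMap _ hT.isClosed, (φ ^ k).isOpenMap _ hT.isOpen⟩
    · rintro _ ⟨y, hy, rfl⟩
      exact (hT2 hy).2
    · obtain ⟨h3, h4, -⟩ := hA' T (fun y hy => (hT2 hy).1) g hg hT hT1
      exact ⟨h3, h4⟩
  · have h1 : ∀ g ∈ E, ∀ᶠ V in (𝓝 x).smallSets, (∃ f ∈ Full (HH φ x₀), g '' V = f '' V) ∧
        (g x = x → g '' V = V) := by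
      intro g hg
      obtain ⟨c, hc⟩ := local_of_mem (hE g hg) x
      have hNC : NC φ x₀ c x := fun k hk => absurd ⟨k, hk⟩ hxo
      obtain ⟨s, hs, h2⟩ := at_of_NC hf hNC
      have h3 : ∀ᶠ y in 𝓝 x, g y = s y := by
        filter_upwards [hc, h2] with y h4 h5
        rw [h4, h5]
      have h5 := eventually_smallSets.2 ⟨_, h3, fun V (hV : V ⊆ _) => hV⟩
      filter_upwards [h5, hfix g hg] with V hV h6
      refine ⟨⟨s.toEquiv, mem_Full_of_mem hs, ?_⟩, h6⟩
      exact Set.image_congr fun z hz => hV hz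
    obtain ⟨A, hA, hA'⟩ := eventually_smallSets.1 ((eventually_all_finset E).2 h1)
    obtain ⟨V, hV, hV1, hV2⟩ := exists_clopen (inter_mem hA hW)
    exact ⟨V, hV, hV1, fun y hy => (hV2 hy).2, fun g hg => hA' V (fun y hy => (hV2 hy).1) g hg⟩

end free2

/-- The orbits of a minimal homeomorphism come close to each point. -/
theorem mem_closure_of_minimal {φ : X ≃ₜ X} (hφ : ∀ x, Dense {y | ∃ n : ℤ, (φ ^ n) x = y})
    (x₀ x : X) : x₀ ∈ closure {y | ∃ n : ℤ, (φ ^ n) x = y} := hφ x x₀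

end Pool.Agent.FS
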