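import Pool.Agent.FS.Min
import Pool.Agent.FS.MainP

/-!
# Topological full groups of essentially minimal homeomorphisms
-/

set_option autoImplicit false

open Filter Topology

namespace Pool.Agent.FS

open Pool.Agent.Helper29.BA Pool.Agent.Helper29.PA
open Pool.Agent.TFG (topFull)

variable {C : ∀ (G : Type) [Group G], Prop} {X : Type} [TopologicalSpace X] [CompactSpace X]
  [T2Space X] [TotallyDisconnectedSpace X] {φ : X ≃ₜ X}

/-- The hypotheses hold for the topological full group of an essentially minimal homeomorphism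
without periodic points. -/
theorem hyp_topFull (hC : ExtClass C) (hf : ∀ (k : ℤ) (x : X), (φ ^ k) x = x → k = 0) {x₀ : X}
    (hx : ∀ x, x₀ ∈ closure {y | ∃ n : ℤ, (φ ^ n) x = y}) : Hyp C (HH φ x₀) (topFull φ) where
  le := HH_le φ x₀
  fix := fun _ _ _ hh hx' => fix_of_mem hf hh.1 hx'
  sing := fun _ hg => sing_HH hf hg
  nbd := by
    classical
    intro x _ E hE W hW
    have h1 : ∀ᶠ y in 𝓝 x, ∀ g ∈ E, g x = x → g y = y := by
      rw [eventually_all_finset]
      intro g hg
      by_cases h : g x = x
      · filter_upwards [fix_of_mem hf (hE g hg) h] with y hy _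
        exact hy
      · exact Eventually.of_forall fun y h' => absurd h' h
    obtain ⟨V, hV, hxV, hVW, h2⟩ := nbd_HH hf hx x E hE _ (inter_mem hW h1)
    refine ⟨V, hV, hxV, fun y hy => (hVW hy).1, h2, ?_⟩
    have h3 : Rg V {g | g ∈ E ∧ g x = x} = ⊥ := by
      rw [eq_bot_iff, Rg, Subgroup.closure_le]
      rintro γ ⟨e, ⟨he, hex⟩, h4, h5⟩
      refine Subgroup.mem_bot.2 (Equiv.ext fun z => ?_)
      by_cases hz : z ∈ V
      · rw [h4 z hz, (hVW hz).2 e he hex]
        rfl
      · rw [h5 z hz]
        rfl
    have : Finite (Rg V {g | g ∈ E ∧ g x = x}) := by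
      rw [h3]
      infer_instance
    exact hC.finite _ this

/-- Every `ExtClass` contains the topological full groups of the essentially minimal
homeomorphisms without periodic points. -/
theorem topFull_mem (hC : ExtClass C) (hf : ∀ (k : ℤ) (x : X), (φ ^ k) x = x → k = 0) {x₀ : X}
    (hx : ∀ x, x₀ ∈ closure {y | ∃ n : ℤ, (φ ^ n) x = y}) : C (topFull φ) :=
  mainP hC (hyp_topFull hC hf hx) (mem_of_LocFin hC (locFin_Full (locFin_HH hf hx)))

end Pool.Agent.FS
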