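import Pool.Agent.FS.Directed

/-!
# Automorphisms of rooted trees which are finitary near all but finitely many ends

The vertices of level `n` of the tree are the sequences of length `n` whose terms are in `A 0`,
`A 1`, ..., and the ends are the elements of the product of the `A n`.
-/

set_option autoImplicit false

open Filter Topology

namespace Pool.Agent.FS

open Pool.Agent.Helper29.BA Pool.Agent.Helper29.PA

variable (A : ℕ → Type) [∀ n, TopologicalSpace (A n)]

/-- The automorphisms of the tree, as homeomorphisms of the space of ends. -/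
def TreeAut : Subgroup ((∀ n, A n) ≃ₜ (∀ n, A n)) where
  carrier := {g | ∀ n x y, (∀ k < n, g x k = g y k) ↔ ∀ k < n, x k = y k}
  one_mem' := fun _ _ _ => Iff.rfl
  mul_mem' := fun {a b} ha hb n x y => (ha n (b x) (b y)).trans (hb n x y)
  inv_mem' := fun {a} ha n x y => by
    have h1 := ha n (a.symm x) (a.symm y)
    rw [a.apply_symm_apply, a.apply_symm_apply] at h1
    exact h1.symm

/-- The finitary automorphisms. -/
def Finitary : Subgroup ((∀ n, A n) ≃ₜ (∀ n, A n)) where
  carrier := {g | g ∈ TreeAut A ∧ ∃ n, ∀ x k, n ≤ k → g x k = x k}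
  one_mem' := ⟨(TreeAut A).one_mem, 0, fun _ _ _ => rfl⟩
  mul_mem' := by
    rintro a b ⟨ha, m, hm⟩ ⟨hb, n, hn⟩
    refine ⟨(TreeAut A).mul_mem ha hb, max m n, fun x k hk => ?_⟩
    change a (b x) k = x k
    rw [hm _ k (le_of_max_le_left hk), hn _ k (le_of_max_le_right hk)]
  inv_mem' := by
    rintro a ⟨ha, m, hm⟩
    refine ⟨(TreeAut A).inv_mem ha, m, fun x k hk => ?_⟩
    have h1 := hm (a.symm x) k hk
    rw [a.apply_symm_apply] at h1
    exact h1.symm

variable {A}

theorem mem_TreeAut {g : (∀ n, A n) ≃ₜ (∀ n, A n)} :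
    g ∈ TreeAut A ↔ ∀ n x y, (∀ k < n, g x k = g y k) ↔ ∀ k < n, x k = y k := Iff.rfl

/-- The ends through a vertex. -/
def cyl (n : ℕ) (x : ∀ n, A n) : Set (∀ n, A n) := {y | ∀ k < n, y k = x k}

omit [∀ n, TopologicalSpace (A n)] in
theorem mem_cyl {n : ℕ} {x y : ∀ n, A n} : y ∈ cyl n x ↔ ∀ k < n, y k = x k := Iff.rfl

omit [∀ n, TopologicalSpace (A n)] in
theorem self_mem_cyl (n : ℕ) (x : ∀ n, A n) : x ∈ cyl n x := fun _ _ => rfl

theorem exists_cyl {x : ∀ n, A n} {W : Set (∀ n, A n)} (hW : W ∈ 𝓝 x) : ∃ n, cyl n x ⊆ W := by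
  obtain ⟨O, hO, hO', hx⟩ := mem_nhds_iff.1 hW
  obtain ⟨I, u, h1, h2⟩ := isOpen_pi_iff.1 hO' x hx
  refine ⟨I.sup id + 1, fun y hy => hO (h2 fun k hk => ?_)⟩
  rw [mem_cyl.1 hy k (Nat.lt_succ_of_le (Finset.le_sup (f := id) hk))]
  exact (h1 k hk).2

theorem image_cyl {g : (∀ n, A n) ≃ₜ (∀ n, A n)} (hg : g ∈ TreeAut A) (n : ℕ) (x : ∀ n, A n) :
    g '' cyl n x = cyl n (g x) := by
  ext y
  constructor
  · rintro ⟨z, hz, rfl⟩
    exact (hg n z x).2 hz
  · intro hy
    refine ⟨g.symm y, (hg n _ _).1 ?_, g.apply_symm_apply y⟩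
    rw [g.apply_symm_apply]
    exact hy

theorem tr_eq {n : ℕ} {g : (∀ n, A n) ≃ₜ (∀ n, A n)} (hg : g ∈ TreeAut A) {x y : ∀ n, A n}
    (h : ∀ k < n, x k = y k) {k : ℕ} (hk : k < n) : g x k = g y k := (hg n x y).2 h k hk

open Classical in
/-- The automorphism which acts like `g` on the first `n` letters. -/
noncomputable def trunc (n : ℕ) (g : (∀ n, A n) ≃ₜ (∀ n, A n)) (hg : g ∈ TreeAut A) :
    (∀ n, A n) ≃ₜ (∀ n, A n) where
  toFun x k := if k < n then g x k else x k
  invFun x k := if k < n then g.symm x k else x k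
  left_inv x := by
    funext k
    by_cases hk : k < n
    · simp only [if_pos hk]
      have h1 := tr_eq (n := n) ((TreeAut A).inv_mem hg)
        (x := fun k => if k < n then g x k else x k) (y := g x) (fun k hk => if_pos hk) hk
      change g.symm _ k = g.symm (g x) k at h1
      rw [h1, g.symm_apply_apply]
    · simp only [if_neg hk]
  right_inv x := by
    funext k
    by_cases hk : k < n
    · simp only [if_pos hk]
      have h1 := tr_eq (n := n) hg
        (x := fun k => if k < n then g.symm x k else x k) (y := g.symm x)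
        (fun k hk => if_pos hk) hk
      rw [h1, g.apply_symm_apply]
    · simp only [if_neg hk]
  continuous_toFun := by
    refine continuous_pi fun k => ?_
    by_cases hk : k < n
    · simp only [if_pos hk]
      exact (continuous_apply k).comp g.continuous
    · simp only [if_neg hk]
      exact continuous_apply k
  continuous_invFun := by
    refine continuous_pi fun k => ?_
    by_cases hk : k < n
    · simp only [if_pos hk]
      exact (continuous_apply k).comp g.symm.continuous
    · simp only [if_neg hk]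
      exact continuous_apply k

theorem trunc_lt {n : ℕ} {g : (∀ n, A n) ≃ₜ (∀ n, A n)} (hg : g ∈ TreeAut A) (x : ∀ n, A n)
    {k : ℕ} (hk : k < n) : trunc n g hg x k = g x k := if_pos hk

theorem trunc_ge {n : ℕ} {g : (∀ n, A n) ≃ₜ (∀ n, A n)} (hg : g ∈ TreeAut A) (x : ∀ n, A n)
    {k : ℕ} (hk : n ≤ k) : trunc n g hg x k = x k := if_neg (not_lt.2 hk)

theorem trunc_mem {n : ℕ} {g : (∀ n, A n) ≃ₜ (∀ n, A n)} (hg : g ∈ TreeAut A) :
    trunc n g hg ∈ Finitary A := by
  refine ⟨fun m x y => ?_, n, fun x k hk => trunc_ge hg x hk⟩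
  constructor
  · intro h k hk
    by_cases hkn : k < n
    · have h1 : ∀ j < k + 1, g x j = g y j := fun j hj => by
        have := h j (by omega)
        rwa [trunc_lt hg x (by omega), trunc_lt hg y (by omega)] at this
      exact (hg (k + 1) x y).1 h1 k (by omega)
    · have := h k hk
      rwa [trunc_ge hg x (by omega), trunc_ge hg y (by omega)] at this
  · intro h k hk
    by_cases hkn : k < n
    · rw [trunc_lt hg x hkn, trunc_lt hg y hkn]
      exact (hg (k + 1) x y).2 (fun j hj => h j (by omega)) k (by omega)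
    · rw [trunc_ge hg x (by omega), trunc_ge hg y (by omega)]
      exact h k hk

theorem Finitary_le : Finitary A ≤ TreeAut A := fun _ h => h.1

/-- Finitary automorphisms are trivial near their fixed points. -/
theorem Finitary_fix {h : (∀ n, A n) ≃ₜ (∀ n, A n)} (hh : h ∈ Finitary A) {n : ℕ}
    (hn : ∀ x k, n ≤ k → h x k = x k) {x : ∀ n, A n} (hx : h x = x) {y : ∀ n, A n}
    (hy : y ∈ cyl n x) : h y = y := by
  funext k
  by_cases hk : k < n
  · rw [tr_eq hh.1 hy hk, hx]
    exact (hy k hk).symm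
  · exact hn y k (by omega)

variable [∀ n, DiscreteTopology (A n)]

theorem isClopen_cyl (n : ℕ) (x : ∀ n, A n) : IsClopen (cyl n x) := by
  have h1 : cyl n x = ⋂ k ∈ Finset.range n, (fun y : ∀ n, A n => y k) ⁻¹' {x k} := by
    ext y
    simp [cyl]
  rw [h1]
  exact (Finset.range n).finite_toSet.isClopen_biInter fun k _ =>
    (isClopen_discrete _).preimage (continuous_apply k)

/-- Agreeing near `x` with a finitary automorphism. -/
theorem at_iff {g : (∀ n, A n) ≃ₜ (∀ n, A n)} (hg : g ∈ TreeAut A) {x : ∀ n, A n} :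
    At (Finitary A) g x ↔ ∃ n, ∀ y, (∀ k < n, y k = x k) → ∀ k, n ≤ k → g y k = y k := by
  constructor
  · rintro ⟨h, ⟨hh, m, hm⟩, h1⟩
    obtain ⟨n, hn⟩ := exists_cyl h1
    refine ⟨max m n, fun y hy k hk => ?_⟩
    have h2 : g y = h y := hn fun k hk => hy k (lt_of_lt_of_le hk (le_max_right _ _))
    rw [h2]
    exact hm y k (le_of_max_le_left hk)
  · rintro ⟨n, hn⟩
    refine ⟨trunc n g hg, trunc_mem hg, ?_⟩
    filter_upwards [(isClopen_cyl n x).isOpen.mem_nhds (self_mem_cyl n x)] with y hy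
    funext k
    by_cases hk : k < n
    · rw [trunc_lt hg y hk]
    · rw [trunc_ge hg y (by omega), hn y hy k (by omega)]

omit [∀ n, DiscreteTopology (A n)] in
/-- The group of the finitary automorphisms is locally finite. -/
theorem locFin_Finitary [∀ n, Finite (A n)] : LocFin (Finitary A) := by
  classical
  intro T hT
  have h1 : ∀ a ∈ T, ∃ n, ∀ x k, n ≤ k → a x k = x k := fun a ha => (hT a ha).2
  choose! m hm using h1
  let n := T.sup m
  let K : Subgroup ((∀ n, A n) ≃ₜ (∀ n, A n)) :=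
    { carrier := {g | g ∈ TreeAut A ∧ ∀ x k, n ≤ k → g x k = x k}
      one_mem' := ⟨(TreeAut A).one_mem, fun _ _ _ => rfl⟩
      mul_mem' := fun {a b} ha hb => ⟨(TreeAut A).mul_mem ha.1 hb.1, fun x k hk => by
        change a (b x) k = x k
        rw [ha.2 _ k hk, hb.2 _ k hk]⟩
      inv_mem' := fun {a} ha => ⟨(TreeAut A).inv_mem ha.1, fun x k hk => by
        have h1 := ha.2 (a.symm x) k hk
        rw [a.apply_symm_apply] at h1
        exact h1.symm⟩ }
  have hle : Subgroup.closure (T : Set ((∀ n, A n) ≃ₜ (∀ n, A n))) ≤ K :=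
    (Subgroup.closure_le _).2 fun a ha => ⟨(hT a ha).1, fun x k hk =>
      hm a ha x k ((Finset.le_sup (f := m) ha).trans hk)⟩
  have hfin : Finite K := by
    rcases isEmpty_or_nonempty (∀ n, A n) with he | ⟨⟨z⟩⟩
    · refine Finite.of_injective (β := Unit) (fun _ => ()) fun a b _ =>
        Subtype.ext (Homeomorph.ext fun x => (he.false x).elim)
    · let ex : (∀ k : Fin n, A k) → ∀ n, A n := fun w k => if h : k < n then w ⟨k, h⟩ else z k
      refine Finite.of_injective (β := (∀ k : Fin n, A k) → (∀ k : Fin n, A k))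
        (fun g w k => g.1 (ex w) k) fun a b hab => Subtype.ext (Homeomorph.ext fun x => ?_)
      funext k
      by_cases hk : k < n
      · have h2 : ∀ j < n, x j = ex (fun k => x k) j := fun j hj => by
          simp only [ex, dif_pos hj]
        rw [tr_eq a.2.1 h2 hk, tr_eq b.2.1 h2 hk]
        exact congrFun (congrFun hab fun k => x k) ⟨k, hk⟩
      · rw [a.2.2 x k (by omega), b.2.2 x k (by omega)]
  exact Finite.of_injective _ (Subgroup.inclusion_injective hle)

/-- The hypotheses of the main theorem. -/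
theorem hypG_tree {G : Subgroup ((∀ n, A n) ≃ₜ (∀ n, A n))} (hle : Finitary A ≤ G)
    (hG : G ≤ TreeAut A) (hs : ∀ g ∈ G, {x | ¬ At (Finitary A) g x}.Finite) :
    HypG (Finitary A) G where
  le := hle
  fix := by
    intro x _ h hh hx
    obtain ⟨n, hn⟩ := hh.2
    filter_upwards [(isClopen_cyl n x).isOpen.mem_nhds (self_mem_cyl n x)] with y hy
    exact Finitary_fix hh hn hx hy
  sing := hs
  nbd := by
    intro x _ E hE W hW
    obtain ⟨n, hn⟩ := exists_cyl hW
    refine ⟨cyl n x, isClopen_cyl n x, self_mem_cyl n x, hn, fun g hg =>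
      ⟨⟨toP (trunc n g (hG (hE g hg))), mem_Full_of_mem (trunc_mem _), ?_⟩, fun h => ?_⟩⟩
    · rw [image_cyl (hG (hE g hg))]
      have h1 : (toP (trunc n g (hG (hE g hg))) : (∀ n, A n) → ∀ n, A n) '' cyl n x =
          trunc n g (hG (hE g hg)) '' cyl n x := rfl
      rw [h1, image_cyl (trunc_mem (hG (hE g hg))).1]
      ext y
      constructor
      · intro hy k hk
        rw [trunc_lt _ x hk]
        exact hy k hk
      · intro hy k hk
        rw [hy k hk, trunc_lt _ x hk]
    · rw [image_cyl (hG (hE g hg)), h]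

/-- Groups of automorphisms which are finitary near all but finitely many ends. -/
theorem tree_mem {C : ∀ (G : Type) [Group G], Prop} (hC : ExtClass C) [∀ n, Finite (A n)]
    {G : Subgroup ((∀ n, A n) ≃ₜ (∀ n, A n))} (hle : Finitary A ≤ G)
    (hG : G ≤ TreeAut A) (hs : ∀ g ∈ G, {x | ¬ At (Finitary A) g x}.Finite)
    (hg : ∀ x, C (Germ G x)) : C G :=
  mainG hC (hypG_tree hle hG hs) locFin_Finitary fun x _ => hg x

/-- The same for groups which need not contain the finitary automorphisms; the germs are those of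
the group generated by `G` and the finitary automorphisms. -/
theorem tree_mem' {C : ∀ (G : Type) [Group G], Prop} (hC : ExtClass C) [∀ n, Finite (A n)]
    {G : Subgroup ((∀ n, A n) ≃ₜ (∀ n, A n))}
    (hG : ∀ g ∈ G, g ∈ TreeAut A ∧ {x | ¬ At (Finitary A) g x}.Finite)
    (hg : ∀ x, C (Germ (G ⊔ Finitary A) x)) : C G := by
  refine hC.toClosedClass.sub (T := G ⊔ Finitary A) le_sup_left
    (tree_mem hC le_sup_right (sup_le (fun g hg => (hG g hg).1) Finitary_le) ?_ hg)
  have h1 : G ⊔ Finitary A ≤ FinSg (Finitary A) :=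
    sup_le (fun g hg => (hG g hg).2) (le_FinSg _)
  exact fun g hg => h1 hg

/-- Directed groups of automorphisms of rooted trees: the ends `x j` differ pairwise in infinitely
many letters, the elements of `K j` fix `x j` and are finitary near all other ends. -/
theorem directed_tree {J : Type} {x : J → ∀ n, A n}
    (hx : ∀ i j, i ≠ j → ∀ n, ∃ k, n ≤ k ∧ x i k ≠ x j k)
    {K : J → Subgroup ((∀ n, A n) ≃ₜ (∀ n, A n))}
    (hK : ∀ j, ∀ k ∈ K j, k ∈ TreeAut A ∧ k (x j) = x j ∧ ∀ y, y ≠ x j → At (Finitary A) k y) :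
    Directed (Finitary A) x K where
  orb := by
    rintro i j h ⟨_, n, hn⟩ e
    by_contra hij
    obtain ⟨k, hk, h1⟩ := hx i j hij n
    exact h1 (by rw [← e, hn _ k hk])
  fix := by
    intro j h hh hx
    obtain ⟨n, hn⟩ := hh.2
    filter_upwards [(isClopen_cyl n (x j)).isOpen.mem_nhds (self_mem_cyl n (x j))] with y hy
    exact Finitary_fix hh hn hx hy
  pt j k hk := (hK j k hk).2.1
  off j k hk := (hK j k hk).2.2
  nbd := by
    intro j E hE W hW
    obtain ⟨n, hn⟩ := exists_cyl hW
    refine ⟨cyl n (x j), isClopen_cyl n (x j), self_mem_cyl n (x j), hn, fun k hk => ?_⟩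
    rw [image_cyl (hK j k (hE k hk)).1, (hK j k (hE k hk)).2.1]

theorem directed_tree_mem {C : ∀ (G : Type) [Group G], Prop} (hC : ExtClass C)
    [∀ n, Finite (A n)] {J : Type} {x : J → ∀ n, A n}
    (hx : ∀ i j, i ≠ j → ∀ n, ∃ k, n ≤ k ∧ x i k ≠ x j k)
    {K : J → Subgroup ((∀ n, A n) ≃ₜ (∀ n, A n))}
    (hK : ∀ j, ∀ k ∈ K j, k ∈ TreeAut A ∧ k (x j) = x j ∧ ∀ y, y ≠ x j → At (Finitary A) k y)
    (hg : ∀ j, C (Germ (K j) (x j))) :
    C (Finitary A ⊔ ⨆ j, K j : Subgroup ((∀ n, A n) ≃ₜ (∀ n, A n))) :=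
  directed_mem hC (directed_tree hx hK) locFin_Finitary hg

end Pool.Agent.FS
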